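import Mathlib

set_option autoImplicit false

namespace Pool.Agent.Lib_helper91

open Finset

lemma succ_pow_le_mul_two_pow (L k : ℕ) (hL : 0 < L) : (k + 1) ^ L ≤ L ^ L * 2 ^ k := by
  have h1 : k + 1 ≤ L * (k / L + 1) := by
    have := Nat.lt_mul_div_succ k hL
    omega
  have h2 : k / L + 1 ≤ 2 ^ (k / L) := Nat.lt_two_pow_self
  calc (k + 1) ^ L ≤ (L * (k / L + 1)) ^ L := Nat.pow_le_pow_left h1 L
    _ ≤ (L * 2 ^ (k / L)) ^ L := Nat.pow_le_pow_left (Nat.mul_le_mul_left _ h2) L
    _ = L ^ L * 2 ^ (k / L * L) := by rw [mul_pow, ← pow_mul]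
    _ ≤ L ^ L * 2 ^ k := by
        apply Nat.mul_le_mul_left
        exact Nat.pow_le_pow_right (by norm_num) (Nat.div_mul_le_self k L)

lemma card_divisors_pow_le (L : ℕ) (hL : 0 < L) (m : ℕ) (hm : m ≠ 0) :
    m.divisors.card ^ L ≤ (L ^ L) ^ (2 ^ L) * m := by
  have hLL : 1 ≤ L ^ L := Nat.one_le_pow _ _ hL
  set g : ℕ → ℕ := fun p => if p < 2 ^ L then L ^ L else 1 with hg
  have key : ∀ p ∈ m.primeFactors, (m.factorization p + 1) ^ L ≤ g p * p ^ (m.factorization p) := by
    intro p hp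
    have hp' : p.Prime := Nat.prime_of_mem_primeFactors hp
    simp only [hg]
    split_ifs with h
    · refine (succ_pow_le_mul_two_pow L _ hL).trans ?_
      exact Nat.mul_le_mul_left _ (Nat.pow_le_pow_left hp'.two_le _)
    · push Not at h
      have h2 : m.factorization p + 1 ≤ 2 ^ (m.factorization p) := Nat.lt_two_pow_self
      calc (m.factorization p + 1) ^ L ≤ (2 ^ (m.factorization p)) ^ L := Nat.pow_le_pow_left h2 L
        _ = (2 ^ L) ^ (m.factorization p) := by rw [← pow_mul, ← pow_mul, mul_comm]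
        _ ≤ p ^ (m.factorization p) := Nat.pow_le_pow_left h _
        _ = 1 * p ^ (m.factorization p) := (one_mul _).symm
  have hprod : ∏ p ∈ m.primeFactors, g p ≤ (L ^ L) ^ (2 ^ L) := by
    have h1 : ∏ p ∈ m.primeFactors, g p = ∏ p ∈ m.primeFactors.filter (fun p => p < 2 ^ L), L ^ L := by
      rw [Finset.prod_filter]
    rw [h1, Finset.prod_const]
    apply Nat.pow_le_pow_right hLL
    calc (m.primeFactors.filter (fun p => p < 2 ^ L)).card ≤ (Finset.range (2 ^ L)).card := by
          apply Finset.card_le_card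
          intro p hp
          simp only [Finset.mem_filter] at hp
          exact Finset.mem_range.mpr hp.2
      _ = 2 ^ L := Finset.card_range _
  calc m.divisors.card ^ L = ∏ p ∈ m.primeFactors, (m.factorization p + 1) ^ L := by
        rw [Nat.card_divisors hm, Finset.prod_pow]
    _ ≤ ∏ p ∈ m.primeFactors, (g p * p ^ (m.factorization p)) := Finset.prod_le_prod' key
    _ = (∏ p ∈ m.primeFactors, g p) * ∏ p ∈ m.primeFactors, p ^ (m.factorization p) :=
        Finset.prod_mul_distrib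
    _ = (∏ p ∈ m.primeFactors, g p) * m := by
        congr 1
        exact Nat.prod_factorization_pow_eq_self hm
    _ ≤ (L ^ L) ^ (2 ^ L) * m := Nat.mul_le_mul_right _ hprod

/-- The divisor bound: `d(m) ≤ C m^(1/L)`. -/
lemma exists_divisor_bound (L : ℕ) (hL : 0 < L) :
    ∃ C : ℝ, 1 ≤ C ∧ ∀ m : ℕ, m ≠ 0 → (m.divisors.card : ℝ) ≤ C * (m : ℝ) ^ ((1 : ℝ) / L) := by
  refine ⟨((((L ^ L) ^ (2 ^ L) : ℕ) : ℝ)) ^ ((1 : ℝ) / L), ?_, ?_⟩
  · apply Real.one_le_rpow
    · exact_mod_cast Nat.one_le_pow _ _ (Nat.pow_pos hL)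
    · positivity
  · intro m hm
    have h := card_divisors_pow_le L hL m hm
    have h' : ((m.divisors.card : ℝ)) ^ L ≤ (((L ^ L) ^ (2 ^ L) : ℕ) : ℝ) * (m : ℝ) := by
      exact_mod_cast h
    rw [← Real.mul_rpow (by positivity) (by positivity)]
    have hLr : (L : ℝ) ≠ 0 := by exact_mod_cast hL.ne'
    calc (m.divisors.card : ℝ) = (((m.divisors.card : ℝ)) ^ L) ^ ((1 : ℝ) / L) := by
          rw [← Real.rpow_natCast, ← Real.rpow_mul (by positivity)]
          rw [mul_one_div_cancel hLr, Real.rpow_one]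
      _ ≤ _ := Real.rpow_le_rpow (by positivity) h' (by positivity)

end Pool.Agent.Lib_helper91
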