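import Mathlib

set_option autoImplicit false

namespace Pool.Agent.Lib_helper91

open Finset

/-- The set of roots of `t^2 = n` modulo `c`, as residues in `[0, c)`. -/
def rootSet (n : ℤ) (c : ℕ) : Finset ℕ :=
  (range c).filter (fun t : ℕ => (c : ℤ) ∣ (t : ℤ) ^ 2 - n)

/-- The number of roots of `t^2 = n` modulo `c`. -/
def rho (n : ℤ) (c : ℕ) : ℕ := (rootSet n c).card

lemma mem_rootSet {n : ℤ} {c t : ℕ} : t ∈ rootSet n c ↔ t < c ∧ (c : ℤ) ∣ (t : ℤ) ^ 2 - n := by
  simp [rootSet]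

lemma rho_zero (n : ℤ) : rho n 0 = 0 := by simp [rho, rootSet]

lemma rho_one (n : ℤ) : rho n 1 = 1 := by
  simp [rho, rootSet]

/-- The number of elements of `[0, w*h)` in a residue class modulo `w` is at most `h`. -/
lemma card_class_le (w h : ℕ) (S : Finset ℕ) (hS : ∀ t ∈ S, t < w * h)
    (hc : ∀ t ∈ S, ∀ t' ∈ S, (w : ℤ) ∣ (t : ℤ) - t') : S.card ≤ h := by
  rcases Nat.eq_zero_or_pos w with hw | hw
  · subst hw
    rcases S.eq_empty_or_nonempty with h0 | ⟨t, ht⟩
    · subst h0; simp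
    · have := hS t ht; simp at this
  · have hmap : ∀ t ∈ S, t / w ∈ range h := by
      intro t ht
      rw [mem_range]
      exact Nat.div_lt_of_lt_mul (hS t ht)
    have hinj : Set.InjOn (fun t : ℕ => t / w) S := by
      intro t ht t' ht' he
      simp only at he
      have hd := hc t ht t' ht'
      have hmod : t % w = t' % w := by
        have : (t : ℤ) ≡ t' [ZMOD w] := by
          exact (Int.modEq_iff_dvd.mpr (by simpa using (dvd_neg.mpr hd)))
        exact (Int.natCast_modEq_iff.mp this)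
      calc t = w * (t / w) + t % w := (Nat.div_add_mod t w).symm
        _ = w * (t' / w) + t' % w := by rw [he, hmod]
        _ = t' := Nat.div_add_mod t' w
    calc S.card ≤ (range h).card := Finset.card_le_card_of_injOn _ hmap hinj
      _ = h := card_range h

/-- The number of roots of `t^2 = n` modulo `b` is at most `2 |n| d(b)`. -/
lemma rho_le (n : ℤ) (hn : n ≠ 0) (b : ℕ) (hb : b ≠ 0) :
    rho n b ≤ 2 * n.natAbs * b.divisors.card := by
  rcases (rootSet n b).eq_empty_or_nonempty with h0 | ⟨t0, ht0⟩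
  · simp [rho, h0]
  have hbpos : 0 < b := Nat.pos_of_ne_zero hb
  obtain ⟨ht0lt, ht0d⟩ := mem_rootSet.mp ht0
  have hmaps : ∀ t ∈ rootSet n b, Int.gcd ((t : ℤ) - t0) b ∈ b.divisors := by
    intro t _
    rw [Nat.mem_divisors]
    refine ⟨?_, hb⟩
    have : ((Int.gcd ((t : ℤ) - t0) b : ℕ) : ℤ) ∣ (b : ℤ) := Int.gcd_dvd_right _ _
    exact_mod_cast this
  have hfib : ∀ g ∈ b.divisors,
      ((rootSet n b).filter (fun t : ℕ => Int.gcd ((t : ℤ) - t0) b = g)).card ≤ 2 * n.natAbs := by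
    intro g hg
    have hgb : g ∣ b := (Nat.mem_divisors.mp hg).1
    have hgpos : 0 < g := Nat.pos_of_dvd_of_pos hgb hbpos
    obtain ⟨k, hk⟩ := hgb
    have hkpos : 0 < k := by
      rcases Nat.eq_zero_or_pos k with h | h
      · subst h; simp at hk; exact absurd hk hb
      · exact h
    set S := (rootSet n b).filter (fun t : ℕ => Int.gcd ((t : ℤ) - t0) b = g) with hS
    rcases S.eq_empty_or_nonempty with hSe | ⟨t1, ht1⟩
    · rw [hSe]; simp
    -- every element t of S satisfies g | t - t0 and k | t + t0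
    have hprop : ∀ t ∈ S, (g : ℤ) ∣ (t : ℤ) - t0 ∧ (k : ℤ) ∣ (t : ℤ) + t0 := by
      intro t ht
      rw [hS, Finset.mem_filter] at ht
      obtain ⟨htr, htg⟩ := ht
      obtain ⟨_, htd⟩ := mem_rootSet.mp htr
      have h1 : (g : ℤ) ∣ (t : ℤ) - t0 := by
        rw [← htg]; exact Int.gcd_dvd_left _ _
      refine ⟨h1, ?_⟩
      obtain ⟨q, hq⟩ := h1
      have hgz : (g : ℤ) ≠ 0 := by exact_mod_cast hgpos.ne'
      -- k coprime to q
      have hcop : IsCoprime (k : ℤ) q := by
        rw [Int.isCoprime_iff_gcd_eq_one]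
        have h2 : Int.gcd ((t : ℤ) - t0) b = g * Int.gcd q k := by
          rw [hq, hk]; push_cast
          rw [Int.gcd_mul_left]; simp
        rw [htg] at h2
        have h3 : Int.gcd q k = 1 := by
          have : g * Int.gcd q k = g * 1 := by rw [← h2, mul_one]
          exact Nat.eq_of_mul_eq_mul_left hgpos this
        rw [Int.gcd_comm]; exact h3
      have h4 : (b : ℤ) ∣ ((t : ℤ) - t0) * ((t : ℤ) + t0) := by
        have : ((t : ℤ) - t0) * ((t : ℤ) + t0) = ((t : ℤ) ^ 2 - n) - ((t0 : ℤ) ^ 2 - n) := by ring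
        rw [this]; exact dvd_sub htd ht0d
      rw [hk, hq] at h4
      push_cast at h4
      rw [mul_assoc] at h4
      have h5 : (k : ℤ) ∣ q * ((t : ℤ) + t0) := (mul_dvd_mul_iff_left hgz).mp h4
      exact hcop.dvd_of_dvd_mul_left h5
    -- h = gcd g k
    set h := Nat.gcd g k with hh
    have hhg : h ∣ g := Nat.gcd_dvd_left g k
    have hhk : h ∣ k := Nat.gcd_dvd_right g k
    have hhpos : 0 < h := Nat.pos_of_dvd_of_pos hhg hgpos
    have hle : h ≤ 2 * n.natAbs := by
      obtain ⟨hg1, hk1⟩ := hprop t1 ht1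
      have e1 : (h : ℤ) ∣ 2 * (t0 : ℤ) := by
        have a1 : (h : ℤ) ∣ (t1 : ℤ) - t0 := (Int.natCast_dvd_natCast.mpr hhg).trans hg1
        have a2 : (h : ℤ) ∣ (t1 : ℤ) + t0 := (Int.natCast_dvd_natCast.mpr hhk).trans hk1
        have : 2 * (t0 : ℤ) = ((t1 : ℤ) + t0) - ((t1 : ℤ) - t0) := by ring
        rw [this]; exact dvd_sub a2 a1
      have e2 : (h : ℤ) ^ 2 ∣ 4 * (t0 : ℤ) ^ 2 := by
        have := pow_dvd_pow_of_dvd e1 2
        have e : (2 * (t0 : ℤ)) ^ 2 = 4 * (t0 : ℤ) ^ 2 := by ring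
        rwa [e] at this
      have e3 : (h : ℤ) ^ 2 ∣ (t0 : ℤ) ^ 2 - n := by
        have : (h : ℤ) ^ 2 ∣ (b : ℤ) := by
          rw [hk, sq]; push_cast
          exact mul_dvd_mul (Int.natCast_dvd_natCast.mpr hhg) (Int.natCast_dvd_natCast.mpr hhk)
        exact this.trans ht0d
      have e4 : (h : ℤ) ^ 2 ∣ 4 * n := by
        have : 4 * n = 4 * (t0 : ℤ) ^ 2 - 4 * ((t0 : ℤ) ^ 2 - n) := by ring
        rw [this]; exact dvd_sub e2 (Dvd.dvd.mul_left e3 4)
      have e5 : h ^ 2 ∣ 4 * n.natAbs := by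
        have := Int.natAbs_dvd_natAbs.mpr e4
        simpa [Int.natAbs_mul, Int.natAbs_pow] using this
      have hnpos : 0 < n.natAbs := Int.natAbs_pos.mpr hn
      have e6 : h ^ 2 ≤ 4 * n.natAbs := Nat.le_of_dvd (by positivity) e5
      nlinarith
    refine le_trans ?_ hle
    -- S lies in one residue class modulo lcm g k, and b = lcm * gcd
    have hb' : b = Nat.lcm g k * h := by
      rw [hk, mul_comm (Nat.lcm g k) h]; exact (Nat.gcd_mul_lcm g k).symm
    apply card_class_le (Nat.lcm g k) h S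
    · intro t ht
      rw [← hb']
      rw [hS, Finset.mem_filter] at ht
      exact (mem_rootSet.mp ht.1).1
    · intro t ht t' ht'
      obtain ⟨a1, a2⟩ := hprop t ht
      obtain ⟨b1, b2⟩ := hprop t' ht'
      have c1 : (g : ℤ) ∣ (t : ℤ) - t' := by
        have : (t : ℤ) - t' = ((t : ℤ) - t0) - ((t' : ℤ) - t0) := by ring
        rw [this]; exact dvd_sub a1 b1
      have c2 : (k : ℤ) ∣ (t : ℤ) - t' := by
        have : (t : ℤ) - t' = ((t : ℤ) + t0) - ((t' : ℤ) + t0) := by ring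
        rw [this]; exact dvd_sub a2 b2
      have d1 : g ∣ ((t : ℤ) - t').natAbs := Int.natCast_dvd.mp c1
      have d2 : k ∣ ((t : ℤ) - t').natAbs := Int.natCast_dvd.mp c2
      exact Int.natCast_dvd.mpr (Nat.lcm_dvd d1 d2)
  calc rho n b = (rootSet n b).card := rfl
    _ ≤ (2 * n.natAbs) * b.divisors.card :=
        Finset.card_le_mul_card_image_of_maps_to hmaps _ hfib

end Pool.Agent.Lib_helper91
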