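import Mathlib
import Pool.Agent.Lib_helper91.Rho
import Pool.Agent.Lib_helper91.Div

set_option autoImplicit false

namespace Pool.Agent.Lib_helper91

open Finset Filter Topology

open Classical in
/-- ordered `D(n)`-triples `a < b < c ≤ N` -/
noncomputable def T3 (n : ℤ) (N : ℕ) : Finset (ℕ × ℕ × ℕ) :=
  ((Icc 1 N) ×ˢ (Icc 1 N) ×ˢ (Icc 1 N)).filter (fun x => x.1 < x.2.1 ∧ x.2.1 < x.2.2 ∧
    IsSquare ((x.1 : ℤ) * x.2.1 + n) ∧ IsSquare ((x.1 : ℤ) * x.2.2 + n) ∧
    IsSquare ((x.2.1 : ℤ) * x.2.2 + n))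

lemma mem_T3 {n : ℤ} {N a b c : ℕ} : (a, b, c) ∈ T3 n N ↔ 1 ≤ a ∧ a < b ∧ b < c ∧ c ≤ N ∧
    IsSquare ((a : ℤ) * b + n) ∧ IsSquare ((a : ℤ) * c + n) ∧ IsSquare ((b : ℤ) * c + n) := by
  simp only [T3, mem_filter, mem_product, mem_Icc]
  constructor
  · rintro ⟨⟨⟨h1, h2⟩, ⟨h3, h4⟩, ⟨h5, h6⟩⟩, h7, h8, h9⟩
    exact ⟨h1, h7, h8, h6, h9⟩
  · rintro ⟨h1, h2, h3, h4, h5⟩
    refine ⟨⟨⟨h1, by omega⟩, ⟨by omega, by omega⟩, ⟨by omega, h4⟩⟩, h2, h3, h5⟩

/-- The set of three-element subsets in the question has the cardinality of `T3`. -/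
lemma ncard_eq_T3 (n : ℤ) (N : ℕ) :
    ({S : Finset ℕ | S ⊆ Finset.Icc 1 N ∧ S.card = 3 ∧
      ∀ a ∈ S, ∀ b ∈ S, a ≠ b → IsSquare ((a : ℤ) * (b : ℤ) + n)}.ncard : ℕ) = (T3 n N).card := by
  classical
  have himg : {S : Finset ℕ | S ⊆ Finset.Icc 1 N ∧ S.card = 3 ∧
      ∀ a ∈ S, ∀ b ∈ S, a ≠ b → IsSquare ((a : ℤ) * (b : ℤ) + n)}
      = (((T3 n N).image (fun x => ({x.1, x.2.1, x.2.2} : Finset ℕ))) : Set (Finset ℕ)) := by
    ext S
    simp only [Set.mem_ofPred_eq, Finset.coe_image, Set.mem_image, Finset.mem_coe]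
    constructor
    · rintro ⟨hS, hcard, hsq⟩
      -- sort the elements
      obtain ⟨a, b, c, hab, hbc, hSabc⟩ : ∃ a b c : ℕ, a < b ∧ b < c ∧ S = {a, b, c} := by
        obtain ⟨x, y, z, hxy, hxz, hyz, hS3⟩ := Finset.card_eq_three.mp hcard
        rcases lt_or_gt_of_ne hxy with h1 | h1 <;> rcases lt_or_gt_of_ne hxz with h2 | h2 <;>
          rcases lt_or_gt_of_ne hyz with h3 | h3
        · exact ⟨x, y, z, h1, h3, hS3⟩
        · exact ⟨x, z, y, h2, h3, by rw [hS3]; ext w; simp only [mem_insert, mem_singleton]; tauto⟩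
        · omega
        · exact ⟨z, x, y, h2, h1, by rw [hS3]; ext w; simp only [mem_insert, mem_singleton]; tauto⟩
        · exact ⟨y, x, z, h1, h2, by rw [hS3]; ext w; simp only [mem_insert, mem_singleton]; tauto⟩
        · omega
        · exact ⟨y, z, x, h3, h2, by rw [hS3]; ext w; simp only [mem_insert, mem_singleton]; tauto⟩
        · exact ⟨z, y, x, h3, h1, by rw [hS3]; ext w; simp only [mem_insert, mem_singleton]; tauto⟩
      have ha : a ∈ S := by rw [hSabc]; simp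
      have hb : b ∈ S := by rw [hSabc]; simp
      have hc : c ∈ S := by rw [hSabc]; simp
      have ha1 := mem_Icc.mp (hS ha)
      have hc1 := mem_Icc.mp (hS hc)
      refine ⟨(a, b, c), ?_, hSabc.symm⟩
      rw [mem_T3]
      exact ⟨ha1.1, hab, hbc, hc1.2, hsq a ha b hb (by omega), hsq a ha c hc (by omega),
        hsq b hb c hc (by omega)⟩
    · rintro ⟨⟨a, b, c⟩, hT, rfl⟩
      rw [mem_T3] at hT
      obtain ⟨h1, h2, h3, h4, h5, h6, h7⟩ := hT
      refine ⟨?_, ?_, ?_⟩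
      · intro w hw
        simp only [mem_insert, mem_singleton] at hw
        rw [mem_Icc]
        rcases hw with rfl | rfl | rfl <;> omega
      · exact Finset.card_eq_three.mpr ⟨a, b, c, by omega, by omega, by omega, rfl⟩
      · intro x hx y hy hxy
        simp only [mem_insert, mem_singleton] at hx hy
        rcases hx with rfl | rfl | rfl <;> rcases hy with rfl | rfl | rfl
        · exact absurd rfl hxy
        · exact h5
        · exact h6
        · rw [mul_comm]; exact h5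
        · exact absurd rfl hxy
        · exact h7
        · rw [mul_comm]; exact h6
        · rw [mul_comm]; exact h7
        · exact absurd rfl hxy
  rw [himg, Set.ncard_coe_finset, Finset.card_image_of_injOn]
  rintro ⟨a, b, c⟩ h ⟨a', b', c'⟩ h' he
  rw [Finset.mem_coe, mem_T3] at h h'
  obtain ⟨h1, h2, h3, h4, -⟩ := h
  obtain ⟨k1, k2, k3, k4, -⟩ := h'
  simp only at he
  have ma : a ∈ ({a', b', c'} : Finset ℕ) := he ▸ (by simp)
  have mb : b ∈ ({a', b', c'} : Finset ℕ) := he ▸ (by simp)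
  have mc : c ∈ ({a', b', c'} : Finset ℕ) := he ▸ (by simp)
  have ma' : a' ∈ ({a, b, c} : Finset ℕ) := he ▸ (by simp)
  have mb' : b' ∈ ({a, b, c} : Finset ℕ) := he ▸ (by simp)
  have mc' : c' ∈ ({a, b, c} : Finset ℕ) := he ▸ (by simp)
  simp only [mem_insert, mem_singleton] at ma mb mc ma' mb' mc'
  have e1 : a = a' := by omega
  have e2 : b = b' := by omega
  have e3 : c = c' := by omega
  rw [e1, e2, e3]

/-- the constant of the gap principle -/
def gapK (n : ℤ) : ℤ := 3 * |n| + 4 * n ^ 2 + 4 * n ^ 2 * |n|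

/-- Gap principle: in an irregular triple the product of the two smaller elements is at most a
constant times the largest one. -/
lemma gap {n a b c r s t : ℤ} (hn : n ≠ 0) (ha : 0 < a) (hab : a < b) (hbc : b < c)
    (hr : r ^ 2 = a * b + n) (hs : s ^ 2 = a * c + n) (ht : t ^ 2 = b * c + n)
    (hr0 : 0 ≤ r) (hs0 : 0 ≤ s) (ht0 : 0 ≤ t) (hirr : (a + b - c) ^ 2 ≠ 4 * (a * b + n)) :
    2 * (a * b) ≤ gapK n * c := by
  set Q := (a + b - c) ^ 2 - 4 * (a * b) - 4 * n with hQ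
  have hQ0 : Q ≠ 0 := by
    intro h
    apply hirr
    rw [hQ] at h; linarith
  set E := n * (a + b + c) + 2 * (a * b * c) - 2 * (r * s * t) with hE
  set E' := n * (a + b + c) + 2 * (a * b * c) + 2 * (r * s * t) with hE'
  have hEE : E * E' = n ^ 2 * Q := by
    rw [hE, hE', hQ]
    linear_combination (-4) * (s ^ 2 * t ^ 2) * hr + (-4) * (a * b + n) * t ^ 2 * hs
      + (-4) * (a * b + n) * (a * c + n) * ht
  have hE0 : E ≠ 0 := by
    intro h
    rw [h, zero_mul] at hEE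
    exact (mul_ne_zero (pow_ne_zero 2 hn) hQ0) hEE.symm
  have h1 : |E'| ≤ n ^ 2 * |Q| := by
    have h2 : |E * E'| = n ^ 2 * |Q| := by
      rw [hEE, abs_mul, abs_of_nonneg (sq_nonneg n)]
    rw [abs_mul] at h2
    have h3 : 1 ≤ |E| := Int.one_le_abs hE0
    nlinarith [abs_nonneg E']
  have hc : 0 < c := by linarith
  have hb : 0 < b := by linarith
  have hN : 0 ≤ |n| := abs_nonneg n
  have hn1 : n ≤ |n| := le_abs_self n
  have hn2 : -|n| ≤ n := neg_abs_le n
  have hrst : 0 ≤ r * s * t := by positivity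
  have h4 : 2 * (a * b * c) - 3 * |n| * c ≤ E' := by
    rw [hE']
    have : -(|n| * (a + b + c)) ≤ n * (a + b + c) := by
      have : 0 < a + b + c := by linarith
      nlinarith
    have h5 : |n| * (a + b + c) ≤ |n| * (3 * c) := by
      apply mul_le_mul_of_nonneg_left _ hN
      linarith
    linarith
  have h5 : |Q| ≤ 4 * c ^ 2 + 4 * |n| := by
    have h6 : (a + b - c) ^ 2 ≤ c ^ 2 := by
      apply sq_le_sq'
      · linarith
      · linarith
    have h7 : a * b ≤ c ^ 2 := by nlinarith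
    have h8 : 0 < a * b := mul_pos ha hb
    rw [abs_le]
    constructor
    · rw [hQ]; nlinarith [sq_nonneg (a + b - c)]
    · rw [hQ]; nlinarith [sq_nonneg c]
  have hc1 : 1 ≤ c := hc
  have hcc : c ≤ c ^ 2 := by nlinarith
  have h1c : 1 ≤ c ^ 2 := by nlinarith
  have h9 : n ^ 2 * |Q| ≤ n ^ 2 * (4 * c ^ 2 + 4 * |n|) :=
    mul_le_mul_of_nonneg_left h5 (sq_nonneg n)
  have h10 : 2 * (a * b * c) ≤ 3 * |n| * c + n ^ 2 * (4 * c ^ 2 + 4 * |n|) := by
    have := le_abs_self E'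
    linarith
  have h11 : 3 * |n| * c + n ^ 2 * (4 * c ^ 2 + 4 * |n|) ≤ gapK n * c * c := by
    unfold gapK
    have h12 : 3 * |n| * c ≤ 3 * |n| * c ^ 2 := by
      apply mul_le_mul_of_nonneg_left hcc; positivity
    have h13 : 4 * n ^ 2 * |n| * 1 ≤ 4 * n ^ 2 * |n| * c ^ 2 := by
      apply mul_le_mul_of_nonneg_left h1c; positivity
    calc 3 * |n| * c + n ^ 2 * (4 * c ^ 2 + 4 * |n|)
        = 3 * |n| * c + 4 * n ^ 2 * c ^ 2 + 4 * n ^ 2 * |n| * 1 := by ring
      _ ≤ 3 * |n| * c ^ 2 + 4 * n ^ 2 * c ^ 2 + 4 * n ^ 2 * |n| * c ^ 2 := by linarith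
      _ = (3 * |n| + 4 * n ^ 2 + 4 * n ^ 2 * |n|) * c * c := by ring
  have h14 : (2 * (a * b)) * c ≤ (gapK n * c) * c := by
    have : (2 * (a * b)) * c = 2 * (a * b * c) := by ring
    linarith
  exact le_of_mul_le_mul_right h14 hc

/-- the set of `t ≤ √(bN+|n|)` with `b ∣ t² - n` -/
def Wset (n : ℤ) (N b : ℕ) : Finset ℕ :=
  (range (Nat.sqrt (b * N + n.natAbs) + 1)).filter (fun t : ℕ => (b : ℤ) ∣ (t : ℤ) ^ 2 - n)

lemma card_Wset_le (n : ℤ) (N b : ℕ) (hb : 0 < b) :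
    (Wset n N b).card ≤ ((Nat.sqrt (b * N + n.natAbs) + 1) / b + 1) * rho n b := by
  have hmaps : ∀ t ∈ Wset n N b, (t / b, t % b) ∈
      (range ((Nat.sqrt (b * N + n.natAbs) + 1) / b + 1)) ×ˢ rootSet n b := by
    intro t ht
    simp only [Wset, mem_filter, mem_range] at ht
    rw [mem_product]
    refine ⟨?_, ?_⟩
    · rw [mem_range]
      have : t / b ≤ (Nat.sqrt (b * N + n.natAbs) + 1) / b := Nat.div_le_div_right (by omega)
      omega
    · simp only
      rw [mem_rootSet]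
      refine ⟨Nat.mod_lt _ hb, ?_⟩
      have h1 : ((t % b : ℕ) : ℤ) ≡ t [ZMOD b] := Int.natCast_modEq_iff.mpr (Nat.mod_modEq t b)
      have h2 := (h1.pow 2).sub_right n
      rw [← Int.modEq_zero_iff_dvd]
      exact h2.trans (Int.modEq_zero_iff_dvd.mpr ht.2)
  have hinj : Set.InjOn (fun t : ℕ => (t / b, t % b)) (Wset n N b) := by
    intro t _ t' _ he
    simp only [Prod.mk.injEq] at he
    calc t = b * (t / b) + t % b := (Nat.div_add_mod t b).symm
      _ = b * (t' / b) + t' % b := by rw [he.1, he.2]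
      _ = t' := Nat.div_add_mod t' b
  have := Finset.card_le_card_of_injOn _ hmaps hinj
  rwa [card_product, card_range] at this

/-- irregular triples -/
noncomputable def Irr (n : ℤ) (N : ℕ) : Finset (ℕ × ℕ × ℕ) :=
  (T3 n N).filter (fun x => ((x.1 : ℤ) + x.2.1 - x.2.2) ^ 2 ≠ 4 * ((x.1 : ℤ) * x.2.1 + n))

/-- the range of the square root parameter -/
def bigR (n : ℤ) (N : ℕ) : ℕ := Nat.sqrt ((gapK n).toNat * N + n.natAbs)

lemma gapK_nonneg (n : ℤ) : 0 ≤ gapK n := by unfold gapK; positivity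

lemma exists_nat_sqrt {z : ℤ} (h : IsSquare z) : ∃ r : ℕ, (r : ℤ) ^ 2 = z := by
  obtain ⟨r, hr⟩ := h
  exact ⟨r.natAbs, by rw [Int.natAbs_sq, hr, sq]⟩

/-- The main injection: an irregular triple is determined by `(r, b, t)`. -/
lemma card_Irr_le {n : ℤ} (hn : n ≠ 0) (N : ℕ) :
    (Irr n N).card ≤ ∑ r ∈ range (bigR n N + 1),
      ∑ b ∈ ((r : ℤ) ^ 2 - n).natAbs.divisors.filter
        (fun b => r + 1 ≤ (n.natAbs + 2) * b ∧ b ≤ N), (Wset n N b).card := by
  classical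
  have hcard : ∑ r ∈ range (bigR n N + 1),
      ∑ b ∈ ((r : ℤ) ^ 2 - n).natAbs.divisors.filter
        (fun b => r + 1 ≤ (n.natAbs + 2) * b ∧ b ≤ N), (Wset n N b).card
      = ((range (bigR n N + 1)).sigma (fun r : ℕ => (((r : ℤ) ^ 2 - n).natAbs.divisors.filter
        (fun b => r + 1 ≤ (n.natAbs + 2) * b ∧ b ≤ N)).sigma (fun b => Wset n N b))).card := by
    rw [Finset.card_sigma]
    apply Finset.sum_congr rfl
    intro r _
    rw [Finset.card_sigma]
  rw [hcard]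
  apply Finset.card_le_card_of_injOn
    (fun x : ℕ × ℕ × ℕ => (⟨Nat.sqrt ((x.1 : ℤ) * x.2.1 + n).toNat,
      ⟨x.2.1, Nat.sqrt ((x.2.1 : ℤ) * x.2.2 + n).toNat⟩⟩ : (_ : ℕ) × (_ : ℕ) × ℕ))
  · rintro ⟨a, b, c⟩ hx
    rw [Finset.mem_coe, Irr, mem_filter, mem_T3] at hx
    obtain ⟨⟨h1, h2, h3, h4, h5, h6, h7⟩, hirr⟩ := hx
    simp only at hirr
    obtain ⟨r, hr⟩ := exists_nat_sqrt h5
    obtain ⟨s, hs⟩ := exists_nat_sqrt h6
    obtain ⟨t, ht⟩ := exists_nat_sqrt h7
    have er : Nat.sqrt ((a : ℤ) * b + n).toNat = r := by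
      rw [← hr]
      have : ((r : ℤ) ^ 2).toNat = r ^ 2 := by
        have : (r : ℤ) ^ 2 = ((r ^ 2 : ℕ) : ℤ) := by push_cast; rfl
        rw [this, Int.toNat_natCast]
      rw [this, Nat.sqrt_eq']
    have et : Nat.sqrt ((b : ℤ) * c + n).toNat = t := by
      rw [← ht]
      have : ((t : ℤ) ^ 2).toNat = t ^ 2 := by
        have : (t : ℤ) ^ 2 = ((t ^ 2 : ℕ) : ℤ) := by push_cast; rfl
        rw [this, Int.toNat_natCast]
      rw [this, Nat.sqrt_eq']
    have hgap := gap hn (a := a) (b := b) (c := c) (r := r) (s := s) (t := t)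
      (by exact_mod_cast h1) (by exact_mod_cast h2) (by exact_mod_cast h3) hr hs ht
      (by positivity) (by positivity) (by positivity) hirr
    have hnabs : n ≤ (n.natAbs : ℤ) := Int.le_natAbs
    have hnabs' : -(n.natAbs : ℤ) ≤ n := by omega
    have haz : (1 : ℤ) ≤ a := by exact_mod_cast h1
    have habz : (a : ℤ) < b := by exact_mod_cast h2
    have hbcz : (b : ℤ) < c := by exact_mod_cast h3
    have hcN : (c : ℤ) ≤ N := by exact_mod_cast h4
    have hK := gapK_nonneg n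
    have hab : (a : ℤ) * b ≤ gapK n * N := by
      have h8 : gapK n * c ≤ gapK n * N := mul_le_mul_of_nonneg_left hcN hK
      nlinarith
    simp only [coe_sigma, Set.mem_sigma_iff, Finset.mem_coe]
    simp only [er, et]
    have hbdvd : (b : ℤ) ∣ (r : ℤ) ^ 2 - n := by rw [hr]; exact ⟨a, by ring⟩
    refine ⟨?_, ?_, ?_⟩
    · -- r bound
      rw [mem_range, Nat.lt_succ_iff, bigR, Nat.le_sqrt']
      have : (r : ℤ) ^ 2 ≤ ((gapK n).toNat : ℤ) * N + n.natAbs := by
        rw [Int.toNat_of_nonneg hK, hr]; linarith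
      exact_mod_cast this
    · rw [mem_filter, Nat.mem_divisors]
      refine ⟨⟨Int.natCast_dvd.mp hbdvd, ?_⟩, ?_, by omega⟩
      · rw [Ne, Int.natAbs_eq_zero, hr, add_sub_cancel_right]
        have : 0 < (a : ℤ) * b := mul_pos (by linarith) (by linarith)
        exact this.ne'
      · have h9 : (r : ℤ) < b + n.natAbs + 1 := by
          by_contra hcon
          push Not at hcon
          have h10 : ((b : ℤ) + n.natAbs + 1) ^ 2 ≤ (r : ℤ) ^ 2 := by
            apply pow_le_pow_left₀ (by positivity) hcon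
          rw [hr] at h10
          nlinarith
        have h11 : (r : ℤ) + 1 ≤ (n.natAbs + 2) * b := by nlinarith
        exact_mod_cast h11
    · rw [Wset, mem_filter, mem_range, Nat.lt_succ_iff, Nat.le_sqrt']
      constructor
      · have : (t : ℤ) ^ 2 ≤ (b : ℤ) * N + n.natAbs := by
          rw [ht]
          have : (b : ℤ) * c ≤ b * N := mul_le_mul_of_nonneg_left hcN (by positivity)
          linarith
        exact_mod_cast this
      · rw [ht]; exact ⟨c, by ring⟩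
  · rintro ⟨a, b, c⟩ hx ⟨a', b', c'⟩ hx' he
    rw [Finset.mem_coe, Irr, mem_filter, mem_T3] at hx hx'
    obtain ⟨⟨h1, h2, h3, h4, h5, h6, h7⟩, -⟩ := hx
    obtain ⟨⟨k1, k2, k3, k4, k5, k6, k7⟩, -⟩ := hx'
    simp only [Sigma.mk.injEq, heq_eq_eq] at he
    obtain ⟨e1, e2, e3⟩ := he
    subst e2
    have hsq : ∀ z : ℤ, IsSquare z → ((Nat.sqrt z.toNat : ℕ) : ℤ) ^ 2 = z := by
      intro z hz
      obtain ⟨r, hr⟩ := exists_nat_sqrt hz
      rw [← hr]
      have : ((r : ℤ) ^ 2).toNat = r ^ 2 := by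
        have : (r : ℤ) ^ 2 = ((r ^ 2 : ℕ) : ℤ) := by push_cast; rfl
        rw [this, Int.toNat_natCast]
      rw [this, Nat.sqrt_eq']
    have f1 : (a : ℤ) * b + n = (a' : ℤ) * b + n := by
      rw [← hsq _ h5, ← hsq _ k5, e1]
    have f2 : (b : ℤ) * c + n = (b : ℤ) * c' + n := by
      rw [← hsq _ h7, ← hsq _ k7, e3]
    have hb0 : (b : ℤ) ≠ 0 := by
      have : 0 < b := by omega
      exact_mod_cast this.ne'
    have g1 : (a : ℤ) = a' := mul_right_cancel₀ hb0 (by linarith)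
    have g2 : (c : ℤ) = c' := mul_left_cancel₀ hb0 (by linarith)
    have g1' : a = a' := by exact_mod_cast g1
    have g2' : c = c' := by exact_mod_cast g2
    rw [g1', g2']

end Pool.Agent.Lib_helper91
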