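import Mathlib
import Pool.Agent.Lib_helper91.Triples

set_option autoImplicit false

namespace Pool.Agent.Lib_helper91

open Finset Filter Topology

lemma W_bound {n : ℤ} (hn : n ≠ 0) {C : ℝ} (hC0 : 1 ≤ C)
    (hC : ∀ m : ℕ, m ≠ 0 → (m.divisors.card : ℝ) ≤ C * (m : ℝ) ^ ((1 : ℝ) / (12 : ℕ)))
    (N b : ℕ) (hb : 1 ≤ b) (hbN : b ≤ N) :
    ((Wset n N b).card : ℝ) ≤
      ((n.natAbs + 3) * (2 * n.natAbs) * C) * √N * (b : ℝ) ^ (-(5 : ℝ) / 12) := by
  have hbr : (1 : ℝ) ≤ b := by exact_mod_cast hb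
  have hbpos : (0 : ℝ) < b := by linarith
  have hNr : (b : ℝ) ≤ N := by exact_mod_cast hbN
  have hNpos : (0 : ℝ) < N := by linarith
  have hnr : (1 : ℝ) ≤ n.natAbs := by
    have : 1 ≤ n.natAbs := Int.natAbs_pos.mpr hn
    exact_mod_cast this
  set X := Nat.sqrt (b * N + n.natAbs) with hX
  have h1 := card_Wset_le n N b (by omega)
  have h2 : ((Wset n N b).card : ℝ) ≤ ((((X + 1) / b + 1 : ℕ)) : ℝ) * (rho n b : ℝ) := by
    exact_mod_cast h1
  have hXle : (X : ℝ) ≤ √(b * N) + n.natAbs := by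
    have h3 : (X : ℝ) ≤ √((b * N + n.natAbs : ℕ) : ℝ) := Real.nat_sqrt_le_real_sqrt
    have h4 : √((b * N + n.natAbs : ℕ) : ℝ) ≤ √(b * N) + n.natAbs := by
      apply Real.sqrt_le_iff.mpr
      constructor
      · positivity
      · push_cast
        have h5 : √((b : ℝ) * N) ^ 2 = b * N := Real.sq_sqrt (by positivity)
        nlinarith [Real.sqrt_nonneg ((b : ℝ) * N)]
    exact h3.trans h4
  have hsqb : 0 < √(b : ℝ) := Real.sqrt_pos.mpr hbpos
  have hsqbb : √(b : ℝ) * √(b : ℝ) = b := Real.mul_self_sqrt hbpos.le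
  have hy1 : 1 ≤ √(N : ℝ) / √(b : ℝ) := by
    rw [le_div_iff₀ hsqb, one_mul]
    exact Real.sqrt_le_sqrt hNr
  have hquot : ((((X + 1) / b + 1 : ℕ)) : ℝ) ≤ (n.natAbs + 3) * (√(N : ℝ) / √(b : ℝ)) := by
    have h3 : (((X + 1) / b : ℕ) : ℝ) ≤ ((X + 1 : ℕ) : ℝ) / b := Nat.cast_div_le
    have h4 : ((X + 1 : ℕ) : ℝ) / b ≤ √(N : ℝ) / √(b : ℝ) + (n.natAbs + 1) := by
      rw [div_le_iff₀ hbpos]
      have h5 : √((b : ℝ) * N) = √b * √N := Real.sqrt_mul hbpos.le N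
      have h6 : √(N : ℝ) / √(b : ℝ) * b = √b * √N := by
        nth_rewrite 2 [← hsqbb]
        field_simp
      push_cast
      calc (X : ℝ) + 1 ≤ √(b * N) + n.natAbs + 1 := by linarith
        _ = √b * √N + (n.natAbs + 1) * 1 := by rw [h5]; ring
        _ ≤ √b * √N + (n.natAbs + 1) * b := by gcongr
        _ = (√(N : ℝ) / √(b : ℝ) + (n.natAbs + 1)) * b := by rw [← h6]; ring
    push_cast at h3 ⊢
    push_cast at h4
    nlinarith
  have hrho : (rho n b : ℝ) ≤ 2 * n.natAbs * (C * (b : ℝ) ^ ((1 : ℝ) / (12 : ℕ))) := by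
    calc (rho n b : ℝ) ≤ ((2 * n.natAbs * b.divisors.card : ℕ) : ℝ) := by
          exact_mod_cast rho_le n hn b (by omega)
      _ = 2 * n.natAbs * (b.divisors.card : ℝ) := by push_cast; ring
      _ ≤ _ := by
          apply mul_le_mul_of_nonneg_left (hC b (by omega)) (by positivity)
  calc ((Wset n N b).card : ℝ) ≤ ((((X + 1) / b + 1 : ℕ)) : ℝ) * (rho n b : ℝ) := h2
    _ ≤ ((n.natAbs + 3) * (√(N : ℝ) / √(b : ℝ))) *
        (2 * n.natAbs * (C * (b : ℝ) ^ ((1 : ℝ) / (12 : ℕ)))) :=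
        mul_le_mul hquot hrho (by positivity) (by positivity)
    _ = ((n.natAbs + 3) * (2 * n.natAbs) * C) * √N *
        ((b : ℝ) ^ ((1 : ℝ) / (12 : ℕ)) / √(b : ℝ)) := by ring
    _ = _ := by
        congr 1
        rw [Real.sqrt_eq_rpow, ← Real.rpow_sub hbpos]
        congr 1
        norm_num

lemma inner_bound {n : ℤ} (hn : n ≠ 0) {C : ℝ} (hC0 : 1 ≤ C)
    (hC : ∀ m : ℕ, m ≠ 0 → (m.divisors.card : ℝ) ≤ C * (m : ℝ) ^ ((1 : ℝ) / (12 : ℕ)))
    (N r : ℕ) :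
    ((∑ b ∈ ((r : ℤ) ^ 2 - n).natAbs.divisors.filter
        (fun b => r + 1 ≤ (n.natAbs + 2) * b ∧ b ≤ N), (Wset n N b).card : ℕ) : ℝ)
      ≤ (C * (1 + n.natAbs)) * (((n.natAbs + 3) * (2 * n.natAbs) * C) * (n.natAbs + 2)) * √N *
        ((r : ℝ) + 1) ^ (-(1 : ℝ) / 4) := by
  set C2 := ((n.natAbs + 3) * (2 * n.natAbs) * C : ℝ) with hC2
  have hC2pos : 0 ≤ C2 := by positivity
  set D := ((r : ℤ) ^ 2 - n).natAbs.divisors with hD
  have hr1 : (0 : ℝ) < (r : ℝ) + 1 := by positivity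
  push_cast
  have hterm : ∀ b ∈ D.filter (fun b => r + 1 ≤ (n.natAbs + 2) * b ∧ b ≤ N),
      ((Wset n N b).card : ℝ) ≤ C2 * √N * ((n.natAbs + 2) * ((r : ℝ) + 1) ^ (-(5 : ℝ) / 12)) := by
    intro b hb
    rw [mem_filter] at hb
    obtain ⟨hb1, hb2, hb3⟩ := hb
    have hb0 : 1 ≤ b := by
      rcases Nat.eq_zero_or_pos b with h | h
      · subst h; simp at hb2
      · exact h
    refine (W_bound hn hC0 hC N b hb0 hb3).trans ?_
    apply mul_le_mul_of_nonneg_left _ (by positivity)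
    have hbpos : (0 : ℝ) < b := by exact_mod_cast hb0
    have hκ : (1 : ℝ) ≤ (n.natAbs : ℝ) + 2 := by
      have : (0 : ℝ) ≤ n.natAbs := by positivity
      linarith
    have hκpos : (0 : ℝ) < (n.natAbs : ℝ) + 2 := by linarith
    have hle : ((r : ℝ) + 1) / (n.natAbs + 2) ≤ b := by
      rw [div_le_iff₀ hκpos]
      have : ((r + 1 : ℕ) : ℝ) ≤ (((n.natAbs + 2) * b : ℕ) : ℝ) := by exact_mod_cast hb2
      push_cast at this
      linarith
    calc (b : ℝ) ^ (-(5 : ℝ) / 12) ≤ (((r : ℝ) + 1) / (n.natAbs + 2)) ^ (-(5 : ℝ) / 12) :=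
          Real.rpow_le_rpow_of_nonpos (by positivity) hle (by norm_num)
      _ = ((n.natAbs : ℝ) + 2) ^ ((5 : ℝ) / 12) * ((r : ℝ) + 1) ^ (-(5 : ℝ) / 12) := by
          rw [Real.div_rpow hr1.le hκpos.le]
          have : ((n.natAbs : ℝ) + 2) ^ (-(5 : ℝ) / 12)
              = (((n.natAbs : ℝ) + 2) ^ ((5 : ℝ) / 12))⁻¹ := by
            rw [← Real.rpow_neg hκpos.le]; congr 1; norm_num
          rw [this, div_inv_eq_mul]; ring
      _ ≤ ((n.natAbs : ℝ) + 2) * ((r : ℝ) + 1) ^ (-(5 : ℝ) / 12) := by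
          gcongr
          calc ((n.natAbs : ℝ) + 2) ^ ((5 : ℝ) / 12) ≤ ((n.natAbs : ℝ) + 2) ^ (1 : ℝ) :=
                Real.rpow_le_rpow_of_exponent_le hκ (by norm_num)
            _ = _ := Real.rpow_one _
  have hsum := Finset.sum_le_card_nsmul _ _ _ hterm
  rw [nsmul_eq_mul] at hsum
  have hcard : ((D.filter (fun b => r + 1 ≤ (n.natAbs + 2) * b ∧ b ≤ N)).card : ℝ)
      ≤ C * (1 + n.natAbs) * ((r : ℝ) + 1) ^ ((1 : ℝ) / 6) := by
    have h1 : ((D.filter (fun b => r + 1 ≤ (n.natAbs + 2) * b ∧ b ≤ N)).card : ℝ) ≤ (D.card : ℝ) := by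
      exact_mod_cast Finset.card_filter_le _ _
    refine h1.trans ?_
    rcases Nat.eq_zero_or_pos ((r : ℤ) ^ 2 - n).natAbs with h0 | h0
    · rw [hD, h0]; simp; positivity
    · refine (hC _ h0.ne').trans ?_
      have h2 : ((((r : ℤ) ^ 2 - n).natAbs : ℕ) : ℝ) ≤ (1 + n.natAbs) * ((r : ℝ) + 1) ^ 2 := by
        have h3 : ((r : ℤ) ^ 2 - n).natAbs ≤ r ^ 2 + n.natAbs := by
          have := Int.natAbs_sub_le ((r : ℤ) ^ 2) n
          simpa [Int.natAbs_pow] using this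
        have h4 : ((((r : ℤ) ^ 2 - n).natAbs : ℕ) : ℝ) ≤ ((r ^ 2 + n.natAbs : ℕ) : ℝ) := by
          exact_mod_cast h3
        push_cast at h4
        have h5 : (0 : ℝ) ≤ n.natAbs := by positivity
        have h6 : (0 : ℝ) ≤ r := by positivity
        have h7 : (0 : ℝ) ≤ n.natAbs * r := by positivity
        nlinarith [mul_nonneg h5 (sq_nonneg (r : ℝ))]
      have hn1 : (1 : ℝ) ≤ 1 + n.natAbs := by
        have : (0 : ℝ) ≤ n.natAbs := by positivity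
        linarith
      calc C * ((((r : ℤ) ^ 2 - n).natAbs : ℕ) : ℝ) ^ ((1 : ℝ) / (12 : ℕ))
          ≤ C * ((1 + n.natAbs) * ((r : ℝ) + 1) ^ 2) ^ ((1 : ℝ) / (12 : ℕ)) := by
            gcongr
        _ = C * ((1 + n.natAbs) ^ ((1 : ℝ) / (12 : ℕ)) * ((r : ℝ) + 1) ^ ((1 : ℝ) / 6)) := by
            rw [Real.mul_rpow (by positivity) (by positivity)]
            congr 2
            rw [← Real.rpow_natCast, ← Real.rpow_mul hr1.le]
            congr 1
            norm_num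
        _ ≤ C * ((1 + n.natAbs) * ((r : ℝ) + 1) ^ ((1 : ℝ) / 6)) := by
            gcongr
            calc (1 + (n.natAbs : ℝ)) ^ ((1 : ℝ) / (12 : ℕ)) ≤ (1 + (n.natAbs : ℝ)) ^ (1 : ℝ) :=
                  Real.rpow_le_rpow_of_exponent_le hn1 (by norm_num)
              _ = _ := Real.rpow_one _
        _ = _ := by ring
  calc _ ≤ _ := hsum
    _ ≤ (C * (1 + n.natAbs) * ((r : ℝ) + 1) ^ ((1 : ℝ) / 6)) *
        (C2 * √N * ((n.natAbs + 2) * ((r : ℝ) + 1) ^ (-(5 : ℝ) / 12))) := by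
        gcongr
    _ = (C * (1 + n.natAbs)) * (C2 * (n.natAbs + 2)) * √N *
        (((r : ℝ) + 1) ^ ((1 : ℝ) / 6) * ((r : ℝ) + 1) ^ (-(5 : ℝ) / 12)) := by ring
    _ = _ := by
        rw [← Real.rpow_add hr1]
        congr 2
        norm_num

lemma bigR_tendsto {n : ℤ} (hn : n ≠ 0) : Tendsto (fun N => bigR n N + 1) atTop atTop := by
  have h1 : 1 ≤ (gapK n).toNat := by
    have : 1 ≤ gapK n := by
      unfold gapK
      have h2 : 1 ≤ |n| := Int.one_le_abs hn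
      have h3 : 0 ≤ 4 * n ^ 2 := by positivity
      have h4 : 0 ≤ 4 * n ^ 2 * |n| := by positivity
      linarith
    omega
  rw [tendsto_atTop_atTop]
  intro B
  refine ⟨B ^ 2, fun N hN => ?_⟩
  have : B ≤ bigR n N := by
    rw [bigR, Nat.le_sqrt']
    calc B ^ 2 ≤ N := hN
      _ = 1 * N := (one_mul N).symm
      _ ≤ (gapK n).toNat * N := Nat.mul_le_mul_right N h1
      _ ≤ _ := Nat.le_add_right _ _
  omega

lemma bigR_le {n : ℤ} (N : ℕ) (hN : 1 ≤ N) :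
    ((bigR n N + 1 : ℕ) : ℝ) ≤ (√((gapK n).toNat + n.natAbs) + 1) * √N := by
  have hNr : (1 : ℝ) ≤ N := by exact_mod_cast hN
  have h1 : (bigR n N : ℝ) ≤ √(((gapK n).toNat * N + n.natAbs : ℕ) : ℝ) := Real.nat_sqrt_le_real_sqrt
  have h2 : √(((gapK n).toNat * N + n.natAbs : ℕ) : ℝ) ≤ √((gapK n).toNat + n.natAbs) * √N := by
    rw [← Real.sqrt_mul (by positivity)]
    apply Real.sqrt_le_sqrt
    push_cast
    have : (0 : ℝ) ≤ n.natAbs := by positivity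
    nlinarith
  have h3 : 1 ≤ √(N : ℝ) := Real.one_le_sqrt.mpr hNr
  push_cast
  linarith

/-- Irregular triples are negligible. -/
theorem irr_tendsto {n : ℤ} (hn : n ≠ 0) :
    Tendsto (fun N : ℕ => ((Irr n N).card : ℝ) / N) atTop (𝓝 0) := by
  obtain ⟨C, hC0, hC⟩ := exists_divisor_bound 12 (by norm_num)
  set C3 := (C * (1 + n.natAbs)) * (((n.natAbs + 3) * (2 * n.natAbs) * C) * (n.natAbs + 2)) with hC3
  have hC3pos : 0 ≤ C3 := by positivity
  set c4 := √((gapK n).toNat + n.natAbs) + 1 with hc4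
  have hc4pos : 0 ≤ c4 := by positivity
  set u : ℕ → ℝ := fun r => ((r : ℝ) + 1) ^ (-(1 : ℝ) / 4) with hu
  have hu0 : Tendsto u atTop (𝓝 0) := by
    have h1 : Tendsto (fun x : ℝ => x ^ (-((1 : ℝ) / 4))) atTop (𝓝 0) :=
      tendsto_rpow_neg_atTop (by norm_num)
    have h2 : Tendsto (fun r : ℕ => (r : ℝ) + 1) atTop atTop :=
      tendsto_atTop_add_const_right _ _ tendsto_natCast_atTop_atTop
    have h3 := h1.comp h2
    refine h3.congr ?_
    intro r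
    simp only [Function.comp, hu]
    congr 1
    norm_num
  have hces := hu0.cesaro
  have hces2 := (hces.comp (bigR_tendsto hn)).const_mul (C3 * c4)
  rw [mul_zero] at hces2
  refine squeeze_zero' (Eventually.of_forall fun _ => by positivity) ?_ hces2
  filter_upwards [eventually_ge_atTop 1] with N hN
  have hNr : (0 : ℝ) < N := by exact_mod_cast hN
  have hsN : 0 < √(N : ℝ) := Real.sqrt_pos.mpr hNr
  have hsNN : √(N : ℝ) * √(N : ℝ) = N := Real.mul_self_sqrt hNr.le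
  have hu_nonneg : ∀ r, 0 ≤ u r := fun r => by simp only [hu]; positivity
  have h1 : ((Irr n N).card : ℝ) ≤ ∑ r ∈ range (bigR n N + 1), C3 * √N * u r := by
    calc ((Irr n N).card : ℝ) ≤ ((∑ r ∈ range (bigR n N + 1),
      ∑ b ∈ ((r : ℤ) ^ 2 - n).natAbs.divisors.filter
        (fun b => r + 1 ≤ (n.natAbs + 2) * b ∧ b ≤ N), (Wset n N b).card : ℕ) : ℝ) := by
          exact_mod_cast card_Irr_le hn N
      _ = ∑ r ∈ range (bigR n N + 1), ((∑ b ∈ ((r : ℤ) ^ 2 - n).natAbs.divisors.filter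
        (fun b => r + 1 ≤ (n.natAbs + 2) * b ∧ b ≤ N), (Wset n N b).card : ℕ) : ℝ) := by
          rw [Nat.cast_sum]
      _ ≤ _ := Finset.sum_le_sum fun r _ => inner_bound hn hC0 hC N r
  rw [← Finset.mul_sum] at h1
  set S := ∑ r ∈ range (bigR n N + 1), u r with hS
  have hS0 : 0 ≤ S := Finset.sum_nonneg fun r _ => hu_nonneg r
  have hR := bigR_le (n := n) N hN
  have hRpos : (0 : ℝ) < ((bigR n N + 1 : ℕ) : ℝ) := by positivity
  simp only [Function.comp]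
  rw [div_le_iff₀ hNr]
  calc ((Irr n N).card : ℝ) ≤ C3 * √N * S := h1
    _ = C3 * √N * ((((bigR n N + 1 : ℕ) : ℝ))⁻¹ * S) * ((bigR n N + 1 : ℕ) : ℝ) := by
        field_simp
    _ ≤ C3 * √N * ((((bigR n N + 1 : ℕ) : ℝ))⁻¹ * S) * (c4 * √N) := by
        gcongr
    _ = C3 * c4 * ((((bigR n N + 1 : ℕ) : ℝ))⁻¹ * S) * (√N * √N) := by ring
    _ = C3 * c4 * ((((bigR n N + 1 : ℕ) : ℝ))⁻¹ * S) * N := by rw [hsNN]

end Pool.Agent.Lib_helper91
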