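import Mathlib
import Pool.Agent.Lib_helper91.IrrBound

set_option autoImplicit false

namespace Pool.Agent.Lib_helper91

open Finset Filter Topology

/-- regular triples with large largest element -/
noncomputable def Reg (n : ℤ) (N : ℕ) : Finset (ℕ × ℕ × ℕ) :=
  (T3 n N).filter (fun x => ((x.1 : ℤ) + x.2.1 - x.2.2) ^ 2 = 4 * ((x.1 : ℤ) * x.2.1 + n) ∧
    2 * n.natAbs < x.2.2)

/-- regular triples with small largest element -/
noncomputable def Small (n : ℤ) (N : ℕ) : Finset (ℕ × ℕ × ℕ) :=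
  (T3 n N).filter (fun x => ((x.1 : ℤ) + x.2.1 - x.2.2) ^ 2 = 4 * ((x.1 : ℤ) * x.2.1 + n) ∧
    ¬ 2 * n.natAbs < x.2.2)

/-- the roots `t` modulo `c` corresponding to regular triples with largest element `c` -/
def Sset (n : ℤ) (c : ℕ) : Finset ℕ :=
  (rootSet n c).filter (fun t : ℕ => c < 2 * t ∧ n < ((c : ℤ) - t) ^ 2)

lemma card_T3_eq (n : ℤ) (N : ℕ) :
    (T3 n N).card = (Irr n N).card + (Reg n N).card + (Small n N).card := by
  classical
  have h1 := Finset.card_filter_add_card_filter_not (s := T3 n N)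
    (fun x => ((x.1 : ℤ) + x.2.1 - x.2.2) ^ 2 = 4 * ((x.1 : ℤ) * x.2.1 + n))
  have h2 := Finset.card_filter_add_card_filter_not
    (s := (T3 n N).filter (fun x => ((x.1 : ℤ) + x.2.1 - x.2.2) ^ 2 = 4 * ((x.1 : ℤ) * x.2.1 + n)))
    (fun x => 2 * n.natAbs < x.2.2)
  rw [Finset.filter_filter, Finset.filter_filter] at h2
  have e1 : (Irr n N).card = ((T3 n N).filter (fun x => ¬ ((x.1 : ℤ) + x.2.1 - x.2.2) ^ 2
      = 4 * ((x.1 : ℤ) * x.2.1 + n))).card := rfl
  have e2 : (Reg n N).card = ((T3 n N).filter (fun x => ((x.1 : ℤ) + x.2.1 - x.2.2) ^ 2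
      = 4 * ((x.1 : ℤ) * x.2.1 + n) ∧ 2 * n.natAbs < x.2.2)).card := rfl
  have e3 : (Small n N).card = ((T3 n N).filter (fun x => ((x.1 : ℤ) + x.2.1 - x.2.2) ^ 2
      = 4 * ((x.1 : ℤ) * x.2.1 + n) ∧ ¬ 2 * n.natAbs < x.2.2)).card := rfl
  omega

lemma card_Small_le (n : ℤ) (N : ℕ) : (Small n N).card ≤ (2 * n.natAbs + 1) ^ 3 := by
  have hsub : Small n N ⊆ (range (2 * n.natAbs + 1)) ×ˢ (range (2 * n.natAbs + 1)) ×ˢ
      (range (2 * n.natAbs + 1)) := by
    rintro ⟨a, b, c⟩ hx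
    simp only [Small, mem_filter, mem_T3] at hx
    obtain ⟨⟨h1, h2, h3, -⟩, -, h5⟩ := hx
    simp only [mem_product, mem_range]
    refine ⟨?_, ?_, ?_⟩ <;> omega
  calc (Small n N).card ≤ _ := Finset.card_le_card hsub
    _ = (2 * n.natAbs + 1) ^ 3 := by
        rw [card_product, card_product, card_range]; ring

/-- Regular triples correspond to roots. -/
lemma card_Reg_eq (n : ℤ) (hn : n ≠ 0) (N : ℕ) :
    (Reg n N).card = ∑ c ∈ Ioc (2 * n.natAbs) N, (Sset n c).card := by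
  classical
  rw [← Finset.card_sigma]
  have hnabs : n ≤ (n.natAbs : ℤ) := Int.le_natAbs
  have hnabs' : -(n.natAbs : ℤ) ≤ n := by omega
  have hn1 : 1 ≤ n.natAbs := Int.natAbs_pos.mpr hn
  apply Finset.card_bij
    (fun (x : ℕ × ℕ × ℕ) _ => (⟨x.2.2, (x.2.1 + x.2.2 - x.1) / 2⟩ : (_ : ℕ) × ℕ))
  · rintro ⟨a, b, c⟩ hx
    simp only [Reg, mem_filter, mem_T3] at hx
    obtain ⟨⟨h1, h2, h3, h4, h5, h6, h7⟩, hreg, hbig⟩ := hx
    have hreg2 : ((b : ℤ) + c - a) ^ 2 = 4 * ((b : ℤ) * c + n) := by linear_combination hreg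
    -- parity
    have heven : Even ((b : ℤ) + c - a) := by
      have : Even (((b : ℤ) + c - a) ^ 2) := by
        rw [hreg2]; exact ⟨2 * ((b : ℤ) * c + n), by ring⟩
      rwa [Int.even_pow' (by norm_num)] at this
    obtain ⟨t, ht⟩ := heven
    have ht0 : 0 ≤ t := by omega
    obtain ⟨t, rfl⟩ := Int.eq_ofNat_of_zero_le ht0
    have hteq : (b + c - a) / 2 = t := by omega
    have htsq : (t : ℤ) ^ 2 = (b : ℤ) * c + n := by
      have : ((t : ℤ) + t) ^ 2 = 4 * ((b : ℤ) * c + n) := by rw [← ht]; exact hreg2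
      linarith [this, (by ring : ((t : ℤ) + t) ^ 2 = 4 * (t : ℤ) ^ 2)]
    simp only [mem_sigma, mem_Ioc]
    refine ⟨⟨hbig, h4⟩, ?_⟩
    rw [hteq, Sset, mem_filter, mem_rootSet]
    have hcz : 2 * (n.natAbs : ℤ) < c := by exact_mod_cast hbig
    have hbz : (b : ℤ) + 1 ≤ c := by exact_mod_cast h3
    have haz : (1 : ℤ) ≤ a := by exact_mod_cast h1
    refine ⟨⟨?_, ?_⟩, ?_, ?_⟩
    · -- t < c
      have : (t : ℤ) < c := by
        by_contra hcon
        push Not at hcon
        have h8 : (c : ℤ) ^ 2 ≤ (t : ℤ) ^ 2 := pow_le_pow_left₀ (by positivity) hcon 2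
        rw [htsq] at h8
        nlinarith
      exact_mod_cast this
    · rw [htsq]; exact ⟨b, by ring⟩
    · omega
    · have h9 : ((c : ℤ) - t) ^ 2 = (a : ℤ) * c + n := by
        have : (a : ℤ) = b + c - 2 * t := by linarith
        rw [this]
        linear_combination htsq
      rw [h9]
      have : 0 < (a : ℤ) * c := mul_pos (by linarith) (by linarith)
      linarith
  · rintro ⟨a, b, c⟩ hx ⟨a', b', c'⟩ hx' he
    simp only [Reg, mem_filter, mem_T3] at hx hx'
    obtain ⟨⟨h1, h2, h3, h4, h5, h6, h7⟩, hreg, hbig⟩ := hx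
    obtain ⟨⟨k1, k2, k3, k4, k5, k6, k7⟩, kreg, kbig⟩ := hx'
    simp only [Sigma.mk.injEq, heq_eq_eq] at he
    obtain ⟨e1, e2⟩ := he
    subst e1
    have hreg2 : ((b : ℤ) + c - a) ^ 2 = 4 * ((b : ℤ) * c + n) := by linear_combination hreg
    have kreg2 : ((b' : ℤ) + c - a') ^ 2 = 4 * ((b' : ℤ) * c + n) := by linear_combination kreg
    have heven : Even ((b : ℤ) + c - a) := by
      have : Even (((b : ℤ) + c - a) ^ 2) := by
        rw [hreg2]; exact ⟨2 * ((b : ℤ) * c + n), by ring⟩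
      rwa [Int.even_pow' (by norm_num)] at this
    have keven : Even ((b' : ℤ) + c - a') := by
      have : Even (((b' : ℤ) + c - a') ^ 2) := by
        rw [kreg2]; exact ⟨2 * ((b' : ℤ) * c + n), by ring⟩
      rwa [Int.even_pow' (by norm_num)] at this
    obtain ⟨t, ht⟩ := heven
    obtain ⟨s, hs⟩ := keven
    have hts : t = s := by omega
    subst hts
    have hcz : (c : ℤ) ≠ 0 := by
      have : 0 < c := by omega
      exact_mod_cast this.ne'
    have hb : (b : ℤ) * c = (b' : ℤ) * c := by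
      rw [ht] at hreg2; rw [hs] at kreg2
      linarith
    have hb' : (b : ℤ) = b' := mul_right_cancel₀ hcz hb
    have ha' : (a : ℤ) = a' := by linarith
    have f1 : a = a' := by exact_mod_cast ha'
    have f2 : b = b' := by exact_mod_cast hb'
    rw [f1, f2]
  · rintro ⟨c, t⟩ hx
    simp only [mem_sigma, mem_Ioc, Sset, mem_filter, mem_rootSet] at hx
    obtain ⟨⟨hbig, hcN⟩, ⟨htc, hdvd⟩, h2t, hn2⟩ := hx
    have hcz : 2 * (n.natAbs : ℤ) < c := by exact_mod_cast hbig
    have htz : (t : ℤ) < c := by exact_mod_cast htc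
    have h2tz : (c : ℤ) < 2 * t := by exact_mod_cast h2t
    have hn1z : (1 : ℤ) ≤ n.natAbs := by exact_mod_cast hn1
    have hcpos : (0 : ℤ) < c := by linarith
    obtain ⟨b, hb⟩ := hdvd
    have htn : (n.natAbs : ℤ) + 1 ≤ t := by linarith
    have hbpos : 0 < b := by
      have : 0 < (c : ℤ) * b := by rw [← hb]; nlinarith
      exact (pos_iff_pos_of_mul_pos this).mp hcpos
    have hbc : b < c := by
      have h3 : (c : ℤ) * b < c * c := by
        rw [← hb]
        have : (t : ℤ) + 1 ≤ c := htz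
        nlinarith
      exact lt_of_mul_lt_mul_left h3 hcpos.le
    have hca : (c : ℤ) * (b + c - 2 * t) = ((c : ℤ) - t) ^ 2 - n := by
      linear_combination -hb
    have hapos : 0 < b + c - 2 * t := by
      have : 0 < (c : ℤ) * (b + c - 2 * t) := by rw [hca]; linarith
      exact (pos_iff_pos_of_mul_pos this).mp hcpos
    obtain ⟨b', hb'⟩ := Int.eq_ofNat_of_zero_le hbpos.le
    obtain ⟨a', ha'⟩ := Int.eq_ofNat_of_zero_le hapos.le
    have hab : (a' : ℤ) < b' := by rw [← ha', ← hb']; linarith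
    have hbz : (b' : ℤ) < c := by rw [← hb']; exact hbc
    have ha1 : (1 : ℤ) ≤ a' := by rw [← ha']; exact hapos
    have hareq : (a' : ℤ) = b' + c - 2 * t := by rw [← ha', hb']
    have hbeq : (t : ℤ) ^ 2 - n = c * b' := by rw [← hb']; exact hb
    refine ⟨(a', b', c), ?_, ?_⟩
    · simp only [Reg, mem_filter, mem_T3]
      refine ⟨⟨by exact_mod_cast ha1, by exact_mod_cast hab, by exact_mod_cast hbz, hcN, ?_, ?_, ?_⟩,
        ?_, hbig⟩
      · exact ⟨(b' : ℤ) - t, by rw [hareq]; linear_combination -hbeq⟩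
      · exact ⟨(c : ℤ) - t, by rw [hareq]; linear_combination -hbeq⟩
      · exact ⟨(t : ℤ), by linear_combination -hbeq⟩
      · rw [hareq]; linear_combination 4 * hbeq
    · simp only [Sigma.mk.injEq, heq_eq_eq, true_and]
      omega

/-- The upper half of the root set. -/
def Uset (n : ℤ) (c : ℕ) : Finset ℕ := (rootSet n c).filter (fun t : ℕ => c < 2 * t)

lemma two_mul_card_Uset {n : ℤ} (hn : n ≠ 0) {c : ℕ} (hc : 2 * n.natAbs < c) :
    2 * (Uset n c).card = rho n c := by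
  have hn1 : 1 ≤ n.natAbs := Int.natAbs_pos.mpr hn
  have hcpos : 0 < c := by omega
  have h1 := Finset.card_filter_add_card_filter_not (s := rootSet n c) (fun t : ℕ => c < 2 * t)
  have h2 : (Uset n c).card = ((rootSet n c).filter (fun t : ℕ => ¬ c < 2 * t)).card := by
    apply Finset.card_bij (fun t _ => c - t)
    · intro t ht
      rw [Uset, mem_filter, mem_rootSet] at ht
      obtain ⟨⟨htc, htd⟩, h2t⟩ := ht
      rw [mem_filter, mem_rootSet]
      refine ⟨⟨by omega, ?_⟩, by omega⟩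
      rw [Nat.cast_sub htc.le]
      have : ((c : ℤ) - t) ^ 2 - n = (c : ℤ) * (c - 2 * t) + ((t : ℤ) ^ 2 - n) := by ring
      rw [this]
      exact dvd_add (dvd_mul_right _ _) htd
    · intro t ht s hs he
      rw [Uset, mem_filter, mem_rootSet] at ht hs
      omega
    · intro s hs
      rw [mem_filter, mem_rootSet] at hs
      obtain ⟨⟨hsc, hsd⟩, h2s⟩ := hs
      have hs0 : s ≠ 0 := by
        rintro rfl
        have h3 : (c : ℤ) ∣ n := by
          have : n = (0 : ℕ) ^ 2 - (((0 : ℕ) : ℤ) ^ 2 - n) := by push_cast; ring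
          rw [this]
          exact dvd_sub (by simp) hsd
        have h4 := Int.natCast_dvd.mp h3
        have := Nat.le_of_dvd (by omega) h4
        omega
      have hs2 : 2 * s ≠ c := by
        intro h
        have h3 : (s : ℤ) ∣ n := by
          have h4 : (s : ℤ) ∣ (s : ℤ) ^ 2 - n := by
            refine dvd_trans ?_ hsd
            rw [← h]; push_cast; exact dvd_mul_left _ _
          have h5 : (s : ℤ) ∣ (s : ℤ) ^ 2 := dvd_pow_self _ (by norm_num)
          have : n = (s : ℤ) ^ 2 - ((s : ℤ) ^ 2 - n) := by ring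
          rw [this]; exact dvd_sub h5 h4
        have h4 := Int.natCast_dvd.mp h3
        have := Nat.le_of_dvd (by omega) h4
        omega
      refine ⟨c - s, ?_, by omega⟩
      rw [Uset, mem_filter, mem_rootSet]
      refine ⟨⟨by omega, ?_⟩, by omega⟩
      rw [Nat.cast_sub hsc.le]
      have : ((c : ℤ) - s) ^ 2 - n = (c : ℤ) * (c - 2 * s) + ((s : ℤ) ^ 2 - n) := by ring
      rw [this]
      exact dvd_add (dvd_mul_right _ _) hsd
  have h3 : (Uset n c).card = ((rootSet n c).filter (fun t : ℕ => c < 2 * t)).card := rfl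
  have h4 : rho n c = (rootSet n c).card := rfl
  omega

lemma Uset_sdiff {n : ℤ} (hn : n ≠ 0) {c : ℕ} (hc : 2 * n.natAbs < c) {t : ℕ}
    (ht : t ∈ Uset n c) (hle : ¬ n < ((c : ℤ) - t) ^ 2) : ((c : ℤ) - t) ^ 2 = n := by
  rw [Uset, mem_filter, mem_rootSet] at ht
  obtain ⟨⟨htc, htd⟩, h2t⟩ := ht
  push Not at hle
  have hnabs : n ≤ (n.natAbs : ℤ) := Int.le_natAbs
  have hcz : 2 * (n.natAbs : ℤ) < c := by exact_mod_cast hc
  have hn1 : (1 : ℤ) ≤ n.natAbs := by exact_mod_cast (Int.natAbs_pos.mpr hn)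
  have hd : (c : ℤ) ∣ n - ((c : ℤ) - t) ^ 2 := by
    have : n - ((c : ℤ) - t) ^ 2 = -((c : ℤ) * (c - 2 * t) + ((t : ℤ) ^ 2 - n)) := by ring
    rw [this]
    exact dvd_neg.mpr (dvd_add (dvd_mul_right _ _) htd)
  have h1 : n - ((c : ℤ) - t) ^ 2 < c := by
    have := sq_nonneg ((c : ℤ) - t)
    linarith
  have h0 : 0 ≤ n - ((c : ℤ) - t) ^ 2 := by linarith
  have := Int.eq_zero_of_dvd_of_nonneg_of_lt h0 h1 hd
  linarith

lemma card_Sset_le {n : ℤ} (hn : n ≠ 0) {c : ℕ} (hc : 2 * n.natAbs < c) :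
    2 * (Sset n c).card ≤ rho n c := by
  rw [← two_mul_card_Uset hn hc]
  apply Nat.mul_le_mul_left
  apply Finset.card_le_card
  intro t ht
  rw [Sset, mem_filter] at ht
  rw [Uset, mem_filter]
  exact ⟨ht.1, ht.2.1⟩

open Classical in
lemma card_Sset_ge {n : ℤ} (hn : n ≠ 0) {c : ℕ} (hc : 2 * n.natAbs < c) :
    rho n c ≤ 2 * (Sset n c).card + (if IsSquare n then 2 else 0) := by
  rw [← two_mul_card_Uset hn hc]
  have hsplit := Finset.card_filter_add_card_filter_not (s := Uset n c)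
    (fun t : ℕ => n < ((c : ℤ) - t) ^ 2)
  have hS : (Uset n c).filter (fun t : ℕ => n < ((c : ℤ) - t) ^ 2) = Sset n c := by
    rw [Uset, Sset, Finset.filter_filter]
  rw [hS] at hsplit
  have hrest : ((Uset n c).filter (fun t : ℕ => ¬ n < ((c : ℤ) - t) ^ 2)).card
      ≤ (if IsSquare n then 1 else 0) := by
    split_ifs with hsq
    · rw [Finset.card_le_one]
      intro t ht s hs
      rw [mem_filter] at ht hs
      have h1 := Uset_sdiff hn hc ht.1 ht.2
      have h2 := Uset_sdiff hn hc hs.1 hs.2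
      have ht' := ht.1
      have hs' := hs.1
      rw [Uset, mem_filter, mem_rootSet] at ht' hs'
      have h3 : (0 : ℤ) ≤ (c : ℤ) - t := by
        have : (t : ℤ) < c := by exact_mod_cast ht'.1.1
        linarith
      have h4 : (0 : ℤ) ≤ (c : ℤ) - s := by
        have : (s : ℤ) < c := by exact_mod_cast hs'.1.1
        linarith
      have h5 : (c : ℤ) - t = (c : ℤ) - s := by
        have := (sq_eq_sq₀ h3 h4).mp (h1.trans h2.symm)
        exact this
      have h6 : (t : ℤ) = s := by linarith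
      exact_mod_cast h6
    · rw [Nat.le_zero, Finset.card_eq_zero, Finset.eq_empty_iff_forall_notMem]
      intro t ht
      rw [mem_filter] at ht
      have h1 := Uset_sdiff hn hc ht.1 ht.2
      exact hsq ⟨(c : ℤ) - t, by rw [← h1, sq]⟩
  split_ifs at hrest ⊢ <;> omega

open Classical in
/-- The count of triples is half the root sum, up to a controlled error. -/
lemma T3_approx {n : ℤ} (hn : n ≠ 0) :
    ∃ K : ℝ, 0 ≤ K ∧ ∀ N : ℕ, 2 * n.natAbs ≤ N →
      |2 * ((T3 n N).card : ℝ) - ∑ c ∈ Ioc 0 N, (rho n c : ℝ)|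
        ≤ 2 * ((Irr n N).card : ℝ) + K + (if IsSquare n then 2 * (N : ℝ) else 0) := by
  set c0 := 2 * n.natAbs with hc0
  refine ⟨2 * ((c0 + 1) ^ 3 : ℕ) + ∑ c ∈ Ioc 0 c0, (rho n c : ℝ), by positivity, fun N hN => ?_⟩
  have h1 : ((T3 n N).card : ℝ) = (Irr n N).card + (Reg n N).card + (Small n N).card := by
    exact_mod_cast card_T3_eq n N
  have h2 : ((Reg n N).card : ℝ) = ∑ c ∈ Ioc c0 N, ((Sset n c).card : ℝ) := by
    rw [card_Reg_eq n hn N]; push_cast; rfl
  have h3 : ((Small n N).card : ℝ) ≤ ((c0 + 1) ^ 3 : ℕ) := by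
    exact_mod_cast card_Small_le n N
  have h3' : (0 : ℝ) ≤ (Small n N).card := by positivity
  have h4 : ∑ c ∈ Ioc 0 N, (rho n c : ℝ)
      = ∑ c ∈ Ioc 0 c0, (rho n c : ℝ) + ∑ c ∈ Ioc c0 N, (rho n c : ℝ) :=
    (Finset.sum_Ioc_consecutive _ (Nat.zero_le _) hN).symm
  have h5 : 0 ≤ ∑ c ∈ Ioc 0 c0, (rho n c : ℝ) := Finset.sum_nonneg fun _ _ => by positivity
  have h6 : ∑ c ∈ Ioc c0 N, 2 * ((Sset n c).card : ℝ) ≤ ∑ c ∈ Ioc c0 N, (rho n c : ℝ) := by
    apply Finset.sum_le_sum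
    intro c hc
    rw [mem_Ioc] at hc
    exact_mod_cast card_Sset_le hn hc.1
  have h7 : ∑ c ∈ Ioc c0 N, (rho n c : ℝ) ≤ ∑ c ∈ Ioc c0 N, 2 * ((Sset n c).card : ℝ)
      + (if IsSquare n then 2 * (N : ℝ) else 0) := by
    have h8 : ∑ c ∈ Ioc c0 N, (rho n c : ℝ) ≤ ∑ c ∈ Ioc c0 N, (2 * ((Sset n c).card : ℝ)
        + (if IsSquare n then (2 : ℝ) else 0)) := by
      apply Finset.sum_le_sum
      intro c hc
      rw [mem_Ioc] at hc
      have := card_Sset_ge hn hc.1
      split_ifs at this ⊢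
      · exact_mod_cast this
      · exact_mod_cast this
    rw [Finset.sum_add_distrib] at h8
    refine h8.trans (add_le_add le_rfl ?_)
    split_ifs
    · rw [Finset.sum_const, Nat.card_Ioc, nsmul_eq_mul]
      have : ((N - c0 : ℕ) : ℝ) ≤ N := by exact_mod_cast Nat.sub_le N c0
      linarith
    · simp
  rw [← Finset.mul_sum] at h6 h7
  have h9 : (0 : ℝ) ≤ (Irr n N).card := by positivity
  have h10 : (0 : ℝ) ≤ (if IsSquare n then 2 * (N : ℝ) else 0) := by
    split_ifs <;> positivity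
  rw [abs_le]
  constructor
  · rw [h1, h2, h4]; linarith
  · rw [h1, h2, h4]; linarith

end Pool.Agent.Lib_helper91
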