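import Mathlib

set_option autoImplicit false

namespace Pool.Agent.Lib_helper91

open Finset

/-- The quadratic character `m ↦ (n/m)`, extended by zero to `m` not coprime to `2n`. -/
def chi (n : ℤ) (m : ℕ) : ℤ := if m.Coprime (2 * n.natAbs) then jacobiSym n m else 0

lemma chi_of_coprime {n : ℤ} {m : ℕ} (h : m.Coprime (2 * n.natAbs)) : chi n m = jacobiSym n m :=
  if_pos h

lemma chi_of_not_coprime {n : ℤ} {m : ℕ} (h : ¬ m.Coprime (2 * n.natAbs)) : chi n m = 0 :=
  if_neg h

lemma chi_one (n : ℤ) : chi n 1 = 1 := by simp [chi]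

lemma ne_zero_of_coprime {n : ℤ} {m : ℕ} (h : m.Coprime (2 * n.natAbs)) : m ≠ 0 := by
  rintro rfl
  simp at h

lemma odd_of_coprime {n : ℤ} {m : ℕ} (h : m.Coprime (2 * n.natAbs)) : Odd m := by
  have h1 : m.Coprime 2 := Nat.Coprime.coprime_dvd_right (dvd_mul_right 2 _) h
  exact (Nat.coprime_two_right).mp h1

lemma chi_mul (n : ℤ) (a b : ℕ) : chi n (a * b) = chi n a * chi n b := by
  by_cases ha : a.Coprime (2 * n.natAbs)
  · by_cases hb : b.Coprime (2 * n.natAbs)
    · have hab : (a * b).Coprime (2 * n.natAbs) := Nat.Coprime.mul_left ha hb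
      rw [chi_of_coprime ha, chi_of_coprime hb, chi_of_coprime hab]
      exact jacobiSym.mul_right' n (ne_zero_of_coprime ha) (ne_zero_of_coprime hb)
    · have hab : ¬ (a * b).Coprime (2 * n.natAbs) := fun h =>
        hb (Nat.Coprime.coprime_dvd_left (dvd_mul_left b a) h)
      rw [chi_of_not_coprime hb, chi_of_not_coprime hab, mul_zero]
  · have hab : ¬ (a * b).Coprime (2 * n.natAbs) := fun h =>
      ha (Nat.Coprime.coprime_dvd_left (dvd_mul_right a b) h)
    rw [chi_of_not_coprime ha, chi_of_not_coprime hab, zero_mul]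

lemma chi_pow (n : ℤ) (a k : ℕ) : chi n (a ^ k) = chi n a ^ k := by
  induction k with
  | zero => simp [chi_one]
  | succ k ih => rw [pow_succ, chi_mul, ih, pow_succ]

lemma chi_mod (n : ℤ) (m : ℕ) : chi n (m % (4 * n.natAbs)) = chi n m := by
  have hdvd : 2 * n.natAbs ∣ 4 * n.natAbs := ⟨2, by ring⟩
  have hiff : (m % (4 * n.natAbs)).Coprime (2 * n.natAbs) ↔ m.Coprime (2 * n.natAbs) := by
    unfold Nat.Coprime
    have h1 : m % (4 * n.natAbs) ≡ m [MOD (2 * n.natAbs)] :=
      Nat.ModEq.of_dvd hdvd (Nat.mod_modEq m (4 * n.natAbs))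
    rw [Nat.ModEq.gcd_eq h1]
  by_cases h : m.Coprime (2 * n.natAbs)
  · rw [chi_of_coprime h, chi_of_coprime (hiff.mpr h)]
    exact (jacobiSym.mod_right n (odd_of_coprime h)).symm
  · rw [chi_of_not_coprime h, chi_of_not_coprime (fun h' => h (hiff.mp h'))]

lemma int_gcd_eq_one {n : ℤ} {m : ℕ} (h : m.Coprime (2 * n.natAbs)) : n.gcd m = 1 := by
  have h1 : m.Coprime n.natAbs := Nat.Coprime.coprime_dvd_right (dvd_mul_left _ 2) h
  rw [Int.gcd_eq_natAbs, Int.natAbs_natCast]
  exact h1.symm

lemma chi_eq_one_or_neg_one {n : ℤ} {m : ℕ} (h : m.Coprime (2 * n.natAbs)) :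
    chi n m = 1 ∨ chi n m = -1 := by
  rw [chi_of_coprime h]
  exact jacobiSym.eq_one_or_neg_one (int_gcd_eq_one h)

lemma abs_chi_le (n : ℤ) (m : ℕ) : |chi n m| ≤ 1 := by
  by_cases h : m.Coprime (2 * n.natAbs)
  · rcases chi_eq_one_or_neg_one h with h1 | h1 <;> rw [h1] <;> norm_num
  · rw [chi_of_not_coprime h]; norm_num

/-- If `n` is a perfect square, the character is principal. -/
lemma chi_of_isSquare {n : ℤ} (hn : IsSquare n) {m : ℕ} (h : m.Coprime (2 * n.natAbs)) :
    chi n m = 1 := by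
  rw [chi_of_coprime h]
  obtain ⟨k, rfl⟩ := hn
  rw [← sq]
  apply jacobiSym.sq_one'
  have h1 := int_gcd_eq_one h
  rw [← Int.isCoprime_iff_gcd_eq_one] at h1 ⊢
  exact (IsCoprime.mul_left_iff.mp h1).1

lemma nat_isSquare_of_even_factorization {k : ℕ} (hk : k ≠ 0)
    (h : ∀ p, p.Prime → Even (k.factorization p)) : IsSquare k := by
  rw [← Nat.prod_factorization_pow_eq_self hk]
  unfold Finsupp.prod
  apply Finset.isSquare_prod
  intro p hp
  have hp' : p.Prime := Nat.prime_of_mem_primeFactors (by simpa using hp)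
  exact (h p hp').isSquare_pow p

/-- Reduction step: evaluating the Jacobi symbol at `m ≡ 1 mod 4` through reciprocity. -/
lemma jacobi_flip {a m : ℕ} (ha : Odd a) (hm : m % 4 = 1) : jacobiSym a m = jacobiSym m a :=
  jacobiSym.quadratic_reciprocity_one_mod_four' ha hm

lemma coprime_of_mod_one {m r : ℕ} (h : m ≡ 1 [MOD r]) : m.Coprime r := by
  unfold Nat.Coprime
  rw [Nat.ModEq.gcd_eq h]; simp

lemma jacobi_self_mod_one {m r : ℕ} (h : m ≡ 1 [MOD r]) : jacobiSym (m : ℤ) r = 1 := by
  rw [← jacobiSym.one_left r]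
  apply jacobiSym.mod_left'
  exact_mod_cast h

/-- For `n` not a perfect square the character takes the value `-1`. -/
lemma exists_chi_eq_neg_one {n : ℤ} (hn0 : n ≠ 0) (hn : ¬ IsSquare n) :
    ∃ m : ℕ, chi n m = -1 := by
  have hN0 : n.natAbs ≠ 0 := Int.natAbs_ne_zero.mpr hn0
  obtain ⟨e, k, hkodd, hk⟩ := Nat.exists_eq_two_pow_mul_odd hN0
  have hk0 : k ≠ 0 := by
    rintro rfl
    simp at hkodd
  -- it suffices to find m odd coprime to k with jacobiSym n m = -1
  have suff : ∀ m : ℕ, Odd m → m.Coprime k → jacobiSym n m = -1 → ∃ m : ℕ, chi n m = -1 := by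
    intro m hm hmk hj
    refine ⟨m, ?_⟩
    have hcop : m.Coprime (2 * n.natAbs) := by
      have h2 : m.Coprime 2 := Nat.coprime_two_right.mpr hm
      rw [hk]
      exact Nat.Coprime.mul_right h2 (Nat.Coprime.mul_right (h2.pow_right e) hmk)
    rw [chi_of_coprime hcop, hj]
  -- value of the Jacobi symbol of n in terms of the one of natAbs
  have hsign : n = (n.natAbs : ℤ) ∨ n = -(n.natAbs : ℤ) := Int.natAbs_eq n
  have hnat : ∀ m : ℕ, jacobiSym (n.natAbs : ℤ) m = jacobiSym 2 m ^ e * jacobiSym (k : ℤ) m := by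
    intro m
    rw [hk]; push_cast
    rw [jacobiSym.mul_left, jacobiSym.pow_left]
  by_cases hksq : IsSquare k
  · -- k is an odd square
    obtain ⟨r, hr⟩ := hksq
    have hrodd : Odd r := by
      rw [hr] at hkodd
      exact (Nat.odd_mul.mp hkodd).1
    have hkj : ∀ m : ℕ, m.Coprime k → jacobiSym (k : ℤ) m = 1 := by
      intro m hm
      have hmr : m.Coprime r := Nat.Coprime.coprime_dvd_right ⟨r, hr⟩ hm
      rw [hr]; push_cast
      rw [← sq]
      apply jacobiSym.sq_one'
      rw [Int.gcd_eq_natAbs, Int.natAbs_natCast, Int.natAbs_natCast]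
      exact hmr.symm
    have h8k : Nat.Coprime 8 k := by
      have : Nat.Coprime 2 k := Nat.coprime_two_left.mpr hkodd
      exact (this.pow_left 3)
    rcases hsign with hs | hs
    · -- n > 0 : e must be odd
      have heodd : Odd e := by
        by_contra he
        rw [Nat.not_odd_iff_even] at he
        apply hn
        rw [hs, hk, hr]
        push_cast
        obtain ⟨f, hf⟩ := he
        refine ⟨2 ^ f * r, ?_⟩
        rw [hf, pow_add]; ring
      set m := Nat.chineseRemainder h8k 5 1 with hm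
      have hm8 : (m : ℕ) % 8 = 5 := m.2.1
      have hmk : (m : ℕ) ≡ 1 [MOD k] := m.2.2
      have hmodd : Odd (m : ℕ) := by
        rw [Nat.odd_iff]; omega
      apply suff m hmodd (coprime_of_mod_one hmk)
      rw [hs, hnat, hkj _ (coprime_of_mod_one hmk), mul_one, jacobiSym.at_two hmodd,
        ZMod.χ₈_nat_eq_if_mod_eight]
      have h2 : (m : ℕ) % 2 = 1 := by omega
      simp only [hm8, h2]
      norm_num
      exact heodd.neg_one_pow
    · -- n < 0
      set m := Nat.chineseRemainder h8k 7 1 with hm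
      have hm8 : (m : ℕ) % 8 = 7 := m.2.1
      have hmk : (m : ℕ) ≡ 1 [MOD k] := m.2.2
      have hmodd : Odd (m : ℕ) := by
        rw [Nat.odd_iff]; omega
      apply suff m hmodd (coprime_of_mod_one hmk)
      rw [hs, jacobiSym.neg _ hmodd, hnat, hkj _ (coprime_of_mod_one hmk), mul_one,
        jacobiSym.at_two hmodd, ZMod.χ₈_nat_eq_if_mod_eight,
        ZMod.χ₄_nat_three_mod_four (by omega)]
      simp only [hm8]
      norm_num
      have : (m : ℕ) % 2 = 1 := by omega
      simp [this]
  · -- k has an odd prime with odd exponent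
    obtain ⟨p, hp, hpodd⟩ : ∃ p, p.Prime ∧ ¬ Even (k.factorization p) := by
      by_contra hcon
      push Not at hcon
      exact hksq (nat_isSquare_of_even_factorization hk0 hcon)
    rw [Nat.not_even_iff_odd] at hpodd
    have hpk : p ∣ k := by
      by_contra hcon
      rw [Nat.factorization_eq_zero_of_not_dvd hcon] at hpodd
      simp at hpodd
    have hp2 : p ≠ 2 := by
      rintro rfl
      obtain ⟨j, hj⟩ := hpk
      rw [hj] at hkodd
      exact (Nat.not_odd_iff_even.mpr (even_two_mul j)) hkodd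
    set f := k.factorization p with hf
    set r := k / p ^ f with hr
    have hkr : k = p ^ f * r := (Nat.ordProj_mul_ordCompl_eq_self k p).symm
    have hpr : p.Coprime r := Nat.coprime_ordCompl hp hk0
    have hrodd : Odd r := by
      rw [hkr] at hkodd
      exact (Nat.odd_mul.mp hkodd).2
    have hpo : Odd p := hp.odd_of_ne_two hp2
    haveI : Fact p.Prime := ⟨hp⟩
    -- a nonresidue
    obtain ⟨u, hu⟩ : ∃ u : ZMod p, ¬ IsSquare u := by
      have h := FiniteField.exists_nonsquare (F := ZMod p) (by rwa [ZMod.ringChar_zmod_n])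
      exact h
    have hu0 : u ≠ 0 := by
      rintro rfl
      exact hu ⟨0, by simp⟩
    have hcop : Nat.Coprime p (8 * r) := by
      apply Nat.Coprime.mul_right _ hpr
      have : Nat.Coprime p 2 := Nat.coprime_two_right.mpr hpo
      exact this.pow_right 3
    set m := Nat.chineseRemainder hcop u.val 1 with hm
    have hmp : (m : ℕ) ≡ u.val [MOD p] := m.2.1
    have hm8r : (m : ℕ) ≡ 1 [MOD (8 * r)] := m.2.2
    have hm8 : (m : ℕ) % 8 = 1 := by
      have : (m : ℕ) ≡ 1 [MOD 8] := Nat.ModEq.of_dvd (dvd_mul_right 8 r) hm8r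
      exact this
    have hmr : (m : ℕ) ≡ 1 [MOD r] := Nat.ModEq.of_dvd (dvd_mul_left r 8) hm8r
    have hmodd : Odd (m : ℕ) := by
      rw [Nat.odd_iff]; omega
    have hmu : ((m : ℕ) : ZMod p) = u := by
      have : ((m : ℕ) : ZMod p) = ((u.val : ℕ) : ZMod p) := (ZMod.natCast_eq_natCast_iff _ _ _).mpr hmp
      rw [this, ZMod.natCast_zmod_val]
    have hmpcop : (m : ℕ).Coprime p := by
      rw [Nat.coprime_comm, hp.coprime_iff_not_dvd]
      intro hd
      rw [← ZMod.natCast_eq_zero_iff] at hd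
      rw [hmu] at hd
      exact hu0 hd
    have hmk : (m : ℕ).Coprime k := by
      rw [hkr]
      exact Nat.Coprime.mul_right (hmpcop.pow_right f) (coprime_of_mod_one hmr)
    apply suff m hmodd hmk
    have hjp : jacobiSym (p : ℤ) m = -1 := by
      rw [jacobi_flip hpo (by omega), ← jacobiSym.legendreSym.to_jacobiSym,
        legendreSym.eq_neg_one_iff]
      push_cast
      rw [hmu]
      exact hu
    have hjk : jacobiSym (k : ℤ) m = -1 := by
      conv_lhs => rw [hkr]
      push_cast
      rw [jacobiSym.mul_left, jacobiSym.pow_left, hjp, jacobi_flip hrodd (by omega),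
        jacobi_self_mod_one hmr, mul_one]
      exact hpodd.neg_one_pow
    have hj2 : jacobiSym 2 m = 1 := by
      rw [jacobiSym.at_two hmodd, ZMod.χ₈_nat_eq_if_mod_eight]
      have : (m : ℕ) % 2 = 1 := by omega
      simp [hm8, this]
    rcases hsign with hs | hs
    · rw [hs, hnat, hj2, hjk]; norm_num
    · rw [hs, jacobiSym.neg _ hmodd, hnat, hj2, hjk, ZMod.χ₄_nat_one_mod_four (by omega)]; norm_num

end Pool.Agent.Lib_helper91
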