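import Mathlib

set_option autoImplicit false

namespace Pool.Agent.Lib_helper91

open Finset Filter Topology

/-- Partial sums of a periodic function are linear up to a bounded error. -/
lemma periodic_sum (f : ℕ → ℝ) (M : ℕ) (hM : 0 < M) (hf : ∀ m, f (m + M) = f m) :
    ∃ K : ℝ, ∀ N, |∑ m ∈ range N, f m - (N : ℝ) * ((∑ m ∈ range M, f m) / M)| ≤ K := by
  set D : ℕ → ℝ := fun N => ∑ m ∈ range N, f m - (N : ℝ) * ((∑ m ∈ range M, f m) / M) with hD
  have hper : ∀ N, D (N + M) = D N := by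
    intro N
    simp only [hD]
    rw [add_comm N M, Finset.sum_range_add]
    have h1 : ∑ x ∈ range N, f (M + x) = ∑ x ∈ range N, f x := by
      apply Finset.sum_congr rfl
      intro x _
      rw [add_comm, hf]
    have hM' : (M : ℝ) ≠ 0 := by exact_mod_cast hM.ne'
    rw [h1]
    push_cast
    field_simp
    ring
  have hmod : ∀ N, D (N % M) = D N := by
    intro N
    have h : Function.Periodic D M := hper
    exact h.map_mod_nat N
  refine ⟨∑ m ∈ range M, |D m|, fun N => ?_⟩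
  have h1 : |D N| = |D (N % M)| := by rw [hmod]
  change |D N| ≤ _
  rw [h1]
  exact Finset.single_le_sum (f := fun m => |D m|) (fun i _ => abs_nonneg _)
    (mem_range.mpr (Nat.mod_lt N hM))

/-- The same with sums over `(0, N]`. -/
lemma periodic_sum_Ioc (f : ℕ → ℝ) (M : ℕ) (hM : 0 < M) (hf : ∀ m, f (m + M) = f m) :
    ∃ K : ℝ, 0 ≤ K ∧
      ∀ N, |∑ m ∈ Ioc 0 N, f m - (N : ℝ) * ((∑ m ∈ range M, f m) / M)| ≤ K := by
  obtain ⟨K, hK⟩ := periodic_sum f M hM hf
  have hK0 : 0 ≤ K := (abs_nonneg _).trans (hK 0)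
  refine ⟨K + |(∑ m ∈ range M, f m) / M| + |f 0|, by positivity, fun N => ?_⟩
  have h1 : ∑ m ∈ range (N + 1), f m = ∑ m ∈ Ioc 0 N, f m + f 0 := by
    rw [Finset.sum_range_succ']
    congr 1
    rw [Finset.range_eq_Ico, Finset.sum_Ico_add' f 0 N 1]
    apply Finset.sum_congr _ (fun _ _ => rfl)
    ext x; simp only [mem_Ico, mem_Ioc]; omega
  have h2 := hK (N + 1)
  rw [h1] at h2
  push_cast at h2
  set κ := (∑ m ∈ range M, f m) / (M : ℝ)
  have h3 : ∑ m ∈ Ioc 0 N, f m - (N : ℝ) * κ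
      = (∑ m ∈ Ioc 0 N, f m + f 0 - ((N : ℝ) + 1) * κ) + κ - f 0 := by ring
  rw [h3]
  calc |(∑ m ∈ Ioc 0 N, f m + f 0 - ((N : ℝ) + 1) * κ) + κ - f 0|
      ≤ |(∑ m ∈ Ioc 0 N, f m + f 0 - ((N : ℝ) + 1) * κ) + κ| + |f 0| := abs_sub _ _
    _ ≤ |(∑ m ∈ Ioc 0 N, f m + f 0 - ((N : ℝ) + 1) * κ)| + |κ| + |f 0| := by
        gcongr; exact abs_add_le _ _
    _ ≤ K + |κ| + |f 0| := by gcongr

/-- Abel's inequality: antitone nonnegative weights against a sequence with bounded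
partial sums. -/
lemma abel_bound (z u : ℕ → ℝ) (b : ℝ) (hb : ∀ N, |∑ m ∈ Ioc 0 N, z m| ≤ b)
    (D : ℕ) (hu : ∀ m, D < m → u (m + 1) ≤ u m) (hu0 : ∀ m, D < m → 0 ≤ u m) (N : ℕ) (hN : D ≤ N) :
    |∑ m ∈ Ioc D N, u m * z m| ≤ 2 * b * u (D + 1) := by
  set S : ℕ → ℝ := fun N => ∑ m ∈ Ioc 0 N, z m with hS
  have hb0 : 0 ≤ b := (abs_nonneg _).trans (hb 0)
  have hdiff : ∀ N, |S N - S D| ≤ 2 * b := by
    intro N
    calc |S N - S D| ≤ |S N| + |S D| := abs_sub _ _
      _ ≤ b + b := add_le_add (hb N) (hb D)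
      _ = 2 * b := by ring
  have key : |∑ m ∈ Ioc D N, u m * z m - u (N + 1) * (S N - S D)| ≤
      2 * b * (u (D + 1) - u (N + 1)) := by
    induction N, hN using Nat.le_induction with
    | base => simp
    | succ N hN ih =>
      have e1 : ∑ m ∈ Ioc D (N + 1), u m * z m
          = ∑ m ∈ Ioc D N, u m * z m + u (N + 1) * z (N + 1) := by
        rw [Finset.sum_Ioc_succ_top (by omega)]
      have e2 : S (N + 1) = S N + z (N + 1) := by
        simp only [hS]
        rw [Finset.sum_Ioc_succ_top (by omega)]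
      have e3 : ∑ m ∈ Ioc D (N + 1), u m * z m - u (N + 1 + 1) * (S (N + 1) - S D)
          = (∑ m ∈ Ioc D N, u m * z m - u (N + 1) * (S N - S D))
            + (u (N + 1) - u (N + 1 + 1)) * (S (N + 1) - S D) := by
        rw [e1, e2]; ring
      rw [e3]
      have hmono : 0 ≤ u (N + 1) - u (N + 1 + 1) := sub_nonneg.mpr (hu (N + 1) (by omega))
      calc _ ≤ |∑ m ∈ Ioc D N, u m * z m - u (N + 1) * (S N - S D)|
            + |(u (N + 1) - u (N + 1 + 1)) * (S (N + 1) - S D)| := abs_add_le _ _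
        _ ≤ 2 * b * (u (D + 1) - u (N + 1)) + (u (N + 1) - u (N + 1 + 1)) * (2 * b) := by
            gcongr
            rw [abs_mul, abs_of_nonneg hmono]
            exact mul_le_mul_of_nonneg_left (hdiff _) hmono
        _ = 2 * b * (u (D + 1) - u (N + 1 + 1)) := by ring
  have huN : 0 ≤ u (N + 1) := hu0 (N + 1) (by omega)
  calc |∑ m ∈ Ioc D N, u m * z m|
      = |(∑ m ∈ Ioc D N, u m * z m - u (N + 1) * (S N - S D)) + u (N + 1) * (S N - S D)| := by
        congr 1; ring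
    _ ≤ |∑ m ∈ Ioc D N, u m * z m - u (N + 1) * (S N - S D)| + |u (N + 1) * (S N - S D)| :=
        abs_add_le _ _
    _ ≤ 2 * b * (u (D + 1) - u (N + 1)) + u (N + 1) * (2 * b) := by
        gcongr
        rw [abs_mul, abs_of_nonneg huN]
        exact mul_le_mul_of_nonneg_left (hdiff _) huN
    _ = 2 * b * u (D + 1) := by ring

/-- If `z` has bounded partial sums, `Φ` is monotone with `0 ≤ Φ(u) ≤ u`, `Φ(u)/u → κ`, then
`(1/N) ∑_{d ≤ N} z(d) Φ(N/d)` converges. -/
lemma exists_limit_twisted (z : ℕ → ℝ) (b : ℝ) (hb : ∀ N, |∑ m ∈ Ioc 0 N, z m| ≤ b)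
    (Φ : ℕ → ℝ) (hmono : Monotone Φ) (h0 : ∀ u, 0 ≤ Φ u) (hle : ∀ u, Φ u ≤ u) {κ : ℝ}
    (hκ : Tendsto (fun N : ℕ => Φ N / N) atTop (𝓝 κ)) :
    ∃ A : ℝ, Tendsto (fun N : ℕ => (∑ d ∈ Ioc 0 N, z d * Φ (N / d)) / N) atTop (𝓝 A) := by
  have hb0 : 0 ≤ b := (abs_nonneg _).trans (hb 0)
  -- for fixed D the truncated sums converge
  have htrunc : ∀ D : ℕ, Tendsto (fun N : ℕ => (∑ d ∈ Ioc 0 D, z d * Φ (N / d)) / N) atTop
      (𝓝 (∑ d ∈ Ioc 0 D, z d * (κ / d))) := by
    intro D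
    have : (fun N : ℕ => (∑ d ∈ Ioc 0 D, z d * Φ (N / d)) / (N : ℝ))
        = fun N : ℕ => ∑ d ∈ Ioc 0 D, z d * (Φ (N / d) / N) := by
      ext N
      rw [Finset.sum_div]
      apply Finset.sum_congr rfl
      intro d _; ring
    rw [this]
    apply tendsto_finsetSum
    intro d hd
    rw [mem_Ioc] at hd
    apply Tendsto.const_mul
    have h1 : Tendsto (fun N : ℕ => N / d) atTop atTop := Nat.tendsto_div_const_atTop hd.1.ne'
    have h2 : Tendsto (fun N : ℕ => Φ (N / d) / ((N / d : ℕ) : ℝ)) atTop (𝓝 κ) := hκ.comp h1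
    have hd' : (0 : ℝ) < d := by exact_mod_cast hd.1
    have h3 : Tendsto (fun N : ℕ => ((N / d : ℕ) : ℝ) / (N : ℝ)) atTop (𝓝 (1 / (d : ℝ))) := by
      have hlow : Tendsto (fun N : ℕ => 1 / (d : ℝ) - 1 / (N : ℝ)) atTop (𝓝 (1 / (d : ℝ) - 0)) :=
        tendsto_const_nhds.sub tendsto_one_div_atTop_nhds_zero_nat
      rw [sub_zero] at hlow
      refine tendsto_of_tendsto_of_tendsto_of_le_of_le' hlow tendsto_const_nhds ?_ ?_
      · filter_upwards [eventually_ge_atTop 1] with N hN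
        have hN' : (0 : ℝ) < N := by exact_mod_cast hN
        have h1 : (N : ℝ) / d - 1 ≤ ((N / d : ℕ) : ℝ) := by
          have := Nat.lt_mul_div_succ N hd.1
          have h2 : (N : ℝ) < d * (((N / d : ℕ) : ℝ) + 1) := by exact_mod_cast this
          have : (N : ℝ) / d < ((N / d : ℕ) : ℝ) + 1 := by
            rw [div_lt_iff₀ hd']; linarith
          linarith
        calc 1 / (d : ℝ) - 1 / (N : ℝ) = ((N : ℝ) / d - 1) / N := by field_simp
          _ ≤ ((N / d : ℕ) : ℝ) / (N : ℝ) := by gcongr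
      · filter_upwards [eventually_ge_atTop 1] with N hN
        have hN' : (0 : ℝ) < N := by exact_mod_cast hN
        rw [div_le_div_iff₀ hN' hd']
        have : ((N / d : ℕ) : ℝ) * d ≤ N := by exact_mod_cast Nat.div_mul_le_self N d
        linarith
    have h4 := h2.mul h3
    have e : κ * (1 / (d : ℝ)) = κ / d := by ring
    rw [e] at h4
    refine h4.congr' ?_
    filter_upwards [eventually_ge_atTop d] with N hN
    have : (0 : ℝ) < ((N / d : ℕ) : ℝ) := by exact_mod_cast Nat.div_pos hN hd.1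
    field_simp
  -- tail estimate
  have htail : ∀ D N : ℕ, D ≤ N → 1 ≤ N →
      |(∑ d ∈ Ioc 0 N, z d * Φ (N / d)) / N - (∑ d ∈ Ioc 0 D, z d * Φ (N / d)) / N|
        ≤ 2 * b / (D + 1) := by
    intro D N hDN hN
    have hN' : (0 : ℝ) < N := by exact_mod_cast hN
    have hsplit : ∑ d ∈ Ioc 0 N, z d * Φ (N / d) - ∑ d ∈ Ioc 0 D, z d * Φ (N / d)
        = ∑ d ∈ Ioc D N, Φ (N / d) * z d := by
      rw [← Finset.sum_Ioc_consecutive (fun d => z d * Φ (N / d)) (Nat.zero_le D) hDN]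
      simp only [add_sub_cancel_left]
      apply Finset.sum_congr rfl
      intro d _; ring
    rw [← sub_div, hsplit, abs_div, abs_of_pos hN', div_le_div_iff₀ hN' (by positivity)]
    have h1 := abel_bound z (fun d => Φ (N / d)) b hb D
      (fun m hm => hmono (Nat.div_le_div_left (Nat.le_succ m) (by omega)))
      (fun m _ => h0 _) N hDN
    have h2 : Φ (N / (D + 1)) ≤ (N : ℝ) / (D + 1) := by
      calc Φ (N / (D + 1)) ≤ ((N / (D + 1) : ℕ) : ℝ) := hle _
        _ ≤ (N : ℝ) / ((D + 1 : ℕ) : ℝ) := Nat.cast_div_le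
        _ = (N : ℝ) / (D + 1) := by push_cast; ring
    have hD' : (0 : ℝ) < (D : ℝ) + 1 := by positivity
    calc |∑ d ∈ Ioc D N, Φ (N / d) * z d| * (D + 1)
        ≤ (2 * b * Φ (N / (D + 1))) * (D + 1) := by gcongr
      _ ≤ (2 * b * ((N : ℝ) / (D + 1))) * (D + 1) := by gcongr
      _ = 2 * b * N := by field_simp
  -- the limit sequence in D converges by Cauchy
  have hcauchy : CauchySeq (fun N : ℕ => (∑ d ∈ Ioc 0 N, z d * Φ (N / d)) / (N : ℝ)) := by
    rw [Metric.cauchySeq_iff']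
    intro ε hε
    obtain ⟨D, hD⟩ := exists_nat_gt (2 * b / (ε / 8))
    have hD1 : 2 * b / (D + 1) < ε / 8 := by
      have hD0 : (0 : ℝ) < (D : ℝ) + 1 := by positivity
      rw [div_lt_iff₀ hD0]
      rw [div_lt_iff₀ (by positivity)] at hD
      nlinarith
    obtain ⟨N0, hN0⟩ := (Metric.tendsto_atTop.mp (htrunc D)) (ε / 8) (by positivity)
    refine ⟨max N0 (max D 1), fun N hN => ?_⟩
    set N1 := max N0 (max D 1) with hN1
    have hA : ∀ N, N1 ≤ N → |(∑ d ∈ Ioc 0 N, z d * Φ (N / d)) / (N : ℝ)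
        - ∑ d ∈ Ioc 0 D, z d * (κ / d)| < ε / 4 := by
      intro N hN
      have a1 : N0 ≤ N := le_trans (le_max_left _ _) hN
      have a2 : D ≤ N := le_trans (le_trans (le_max_left _ _) (le_max_right _ _)) hN
      have a3 : 1 ≤ N := le_trans (le_trans (le_max_right _ _) (le_max_right _ _)) hN
      have b1 := htail D N a2 a3
      have b2 := hN0 N a1
      rw [Real.dist_eq] at b2
      calc _ ≤ |(∑ d ∈ Ioc 0 N, z d * Φ (N / d)) / N - (∑ d ∈ Ioc 0 D, z d * Φ (N / d)) / N|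
            + |(∑ d ∈ Ioc 0 D, z d * Φ (N / d)) / N - ∑ d ∈ Ioc 0 D, z d * (κ / d)| :=
            abs_sub_le _ _ _
        _ < ε / 8 + ε / 8 := by linarith
        _ = ε / 4 := by ring
    have c1 := hA N hN
    have c2 := hA N1 le_rfl
    rw [Real.dist_eq]
    rw [abs_sub_comm] at c2
    calc _ ≤ _ + _ := abs_sub_le _ (∑ d ∈ Ioc 0 D, z d * (κ / d)) _
      _ < ε / 4 + ε / 4 := by linarith
      _ < ε := by linarith
  exact cauchySeq_tendsto_of_complete hcauchy

end Pool.Agent.Lib_helper91
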