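import Mathlib
import Pool.Agent.Lib_helper91.Char
import Pool.Agent.Lib_helper91.Periodic

set_option autoImplicit false

namespace Pool.Agent.Lib_helper91

open Finset Filter Topology

lemma not_zero_coprime (n : ℤ) : ¬ (0 : ℕ).Coprime (2 * n.natAbs) := by
  rw [Nat.coprime_zero_left]; omega

lemma chi_zero (n : ℤ) : chi n 0 = 0 := chi_of_not_coprime (not_zero_coprime n)

/-- the character as a real arithmetic function -/
noncomputable def chiA (n : ℤ) : ArithmeticFunction ℝ :=
  ⟨fun m => (chi n m : ℝ), by simp [chi_zero]⟩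

/-- the principal character modulo `2n` as a real arithmetic function -/
noncomputable def chi0A (n : ℤ) : ArithmeticFunction ℝ :=
  ⟨fun m => if m.Coprime (2 * n.natAbs) then 1 else 0, by rw [if_neg (not_zero_coprime n)]⟩

lemma chiA_apply (n : ℤ) (m : ℕ) : chiA n m = (chi n m : ℝ) := rfl

lemma chi0A_apply (n : ℤ) (m : ℕ) :
    chi0A n m = if m.Coprime (2 * n.natAbs) then 1 else 0 := rfl

lemma chiA_eq_chi0A {n : ℤ} (hn : IsSquare n) : chiA n = chi0A n := by
  ext m
  rw [chiA_apply, chi0A_apply]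
  split_ifs with h
  · rw [chi_of_isSquare hn h]; norm_num
  · rw [chi_of_not_coprime h]; norm_num

lemma coprime_four_iff {n : ℤ} {m : ℕ} :
    m.Coprime (4 * n.natAbs) ↔ m.Coprime (2 * n.natAbs) := by
  constructor
  · intro h
    exact Nat.Coprime.coprime_dvd_right ⟨2, by ring⟩ h
  · intro h
    have h2 : m.Coprime 2 := Nat.Coprime.coprime_dvd_right (dvd_mul_right 2 _) h
    have hn : m.Coprime n.natAbs := Nat.Coprime.coprime_dvd_right (dvd_mul_left _ 2) h
    exact Nat.Coprime.mul_right (h2.pow_right 2) hn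

/-- the character as a Dirichlet character modulo `4|n|` -/
noncomputable def chiD (n : ℤ) : DirichletCharacter ℂ (4 * n.natAbs) where
  toFun := fun a => ((chi n a.val : ℤ) : ℂ)
  map_one' := by
    rw [ZMod.val_one_eq_one_mod, chi_mod, chi_one]; norm_num
  map_mul' := fun a b => by
    rw [ZMod.val_mul, chi_mod, chi_mul]; push_cast; ring
  map_nonunit' := fun a ha => by
    rcases eq_or_ne n 0 with h0 | h0
    · subst h0
      have : chi 0 a.val = 0 ∨ IsUnit a := by
        by_cases hc : (a.val).Coprime (2 * (0 : ℤ).natAbs)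
        · right
          have h1 : a.val = 1 := by simpa using hc
          have h2 : Int.natAbs a = 1 := h1
          exact Int.isUnit_iff_natAbs_eq.mpr h2
        · left; exact chi_of_not_coprime hc
      rcases this with h | h
      · simp only [h, Int.cast_zero]
      · exact absurd h ha
    · haveI : NeZero (4 * n.natAbs) := ⟨by have := Int.natAbs_ne_zero.mpr h0; omega⟩
      have h1 : ¬ (a.val).Coprime (4 * n.natAbs) := by
        intro h
        apply ha
        have := (ZMod.isUnit_iff_coprime a.val (4 * n.natAbs)).mpr h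
        rwa [ZMod.natCast_zmod_val] at this
      rw [coprime_four_iff] at h1
      rw [chi_of_not_coprime h1]; norm_num

lemma chiD_natCast (n : ℤ) (hn : n ≠ 0) (m : ℕ) :
    chiD n (m : ZMod (4 * n.natAbs)) = ((chi n m : ℤ) : ℂ) := by
  change ((chi n (m : ZMod (4 * n.natAbs)).val : ℤ) : ℂ) = _
  rw [ZMod.val_natCast, chi_mod]

lemma chiD_ne_one {n : ℤ} (hn0 : n ≠ 0) (hn : ¬ IsSquare n) : chiD n ≠ 1 := by
  obtain ⟨m, hm⟩ := exists_chi_eq_neg_one hn0 hn
  intro h
  have h1 := chiD_natCast n hn0 m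
  rw [h, hm] at h1
  have hu : IsUnit (m : ZMod (4 * n.natAbs)) := by
    rw [ZMod.isUnit_iff_coprime, coprime_four_iff]
    by_contra hc
    rw [chi_of_not_coprime hc] at hm
    norm_num at hm
  rw [MulChar.one_apply hu] at h1
  norm_num at h1

/-- the sum of the character over a period vanishes when `n` is not a square -/
lemma sum_chi_period {n : ℤ} (hn0 : n ≠ 0) (hn : ¬ IsSquare n) :
    ∑ m ∈ range (4 * n.natAbs), (chi n m : ℝ) = 0 := by
  haveI : NeZero (4 * n.natAbs) := ⟨by have := Int.natAbs_ne_zero.mpr hn0; omega⟩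
  have h1 : ∑ a : ZMod (4 * n.natAbs), chiD n a = 0 := MulChar.sum_eq_zero_of_ne_one
    (chiD_ne_one hn0 hn)
  have h2 : ∑ a : ZMod (4 * n.natAbs), chiD n a
      = ∑ m ∈ range (4 * n.natAbs), ((chi n m : ℤ) : ℂ) := by
    apply Finset.sum_bij (fun a _ => ZMod.val a)
    · intro a _; exact mem_range.mpr (ZMod.val_lt a)
    · intro a _ b _ h; exact ZMod.val_injective _ h
    · intro m hm
      exact ⟨(m : ZMod (4 * n.natAbs)), mem_univ _, ZMod.val_cast_of_lt (mem_range.mp hm)⟩
    · intro a _; rfl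
  rw [h2] at h1
  exact_mod_cast h1

lemma chi_add_period (n : ℤ) (m : ℕ) : chi n (m + 4 * n.natAbs) = chi n m := by
  rw [← chi_mod n (m + _), Nat.add_mod_right, chi_mod]

lemma chi0_add_period (n : ℤ) (m : ℕ) :
    chi0A n (m + 4 * n.natAbs) = chi0A n m := by
  rw [chi0A_apply, chi0A_apply]
  have : (m + 4 * n.natAbs).Coprime (2 * n.natAbs) ↔ m.Coprime (2 * n.natAbs) := by
    rw [← coprime_four_iff, ← coprime_four_iff]
    simp
  simp [this]

/-- the mean value of the principal character -/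
noncomputable def kap (n : ℤ) : ℝ :=
  (∑ m ∈ range (4 * n.natAbs), chi0A n m) / ((4 * n.natAbs : ℕ) : ℝ)

lemma chi0A_nonneg (n : ℤ) (m : ℕ) : 0 ≤ chi0A n m := by
  rw [chi0A_apply]; split_ifs <;> norm_num

lemma chi0A_le_one (n : ℤ) (m : ℕ) : chi0A n m ≤ 1 := by
  rw [chi0A_apply]; split_ifs <;> norm_num

lemma four_natAbs_pos {n : ℤ} (hn : n ≠ 0) : 0 < 4 * n.natAbs := by
  have := Int.natAbs_pos.mpr hn; omega

lemma kap_pos {n : ℤ} (hn : n ≠ 0) : 0 < kap n := by
  have hM := four_natAbs_pos hn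
  unfold kap
  apply div_pos _ (by exact_mod_cast hM)
  have h1 : (1 : ℕ) ∈ range (4 * n.natAbs) := by
    rw [mem_range]; omega
  calc (0 : ℝ) < chi0A n 1 := by rw [chi0A_apply]; simp
    _ ≤ _ := Finset.single_le_sum (fun i _ => chi0A_nonneg n i) h1

/-- the summatory function of the principal character -/
noncomputable def Phi (n : ℤ) (u : ℕ) : ℝ := ∑ m ∈ Ioc 0 u, chi0A n m

lemma Phi_bound {n : ℤ} (hn : n ≠ 0) :
    ∃ K : ℝ, 0 ≤ K ∧ ∀ N : ℕ, |Phi n N - (N : ℝ) * kap n| ≤ K :=
  periodic_sum_Ioc _ _ (four_natAbs_pos hn) (chi0_add_period n)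

lemma chi_bound {n : ℤ} (hn0 : n ≠ 0) (hn : ¬ IsSquare n) :
    ∃ b : ℝ, ∀ N : ℕ, |∑ m ∈ Ioc 0 N, (chi n m : ℝ)| ≤ b := by
  obtain ⟨K, _, hK⟩ := periodic_sum_Ioc (fun m => (chi n m : ℝ)) _ (four_natAbs_pos hn0)
    (fun m => by simp only [chi_add_period])
  refine ⟨K, fun N => ?_⟩
  have := hK N
  rw [sum_chi_period hn0 hn] at this
  simpa using this

lemma Phi_mono (n : ℤ) : Monotone (Phi n) := by
  intro a b hab
  unfold Phi
  apply Finset.sum_le_sum_of_subset_of_nonneg
  · exact Finset.Ioc_subset_Ioc_right hab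
  · intro i _ _; exact chi0A_nonneg n i

lemma Phi_nonneg (n : ℤ) (u : ℕ) : 0 ≤ Phi n u := Finset.sum_nonneg fun i _ => chi0A_nonneg n i

lemma Phi_le (n : ℤ) (u : ℕ) : Phi n u ≤ u := by
  unfold Phi
  calc ∑ m ∈ Ioc 0 u, chi0A n m ≤ ∑ m ∈ Ioc 0 u, (1 : ℝ) :=
        Finset.sum_le_sum fun i _ => chi0A_le_one n i
    _ = u := by simp

lemma Phi_tendsto {n : ℤ} (hn : n ≠ 0) :
    Tendsto (fun N : ℕ => Phi n N / N) atTop (𝓝 (kap n)) := by
  obtain ⟨K, hK0, hK⟩ := Phi_bound hn
  rw [tendsto_iff_dist_tendsto_zero]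
  have h1 : Tendsto (fun N : ℕ => K / (N : ℝ)) atTop (𝓝 0) :=
    tendsto_const_div_atTop_nhds_zero_nat K
  refine squeeze_zero' (Eventually.of_forall fun _ => dist_nonneg) ?_ h1
  filter_upwards [eventually_ge_atTop 1] with N hN
  have hN' : (0 : ℝ) < N := by exact_mod_cast hN
  rw [Real.dist_eq]
  have : Phi n N / N - kap n = (Phi n N - N * kap n) / N := by field_simp
  rw [this, abs_div, abs_of_pos hN']
  gcongr
  exact hK N

lemma sum_chi_mul (n : ℤ) (N : ℕ) : ∑ m ∈ Ioc 0 N, (chiA n * chi0A n) m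
    = ∑ d ∈ Ioc 0 N, (chi n d : ℝ) * Phi n (N / d) :=
  ArithmeticFunction.sum_Ioc_mul_eq_sum_sum _ _ _

/-- complex versions -/
noncomputable def chiC (n : ℤ) : ArithmeticFunction ℂ :=
  ⟨fun m => ((chi n m : ℤ) : ℂ), by simp [chi_zero]⟩

noncomputable def chi0C (n : ℤ) : ArithmeticFunction ℂ :=
  ⟨fun m => if m.Coprime (2 * n.natAbs) then 1 else 0, by rw [if_neg (not_zero_coprime n)]⟩

lemma cast_chi_mul (n : ℤ) (m : ℕ) :
    (((chiA n * chi0A n) m : ℝ) : ℂ) = (chiC n * chi0C n) m := by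
  rw [ArithmeticFunction.mul_apply, ArithmeticFunction.mul_apply, Complex.ofReal_sum]
  apply Finset.sum_congr rfl
  intro x _
  rw [Complex.ofReal_mul]
  have h1 : ((chiA n x.1 : ℝ) : ℂ) = chiC n x.1 := by
    change (((chi n x.1 : ℤ) : ℝ) : ℂ) = ((chi n x.1 : ℤ) : ℂ)
    push_cast; rfl
  have h2 : ((chi0A n x.2 : ℝ) : ℂ) = chi0C n x.2 := by
    change ((if (x.2).Coprime (2 * n.natAbs) then (1 : ℝ) else 0 : ℝ) : ℂ)
      = if (x.2).Coprime (2 * n.natAbs) then (1 : ℂ) else 0
    split_ifs <;> norm_num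
  rw [h1, h2]

lemma sum_div_tendsto_complex {f : ℕ → ℝ} {g : ℕ → ℂ} (hfg : ∀ m, ((f m : ℝ) : ℂ) = g m) {A : ℝ}
    (h : Tendsto (fun N : ℕ => (∑ m ∈ Ioc 0 N, f m) / (N : ℝ)) atTop (𝓝 A)) :
    Tendsto (fun N : ℕ => (∑ m ∈ Icc 1 N, g m) / (N : ℂ)) atTop (𝓝 (A : ℂ)) := by
  have h1 := (Complex.continuous_ofReal.tendsto A).comp h
  refine h1.congr ?_
  intro N
  simp only [Function.comp]
  push_cast
  congr 1
  have : Icc 1 N = Ioc 0 N := by ext x; simp only [mem_Icc, mem_Ioc]; omega
  rw [this]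
  exact Finset.sum_congr rfl fun m _ => hfg m

/-- The key analytic input: for `n` not a square, the mean value of `χ * χ₀` exists
and is nonzero. -/
theorem nonprincipal_limit {n : ℤ} (hn0 : n ≠ 0) (hn : ¬ IsSquare n) :
    ∃ A : ℝ, A ≠ 0 ∧
      Tendsto (fun N : ℕ => (∑ m ∈ Ioc 0 N, (chiA n * chi0A n) m) / (N : ℝ)) atTop (𝓝 A) := by
  haveI : NeZero (4 * n.natAbs) := ⟨(four_natAbs_pos hn0).ne'⟩
  obtain ⟨b, hb⟩ := chi_bound hn0 hn
  obtain ⟨A, hA⟩ := exists_limit_twisted (fun m => (chi n m : ℝ)) b hb (Phi n) (Phi_mono n)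
    (Phi_nonneg n) (Phi_le n) (Phi_tendsto hn0)
  have hA' : Tendsto (fun N : ℕ => (∑ m ∈ Ioc 0 N, (chiA n * chi0A n) m) / (N : ℝ)) atTop
      (𝓝 A) := by
    simp_rw [sum_chi_mul]; exact hA
  refine ⟨A, ?_, hA'⟩
  -- L-series argument
  have hsumC : ∀ s : ℂ, 1 < s.re → LSeriesSummable (chiC n) s := by
    intro s hs
    refine LSeriesSummable_of_bounded_of_one_lt_re (m := 1) (fun m _ => ?_) hs
    change ‖((chi n m : ℤ) : ℂ)‖ ≤ 1
    rw [Complex.norm_intCast]
    exact_mod_cast abs_chi_le n m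
  have hsum0 : ∀ s : ℂ, 1 < s.re → LSeriesSummable (chi0C n) s := by
    intro s hs
    refine LSeriesSummable_of_bounded_of_one_lt_re (m := 1) (fun m _ => ?_) hs
    change ‖(if m.Coprime (2 * n.natAbs) then (1 : ℂ) else 0)‖ ≤ 1
    split_ifs <;> simp
  have t1 : Tendsto (fun s : ℝ => ((s : ℂ) - 1) * LSeries (chiC n * chi0C n : ArithmeticFunction ℂ) s)
      (𝓝[>] 1) (𝓝 (A : ℂ)) := by
    apply LSeries_tendsto_sub_mul_nhds_one_of_tendsto_sum_div
    · exact sum_div_tendsto_complex (cast_chi_mul n) hA'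
    · intro s hs
      exact ArithmeticFunction.LSeriesSummable_mul (hsumC s (by simpa using hs))
        (hsum0 s (by simpa using hs))
  have t2 : Tendsto (fun s : ℝ => ((s : ℂ) - 1) * LSeries (chi0C n) s)
      (𝓝[>] 1) (𝓝 (kap n : ℂ)) := by
    apply LSeries_tendsto_sub_mul_nhds_one_of_tendsto_sum_div
    · apply sum_div_tendsto_complex (f := chi0A n) (g := chi0C n) _ (Phi_tendsto hn0)
      intro m
      change ((if m.Coprime (2 * n.natAbs) then (1 : ℝ) else 0 : ℝ) : ℂ)
        = if m.Coprime (2 * n.natAbs) then (1 : ℂ) else 0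
      split_ifs <;> norm_num
    · intro s hs
      exact hsum0 s (by simpa using hs)
  have hχ : chiD n ≠ 1 := chiD_ne_one hn0 hn
  have t3 : Tendsto (fun s : ℝ => LSeries (chiC n) s) (𝓝[>] 1)
      (𝓝 (DirichletCharacter.LFunction (chiD n) 1)) := by
    have hc : Continuous (fun s : ℝ => DirichletCharacter.LFunction (chiD n) (s : ℂ)) :=
      (DirichletCharacter.differentiable_LFunction hχ).continuous.comp Complex.continuous_ofReal
    have hc1 := (hc.tendsto 1).mono_left (nhdsWithin_le_nhds (s := Set.Ioi (1 : ℝ)))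
    simp only [Complex.ofReal_one] at hc1
    refine hc1.congr' ?_
    filter_upwards [self_mem_nhdsWithin] with s hs
    rw [Set.mem_Ioi] at hs
    rw [DirichletCharacter.LFunction_eq_LSeries (chiD n) (by simpa using hs)]
    apply LSeries_congr
    intro m _
    exact chiD_natCast n hn0 m
  have t4 : Tendsto (fun s : ℝ => ((s : ℂ) - 1) * LSeries (chiC n * chi0C n : ArithmeticFunction ℂ) s)
      (𝓝[>] 1) (𝓝 ((kap n : ℂ) * DirichletCharacter.LFunction (chiD n) 1)) := by
    refine (t2.mul t3).congr' ?_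
    filter_upwards [self_mem_nhdsWithin] with s hs
    rw [Set.mem_Ioi] at hs
    rw [ArithmeticFunction.LSeries_mul' (hsumC s (by simpa using hs)) (hsum0 s (by simpa using hs))]
    ring
  have heq := tendsto_nhds_unique t1 t4
  intro hA0
  rw [hA0, Complex.ofReal_zero] at heq
  have h1 : (kap n : ℂ) ≠ 0 := by exact_mod_cast (kap_pos hn0).ne'
  exact (mul_ne_zero h1 (DirichletCharacter.LFunction_apply_one_ne_zero hχ)) heq.symm

/-- For `n` a square: the mean value of `χ₀ * χ₀` has order `N log N`. -/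
theorem principal_limit {n : ℤ} (hn0 : n ≠ 0) (hn : IsSquare n) :
    ∃ A : ℝ, A ≠ 0 ∧
      Tendsto (fun N : ℕ => (∑ m ∈ Ioc 0 N, (chiA n * chi0A n) m) /
        ((N : ℝ) * (1 + Real.log N))) atTop (𝓝 A) := by
  obtain ⟨K, hK0, hK⟩ := Phi_bound hn0
  have hκ := kap_pos hn0
  refine ⟨kap n * kap n, (mul_pos hκ hκ).ne', ?_⟩
  have hchi : ∀ d, (chi n d : ℝ) = chi0A n d := by
    intro d; rw [← chiA_apply, chiA_eq_chi0A hn]
  -- the logarithmic sum
  have hlog : ∀ N : ℕ, 1 ≤ N → |∑ d ∈ Ioc 0 N, chi0A n d / d - kap n * Real.log N|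
      ≤ 2 * K + kap n := by
    intro N hN
    have h1 := abel_bound (fun d => chi0A n d - kap n) (fun d => 1 / (d : ℝ)) K
      (by
        intro N
        rw [Finset.sum_sub_distrib]
        simp only [Finset.sum_const, Nat.card_Ioc, Nat.sub_zero, nsmul_eq_mul]
        exact hK N) 0
      (by
        intro m hm
        have : (0 : ℝ) < m := by exact_mod_cast hm
        push_cast
        apply one_div_le_one_div_of_le this
        linarith)
      (by intro m _; positivity) N (Nat.zero_le N)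
    have h2 : ∑ d ∈ Ioc 0 N, 1 / (d : ℝ) * (chi0A n d - kap n)
        = ∑ d ∈ Ioc 0 N, chi0A n d / d - kap n * ∑ d ∈ Ioc 0 N, 1 / (d : ℝ) := by
      rw [Finset.mul_sum, ← Finset.sum_sub_distrib]
      apply Finset.sum_congr rfl
      intro d _; ring
    rw [h2] at h1
    have hH : ∑ d ∈ Ioc 0 N, 1 / (d : ℝ) = ((harmonic N : ℚ) : ℝ) := by
      rw [harmonic_eq_sum_Icc]
      push_cast
      have : Icc 1 N = Ioc 0 N := by ext x; simp only [mem_Icc, mem_Ioc]; omega
      rw [this]
      apply Finset.sum_congr rfl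
      intro d _; rw [one_div]
    have hH1 : |((harmonic N : ℚ) : ℝ) - Real.log N| ≤ 1 := by
      have a1 := harmonic_le_one_add_log N
      have a2 := log_add_one_le_harmonic N
      have a3 : Real.log N ≤ Real.log ((N + 1 : ℕ) : ℝ) := by
        apply Real.log_le_log (by exact_mod_cast hN)
        push_cast; linarith
      rw [abs_le]; constructor <;> linarith
    rw [hH] at h1
    have h3 : ∑ d ∈ Ioc 0 N, chi0A n d / d - kap n * Real.log N
        = (∑ d ∈ Ioc 0 N, chi0A n d / d - kap n * ((harmonic N : ℚ) : ℝ))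
          + kap n * (((harmonic N : ℚ) : ℝ) - Real.log N) := by ring
    rw [h3]
    calc _ ≤ |∑ d ∈ Ioc 0 N, chi0A n d / d - kap n * ((harmonic N : ℚ) : ℝ)|
          + |kap n * (((harmonic N : ℚ) : ℝ) - Real.log N)| := abs_add_le _ _
      _ ≤ 2 * K + kap n := by
          apply add_le_add
          · simpa using h1
          · rw [abs_mul, abs_of_pos hκ]
            calc kap n * |((harmonic N : ℚ) : ℝ) - Real.log N| ≤ kap n * 1 := by gcongr
              _ = kap n := mul_one _
  -- the main estimate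
  have hmain : ∀ N : ℕ, 1 ≤ N →
      |∑ m ∈ Ioc 0 N, (chiA n * chi0A n) m - kap n * kap n * (N * Real.log N)|
        ≤ (K + kap n + kap n * (2 * K + kap n)) * N := by
    intro N hN
    have hN' : (0 : ℝ) < N := by exact_mod_cast hN
    rw [sum_chi_mul]
    have e1 : ∑ d ∈ Ioc 0 N, (chi n d : ℝ) * Phi n (N / d) - kap n * kap n * (N * Real.log N)
        = ∑ d ∈ Ioc 0 N, chi0A n d * (Phi n (N / d) - (N / d : ℝ) * kap n)
          + kap n * N * (∑ d ∈ Ioc 0 N, chi0A n d / d - kap n * Real.log N) := by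
      rw [mul_sub, Finset.mul_sum]
      have : ∑ d ∈ Ioc 0 N, (chi n d : ℝ) * Phi n (N / d)
          = ∑ d ∈ Ioc 0 N, chi0A n d * (Phi n (N / d) - (N / d : ℝ) * kap n)
            + ∑ d ∈ Ioc 0 N, kap n * N * (chi0A n d / d) := by
        rw [← Finset.sum_add_distrib]
        apply Finset.sum_congr rfl
        intro d _
        rw [hchi]; ring
      rw [this]; ring
    rw [e1]
    have e2 : |∑ d ∈ Ioc 0 N, chi0A n d * (Phi n (N / d) - (N / d : ℝ) * kap n)|
        ≤ (K + kap n) * N := by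
      calc _ ≤ ∑ d ∈ Ioc 0 N, |chi0A n d * (Phi n (N / d) - (N / d : ℝ) * kap n)| :=
            Finset.abs_sum_le_sum_abs _ _
        _ ≤ ∑ d ∈ Ioc 0 N, (K + kap n) := by
            apply Finset.sum_le_sum
            intro d hd
            rw [mem_Ioc] at hd
            have hd' : (0 : ℝ) < d := by exact_mod_cast hd.1
            rw [abs_mul, abs_of_nonneg (chi0A_nonneg n d)]
            have c1 : |Phi n (N / d) - (N / d : ℝ) * kap n| ≤ K + kap n := by
              have c2 := hK (N / d)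
              have c3 : |((N / d : ℕ) : ℝ) * kap n - (N / d : ℝ) * kap n| ≤ kap n := by
                rw [← sub_mul, abs_mul, abs_of_pos hκ]
                have c4 : |((N / d : ℕ) : ℝ) - (N / d : ℝ)| ≤ 1 := by
                  have c5 : ((N / d : ℕ) : ℝ) ≤ (N / d : ℝ) := Nat.cast_div_le
                  have c6 : (N / d : ℝ) ≤ ((N / d : ℕ) : ℝ) + 1 := by
                    have := Nat.lt_mul_div_succ N hd.1
                    have h2 : (N : ℝ) < d * (((N / d : ℕ) : ℝ) + 1) := by exact_mod_cast this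
                    rw [div_le_iff₀ hd']; linarith
                  rw [abs_le]; constructor <;> linarith
                calc _ ≤ 1 * kap n := by gcongr
                  _ = kap n := one_mul _
              calc _ ≤ |Phi n (N / d) - ((N / d : ℕ) : ℝ) * kap n|
                    + |((N / d : ℕ) : ℝ) * kap n - (N / d : ℝ) * kap n| := abs_sub_le _ _ _
                _ ≤ K + kap n := add_le_add c2 c3
            calc _ ≤ 1 * (K + kap n) :=
                  mul_le_mul (chi0A_le_one n d) c1 (abs_nonneg _) zero_le_one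
              _ = K + kap n := one_mul _
        _ = (K + kap n) * N := by simp; ring
    calc _ ≤ |∑ d ∈ Ioc 0 N, chi0A n d * (Phi n (N / d) - (N / d : ℝ) * kap n)|
          + |kap n * N * (∑ d ∈ Ioc 0 N, chi0A n d / d - kap n * Real.log N)| := abs_add_le _ _
      _ ≤ (K + kap n) * N + kap n * N * (2 * K + kap n) := by
          apply add_le_add e2
          rw [abs_mul, abs_of_pos (by positivity)]
          gcongr
          exact hlog N hN
      _ = _ := by ring
  rw [tendsto_iff_dist_tendsto_zero]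
  have hlogtop : Tendsto (fun N : ℕ => 1 + Real.log (N : ℝ)) atTop atTop :=
    tendsto_atTop_add_const_left _ _ (Real.tendsto_log_atTop.comp tendsto_natCast_atTop_atTop)
  have h1 : Tendsto (fun N : ℕ => ((K + kap n + kap n * (2 * K + kap n)) + kap n * kap n)
      / (1 + Real.log (N : ℝ))) atTop (𝓝 0) := hlogtop.const_div_atTop _
  refine squeeze_zero' (Eventually.of_forall fun _ => dist_nonneg) ?_ h1
  filter_upwards [eventually_ge_atTop 1] with N hN
  have hN' : (0 : ℝ) < N := by exact_mod_cast hN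
  have hlogN : 0 ≤ Real.log N := Real.log_natCast_nonneg N
  rw [Real.dist_eq]
  have e : (∑ m ∈ Ioc 0 N, (chiA n * chi0A n) m) / ((N : ℝ) * (1 + Real.log N)) - kap n * kap n
      = ((∑ m ∈ Ioc 0 N, (chiA n * chi0A n) m - kap n * kap n * (N * Real.log N))
          - kap n * kap n * N) / ((N : ℝ) * (1 + Real.log N)) := by
    field_simp
    ring
  rw [e, abs_div, abs_of_pos (by positivity : 0 < (N : ℝ) * (1 + Real.log N)),
    div_le_div_iff₀ (by positivity) (by positivity)]
  have h2 := hmain N hN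
  have h3 : |(∑ m ∈ Ioc 0 N, (chiA n * chi0A n) m - kap n * kap n * (N * Real.log N))
          - kap n * kap n * N| ≤ ((K + kap n + kap n * (2 * K + kap n)) + kap n * kap n) * N := by
    calc _ ≤ |∑ m ∈ Ioc 0 N, (chiA n * chi0A n) m - kap n * kap n * (N * Real.log N)|
          + |kap n * kap n * N| := abs_sub _ _
      _ ≤ (K + kap n + kap n * (2 * K + kap n)) * N + kap n * kap n * N := by
          apply add_le_add h2
          rw [abs_of_pos (by positivity)]
      _ = _ := by ring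
  calc _ ≤ (((K + kap n + kap n * (2 * K + kap n)) + kap n * kap n) * N) * (1 + Real.log N) := by
        gcongr
    _ = _ := by ring

end Pool.Agent.Lib_helper91
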