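import Mathlib
import Pool.Agent.Lib_helper91.Rho

set_option autoImplicit false

namespace Pool.Agent.Lib_helper91

open Finset

lemma dvd_sq_sub_iff_of_modEq {n : ℤ} {c : ℕ} {t s : ℕ} (h : t ≡ s [MOD c]) :
    ((c : ℤ) ∣ (t : ℤ) ^ 2 - n) ↔ ((c : ℤ) ∣ (s : ℤ) ^ 2 - n) := by
  have h' : (t : ℤ) ≡ s [ZMOD c] := Int.natCast_modEq_iff.mpr h
  have h2 : (t : ℤ) ^ 2 - n ≡ (s : ℤ) ^ 2 - n [ZMOD c] := (h'.pow 2).sub_right n
  rw [← Int.modEq_zero_iff_dvd, ← Int.modEq_zero_iff_dvd]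
  exact ⟨fun h => h2.symm.trans h, fun h => h2.trans h⟩

lemma mod_mem_rootSet {n : ℤ} {c t : ℕ} (hc : 0 < c) (h : (c : ℤ) ∣ (t : ℤ) ^ 2 - n) :
    t % c ∈ rootSet n c := by
  rw [mem_rootSet]
  exact ⟨Nat.mod_lt _ hc, (dvd_sq_sub_iff_of_modEq (Nat.mod_modEq t c)).mpr h⟩

lemma rho_mul (n : ℤ) {a b : ℕ} (hab : Nat.Coprime a b) : rho n (a * b) = rho n a * rho n b := by
  rcases Nat.eq_zero_or_pos a with ha | ha
  · subst ha; simp [rho_zero]
  rcases Nat.eq_zero_or_pos b with hb | hb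
  · subst hb; simp [rho_zero]
  unfold rho
  rw [← Finset.card_product]
  apply Finset.card_bij (fun t _ => (t % a, t % b))
  · intro t ht
    rw [mem_rootSet] at ht
    obtain ⟨_, hd⟩ := ht
    rw [Finset.mem_product]
    push_cast at hd
    exact ⟨mod_mem_rootSet ha ((dvd_mul_right _ _).trans hd),
      mod_mem_rootSet hb ((dvd_mul_left _ _).trans hd)⟩
  · intro t ht s hs he
    rw [Prod.mk.injEq] at he
    obtain ⟨e1, e2⟩ := he
    have h1 : t ≡ s [MOD a] := e1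
    have h2 : t ≡ s [MOD b] := e2
    have h3 : t ≡ s [MOD a * b] := (Nat.modEq_and_modEq_iff_modEq_mul hab).mp ⟨h1, h2⟩
    have h4 := (mem_rootSet.mp ht).1
    have h5 := (mem_rootSet.mp hs).1
    exact Nat.ModEq.eq_of_lt_of_lt h3 h4 h5
  · rintro ⟨x, y⟩ hxy
    rw [Finset.mem_product] at hxy
    obtain ⟨hx, hy⟩ := hxy
    simp only at hx hy
    obtain ⟨hx1, hx2⟩ := mem_rootSet.mp hx
    obtain ⟨hy1, hy2⟩ := mem_rootSet.mp hy
    set t := Nat.chineseRemainder hab x y with ht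
    have ht1 : (t : ℕ) ≡ x [MOD a] := t.2.1
    have ht2 : (t : ℕ) ≡ y [MOD b] := t.2.2
    refine ⟨(t : ℕ), ?_, ?_⟩
    · rw [mem_rootSet]
      refine ⟨Nat.chineseRemainder_lt_mul hab x y ha.ne' hb.ne', ?_⟩
      push_cast
      apply IsCoprime.mul_dvd
      · exact Nat.isCoprime_iff_coprime.mpr hab
      · exact (dvd_sq_sub_iff_of_modEq ht1).mpr hx2
      · exact (dvd_sq_sub_iff_of_modEq ht2).mpr hy2
    · simp only [Prod.mk.injEq]
      constructor
      · have : (t : ℕ) % a = x % a := ht1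
        rw [this, Nat.mod_eq_of_lt hx1]
      · have : (t : ℕ) % b = y % b := ht2
        rw [this, Nat.mod_eq_of_lt hy1]

/-- Lifting of square roots from modulus `p` to modulus `p ^ (k+1)`. -/
lemma exists_sq_root_prime_pow (n : ℤ) (p : ℕ) (hp : p.Prime) (hp2 : p ≠ 2)
    (hpn : ¬ (p : ℤ) ∣ n) (k : ℕ) (t0 : ℤ) (ht0 : (p : ℤ) ∣ t0 ^ 2 - n) :
    ∃ x : ℤ, ((p ^ (k + 1) : ℕ) : ℤ) ∣ x ^ 2 - n := by
  have hodd : Odd p := hp.odd_of_ne_two hp2
  have hq : Odd (p ^ k) := hodd.pow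
  obtain ⟨m, hm⟩ := hq
  have hcop : IsCoprime n ((p ^ (k + 1) : ℕ) : ℤ) := by
    push_cast
    apply IsCoprime.pow_right
    rw [isCoprime_comm]
    exact (Nat.prime_iff_prime_int.mp hp).coprime_iff_not_dvd.mpr hpn
  obtain ⟨v, w, hvw⟩ := hcop
  have h1 : ((p ^ (k + 1) : ℕ) : ℤ) ∣ (t0 ^ 2) ^ p ^ k - n ^ p ^ k := by
    have := dvd_sub_pow_of_dvd_sub (R := ℤ) (p := p) (a := t0 ^ 2) (b := n) (by exact_mod_cast ht0) k
    push_cast
    exact this
  have hnv : ((p ^ (k + 1) : ℕ) : ℤ) ∣ (n * v) - 1 := by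
    refine ⟨-w, ?_⟩
    linarith
  refine ⟨t0 ^ (p ^ k) * v ^ m, ?_⟩
  have h2 : (n * v) ^ (2 * m) ≡ 1 [ZMOD ((p ^ (k + 1) : ℕ) : ℤ)] := by
    have : n * v ≡ 1 [ZMOD ((p ^ (k + 1) : ℕ) : ℤ)] := (Int.modEq_iff_dvd.mpr (by
      have := dvd_neg.mpr hnv
      simpa using this))
    simpa using this.pow (2 * m)
  have h3 : (t0 ^ 2) ^ p ^ k ≡ n ^ p ^ k [ZMOD ((p ^ (k + 1) : ℕ) : ℤ)] :=
    (Int.modEq_iff_dvd.mpr (by
      have := dvd_neg.mpr h1
      simpa using this))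
  have h4 : (t0 ^ (p ^ k) * v ^ m) ^ 2 ≡ n [ZMOD ((p ^ (k + 1) : ℕ) : ℤ)] := by
    calc (t0 ^ (p ^ k) * v ^ m) ^ 2 = (t0 ^ 2) ^ p ^ k * v ^ (2 * m) := by ring
      _ ≡ n ^ p ^ k * v ^ (2 * m) [ZMOD ((p ^ (k + 1) : ℕ) : ℤ)] := h3.mul_right _
      _ = n * (n * v) ^ (2 * m) := by rw [hm]; ring
      _ ≡ n * 1 [ZMOD ((p ^ (k + 1) : ℕ) : ℤ)] := h2.mul_left _
      _ = n := mul_one n
  exact (Int.modEq_iff_dvd.mp h4.symm)

/-- For an odd prime `p` not dividing `n` and `k ≥ 1`, the number of square roots of `n`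
modulo `p^k` is `1 + (n/p)`. -/
lemma rho_prime_pow (n : ℤ) (p : ℕ) (hp : p.Prime) (hp2 : p ≠ 2) (hpn : ¬ (p : ℤ) ∣ n) (k : ℕ) :
    (rho n (p ^ (k + 1)) : ℤ) = 1 + jacobiSym n p := by
  haveI : Fact p.Prime := ⟨hp⟩
  have hn0 : ((n : ℤ) : ZMod p) ≠ 0 := by
    rw [Ne, ZMod.intCast_zmod_eq_zero_iff_dvd]; exact_mod_cast hpn
  have hpos : 0 < p ^ (k + 1) := pow_pos hp.pos _
  rw [← jacobiSym.legendreSym.to_jacobiSym]
  rcases legendreSym.eq_one_or_neg_one p (a := n) (by exact_mod_cast hn0) with h | h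
  · -- square case
    rw [h]
    have hsq : IsSquare ((n : ℤ) : ZMod p) := (legendreSym.eq_one_iff p hn0).mp h
    obtain ⟨z, hz⟩ := hsq
    have hz' : (p : ℤ) ∣ ((z.val : ℤ)) ^ 2 - n := by
      rw [← ZMod.intCast_zmod_eq_zero_iff_dvd]
      push_cast
      rw [ZMod.natCast_zmod_val, hz]; ring
    obtain ⟨x, hx⟩ := exists_sq_root_prime_pow n p hp hp2 hpn k _ hz'
    -- normalise x to a natural residue
    obtain ⟨t, ht, htx⟩ : ∃ t : ℕ, t < p ^ (k + 1) ∧ ((p ^ (k + 1) : ℕ) : ℤ) ∣ (t : ℤ) ^ 2 - n := by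
      refine ⟨(x % ((p ^ (k + 1) : ℕ) : ℤ)).toNat, ?_, ?_⟩
      · have h1 := Int.emod_lt_of_pos x (by exact_mod_cast hpos : (0 : ℤ) < ((p ^ (k + 1) : ℕ) : ℤ))
        have h2 := Int.emod_nonneg x (by exact_mod_cast hpos.ne' : ((p ^ (k + 1) : ℕ) : ℤ) ≠ 0)
        omega
      · have h2 := Int.emod_nonneg x (by exact_mod_cast hpos.ne' : ((p ^ (k + 1) : ℕ) : ℤ) ≠ 0)
        rw [Int.toNat_of_nonneg h2]
        have h3 : x % ((p ^ (k + 1) : ℕ) : ℤ) ≡ x [ZMOD ((p ^ (k + 1) : ℕ) : ℤ)] := Int.mod_modEq _ _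
        have h4 := (h3.pow 2).sub_right n
        rw [← Int.modEq_zero_iff_dvd] at hx ⊢
        exact h4.trans hx
    have hpt : ¬ (p : ℤ) ∣ (t : ℤ) := by
      intro hd
      apply hpn
      have h1 : (p : ℤ) ∣ (t : ℤ) ^ 2 - n := by
        refine dvd_trans ?_ htx
        push_cast
        exact dvd_pow_self _ (by omega)
      have h2 : (p : ℤ) ∣ (t : ℤ) ^ 2 := dvd_pow hd (by norm_num)
      have : n = (t : ℤ) ^ 2 - ((t : ℤ) ^ 2 - n) := by ring
      rw [this]; exact dvd_sub h2 h1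
    have htpos : 0 < t := by
      rcases Nat.eq_zero_or_pos t with h0 | h0
      · subst h0; simp at hpt
      · exact h0
    have hset : rootSet n (p ^ (k + 1)) = {t, p ^ (k + 1) - t} := by
      ext s
      rw [mem_rootSet, Finset.mem_insert, Finset.mem_singleton]
      constructor
      · rintro ⟨hs, hsd⟩
        have h1 : ((p ^ (k + 1) : ℕ) : ℤ) ∣ ((s : ℤ) - t) * ((s : ℤ) + t) := by
          have : ((s : ℤ) - t) * ((s : ℤ) + t) = ((s : ℤ) ^ 2 - n) - ((t : ℤ) ^ 2 - n) := by ring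
          rw [this]; exact dvd_sub hsd htx
        -- p cannot divide both
        have hpp : Prime (p : ℤ) := Nat.prime_iff_prime_int.mp hp
        have h2 : ¬ ((p : ℤ) ∣ (s : ℤ) - t ∧ (p : ℤ) ∣ (s : ℤ) + t) := by
          rintro ⟨a1, a2⟩
          have h3 : (p : ℤ) ∣ 2 * (t : ℤ) := by
            have : 2 * (t : ℤ) = ((s : ℤ) + t) - ((s : ℤ) - t) := by ring
            rw [this]; exact dvd_sub a2 a1
          rcases hpp.dvd_or_dvd h3 with h4 | h4
          · have : p ∣ 2 := by exact_mod_cast h4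
            exact hp2 ((Nat.prime_dvd_prime_iff_eq hp Nat.prime_two).mp this)
          · exact hpt h4
        push_cast at h1
        by_cases h5 : (p : ℤ) ∣ (s : ℤ) - t
        · have h6 : ¬ (p : ℤ) ∣ (s : ℤ) + t := fun h => h2 ⟨h5, h⟩
          have h7 : IsCoprime ((p : ℤ) ^ (k + 1)) ((s : ℤ) + t) :=
            (hpp.coprime_iff_not_dvd.mpr h6).pow_left
          have h8 : (p : ℤ) ^ (k + 1) ∣ (s : ℤ) - t := h7.dvd_of_dvd_mul_right h1
          left
          have h9 : ((p ^ (k + 1) : ℕ) : ℤ) ∣ (s : ℤ) - t := by exact_mod_cast h8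
          have h10 : (s : ℤ) ≡ t [ZMOD ((p ^ (k + 1) : ℕ) : ℤ)] :=
            (Int.modEq_iff_dvd.mpr (by
              have := dvd_neg.mpr h9
              simpa using this))
          exact Nat.ModEq.eq_of_lt_of_lt (Int.natCast_modEq_iff.mp h10) hs ht
        · have h7 : IsCoprime ((p : ℤ) ^ (k + 1)) ((s : ℤ) - t) :=
            (hpp.coprime_iff_not_dvd.mpr h5).pow_left
          have h8 : (p : ℤ) ^ (k + 1) ∣ (s : ℤ) + t := h7.dvd_of_dvd_mul_left h1
          right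
          have h9 : p ^ (k + 1) ∣ s + t := by exact_mod_cast h8
          obtain ⟨q, hq⟩ := h9
          have hq1 : q = 1 := by
            have : q < 2 := by
              by_contra hcon
              push Not at hcon
              have : p ^ (k + 1) * 2 ≤ p ^ (k + 1) * q := Nat.mul_le_mul_left _ hcon
              omega
            have : q ≠ 0 := by
              intro h0; subst h0; simp at hq; omega
            omega
          subst hq1
          omega
      · rintro (rfl | rfl)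
        · exact ⟨ht, htx⟩
        · refine ⟨by omega, ?_⟩
          rw [Nat.cast_sub ht.le]
          have : (((p ^ (k + 1) : ℕ) : ℤ) - (t : ℤ)) ^ 2 - n
              = ((p ^ (k + 1) : ℕ) : ℤ) * (((p ^ (k + 1) : ℕ) : ℤ) - 2 * t) + ((t : ℤ) ^ 2 - n) := by
            ring
          rw [this]
          exact dvd_add (dvd_mul_right _ _) htx
    have hne : t ≠ p ^ (k + 1) - t := by
      intro he
      have h1 : p ^ (k + 1) = 2 * t := by omega
      have h2 : Odd (p ^ (k + 1)) := (hp.odd_of_ne_two hp2).pow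
      rw [h1] at h2
      exact (Nat.not_odd_iff_even.mpr (even_two_mul t)) h2
    rw [rho, hset, Finset.card_pair hne]
    norm_num
  · -- nonsquare case
    rw [h]
    have hsq : ¬ IsSquare ((n : ℤ) : ZMod p) := (legendreSym.eq_neg_one_iff p).mp h
    have hempty : rootSet n (p ^ (k + 1)) = ∅ := by
      rw [Finset.eq_empty_iff_forall_notMem]
      intro s hs
      rw [mem_rootSet] at hs
      apply hsq
      refine ⟨(s : ZMod p), ?_⟩
      have h1 : (p : ℤ) ∣ (s : ℤ) ^ 2 - n := by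
        refine dvd_trans ?_ hs.2
        push_cast
        exact dvd_pow_self _ (by omega)
      rw [← ZMod.intCast_zmod_eq_zero_iff_dvd] at h1
      push_cast at h1
      rw [sub_eq_zero] at h1
      rw [← h1]; ring
    rw [rho, hempty]
    simp

end Pool.Agent.Lib_helper91
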