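import Mathlib
import Pool.Agent.Lib_helper91.Lval
import Pool.Agent.Lib_helper91.Mult

set_option autoImplicit false

namespace Pool.Agent.Lib_helper91

open Finset Filter Topology ArithmeticFunction

/-- the root-counting function as a real arithmetic function -/
noncomputable def rhoA (n : ℤ) : ArithmeticFunction ℝ :=
  ⟨fun c => (rho n c : ℝ), by simp [rho_zero]⟩

lemma rhoA_apply (n : ℤ) (c : ℕ) : rhoA n c = (rho n c : ℝ) := rfl

open Classical in
/-- the part of the root-counting function supported on integers all of whose prime factors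
divide `2n` -/
noncomputable def rhoBadA (n : ℤ) : ArithmeticFunction ℝ :=
  ⟨fun c => if c ∈ Nat.factoredNumbers (2 * n.natAbs).primeFactors then (rho n c : ℝ) else 0, by
    simp [rho_zero]⟩

open Classical in
lemma rhoBadA_apply (n : ℤ) (c : ℕ) : rhoBadA n c =
    if c ∈ Nat.factoredNumbers (2 * n.natAbs).primeFactors then (rho n c : ℝ) else 0 := rfl

/-- the part of the root-counting function supported on integers coprime to `2n` -/
noncomputable def GA (n : ℤ) : ArithmeticFunction ℝ :=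
  ⟨fun c => if c.Coprime (2 * n.natAbs) then (rho n c : ℝ) else 0, by
    rw [if_neg (not_zero_coprime n)]⟩

lemma GA_apply (n : ℤ) (c : ℕ) : GA n c =
    if c.Coprime (2 * n.natAbs) then (rho n c : ℝ) else 0 := rfl

/-- the Moebius-type correction supported on squares -/
noncomputable def hA (n : ℤ) : ArithmeticFunction ℝ :=
  ⟨fun k => if IsSquare k then ((moebius (Nat.sqrt k) : ℤ) : ℝ) * chi0A n (Nat.sqrt k) else 0, by
    simp⟩

lemma hA_apply (n : ℤ) (k : ℕ) : hA n k =
    if IsSquare k then ((moebius (Nat.sqrt k) : ℤ) : ℝ) * chi0A n (Nat.sqrt k) else 0 := rfl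

lemma coprime_mul_iff (n : ℤ) (a b : ℕ) : (a * b).Coprime (2 * n.natAbs) ↔
    a.Coprime (2 * n.natAbs) ∧ b.Coprime (2 * n.natAbs) := Nat.coprime_mul_iff_left

lemma rhoA_mult (n : ℤ) : (rhoA n).IsMultiplicative := by
  refine ⟨by simp [rhoA_apply, rho_one], fun {a b} h => ?_⟩
  simp only [rhoA_apply, rho_mul n h]
  push_cast; ring

lemma factored_mul_iff {s : Finset ℕ} {a b : ℕ} :
    a * b ∈ Nat.factoredNumbers s ↔ a ∈ Nat.factoredNumbers s ∧ b ∈ Nat.factoredNumbers s := by
  constructor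
  · intro h
    exact ⟨Nat.mem_factoredNumbers_of_dvd h (dvd_mul_right _ _),
      Nat.mem_factoredNumbers_of_dvd h (dvd_mul_left _ _)⟩
  · rintro ⟨h1, h2⟩
    exact Nat.mul_mem_factoredNumbers h1 h2

lemma rhoBadA_mult (n : ℤ) : (rhoBadA n).IsMultiplicative := by
  classical
  refine ⟨?_, fun {a b} h => ?_⟩
  · rw [rhoBadA_apply, if_pos]
    · simp [rho_one]
    · rw [Nat.mem_factoredNumbers']
      intro p hp hd
      exact absurd (Nat.dvd_one.mp hd) hp.one_lt.ne'
  · simp only [rhoBadA_apply, factored_mul_iff, rho_mul n h]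
    by_cases h1 : a ∈ Nat.factoredNumbers (2 * n.natAbs).primeFactors
    · by_cases h2 : b ∈ Nat.factoredNumbers (2 * n.natAbs).primeFactors
      · simp [h1, h2]
      · simp [h1, h2]
    · simp [h1]

lemma GA_mult (n : ℤ) : (GA n).IsMultiplicative := by
  refine ⟨by simp [GA_apply, rho_one], fun {a b} h => ?_⟩
  simp only [GA_apply, coprime_mul_iff, rho_mul n h]
  by_cases h1 : a.Coprime (2 * n.natAbs)
  · by_cases h2 : b.Coprime (2 * n.natAbs)
    · rw [if_pos ⟨h1, h2⟩, if_pos h1, if_pos h2]; push_cast; ring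
    · rw [if_neg (fun h => h2 h.2), if_neg h2, mul_zero]
  · rw [if_neg (fun h => h1 h.1), if_neg h1, zero_mul]

lemma chiA_mult (n : ℤ) : (chiA n).IsMultiplicative := by
  refine ⟨by simp [chiA_apply, chi_one], fun {a b} _ => ?_⟩
  simp only [chiA_apply, chi_mul]
  push_cast; ring

lemma chi0A_mul (n : ℤ) (a b : ℕ) : chi0A n (a * b) = chi0A n a * chi0A n b := by
  simp only [chi0A_apply, coprime_mul_iff]
  by_cases h1 : a.Coprime (2 * n.natAbs)
  · by_cases h2 : b.Coprime (2 * n.natAbs)
    · rw [if_pos ⟨h1, h2⟩, if_pos h1, if_pos h2]; norm_num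
    · rw [if_neg (fun h => h2 h.2), if_neg h2, mul_zero]
  · rw [if_neg (fun h => h1 h.1), if_neg h1, zero_mul]

lemma chi0A_mult (n : ℤ) : (chi0A n).IsMultiplicative :=
  ⟨by simp [chi0A_apply], fun {a b} _ => chi0A_mul n a b⟩

lemma isSquare_mul_iff {a b : ℕ} (h : a.Coprime b) : IsSquare (a * b) ↔ IsSquare a ∧ IsSquare b := by
  constructor
  · rintro ⟨r, hr⟩
    rw [← sq] at hr
    have hu : IsUnit (gcd a b) := by
      rw [Nat.isUnit_iff]; exact h
    have hu' : IsUnit (gcd b a) := by
      rw [Nat.isUnit_iff]; exact h.symm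
    obtain ⟨d, hd⟩ := exists_eq_pow_of_mul_eq_pow hu hr
    obtain ⟨e, he⟩ := exists_eq_pow_of_mul_eq_pow hu' (by rw [mul_comm]; exact hr)
    exact ⟨⟨d, by rw [hd, sq]⟩, ⟨e, by rw [he, sq]⟩⟩
  · rintro ⟨⟨r, hr⟩, ⟨s, hs⟩⟩
    exact ⟨r * s, by rw [hr, hs]; ring⟩

lemma hA_mult (n : ℤ) : (hA n).IsMultiplicative := by
  refine ⟨by simp [hA_apply, chi0A_apply], fun {a b} h => ?_⟩
  simp only [hA_apply, isSquare_mul_iff h]
  by_cases h1 : IsSquare a
  · by_cases h2 : IsSquare b
    · rw [if_pos ⟨h1, h2⟩, if_pos h1, if_pos h2]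
      obtain ⟨r, rfl⟩ := h1
      obtain ⟨s, rfl⟩ := h2
      have e : r * r * (s * s) = (r * s) * (r * s) := by ring
      rw [e, Nat.sqrt_eq, Nat.sqrt_eq, Nat.sqrt_eq, chi0A_mul]
      have hrs : r.Coprime s := by
        have := Nat.Coprime.coprime_dvd_left (dvd_mul_right r r) h
        exact Nat.Coprime.coprime_dvd_right (dvd_mul_right s s) this
      rw [isMultiplicative_moebius.map_mul_of_coprime hrs]
      push_cast; ring
    · rw [if_neg (fun h => h2 h.2), if_neg h2, mul_zero]
  · rw [if_neg (fun h => h1 h.1), if_neg h1, zero_mul]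

lemma mul_apply_prime_pow (f g : ArithmeticFunction ℝ) {p : ℕ} (hp : p.Prime) (k : ℕ) :
    (f * g) (p ^ k) = ∑ i ∈ range (k + 1), f (p ^ i) * g (p ^ (k - i)) := by
  rw [ArithmeticFunction.mul_apply, Nat.sum_divisorsAntidiagonal (fun x y => f x * g y),
    Nat.sum_divisors_prime_pow hp]
  apply Finset.sum_congr rfl
  intro i hi
  rw [mem_range] at hi
  rw [Nat.pow_div (by omega) hp.pos]

/-- `p` is a good prime when it does not divide `2n`. -/
lemma coprime_prime_pow_iff {n : ℤ} {p : ℕ} (hp : p.Prime) (k : ℕ) :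
    (p ^ (k + 1)).Coprime (2 * n.natAbs) ↔ ¬ p ∣ 2 * n.natAbs := by
  rw [Nat.coprime_pow_left_iff (by omega), hp.coprime_iff_not_dvd]

lemma prime_pow_mem_factored_iff {n : ℤ} (hn : n ≠ 0) {p : ℕ} (hp : p.Prime) (k : ℕ) :
    p ^ (k + 1) ∈ Nat.factoredNumbers (2 * n.natAbs).primeFactors ↔ p ∣ 2 * n.natAbs := by
  have h0 : 2 * n.natAbs ≠ 0 := by have := Int.natAbs_ne_zero.mpr hn; omega
  rw [Nat.mem_factoredNumbers']
  constructor
  · intro h
    have := h p hp (dvd_pow_self p (by omega))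
    exact Nat.dvd_of_mem_primeFactors this
  · intro h q hq hqd
    have h1 : q ∣ p := hq.dvd_of_dvd_pow hqd
    rw [Nat.mem_primeFactors]
    exact ⟨hq, h1.trans h, h0⟩

theorem rhoA_eq {n : ℤ} (hn : n ≠ 0) : rhoA n = rhoBadA n * GA n := by
  classical
  rw [(rhoA_mult n).eq_iff_eq_on_prime_powers _ _ ((rhoBadA_mult n).mul (GA_mult n))]
  intro p k hp
  rw [mul_apply_prime_pow _ _ hp]
  by_cases hbad : p ∣ 2 * n.natAbs
  · -- only the last term survives
    rw [Finset.sum_eq_single k]
    · rw [Nat.sub_self, pow_zero, (GA_mult n).map_one, mul_one]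
      rcases k with _ | k
      · rw [pow_zero, (rhoBadA_mult n).map_one, (rhoA_mult n).map_one]
      · rw [rhoBadA_apply, if_pos ((prime_pow_mem_factored_iff hn hp k).mpr hbad), rhoA_apply]
    · intro i hi hik
      rw [mem_range] at hi
      obtain ⟨j, hj⟩ : ∃ j, k - i = j + 1 := ⟨k - i - 1, by omega⟩
      rw [hj, GA_apply, if_neg, mul_zero]
      rw [coprime_prime_pow_iff hp]
      exact not_not.mpr hbad
    · intro h
      exact absurd (mem_range.mpr (Nat.lt_succ_self k)) h
  · rw [Finset.sum_eq_single 0]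
    · rw [Nat.sub_zero, pow_zero, (rhoBadA_mult n).map_one, one_mul]
      rcases k with _ | k
      · rw [pow_zero, (GA_mult n).map_one, (rhoA_mult n).map_one]
      · rw [GA_apply, if_pos ((coprime_prime_pow_iff hp k).mpr hbad), rhoA_apply]
    · intro i hi hi0
      obtain ⟨j, hj⟩ : ∃ j, i = j + 1 := ⟨i - 1, by omega⟩
      rw [hj, rhoBadA_apply, if_neg, zero_mul]
      rw [prime_pow_mem_factored_iff hn hp]
      exact hbad
    · intro h
      exact absurd (mem_range.mpr (Nat.succ_pos k)) h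

lemma isSquare_prime_pow_iff {p : ℕ} (hp : p.Prime) (i : ℕ) : IsSquare (p ^ i) ↔ Even i := by
  constructor
  · rintro ⟨r, hr⟩
    have hr0 : r ≠ 0 := by
      rintro rfl
      simp at hr
      exact hp.ne_zero hr.1
    have h1 := congrArg (fun x => x.factorization p) hr
    simp only [hp.factorization_pow, Nat.factorization_mul hr0 hr0, Finsupp.single_apply,
      Finsupp.add_apply, if_true] at h1
    exact ⟨_, h1⟩
  · intro h
    exact h.isSquare_pow p

lemma hA_prime_pow (n : ℤ) {p : ℕ} (hp : p.Prime) (i : ℕ) :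
    hA n (p ^ i) = if i = 0 then 1 else if i = 2 then - chi0A n p else 0 := by
  rw [hA_apply]
  split_ifs with h1 h2 h3 h3
  · subst h2; simp [chi0A_apply]
  · subst h3
    have : Nat.sqrt (p ^ 2) = p := Nat.sqrt_eq' p
    rw [this, moebius_apply_prime hp]; push_cast; ring
  · rw [isSquare_prime_pow_iff hp] at h1
    obtain ⟨j, hj⟩ := h1
    have : p ^ i = p ^ j * p ^ j := by rw [hj, pow_add]
    rw [this, Nat.sqrt_eq, moebius_apply_prime_pow hp (by omega), if_neg (by omega)]
    push_cast; ring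
  · exfalso
    apply h1
    rw [isSquare_prime_pow_iff hp]
    rw [‹i = 0›]; exact Even.zero
  · exfalso
    apply h1
    rw [isSquare_prime_pow_iff hp, ‹i = 2›]; exact even_two
  · rfl

lemma chi0A_prime_pow_succ (n : ℤ) {p : ℕ} (hp : p.Prime) (k : ℕ) :
    chi0A n (p ^ (k + 1)) = if p ∣ 2 * n.natAbs then 0 else 1 := by
  rw [chi0A_apply]
  by_cases h : p ∣ 2 * n.natAbs
  · rw [if_pos h, if_neg]
    rw [coprime_prime_pow_iff hp]; exact not_not.mpr h
  · rw [if_neg h, if_pos ((coprime_prime_pow_iff hp k).mpr h)]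

lemma chi_prime_bad {n : ℤ} {p : ℕ} (hp : p.Prime) (h : p ∣ 2 * n.natAbs) : chi n p = 0 := by
  apply chi_of_not_coprime
  rw [hp.coprime_iff_not_dvd]; exact not_not.mpr h

/-- value of `χ * χ₀` at powers of a good prime -/
lemma F_good {n : ℤ} {p : ℕ} (hp : p.Prime) (h : ¬ p ∣ 2 * n.natAbs) (k : ℕ) :
    (chiA n * chi0A n) (p ^ k) = ∑ i ∈ range (k + 1), (chi n p : ℝ) ^ i := by
  rw [mul_apply_prime_pow _ _ hp]
  apply Finset.sum_congr rfl
  intro i _
  rw [chiA_apply, chi_pow]
  have : chi0A n (p ^ (k - i)) = 1 := by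
    rcases (k - i) with _ | j
    · simp [chi0A_apply]
    · rw [chi0A_prime_pow_succ n hp, if_neg h]
  rw [this, mul_one]; push_cast; rfl

lemma F_bad {n : ℤ} {p : ℕ} (hp : p.Prime) (h : p ∣ 2 * n.natAbs) (k : ℕ) :
    (chiA n * chi0A n) (p ^ (k + 1)) = 0 := by
  rw [mul_apply_prime_pow _ _ hp]
  apply Finset.sum_eq_zero
  intro i hi
  rw [mem_range] at hi
  rcases Nat.eq_zero_or_pos i with h0 | h0
  · subst h0
    rw [Nat.sub_zero, chi0A_prime_pow_succ n hp, if_pos h, mul_zero]
  · rw [chiA_apply, chi_pow, chi_prime_bad hp h, zero_pow h0.ne']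
    simp

theorem GA_eq {n : ℤ} (hn : n ≠ 0) : GA n = hA n * (chiA n * chi0A n) := by
  rw [(GA_mult n).eq_iff_eq_on_prime_powers _ _
    ((hA_mult n).mul ((chiA_mult n).mul (chi0A_mult n)))]
  intro p k hp
  rcases k with _ | k
  · rw [pow_zero, (GA_mult n).map_one,
      ((hA_mult n).mul ((chiA_mult n).mul (chi0A_mult n))).map_one]
  by_cases hbad : p ∣ 2 * n.natAbs
  · rw [GA_apply, if_neg (by rw [coprime_prime_pow_iff hp]; exact not_not.mpr hbad),
      mul_apply_prime_pow _ _ hp]
    symm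
    apply Finset.sum_eq_zero
    intro i hi
    rw [mem_range] at hi
    rcases Nat.eq_zero_or_pos i with h0 | h0
    · subst h0
      rw [Nat.sub_zero, F_bad hp hbad, mul_zero]
    · rw [hA_prime_pow n hp, if_neg h0.ne']
      split_ifs with h2
      · have : chi0A n p = 0 := by
          have := chi0A_prime_pow_succ n hp 0
          rw [if_pos hbad] at this
          simpa using this
        rw [this]; simp
      · simp
  · -- good prime
    have hp2 : p ≠ 2 := by
      rintro rfl
      exact hbad (dvd_mul_right _ _)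
    have hpn : ¬ (p : ℤ) ∣ n := by
      intro h
      apply hbad
      exact Dvd.dvd.mul_left (Int.natCast_dvd.mp h) 2
    have hcop : p.Coprime (2 * n.natAbs) := (hp.coprime_iff_not_dvd).mpr hbad
    have hrho : (rho n (p ^ (k + 1)) : ℝ) = 1 + (chi n p : ℝ) := by
      have := rho_prime_pow n p hp hp2 hpn k
      rw [← chi_of_coprime hcop] at this
      exact_mod_cast this
    have hc0 : chi0A n p = 1 := by
      rw [chi0A_apply, if_pos hcop]
    rw [GA_apply, if_pos ((coprime_prime_pow_iff hp k).mpr hbad), hrho,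
      mul_apply_prime_pow _ _ hp]
    simp only [hA_prime_pow n hp, hc0]
    rcases k with _ | k
    · rw [Finset.sum_range_succ, Finset.sum_range_one]
      have hF : (chiA n * chi0A n) (p ^ (0 + 1)) = 1 + (chi n p : ℝ) := by
        rw [F_good hp hbad]; simp [Finset.sum_range_succ]
      rw [Nat.sub_zero, hF]
      norm_num
    · have hsplit : ∑ i ∈ range (k + 1 + 1 + 1), (if i = 0 then (1 : ℝ) else if i = 2 then -1 else 0)
            * (chiA n * chi0A n) (p ^ (k + 1 + 1 - i))
          = (chiA n * chi0A n) (p ^ (k + 2)) - (chiA n * chi0A n) (p ^ k) := by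
        rw [Finset.sum_range_succ', Finset.sum_range_succ', Finset.sum_range_succ']
        rw [Finset.sum_eq_zero]
        · simp; ring
        · intro i _
          have h1 : ¬ (i + 1 + 1 + 1 = 0) := by omega
          have h2 : ¬ (i + 1 + 1 + 1 = 2) := by omega
          rw [if_neg h1, if_neg h2, zero_mul]
      rw [hsplit, F_good hp hbad, F_good hp hbad, Finset.sum_range_succ, Finset.sum_range_succ]
      rcases chi_eq_one_or_neg_one hcop with h | h
      · rw [h]; push_cast; simp; ring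
      · rw [h]; push_cast
        have h3 : (-1 : ℝ) ^ (k + 1) = - (-1) ^ k := by rw [pow_succ]; ring
        have h4 : (-1 : ℝ) ^ (k + 2) = (-1) ^ k := by rw [pow_add]; norm_num
        rw [h3, h4]; ring

end Pool.Agent.Lib_helper91
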