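import Mathlib

set_option autoImplicit false

namespace Pool.Agent.Lib_helper91

open Finset Filter Topology

/-- Admissible growth weights for the convolution lemma. -/
structure GoodWeight (w : ℕ → ℝ) : Prop where
  zero : w 0 = 0
  pos : ∀ N, 1 ≤ N → 0 < w N
  div_le : ∀ k N, 1 ≤ k → 1 ≤ N → w (N / k) ≤ w N / k
  tendsto_div : ∀ k, 1 ≤ k → Tendsto (fun N => w (N / k) / w N) atTop (𝓝 (1 / (k : ℝ)))

theorem tannery_conv {w : ℕ → ℝ} (hw : GoodWeight w) (a b : ArithmeticFunction ℝ)
    (ha : Summable fun k : ℕ => |a k| / (k : ℝ)) {A : ℝ}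
    (hb : Tendsto (fun N : ℕ => (∑ m ∈ Ioc 0 N, b m) / w N) atTop (𝓝 A)) :
    Tendsto (fun N : ℕ => (∑ m ∈ Ioc 0 N, (a * b) m) / w N) atTop
      (𝓝 (∑' k : ℕ, a k / (k : ℝ) * A)) := by
  set B : ℕ → ℝ := fun N => ∑ m ∈ Ioc 0 N, b m with hB
  have hB0 : B 0 = 0 := by simp [hB]
  obtain ⟨K, hK⟩ : ∃ K : ℝ, ∀ N, |B N / w N| ≤ K := by
    have h := Metric.isBounded_range_of_tendsto _ hb
    obtain ⟨K, hK⟩ := h.exists_norm_le
    exact ⟨K, fun N => hK _ ⟨N, rfl⟩⟩
  have hK0 : 0 ≤ K := (abs_nonneg _).trans (hK 0)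
  have hBK : ∀ N, |B N| ≤ K * w N := by
    intro N
    rcases Nat.eq_zero_or_pos N with h | h
    · subst h; simp [hB0, hw.zero]
    · have hp := hw.pos N h
      have := hK N
      rwa [abs_div, abs_of_pos hp, div_le_iff₀ hp] at this
  have hsum : ∀ N, (∑ m ∈ Ioc 0 N, (a * b) m) / w N = ∑' k : ℕ, a k * B (N / k) / w N := by
    intro N
    rw [ArithmeticFunction.sum_Ioc_mul_eq_sum_sum, tsum_eq_sum (s := Ioc 0 N), Finset.sum_div]
    intro k hk
    simp only [Finset.mem_Ioc, not_and_or, not_lt, not_le, nonpos_iff_eq_zero] at hk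
    rcases hk with hk | hk
    · subst hk; simp
    · rw [Nat.div_eq_of_lt hk, hB0]; simp
  simp_rw [hsum]
  refine tendsto_tsum_of_dominated_convergence (bound := fun k : ℕ => |a k| / (k : ℝ) * K)
    (ha.mul_right K) ?_ ?_
  · intro k
    rcases Nat.eq_zero_or_pos k with hk | hk
    · subst hk; simp
    · have h1 : Tendsto (fun N : ℕ => N / k) atTop atTop := Nat.tendsto_div_const_atTop hk.ne'
      have h2 : Tendsto (fun N : ℕ => B (N / k) / w (N / k)) atTop (𝓝 A) := hb.comp h1
      have h3 := (h2.mul (hw.tendsto_div k hk)).const_mul (a k)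
      have h4 : a k * (A * (1 / (k : ℝ))) = a k / (k : ℝ) * A := by ring
      rw [h4] at h3
      refine h3.congr' ?_
      filter_upwards [eventually_ge_atTop k] with N hN
      have hpos : 0 < w (N / k) := hw.pos _ (Nat.div_pos hN hk)
      have hposN : 0 < w N := hw.pos _ (lt_of_lt_of_le hk hN)
      field_simp
  · filter_upwards [eventually_ge_atTop 1] with N hN k
    rcases Nat.eq_zero_or_pos k with hk | hk
    · subst hk; simp
    · have hposN : 0 < w N := hw.pos _ hN
      have hk' : (0 : ℝ) < k := by exact_mod_cast hk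
      rw [Real.norm_eq_abs, abs_div, abs_mul, abs_of_pos hposN, div_le_iff₀ hposN]
      calc |a k| * |B (N / k)| ≤ |a k| * (K * (w N / k)) := by
            apply mul_le_mul_of_nonneg_left _ (abs_nonneg _)
            exact (hBK _).trans (mul_le_mul_of_nonneg_left (hw.div_le k N hk hN) hK0)
        _ = |a k| / (k : ℝ) * K * w N := by ring

lemma nat_div_tendsto (k : ℕ) (hk : 1 ≤ k) :
    Tendsto (fun N : ℕ => ((N / k : ℕ) : ℝ) / (N : ℝ)) atTop (𝓝 (1 / (k : ℝ))) := by
  have hk' : (0 : ℝ) < k := by exact_mod_cast hk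
  have hlow : Tendsto (fun N : ℕ => 1 / (k : ℝ) - 1 / (N : ℝ)) atTop (𝓝 (1 / (k : ℝ) - 0)) :=
    tendsto_const_nhds.sub tendsto_one_div_atTop_nhds_zero_nat
  rw [sub_zero] at hlow
  refine tendsto_of_tendsto_of_tendsto_of_le_of_le' hlow tendsto_const_nhds ?_ ?_
  · filter_upwards [eventually_ge_atTop 1] with N hN
    have hN' : (0 : ℝ) < N := by exact_mod_cast hN
    have h1 : (N : ℝ) / k - 1 ≤ ((N / k : ℕ) : ℝ) := by
      have := Nat.lt_mul_div_succ N hk
      have h2 : (N : ℝ) < k * (((N / k : ℕ) : ℝ) + 1) := by exact_mod_cast this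
      have : (N : ℝ) / k < ((N / k : ℕ) : ℝ) + 1 := by
        rw [div_lt_iff₀ hk']; linarith
      linarith
    calc 1 / (k : ℝ) - 1 / (N : ℝ) = ((N : ℝ) / k - 1) / N := by field_simp
      _ ≤ ((N / k : ℕ) : ℝ) / (N : ℝ) := by gcongr
  · filter_upwards [eventually_ge_atTop 1] with N hN
    have hN' : (0 : ℝ) < N := by exact_mod_cast hN
    rw [div_le_div_iff₀ hN' hk']
    have : ((N / k : ℕ) : ℝ) * k ≤ N := by exact_mod_cast Nat.div_mul_le_self N k
    linarith

lemma goodWeight_id : GoodWeight (fun N : ℕ => (N : ℝ)) where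
  zero := by simp
  pos := fun N hN => by exact_mod_cast hN
  div_le := fun k N _ _ => Nat.cast_div_le
  tendsto_div := nat_div_tendsto

lemma goodWeight_log : GoodWeight (fun N : ℕ => (N : ℝ) * (1 + Real.log N)) where
  zero := by simp
  pos := fun N hN => by
    have h1 : (0 : ℝ) < N := by exact_mod_cast hN
    have h2 : 0 ≤ Real.log N := Real.log_natCast_nonneg N
    positivity
  div_le := fun k N hk hN => by
    have h1 : (0 : ℝ) < N := by exact_mod_cast hN
    have hk' : (0 : ℝ) < k := by exact_mod_cast hk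
    have h2 : 0 ≤ Real.log N := Real.log_natCast_nonneg N
    rcases Nat.eq_zero_or_pos (N / k) with h | h
    · rw [h]; simp only [Nat.cast_zero, zero_mul]; positivity
    · have h3 : Real.log ((N / k : ℕ) : ℝ) ≤ Real.log N := by
        apply Real.log_le_log (by exact_mod_cast h)
        exact_mod_cast Nat.div_le_self N k
      have h4 : ((N / k : ℕ) : ℝ) ≤ N / k := Nat.cast_div_le
      have h5 : 0 ≤ Real.log ((N / k : ℕ) : ℝ) := Real.log_natCast_nonneg _
      calc ((N / k : ℕ) : ℝ) * (1 + Real.log ((N / k : ℕ) : ℝ)) ≤ (N / k) * (1 + Real.log N) := by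
            gcongr
        _ = (N : ℝ) * (1 + Real.log N) / k := by ring
  tendsto_div := fun k hk => by
    have hk' : (0 : ℝ) < k := by exact_mod_cast hk
    have h1 := nat_div_tendsto k hk
    -- the log ratio tends to 1
    have hlogtop : Tendsto (fun N : ℕ => 1 + Real.log (N : ℝ)) atTop atTop :=
      tendsto_atTop_add_const_left _ _ (Real.tendsto_log_atTop.comp tendsto_natCast_atTop_atTop)
    have h2 : Tendsto (fun N : ℕ => (1 + Real.log ((N / k : ℕ) : ℝ)) / (1 + Real.log N)) atTop
        (𝓝 1) := by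
      have hlow : Tendsto (fun N : ℕ => 1 - (Real.log (2 * k)) / (1 + Real.log N)) atTop
          (𝓝 (1 - 0)) :=
        tendsto_const_nhds.sub (hlogtop.const_div_atTop _)
      rw [sub_zero] at hlow
      refine tendsto_of_tendsto_of_tendsto_of_le_of_le' hlow tendsto_const_nhds ?_ ?_
      · filter_upwards [eventually_ge_atTop k] with N hN
        have hN1 : 1 ≤ N := hk.trans hN
        have hN' : (0 : ℝ) < N := by exact_mod_cast hN1
        have h2 : 0 ≤ Real.log N := Real.log_natCast_nonneg N
        have hd : 1 ≤ N / k := Nat.div_pos hN hk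
        have hle : (N : ℝ) / (2 * k) ≤ ((N / k : ℕ) : ℝ) := by
          have := Nat.lt_mul_div_succ N hk
          have h3 : (N : ℝ) < k * (((N / k : ℕ) : ℝ) + 1) := by exact_mod_cast this
          have h4 : (1 : ℝ) ≤ ((N / k : ℕ) : ℝ) := by exact_mod_cast hd
          rw [div_le_iff₀ (by positivity)]
          nlinarith
        have hlog : Real.log N - Real.log (2 * k) ≤ Real.log ((N / k : ℕ) : ℝ) := by
          rw [← Real.log_div hN'.ne' (by positivity)]
          exact Real.log_le_log (by positivity) hle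
        rw [le_div_iff₀ (by positivity)]
        have : (1 - Real.log (2 * ↑k) / (1 + Real.log ↑N)) * (1 + Real.log ↑N)
            = (1 + Real.log N) - Real.log (2 * k) := by
          field_simp
        rw [this]; linarith
      · filter_upwards [eventually_ge_atTop k] with N hN
        have hN1 : 1 ≤ N := hk.trans hN
        have h2 : 0 ≤ Real.log N := Real.log_natCast_nonneg N
        rw [div_le_one (by positivity)]
        have hd : 1 ≤ N / k := Nat.div_pos hN hk
        have h3 : Real.log ((N / k : ℕ) : ℝ) ≤ Real.log N := by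
          apply Real.log_le_log (by exact_mod_cast hd)
          exact_mod_cast Nat.div_le_self N k
        linarith
    have h3 := h1.mul h2
    rw [mul_one] at h3
    refine h3.congr ?_
    intro N
    rw [div_mul_div_comm]

end Pool.Agent.Lib_helper91
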