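import Mathlib
import Pool.Agent.Lib_helper91.Conv
import Pool.Agent.Lib_helper91.Tannery
import Pool.Agent.Lib_helper91.Div

set_option autoImplicit false

namespace Pool.Agent.Lib_helper91

open Finset Filter Topology ArithmeticFunction

lemma hA_support (n : ℤ) (k : ℕ) (hk : k ∉ Set.range (fun j : ℕ => j * j)) : hA n k = 0 := by
  rw [hA_apply, if_neg]
  rintro ⟨r, hr⟩
  exact hk ⟨r, hr.symm⟩

lemma mul_self_injective : Function.Injective (fun j : ℕ => j * j) := by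
  intro a b h
  exact Nat.mul_self_inj.mp h

lemma hA_sq (n : ℤ) (j : ℕ) : hA n (j * j) = ((moebius j : ℤ) : ℝ) * chi0A n j := by
  rw [hA_apply, if_pos ⟨j, rfl⟩, Nat.sqrt_eq]

lemma abs_hA_sq_le (n : ℤ) (j : ℕ) : |hA n (j * j)| ≤ 1 := by
  rw [hA_sq, abs_mul]
  have h1 : |((moebius j : ℤ) : ℝ)| ≤ 1 := by
    have := abs_moebius_le_one (n := j)
    exact_mod_cast this
  have h2 : |chi0A n j| ≤ 1 := by
    rw [abs_of_nonneg (chi0A_nonneg n j)]; exact chi0A_le_one n j
  calc _ ≤ (1 : ℝ) * 1 := mul_le_mul h1 h2 (abs_nonneg _) zero_le_one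
    _ = 1 := one_mul 1

lemma hA_summable (n : ℤ) : Summable fun k : ℕ => |hA n k| / (k : ℝ) := by
  have h0 : ∀ k, k ∉ Set.range (fun j : ℕ => j * j) → |hA n k| / (k : ℝ) = 0 := by
    intro k hk; rw [hA_support n k hk]; simp
  rw [← Function.Injective.summable_iff mul_self_injective h0]
  refine Summable.of_nonneg_of_le (fun j => by simp only [Function.comp]; positivity) ?_
    (hasSum_zeta_two.summable)
  intro j
  have e : ((j * j : ℕ) : ℝ) = (j : ℝ) ^ 2 := by push_cast; ring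
  change |hA n (j * j)| / ((j * j : ℕ) : ℝ) ≤ 1 / (j : ℝ) ^ 2
  rw [e]
  exact div_le_div_of_nonneg_right (abs_hA_sq_le n j) (sq_nonneg _)

lemma hA_tsum_pos (n : ℤ) : 0 < ∑' k : ℕ, hA n k / (k : ℝ) := by
  have h0 : ∀ k, k ∉ Set.range (fun j : ℕ => j * j) → hA n k / (k : ℝ) = 0 := by
    intro k hk; rw [hA_support n k hk]; simp
  have hsupp : Function.support (fun k : ℕ => hA n k / (k : ℝ)) ⊆
      Set.range (fun j : ℕ => j * j) := by
    intro k hk
    by_contra hcon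
    exact hk (h0 k hcon)
  rw [← mul_self_injective.tsum_eq hsupp]
  have hsum : Summable (fun k : ℕ => hA n k / (k : ℝ)) := by
    apply Summable.of_norm
    refine (hA_summable n).congr ?_
    intro k
    rw [Real.norm_eq_abs, abs_div, abs_of_nonneg (show (0 : ℝ) ≤ (k : ℝ) from Nat.cast_nonneg k)]
  have hsum' : Summable (fun j : ℕ => hA n (j * j) / ((j * j : ℕ) : ℝ)) := by
    have := (Function.Injective.summable_iff mul_self_injective h0).mpr hsum
    exact this
  have hg : HasSum (fun j : ℕ => (if j = 1 then (2 : ℝ) else 0) - 1 / (j : ℝ) ^ 2)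
      (2 - Real.pi ^ 2 / 6) := by
    apply HasSum.sub _ hasSum_zeta_two
    exact hasSum_ite_eq 1 (2 : ℝ)
  have hle : ∀ j : ℕ, (if j = 1 then (2 : ℝ) else 0) - 1 / (j : ℝ) ^ 2
      ≤ hA n (j * j) / ((j * j : ℕ) : ℝ) := by
    intro j
    split_ifs with hj
    · subst hj
      rw [hA_sq]
      simp [chi0A_apply]
      norm_num
    · have h1 := abs_hA_sq_le n j
      have h2 : -1 ≤ hA n (j * j) := (abs_le.mp h1).1
      have h3 : ((j * j : ℕ) : ℝ) = (j : ℝ) ^ 2 := by push_cast; ring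
      rw [h3, zero_sub, ← neg_div]
      exact div_le_div_of_nonneg_right h2 (by positivity)
  have h1 := hg.tsum_eq ▸ (hg.summable.tsum_le_tsum hle hsum')
  have hpi : 0 < 2 - Real.pi ^ 2 / 6 := by
    have h2 := Real.pi_lt_d2
    have h3 := Real.pi_pos
    nlinarith
  exact lt_of_lt_of_le hpi h1

/-- `m ↦ m^(-1/2)` as a monoid homomorphism -/
noncomputable def invSqrtHom : ℕ →* ℝ where
  toFun := fun m => (m : ℝ) ^ (-(1 : ℝ) / 2)
  map_one' := by simp
  map_mul' := fun a b => by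
    push_cast
    rw [Real.mul_rpow (by positivity) (by positivity)]

lemma factored_summable (s : Finset ℕ) :
    Summable (Set.indicator (Nat.factoredNumbers s) (fun m : ℕ => (m : ℝ) ^ (-(1 : ℝ) / 2))) := by
  have h := (EulerProduct.summable_and_hasSum_factoredNumbers_prod_filter_prime_geometric
    (f := invSqrtHom) (by
      intro p hp
      have hp2 : (2 : ℝ) ≤ p := by exact_mod_cast hp.two_le
      change ‖(p : ℝ) ^ (-(1 : ℝ) / 2)‖ < 1
      rw [Real.norm_of_nonneg (by positivity)]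
      apply Real.rpow_lt_one_of_one_lt_of_neg (by linarith) (by norm_num)) s).1
  rw [← summable_subtype_iff_indicator]
  refine h.congr ?_
  intro m
  change ‖((m : ℕ) : ℝ) ^ (-(1 : ℝ) / 2)‖ = _
  rw [Real.norm_of_nonneg (by positivity)]
  rfl

lemma rhoBadA_nonneg (n : ℤ) (k : ℕ) : 0 ≤ rhoBadA n k := by
  classical
  rw [rhoBadA_apply]; split_ifs <;> positivity

lemma rhoBadA_summable {n : ℤ} (hn : n ≠ 0) : Summable fun k : ℕ => |rhoBadA n k| / (k : ℝ) := by
  classical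
  obtain ⟨C, hC1, hC⟩ := exists_divisor_bound 2 (by norm_num)
  refine Summable.of_nonneg_of_le (fun k => by positivity) ?_
    ((factored_summable (2 * n.natAbs).primeFactors).mul_left (2 * n.natAbs * C))
  intro k
  rw [abs_of_nonneg (rhoBadA_nonneg n k), rhoBadA_apply]
  by_cases hk : k ∈ Nat.factoredNumbers (2 * n.natAbs).primeFactors
  · rw [if_pos hk, Set.indicator_of_mem hk]
    have hk0 : k ≠ 0 := Nat.ne_zero_of_mem_factoredNumbers hk
    have hkpos : (0 : ℝ) < k := by exact_mod_cast Nat.pos_of_ne_zero hk0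
    have h1 : (rho n k : ℝ) ≤ 2 * n.natAbs * (C * (k : ℝ) ^ ((1 : ℝ) / (2 : ℕ))) := by
      calc (rho n k : ℝ) ≤ ((2 * n.natAbs * k.divisors.card : ℕ) : ℝ) := by
            exact_mod_cast rho_le n hn k hk0
        _ = 2 * n.natAbs * (k.divisors.card : ℝ) := by push_cast; ring
        _ ≤ _ := by
            apply mul_le_mul_of_nonneg_left (hC k hk0) (by positivity)
    rw [div_le_iff₀ hkpos]
    calc (rho n k : ℝ) ≤ 2 * n.natAbs * (C * (k : ℝ) ^ ((1 : ℝ) / (2 : ℕ))) := h1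
      _ = 2 * n.natAbs * C * ((k : ℝ) ^ (-(1 : ℝ) / 2) * k) := by
          have : (k : ℝ) ^ (-(1 : ℝ) / 2) * k = (k : ℝ) ^ ((1 : ℝ) / (2 : ℕ)) := by
            nth_rewrite 2 [← Real.rpow_one (k : ℝ)]
            rw [← Real.rpow_add hkpos]
            congr 1
            norm_num
          rw [this]; ring
      _ = _ := by ring
  · rw [if_neg hk, Set.indicator_of_notMem hk]; simp

lemma rhoBadA_tsum_pos {n : ℤ} (hn : n ≠ 0) : 0 < ∑' k : ℕ, rhoBadA n k / (k : ℝ) := by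
  classical
  have hs : Summable fun k : ℕ => rhoBadA n k / (k : ℝ) := by
    refine (rhoBadA_summable hn).congr ?_
    intro k; rw [abs_of_nonneg (rhoBadA_nonneg n k)]
  have h1 : rhoBadA n 1 / ((1 : ℕ) : ℝ) = 1 := by rw [(rhoBadA_mult n).map_one]; norm_num
  have h2 := hs.le_tsum 1 (fun j _ => div_nonneg (rhoBadA_nonneg n j) (Nat.cast_nonneg j))
  rw [h1] at h2
  linarith

/-- Transfer of the asymptotics from `χ * χ₀` to the root-counting function. -/
theorem rho_sum_limit {w : ℕ → ℝ} (hw : GoodWeight w) {n : ℤ} (hn : n ≠ 0) {A : ℝ} (hA0 : A ≠ 0)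
    (h : Tendsto (fun N : ℕ => (∑ m ∈ Ioc 0 N, (chiA n * chi0A n) m) / w N) atTop (𝓝 A)) :
    ∃ B : ℝ, 0 < B ∧ Tendsto (fun N : ℕ => (∑ m ∈ Ioc 0 N, (rho n m : ℝ)) / w N) atTop (𝓝 B) := by
  have h1 := tannery_conv hw (hA n) (chiA n * chi0A n) (hA_summable n) h
  rw [← GA_eq hn, tsum_mul_right] at h1
  have h2 := tannery_conv hw (rhoBadA n) (GA n) (rhoBadA_summable hn) h1
  rw [← rhoA_eq hn, tsum_mul_right] at h2
  refine ⟨_, ?_, h2⟩
  have hne : (∑' k : ℕ, rhoBadA n k / (k : ℝ)) * ((∑' k : ℕ, hA n k / (k : ℝ)) * A) ≠ 0 :=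
    mul_ne_zero (rhoBadA_tsum_pos hn).ne' (mul_ne_zero (hA_tsum_pos n).ne' hA0)
  refine lt_of_le_of_ne ?_ (Ne.symm hne)
  apply ge_of_tendsto' h2
  intro N
  apply div_nonneg
  · exact Finset.sum_nonneg fun m _ => by rw [rhoA_apply]; positivity
  · rcases Nat.eq_zero_or_pos N with h0 | h0
    · subst h0; rw [hw.zero]
    · exact (hw.pos N h0).le

theorem rho_sum_nonsquare {n : ℤ} (hn : n ≠ 0) (hsq : ¬ IsSquare n) :
    ∃ B : ℝ, 0 < B ∧
      Tendsto (fun N : ℕ => (∑ m ∈ Ioc 0 N, (rho n m : ℝ)) / (N : ℝ)) atTop (𝓝 B) := by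
  obtain ⟨A, hA0, hA⟩ := nonprincipal_limit hn hsq
  exact rho_sum_limit goodWeight_id hn hA0 hA

theorem rho_sum_square {n : ℤ} (hn : n ≠ 0) (hsq : IsSquare n) :
    ∃ B : ℝ, 0 < B ∧
      Tendsto (fun N : ℕ => (∑ m ∈ Ioc 0 N, (rho n m : ℝ)) / ((N : ℝ) * (1 + Real.log N))) atTop
        (𝓝 B) := by
  obtain ⟨A, hA0, hA⟩ := principal_limit hn hsq
  exact rho_sum_limit goodWeight_log hn hA0 hA

end Pool.Agent.Lib_helper91
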