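import Mathlib
import Pool.Agent.Lib_helper91.Reg
import Pool.Agent.Lib_helper91.RhoSum

set_option autoImplicit false

namespace Pool.Agent.Lib_helper91

open Finset Filter Topology

/-- general transfer: an approximation with negligible error -/
lemma transfer {F G E w : ℕ → ℝ} (hFG : ∀ᶠ N in atTop, |F N - G N| ≤ E N)
    (hw : ∀ᶠ N in atTop, 0 < w N) {B : ℝ} (hG : Tendsto (fun N => G N / w N) atTop (𝓝 B))
    (hE : Tendsto (fun N => E N / w N) atTop (𝓝 0)) :
    Tendsto (fun N => F N / w N) atTop (𝓝 B) := by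
  have h1 : Tendsto (fun N => (F N - G N) / w N) atTop (𝓝 0) := by
    apply squeeze_zero_norm' _ hE
    filter_upwards [hFG, hw] with N h1 h2
    rw [Real.norm_eq_abs, abs_div, abs_of_pos h2]
    gcongr
  have h2 := h1.add hG
  rw [zero_add] at h2
  refine h2.congr ?_
  intro N
  rw [← add_div]; congr 1; ring

theorem T3_nonsquare {n : ℤ} (hn : n ≠ 0) (hsq : ¬ IsSquare n) :
    ∃ C : ℝ, 0 < C ∧ Tendsto (fun N : ℕ => ((T3 n N).card : ℝ) / N) atTop (𝓝 C) := by
  classical
  obtain ⟨B, hB, hBl⟩ := rho_sum_nonsquare hn hsq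
  obtain ⟨K, hK0, hK⟩ := T3_approx hn
  refine ⟨B / 2, by positivity, ?_⟩
  have h1 : Tendsto (fun N : ℕ => (2 * ((T3 n N).card : ℝ)) / N) atTop (𝓝 B) := by
    apply transfer (E := fun N => 2 * ((Irr n N).card : ℝ) + K) _ _ hBl
    · have h2 := ((irr_tendsto hn).const_mul 2).add (tendsto_const_div_atTop_nhds_zero_nat K)
      rw [mul_zero, add_zero] at h2
      refine h2.congr ?_
      intro N
      ring
    · filter_upwards [eventually_ge_atTop (2 * n.natAbs)] with N hN
      have := hK N hN
      rw [if_neg hsq, add_zero] at this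
      exact this
    · filter_upwards [eventually_ge_atTop 1] with N hN
      exact_mod_cast hN
  have h2 := h1.div_const 2
  refine h2.congr ?_
  intro N; ring

theorem T3_square {n : ℤ} (hn : n ≠ 0) (hsq : IsSquare n) :
    ∃ C : ℝ, 0 < C ∧
      Tendsto (fun N : ℕ => ((T3 n N).card : ℝ) / (N * (1 + Real.log N))) atTop (𝓝 C) := by
  classical
  obtain ⟨B, hB, hBl⟩ := rho_sum_square hn hsq
  obtain ⟨K, hK0, hK⟩ := T3_approx hn
  refine ⟨B / 2, by positivity, ?_⟩
  have hlogtop : Tendsto (fun N : ℕ => 1 + Real.log (N : ℝ)) atTop atTop :=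
    tendsto_atTop_add_const_left _ _ (Real.tendsto_log_atTop.comp tendsto_natCast_atTop_atTop)
  have h1 : Tendsto (fun N : ℕ => (2 * ((T3 n N).card : ℝ)) / (N * (1 + Real.log N))) atTop
      (𝓝 B) := by
    apply transfer (E := fun N => 2 * ((Irr n N).card : ℝ) + K + 2 * (N : ℝ)) _ _ hBl
    · have h2 := (((irr_tendsto hn).const_mul 2).add
        (tendsto_const_div_atTop_nhds_zero_nat K)).add_const (2 : ℝ)
      rw [mul_zero, add_zero, zero_add] at h2
      have h3 := h2.div_atTop hlogtop
      refine h3.congr' ?_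
      filter_upwards [eventually_ge_atTop 1] with N hN
      have hN' : (0 : ℝ) < N := by exact_mod_cast hN
      have hl : 0 < 1 + Real.log (N : ℝ) := by
        have := Real.log_natCast_nonneg N
        linarith
      field_simp
    · filter_upwards [eventually_ge_atTop (2 * n.natAbs)] with N hN
      have := hK N hN
      rw [if_pos hsq] at this
      exact this
    · filter_upwards [eventually_ge_atTop 1] with N hN
      exact goodWeight_log.pos N hN
  have h2 := h1.div_const 2
  refine h2.congr ?_
  intro N; ring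

end Pool.Agent.Lib_helper91
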