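import Mathlib

set_option autoImplicit false

namespace Pool.Agent.Lib_helper91.Low

open Finset

/-- affine maps: `X V U p` is the number of `v ∈ V` with `p.1 * v + p.2 ∈ U` -/
def hits {N : ℕ} (V U : Finset (ZMod N)) (p : ZMod N × ZMod N) : ℕ :=
  (V.filter (fun v => p.1 * v + p.2 ∈ U)).card

lemma card_single (N : ℕ) [NeZero N] (v : ZMod N) (U : Finset (ZMod N)) :
    ((univ : Finset (ZMod N × ZMod N)).filter (fun p => p.1 * v + p.2 ∈ U)).card
      = N * U.card := by
  classical
  have h : ((univ : Finset (ZMod N × ZMod N)).filter (fun p => p.1 * v + p.2 ∈ U)).card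
      = ((univ : Finset (ZMod N)) ×ˢ U).card := by
    apply Finset.card_bij (fun p _ => (p.1, p.1 * v + p.2))
    · intro p hp
      rw [mem_filter] at hp
      rw [mem_product]
      exact ⟨mem_univ _, hp.2⟩
    · intro p _ q _ he
      rw [Prod.mk.injEq] at he
      obtain ⟨h1, h2⟩ := he
      rw [h1] at h2
      exact Prod.ext h1 (add_left_cancel h2)
    · rintro ⟨r, u⟩ hu
      rw [mem_product] at hu
      refine ⟨(r, u - r * v), ?_, ?_⟩
      · rw [mem_filter]
        refine ⟨mem_univ _, ?_⟩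
        simpa using hu.2
      · simp
  rw [h, card_product, card_univ, ZMod.card]

lemma card_pair (N : ℕ) [Fact N.Prime] {v v' : ZMod N} (hv : v ≠ v') (U U' : Finset (ZMod N)) :
    ((univ : Finset (ZMod N × ZMod N)).filter
      (fun p => p.1 * v + p.2 ∈ U ∧ p.1 * v' + p.2 ∈ U')).card = U.card * U'.card := by
  classical
  rw [← card_product]
  have hd : v - v' ≠ 0 := sub_ne_zero.mpr hv
  apply Finset.card_bij (fun p _ => (p.1 * v + p.2, p.1 * v' + p.2))
  · intro p hp
    rw [mem_filter] at hp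
    rw [mem_product]
    exact hp.2
  · intro p _ q _ he
    rw [Prod.mk.injEq] at he
    obtain ⟨h1, h2⟩ := he
    have h3 : (p.1 - q.1) * (v - v') = 0 := by linear_combination h1 - h2
    have h4 : p.1 = q.1 := by
      rcases mul_eq_zero.mp h3 with h | h
      · exact sub_eq_zero.mp h
      · exact absurd h hd
    rw [h4] at h1
    exact Prod.ext h4 (add_left_cancel h1)
  · rintro ⟨u, u'⟩ hu
    rw [mem_product] at hu
    have e1 : (u - u') / (v - v') * v + (u - (u - u') / (v - v') * v) = u := by ring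
    have e2 : (u - u') / (v - v') * v' + (u - (u - u') / (v - v') * v) = u' := by
      have : (u - u') / (v - v') * (v - v') = u - u' := div_mul_cancel₀ _ hd
      linear_combination -this
    refine ⟨((u - u') / (v - v'), u - (u - u') / (v - v') * v), ?_, ?_⟩
    · rw [mem_filter]
      refine ⟨mem_univ _, ?_⟩
      simp only [e1, e2]
      exact hu
    · simp only [e1, e2]

lemma sum_hits (N : ℕ) [NeZero N] (V U : Finset (ZMod N)) :
    ∑ p : ZMod N × ZMod N, (hits V U p : ℝ) = V.card * U.card * N := by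
  classical
  have h : ∑ p : ZMod N × ZMod N, hits V U p = V.card * (N * U.card) := by
    simp only [hits, card_filter]
    rw [Finset.sum_comm]
    rw [Finset.sum_congr rfl (g := fun _ => N * U.card)]
    · rw [sum_const, smul_eq_mul]
    · intro v _
      rw [← card_filter]
      exact card_single N v U
  have h' : (∑ p : ZMod N × ZMod N, (hits V U p : ℝ)) = ((V.card * (N * U.card) : ℕ) : ℝ) := by
    rw [← h]; push_cast; rfl
  rw [h']; push_cast; ring

lemma sum_hits_sq (N : ℕ) [Fact N.Prime] (V U : Finset (ZMod N)) :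
    ∑ p : ZMod N × ZMod N, (hits V U p : ℝ) ^ 2 ≤
      V.card * U.card * N + (V.card * U.card : ℝ) ^ 2 := by
  classical
  have hsq : ∀ p : ZMod N × ZMod N, (hits V U p) ^ 2 = ∑ v ∈ V, ∑ v' ∈ V,
      (if p.1 * v + p.2 ∈ U ∧ p.1 * v' + p.2 ∈ U then 1 else 0) := by
    intro p
    simp only [hits, card_filter]
    rw [sq, Finset.sum_mul_sum]
    apply Finset.sum_congr rfl
    intro v _
    apply Finset.sum_congr rfl
    intro v' _
    by_cases h1 : p.1 * v + p.2 ∈ U <;> by_cases h2 : p.1 * v' + p.2 ∈ U <;> simp [h1, h2]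
  have h : ∑ p : ZMod N × ZMod N, (hits V U p) ^ 2 ≤
      V.card * (N * U.card) + (V.card * U.card) ^ 2 := by
    simp only [hsq]
    rw [Finset.sum_comm]
    have hv : ∀ v ∈ V, ∑ p : ZMod N × ZMod N, ∑ v' ∈ V,
        (if p.1 * v + p.2 ∈ U ∧ p.1 * v' + p.2 ∈ U then 1 else 0)
        ≤ N * U.card + V.card * (U.card * U.card) := by
      intro v hv
      rw [Finset.sum_comm]
      have h1 : ∀ v' ∈ V, ∑ p : ZMod N × ZMod N,
          (if p.1 * v + p.2 ∈ U ∧ p.1 * v' + p.2 ∈ U then 1 else 0)
          ≤ (if v' = v then N * U.card else 0) + U.card * U.card := by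
        intro v' _
        rw [← card_filter]
        split_ifs with h
        · subst h
          simp only [and_self]
          rw [card_single]
          omega
        · rw [card_pair N (Ne.symm h)]
          omega
      refine (Finset.sum_le_sum h1).trans ?_
      rw [Finset.sum_add_distrib, Finset.sum_ite_eq' V v (fun _ => N * U.card), if_pos hv, sum_const,
        smul_eq_mul]
    refine (Finset.sum_le_sum hv).trans ?_
    rw [sum_const, smul_eq_mul]
    apply le_of_eq; ring
  have h' : (∑ p : ZMod N × ZMod N, (hits V U p : ℝ) ^ 2) ≤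
      ((V.card * (N * U.card) + (V.card * U.card) ^ 2 : ℕ) : ℝ) := by
    exact_mod_cast h
  refine h'.trans (le_of_eq ?_)
  push_cast; ring

/-- Chebyshev for the affine hit count. `μ = |V||U|/N`. -/
lemma chebyshev (N : ℕ) [Fact N.Prime] (V U : Finset (ZMod N)) (lam : ℝ) (hlam : 0 < lam) :
    (((univ : Finset (ZMod N × ZMod N)).filter
      (fun p => (hits V U p : ℝ) ≤ (V.card * U.card : ℝ) / N - lam)).card : ℝ) * lam ^ 2
      ≤ (N : ℝ) ^ 2 * ((V.card * U.card : ℝ) / N) := by
  classical
  have hN : (0 : ℝ) < N := by exact_mod_cast (Fact.out : N.Prime).pos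
  set μ : ℝ := (V.card * U.card : ℝ) / N with hμ
  have hVU : (V.card * U.card : ℝ) = μ * N := by rw [hμ]; field_simp
  have hcard : ((univ : Finset (ZMod N × ZMod N)).card : ℝ) = (N : ℝ) ^ 2 := by
    rw [card_univ, Fintype.card_prod, ZMod.card]; push_cast; ring
  have hvar : ∑ p : ZMod N × ZMod N, ((hits V U p : ℝ) - μ) ^ 2 ≤ (N : ℝ) ^ 2 * μ := by
    have e : ∑ p : ZMod N × ZMod N, ((hits V U p : ℝ) - μ) ^ 2
        = ∑ p : ZMod N × ZMod N, (hits V U p : ℝ) ^ 2 - 2 * μ * ∑ p : ZMod N × ZMod N, (hits V U p : ℝ)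
          + (N : ℝ) ^ 2 * μ ^ 2 := by
      rw [← hcard, Finset.mul_sum, ← nsmul_eq_mul, ← Finset.sum_const, ← Finset.sum_sub_distrib,
        ← Finset.sum_add_distrib]
      apply Finset.sum_congr rfl
      intro p _; ring
    rw [e, sum_hits]
    have := sum_hits_sq N V U
    rw [hVU] at this ⊢
    nlinarith
  set Bd := (univ : Finset (ZMod N × ZMod N)).filter (fun p => (hits V U p : ℝ) ≤ μ - lam) with hBd
  calc (Bd.card : ℝ) * lam ^ 2 = ∑ p ∈ Bd, lam ^ 2 := by
        rw [sum_const, nsmul_eq_mul]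
    _ ≤ ∑ p ∈ Bd, ((hits V U p : ℝ) - μ) ^ 2 := by
        apply Finset.sum_le_sum
        intro p hp
        rw [hBd, mem_filter] at hp
        have h1 : lam ≤ μ - (hits V U p : ℝ) := by linarith [hp.2]
        have h2 : ((hits V U p : ℝ) - μ) ^ 2 = (μ - (hits V U p : ℝ)) ^ 2 := by ring
        rw [h2]
        exact pow_le_pow_left₀ hlam.le h1 2
    _ ≤ ∑ p : ZMod N × ZMod N, ((hits V U p : ℝ) - μ) ^ 2 :=
        Finset.sum_le_sum_of_subset_of_nonneg (subset_univ _) fun _ _ _ => sq_nonneg _
    _ ≤ _ := hvar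

end Pool.Agent.Lib_helper91.Low
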