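import Mathlib
import Pool.Agent.Lib_helper91.LowA

set_option autoImplicit false

namespace Pool.Agent.Lib_helper91.Low

open Finset

lemma zero_hits_bound (N : ℕ) [Fact N.Prime] (V U : Finset (ZMod N))
    (h : 8 * N ≤ V.card * U.card) :
    (((univ : Finset (ZMod N × ZMod N)).filter (fun p => hits V U p = 0)).card : ℝ)
      ≤ (N : ℝ) ^ 2 / 8 := by
  classical
  have hN : (0 : ℝ) < N := by exact_mod_cast (Fact.out : N.Prime).pos
  have hμ : (8 : ℝ) ≤ (V.card * U.card : ℝ) / N := by
    rw [le_div_iff₀ hN]; exact_mod_cast h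
  set μ : ℝ := (V.card * U.card : ℝ) / N with hμd
  have hc := chebyshev N V U μ (by linarith)
  rw [← hμd, sub_self] at hc
  have hsub : ((univ : Finset (ZMod N × ZMod N)).filter (fun p => hits V U p = 0)).card
      ≤ ((univ : Finset (ZMod N × ZMod N)).filter (fun p => (hits V U p : ℝ) ≤ 0)).card := by
    apply Finset.card_le_card
    intro p hp
    rw [mem_filter] at hp ⊢
    refine ⟨hp.1, ?_⟩
    rw [hp.2]; simp
  have hsub' : (((univ : Finset (ZMod N × ZMod N)).filter (fun p => hits V U p = 0)).card : ℝ)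
      ≤ (((univ : Finset (ZMod N × ZMod N)).filter (fun p => (hits V U p : ℝ) ≤ 0)).card : ℝ) := by
    exact_mod_cast hsub
  set K : ℝ := (((univ : Finset (ZMod N × ZMod N)).filter (fun p => (hits V U p : ℝ) ≤ 0)).card : ℝ)
  have hμpos : 0 < μ := by linarith
  have h1 : K * μ ≤ (N : ℝ) ^ 2 := by
    have : K * μ * μ ≤ (N : ℝ) ^ 2 * μ := by
      calc K * μ * μ = K * μ ^ 2 := by ring
        _ ≤ _ := hc
    exact le_of_mul_le_mul_right this hμpos
  have hK0 : 0 ≤ K := by positivity
  have h2 : K * 8 ≤ (N : ℝ) ^ 2 := le_trans (mul_le_mul_of_nonneg_left hμ hK0) h1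
  linarith

lemma low_hits_bound (N : ℕ) [Fact N.Prime] (V U : Finset (ZMod N))
    (h : 64 * N ≤ V.card * U.card) :
    (((univ : Finset (ZMod N × ZMod N)).filter
      (fun p => (2 * N * hits V U p : ℝ) ≤ (V.card * U.card : ℝ))).card : ℝ)
      ≤ (N : ℝ) ^ 2 / 16 := by
  classical
  have hN : (0 : ℝ) < N := by exact_mod_cast (Fact.out : N.Prime).pos
  have hμ : (64 : ℝ) ≤ (V.card * U.card : ℝ) / N := by
    rw [le_div_iff₀ hN]; exact_mod_cast h
  set μ : ℝ := (V.card * U.card : ℝ) / N with hμd
  have hc := chebyshev N V U (μ / 2) (by linarith)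
  rw [← hμd] at hc
  have heq : ((univ : Finset (ZMod N × ZMod N)).filter
      (fun p => (2 * N * hits V U p : ℝ) ≤ (V.card * U.card : ℝ)))
      = ((univ : Finset (ZMod N × ZMod N)).filter (fun p => (hits V U p : ℝ) ≤ μ - μ / 2)) := by
    apply Finset.filter_congr
    intro p _
    have : μ - μ / 2 = (V.card * U.card : ℝ) / (2 * N) := by rw [hμd]; field_simp; ring
    rw [this, le_div_iff₀ (by positivity)]
    constructor <;> intro h <;> linarith
  rw [heq]
  set K : ℝ := (((univ : Finset (ZMod N × ZMod N)).filter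
    (fun p => (hits V U p : ℝ) ≤ μ - μ / 2)).card : ℝ)
  have hμpos : 0 < μ := by linarith
  have h1 : K * μ ≤ 4 * (N : ℝ) ^ 2 := by
    have : K * μ * μ ≤ 4 * (N : ℝ) ^ 2 * μ := by
      calc K * μ * μ = 4 * (K * (μ / 2) ^ 2) := by ring
        _ ≤ 4 * ((N : ℝ) ^ 2 * μ) := by linarith
        _ = _ := by ring
    exact le_of_mul_le_mul_right this hμpos
  have hK0 : 0 ≤ K := by positivity
  have h2 : K * 64 ≤ 4 * (N : ℝ) ^ 2 := le_trans (mul_le_mul_of_nonneg_left hμ hK0) h1
  linarith

/-- the arithmetic progression of length `L` with first term `q.1` and difference `q.2` -/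
def apSet {N : ℕ} (L : ℕ) (q : ZMod N × ZMod N) : Finset (ZMod N) :=
  (range L).image (fun i : ℕ => q.1 + (i : ZMod N) * q.2)

lemma card_apSet (N : ℕ) [Fact N.Prime] (L : ℕ) (hL : L ≤ N) (q : ZMod N × ZMod N)
    (hq : q.2 ≠ 0) : (apSet L q).card = L := by
  classical
  unfold apSet
  rw [Finset.card_image_of_injOn, card_range]
  intro i hi j hj he
  simp only [coe_range, Set.mem_Iio] at hi hj
  simp only at he
  have h1 : (i : ZMod N) * q.2 = (j : ZMod N) * q.2 := add_left_cancel he
  have h2 : (i : ZMod N) = (j : ZMod N) := mul_right_cancel₀ hq h1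
  rw [ZMod.natCast_eq_natCast_iff] at h2
  exact Nat.ModEq.eq_of_lt_of_lt h2 (by omega) (by omega)

lemma hits_eq_zero_iff {N : ℕ} (V U : Finset (ZMod N)) (p : ZMod N × ZMod N) :
    hits V U p = 0 ↔ ∀ v ∈ V, p.1 * v + p.2 ∉ U := by
  classical
  unfold hits
  rw [Finset.card_eq_zero, Finset.filter_eq_empty_iff]

/-- number of progressions of a family not hit by `p` -/
def unhit {N : ℕ} (L : ℕ) (U : Finset (ZMod N)) (Q : Finset (ZMod N × ZMod N))
    (p : ZMod N × ZMod N) : Finset (ZMod N × ZMod N) :=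
  Q.filter (fun q => hits (apSet L q) U p = 0)

/-- Markov: few `p` leave more than half of a family of progressions unhit. -/
lemma bad_unhit (N : ℕ) [Fact N.Prime] (L : ℕ) (hL : L ≤ N) (U : Finset (ZMod N))
    (hLU : 8 * N ≤ L * U.card) (Q : Finset (ZMod N × ZMod N)) (hQ : ∀ q ∈ Q, q.2 ≠ 0) :
    (((univ : Finset (ZMod N × ZMod N)).filter
      (fun p => Q.card < 2 * (unhit L U Q p).card)).card : ℝ) ≤ (N : ℝ) ^ 2 / 4 := by
  classical
  rcases Nat.eq_zero_or_pos Q.card with h0 | h0
  · have : (univ : Finset (ZMod N × ZMod N)).filter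
      (fun p => Q.card < 2 * (unhit L U Q p).card) = ∅ := by
      rw [Finset.filter_eq_empty_iff]
      intro p _
      have : (unhit L U Q p).card ≤ Q.card := Finset.card_filter_le _ _
      omega
    rw [this]; simp; positivity
  set Bd := (univ : Finset (ZMod N × ZMod N)).filter
      (fun p => Q.card < 2 * (unhit L U Q p).card) with hBd
  have hsum : ∑ p : ZMod N × ZMod N, ((unhit L U Q p).card : ℝ) ≤ Q.card * ((N : ℝ) ^ 2 / 8) := by
    have e : ∑ p : ZMod N × ZMod N, ((unhit L U Q p).card : ℝ)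
        = ∑ q ∈ Q, (((univ : Finset (ZMod N × ZMod N)).filter
          (fun p => hits (apSet L q) U p = 0)).card : ℝ) := by
      simp only [unhit, card_filter]
      push_cast
      rw [Finset.sum_comm]
    rw [e]
    calc _ ≤ ∑ q ∈ Q, (N : ℝ) ^ 2 / 8 := by
          apply Finset.sum_le_sum
          intro q hq
          apply zero_hits_bound
          rw [card_apSet N L hL q (hQ q hq)]
          exact hLU
      _ = _ := by rw [sum_const, nsmul_eq_mul]
  have h1 : (Bd.card : ℝ) * (Q.card / 2) ≤ Q.card * ((N : ℝ) ^ 2 / 8) := by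
    calc (Bd.card : ℝ) * (Q.card / 2) = ∑ p ∈ Bd, ((Q.card : ℝ) / 2) := by
          rw [sum_const, nsmul_eq_mul]
      _ ≤ ∑ p ∈ Bd, ((unhit L U Q p).card : ℝ) := by
          apply Finset.sum_le_sum
          intro p hp
          rw [hBd, mem_filter] at hp
          have : (Q.card : ℝ) < 2 * ((unhit L U Q p).card : ℝ) := by exact_mod_cast hp.2
          linarith
      _ ≤ ∑ p : ZMod N × ZMod N, ((unhit L U Q p).card : ℝ) :=
          Finset.sum_le_sum_of_subset_of_nonneg (subset_univ _) fun _ _ _ => by positivity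
      _ ≤ _ := hsum
  have hQpos : (0 : ℝ) < Q.card := by exact_mod_cast h0
  have h2 : (Bd.card : ℝ) * Q.card ≤ ((N : ℝ) ^ 2 / 4) * Q.card := by linarith
  exact le_of_mul_le_mul_right h2 hQpos

/-- Markov: few `p` have more than four times the expected number of hits. -/
lemma bad_many (N : ℕ) [Fact N.Prime] (J W : Finset (ZMod N)) :
    (((univ : Finset (ZMod N × ZMod N)).filter
      (fun p => 4 * (J.card * W.card) < N * hits J W p)).card : ℝ) ≤ (N : ℝ) ^ 2 / 4 := by
  classical
  have hN : (0 : ℝ) < N := by exact_mod_cast (Fact.out : N.Prime).pos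
  rcases Nat.eq_zero_or_pos (J.card * W.card) with h0 | h0
  · have : (univ : Finset (ZMod N × ZMod N)).filter
      (fun p => 4 * (J.card * W.card) < N * hits J W p) = ∅ := by
      rw [Finset.filter_eq_empty_iff]
      intro p _
      have : hits J W p = 0 := by
        rw [hits_eq_zero_iff]
        intro v hv hw
        have h1 : 0 < J.card := Finset.card_pos.mpr ⟨v, hv⟩
        have h2 : 0 < W.card := Finset.card_pos.mpr ⟨_, hw⟩
        have := Nat.mul_pos h1 h2
        omega
      rw [this]; simp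
    rw [this]; simp; positivity
  set Bd := (univ : Finset (ZMod N × ZMod N)).filter
      (fun p => 4 * (J.card * W.card) < N * hits J W p) with hBd
  have hsum := sum_hits N J W
  have hJW : (0 : ℝ) < (J.card : ℝ) * W.card := by exact_mod_cast h0
  have h1 : (Bd.card : ℝ) * (4 * (J.card * W.card) / N) ≤ J.card * W.card * N := by
    calc (Bd.card : ℝ) * (4 * (J.card * W.card) / N) = ∑ p ∈ Bd, (4 * (J.card * W.card) / N : ℝ) := by
          rw [sum_const, nsmul_eq_mul]
      _ ≤ ∑ p ∈ Bd, (hits J W p : ℝ) := by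
          apply Finset.sum_le_sum
          intro p hp
          rw [hBd, mem_filter] at hp
          have : (4 * (J.card * W.card) : ℝ) < N * hits J W p := by exact_mod_cast hp.2
          rw [div_le_iff₀ hN]
          linarith
      _ ≤ ∑ p : ZMod N × ZMod N, (hits J W p : ℝ) :=
          Finset.sum_le_sum_of_subset_of_nonneg (subset_univ _) fun _ _ _ => by positivity
      _ = _ := hsum
  have h2 : (Bd.card : ℝ) * (J.card * W.card) ≤ ((N : ℝ) ^ 2 / 4) * (J.card * W.card) := by
    have h3 : (Bd.card : ℝ) * (4 * (J.card * W.card) / N) * (N / 4)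
        ≤ (J.card * W.card * N) * (N / 4) := mul_le_mul_of_nonneg_right h1 (by positivity)
    have e1 : (Bd.card : ℝ) * (4 * (J.card * W.card) / N) * (N / 4)
        = (Bd.card : ℝ) * (J.card * W.card) := by field_simp
    have e2 : ((J.card : ℝ) * W.card * N) * (N / 4) = ((N : ℝ) ^ 2 / 4) * (J.card * W.card) := by ring
    rw [e1, e2] at h3
    exact h3
  exact le_of_mul_le_mul_right h2 hJW

/-- One step of the random construction. -/
lemma step (N : ℕ) [Fact N.Prime] (L : ℕ) (hL : L ≤ N) (U J W V U₁ U₂ : Finset (ZMod N))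
    (hLU : 8 * N ≤ L * U.card) (h1 : 64 * N ≤ V.card * U₁.card) (h2 : 64 * N ≤ V.card * U₂.card)
    (Q : Finset (ZMod N × ZMod N)) (hQ : ∀ q ∈ Q, q.2 ≠ 0) :
    ∃ r s t : ZMod N, 2 * (unhit L U Q (r, s)).card ≤ Q.card ∧
      N * hits J W (r, s) ≤ 4 * (J.card * W.card) ∧
      V.card * U₁.card ≤ 2 * N * hits V U₁ (r, t) ∧
      V.card * U₂.card ≤ 2 * N * hits V U₂ (r, t) := by
  classical
  by_contra hcon
  push Not at hcon
  have hNpos : (0 : ℝ) < N := by exact_mod_cast (Fact.out : N.Prime).pos
  set B1 := (univ : Finset (ZMod N × ZMod N)).filter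
      (fun p => Q.card < 2 * (unhit L U Q p).card) with hB1
  set B2 := (univ : Finset (ZMod N × ZMod N)).filter
      (fun p => 4 * (J.card * W.card) < N * hits J W p) with hB2
  set B3 := (univ : Finset (ZMod N × ZMod N)).filter
      (fun p => (2 * N * hits V U₁ p : ℝ) ≤ (V.card * U₁.card : ℝ)) with hB3
  set B4 := (univ : Finset (ZMod N × ZMod N)).filter
      (fun p => (2 * N * hits V U₂ p : ℝ) ≤ (V.card * U₂.card : ℝ)) with hB4
  have b1 := bad_unhit N L hL U hLU Q hQ
  have b2 := bad_many N J W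
  have b3 := low_hits_bound N V U₁ h1
  have b4 := low_hits_bound N V U₂ h2
  -- cover the whole space of triples
  set T := (univ : Finset (ZMod N × ZMod N × ZMod N)) with hT
  have hcover : T ⊆ (((B1 ∪ B2) ×ˢ (univ : Finset (ZMod N))).image
        (fun x : (ZMod N × ZMod N) × ZMod N => (x.1.1, x.1.2, x.2)))
      ∪ (((B3 ∪ B4) ×ˢ (univ : Finset (ZMod N))).image
        (fun x : (ZMod N × ZMod N) × ZMod N => (x.1.1, x.2, x.1.2))) := by
    rintro ⟨r, s, t⟩ _
    rw [mem_union, mem_image, mem_image]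
    by_cases c1 : (r, s) ∈ B1 ∪ B2
    · left
      exact ⟨((r, s), t), mem_product.mpr ⟨c1, mem_univ _⟩, rfl⟩
    · right
      refine ⟨((r, t), s), mem_product.mpr ⟨?_, mem_univ _⟩, rfl⟩
      rw [mem_union, not_or] at c1
      obtain ⟨d1, d2⟩ := c1
      rw [hB1, mem_filter, not_and] at d1
      rw [hB2, mem_filter, not_and] at d2
      have e1 := d1 (mem_univ _)
      have e2 := d2 (mem_univ _)
      push Not at e1 e2
      rw [mem_union]
      by_cases c3 : (r, t) ∈ B3
      · left; exact c3
      · right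
        rw [hB3, mem_filter, not_and] at c3
        have e3 := c3 (mem_univ _)
        push Not at e3
        have e3' : V.card * U₁.card ≤ 2 * N * hits V U₁ (r, t) := by
          have : (V.card * U₁.card : ℝ) ≤ 2 * N * hits V U₁ (r, t) := e3.le
          exact_mod_cast this
        have e4 := hcon r s t e1 e2 e3'
        rw [hB4, mem_filter]
        refine ⟨mem_univ _, ?_⟩
        have : (2 * N * hits V U₂ (r, t) : ℕ) < V.card * U₂.card := e4
        have h5 : ((2 * N * hits V U₂ (r, t) : ℕ) : ℝ) < ((V.card * U₂.card : ℕ) : ℝ) := by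
          exact_mod_cast this
        push_cast at h5
        exact h5.le
  have hcard := Finset.card_le_card hcover
  have hTcard : T.card = N * (N * N) := by
    rw [hT, card_univ, Fintype.card_prod, Fintype.card_prod, ZMod.card]
  have hb : (((B1 ∪ B2) ×ˢ (univ : Finset (ZMod N))).image
        (fun x : (ZMod N × ZMod N) × ZMod N => (x.1.1, x.1.2, x.2))).card
      ≤ (B1.card + B2.card) * N := by
    refine Finset.card_image_le.trans ?_
    rw [card_product, card_univ, ZMod.card]
    exact Nat.mul_le_mul_right _ (Finset.card_union_le _ _)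
  have hb' : (((B3 ∪ B4) ×ˢ (univ : Finset (ZMod N))).image
        (fun x : (ZMod N × ZMod N) × ZMod N => (x.1.1, x.2, x.1.2))).card
      ≤ (B3.card + B4.card) * N := by
    refine Finset.card_image_le.trans ?_
    rw [card_product, card_univ, ZMod.card]
    exact Nat.mul_le_mul_right _ (Finset.card_union_le _ _)
  have hfin : N * (N * N) ≤ (B1.card + B2.card) * N + (B3.card + B4.card) * N := by
    rw [← hTcard]
    exact (hcard.trans (Finset.card_union_le _ _)).trans (add_le_add hb hb')
  have hfin' : (N : ℝ) * (N * N) ≤ (B1.card + B2.card) * N + (B3.card + B4.card) * N := by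
    exact_mod_cast hfin
  have hlast : (N : ℝ) * (N * N) ≤ ((N : ℝ) ^ 2 * (5 / 8)) * N := by
    calc (N : ℝ) * (N * N) ≤ (B1.card + B2.card) * N + (B3.card + B4.card) * N := hfin'
      _ = (B1.card + B2.card + B3.card + B4.card) * N := by ring
      _ ≤ ((N : ℝ) ^ 2 / 4 + (N : ℝ) ^ 2 / 4 + (N : ℝ) ^ 2 / 16 + (N : ℝ) ^ 2 / 16) * N := by
          gcongr
      _ = _ := by ring
  have hpos : 0 < (N : ℝ) * (N * N) := by positivity
  nlinarith

end Pool.Agent.Lib_helper91.Low
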