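import Mathlib
import Pool.Agent.Lib_helper91.LowB

set_option autoImplicit false

namespace Pool.Agent.Lib_helper91.Low

open Finset

/-- Iterating the random step `k ≤ m` times. -/
lemma build (N : ℕ) [Fact N.Prime] (L : ℕ) (hL : L ≤ N) (U J W : Finset (ZMod N))
    (V : ℕ → Finset (ZMod N)) (U₁ U₂ : Finset (ZMod N))
    (hLU : 8 * N ≤ L * U.card) (m : ℕ) (h1 : ∀ x < m, 64 * N ≤ (V x).card * U₁.card)
    (h2 : ∀ x < m, 64 * N ≤ (V x).card * U₂.card) (k : ℕ) (hk : k ≤ m) :
    ∃ r s t : ℕ → ZMod N,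
      (∀ x < k, N * hits J W (r x, s x) ≤ 4 * (J.card * W.card) ∧
        (V x).card * U₁.card ≤ 2 * N * hits (V x) U₁ (r x, t x) ∧
        (V x).card * U₂.card ≤ 2 * N * hits (V x) U₂ (r x, t x)) ∧
      2 ^ k * ((univ : Finset (ZMod N × ZMod N)).filter
        (fun q => q.2 ≠ 0 ∧ ∀ x < k, hits (apSet L q) U (r x, s x) = 0)).card ≤ N * N := by
  classical
  induction k with
  | zero =>
    refine ⟨fun _ => 0, fun _ => 0, fun _ => 0, fun x hx => absurd hx (Nat.not_lt_zero x), ?_⟩
    rw [pow_zero, one_mul]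
    calc _ ≤ (univ : Finset (ZMod N × ZMod N)).card := Finset.card_filter_le _ _
      _ = N * N := by rw [card_univ, Fintype.card_prod, ZMod.card]
  | succ k ih =>
    obtain ⟨r, s, t, hprop, hcard⟩ := ih (by omega)
    set Q := (univ : Finset (ZMod N × ZMod N)).filter
        (fun q => q.2 ≠ 0 ∧ ∀ x < k, hits (apSet L q) U (r x, s x) = 0) with hQ
    have hQ2 : ∀ q ∈ Q, q.2 ≠ 0 := by
      intro q hq
      rw [hQ, mem_filter] at hq
      exact hq.2.1
    obtain ⟨r0, s0, t0, c1, c2, c3, c4⟩ := step N L hL U J W (V k) U₁ U₂ hLU (h1 k (by omega))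
      (h2 k (by omega)) Q hQ2
    refine ⟨Function.update r k r0, Function.update s k s0, Function.update t k t0, ?_, ?_⟩
    · intro x hx
      rcases Nat.lt_succ_iff_lt_or_eq.mp hx with hx | hx
      · have hne : x ≠ k := hx.ne
        rw [Function.update_of_ne hne, Function.update_of_ne hne, Function.update_of_ne hne]
        exact hprop x hx
      · subst hx
        rw [Function.update_self, Function.update_self, Function.update_self]
        exact ⟨c2, c3, c4⟩
    · have hsub : (univ : Finset (ZMod N × ZMod N)).filter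
          (fun q => q.2 ≠ 0 ∧ ∀ x < k + 1, hits (apSet L q) U
            (Function.update r k r0 x, Function.update s k s0 x) = 0)
          ⊆ unhit L U Q (r0, s0) := by
        intro q hq
        rw [mem_filter] at hq
        obtain ⟨-, hq2, hq3⟩ := hq
        rw [unhit, mem_filter, hQ, mem_filter]
        refine ⟨⟨mem_univ _, hq2, ?_⟩, ?_⟩
        · intro x hx
          have hne : x ≠ k := hx.ne
          have := hq3 x (by omega)
          rwa [Function.update_of_ne hne, Function.update_of_ne hne] at this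
        · have := hq3 k (by omega)
          rwa [Function.update_self, Function.update_self] at this
      have h3 := Finset.card_le_card hsub
      calc _ ≤ 2 ^ (k + 1) * (unhit L U Q (r0, s0)).card := Nat.mul_le_mul_left _ h3
        _ = 2 ^ k * (2 * (unhit L U Q (r0, s0)).card) := by rw [pow_succ]; ring
        _ ≤ 2 ^ k * Q.card := Nat.mul_le_mul_left _ c1
        _ ≤ N * N := hcard

/-- residues whose centred representative lies in `[a, b]` -/
def seg (N : ℕ) [NeZero N] (a b : ℤ) : Finset (ZMod N) :=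
  univ.filter (fun y : ZMod N => a ≤ y.valMinAbs ∧ y.valMinAbs ≤ b)

lemma mem_seg {N : ℕ} [NeZero N] {a b : ℤ} {y : ZMod N} :
    y ∈ seg N a b ↔ a ≤ y.valMinAbs ∧ y.valMinAbs ≤ b := by
  simp [seg]

lemma valMinAbs_cast {N : ℕ} [NeZero N] {k : ℤ} (h1 : -(N : ℤ) < 2 * k) (h2 : 2 * k ≤ N) :
    ((k : ℤ) : ZMod N).valMinAbs = k := by
  rw [ZMod.valMinAbs_spec]
  refine ⟨rfl, ?_⟩
  rw [Set.mem_Ioc]
  constructor <;> linarith

lemma card_seg {N : ℕ} [NeZero N] {a b : ℤ} (h1 : -(N : ℤ) < 2 * a) (h2 : 2 * b ≤ N) :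
    (seg N a b).card = (b + 1 - a).toNat := by
  classical
  have himg : seg N a b = (Finset.Icc a b).image (fun k : ℤ => (k : ZMod N)) := by
    ext y
    rw [mem_seg, mem_image]
    constructor
    · intro h
      exact ⟨y.valMinAbs, Finset.mem_Icc.mpr h, ZMod.coe_valMinAbs y⟩
    · rintro ⟨k, hk, rfl⟩
      rw [Finset.mem_Icc] at hk
      rw [valMinAbs_cast (by linarith) (by linarith)]
      exact hk
  rw [himg, Finset.card_image_of_injOn, Int.card_Icc]
  intro x hx y hy he
  rw [Finset.mem_coe, Finset.mem_Icc] at hx hy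
  simp only at he
  have e1 := valMinAbs_cast (N := N) (k := x) (by linarith) (by linarith)
  have e2 := valMinAbs_cast (N := N) (k := y) (by linarith) (by linarith)
  rw [← e1, ← e2, he]

/-- centred ball -/
def ball (N : ℕ) [NeZero N] (R : ℕ) : Finset (ZMod N) := seg N (-(R : ℤ)) R

lemma mem_ball {N : ℕ} [NeZero N] {R : ℕ} {y : ZMod N} :
    y ∈ ball N R ↔ |y.valMinAbs| ≤ R := by
  rw [ball, mem_seg, abs_le]

lemma card_ball {N : ℕ} [NeZero N] {R : ℕ} (h : 2 * R < N) : (ball N R).card = 2 * R + 1 := by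
  rw [ball, card_seg (by omega) (by omega)]
  omega

lemma valMinAbs_add_of {N : ℕ} [NeZero N] {y z : ZMod N}
    (h1 : -(N : ℤ) < 2 * (y.valMinAbs + z.valMinAbs)) (h2 : 2 * (y.valMinAbs + z.valMinAbs) ≤ N) :
    (y + z).valMinAbs = y.valMinAbs + z.valMinAbs := by
  have : y + z = (((y.valMinAbs + z.valMinAbs : ℤ)) : ZMod N) := by
    rw [Int.cast_add, ZMod.coe_valMinAbs, ZMod.coe_valMinAbs]
  rw [this]
  exact valMinAbs_cast h1 h2

lemma valMinAbs_sub_of {N : ℕ} [NeZero N] {y z : ZMod N}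
    (h1 : -(N : ℤ) < 2 * (y.valMinAbs - z.valMinAbs)) (h2 : 2 * (y.valMinAbs - z.valMinAbs) ≤ N) :
    (y - z).valMinAbs = y.valMinAbs - z.valMinAbs := by
  have : y - z = (((y.valMinAbs - z.valMinAbs : ℤ)) : ZMod N) := by
    rw [Int.cast_sub, ZMod.coe_valMinAbs, ZMod.coe_valMinAbs]
  rw [this]
  exact valMinAbs_cast h1 h2

end Pool.Agent.Lib_helper91.Low
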