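import Mathlib
import Pool.Agent.Lib_helper91.LowC

set_option autoImplicit false

namespace Pool.Agent.Lib_helper91.Low

open Finset
open scoped Pointwise

/-- membership predicate (on centred integer representatives) of the set `A` -/
def inA (N : ℕ) [NeZero N] (m h R : ℕ) (r s t : ℕ → ZMod N) (a : ℤ) : Prop :=
  ((7 * m + 6) * h ≤ a ∧ 2 * a ≤ N - h) ∨
  (-((7 * m + 6) * h : ℤ) + h ≤ a ∧ a ≤ -((7 * m + 6) * h : ℤ) + 2 * h) ∨
  (∃ x : ℕ, x < m ∧ |a - 7 * h * (x + 1)| ≤ 3 * h ∧ r x * a + t x ∈ ball N R) ∨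
  (∃ x : ℕ, x < m ∧ |a + 7 * h * (x + 1)| ≤ 3 * h ∧ r x * a + (s x - t x) ∈ ball N R)

open Classical in
/-- the set `A` -/
noncomputable def setA (N : ℕ) [NeZero N] (m h R : ℕ) (r s t : ℕ → ZMod N) : Finset (ZMod N) :=
  univ.filter (fun z : ZMod N => inA N m h R r s t z.valMinAbs)

section

variable {N : ℕ} [NeZero N] {m h R : ℕ} {r s t : ℕ → ZMod N}

lemma px_le {x : ℕ} (hx : x < m) : (7 * h * (x + 1) : ℤ) ≤ 7 * h * m := by
  have h1 : ((x : ℤ) + 1) ≤ m := by exact_mod_cast hx
  have h2 : (0 : ℤ) ≤ 7 * h := by positivity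
  exact mul_le_mul_of_nonneg_left h1 h2

lemma px_ge (x : ℕ) : (7 * h : ℤ) ≤ 7 * h * (x + 1) := by
  have h2 : (0 : ℤ) ≤ 7 * h := by positivity
  have h3 : (0 : ℤ) ≤ x := by positivity
  nlinarith

lemma inA_bounds (hN : 8 * ((7 * m + 6) * h) ≤ N) {a : ℤ} (ha : inA N m h R r s t a) :
    -((7 * m + 6) * h : ℤ) + h ≤ a ∧ 2 * a ≤ N - h := by
  have hN' : 8 * ((7 * m + 6) * h : ℤ) ≤ N := by exact_mod_cast hN
  have hm : (0 : ℤ) ≤ m * h := by positivity
  have hh : (0 : ℤ) ≤ h := by positivity
  rcases ha with h1 | h1 | ⟨x, hx, h1, -⟩ | ⟨x, hx, h1, -⟩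
  · constructor
    · nlinarith [h1.1]
    · exact h1.2
  · constructor
    · exact h1.1
    · nlinarith [h1.2]
  · have h2 := px_le (h := h) hx
    have h3 := px_ge (h := h) x
    rw [abs_le] at h1
    constructor <;> nlinarith
  · have h2 := px_le (h := h) hx
    have h3 := px_ge (h := h) x
    rw [abs_le] at h1
    constructor <;> nlinarith

lemma ball_add {R : ℕ} (hR : 4 * R < N) {y z : ZMod N} (hy : y ∈ ball N R) (hz : z ∈ ball N R) :
    y + z ∈ ball N (2 * R) := by
  rw [mem_ball, abs_le] at hy hz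
  rw [mem_ball, valMinAbs_add_of (by omega) (by omega), abs_le]
  push_cast
  constructor <;> linarith

/-- sums of two elements of `A` falling in the short window come from a common pair -/
lemma sum_window (hh : 1 ≤ h) (hN : 8 * ((7 * m + 6) * h) ≤ N) (hR : 4 * R < N) {a b : ℤ}
    (ha : inA N m h R r s t a) (hb : inA N m h R r s t b) (hab : |a + b| < h) :
    ∃ x : ℕ, x < m ∧ r x * ((a + b : ℤ) : ZMod N) + s x ∈ ball N (2 * R) := by
  have hN' : 8 * ((7 * m + 6) * h : ℤ) ≤ N := by exact_mod_cast hN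
  have hm : (0 : ℤ) ≤ m * h := by positivity
  have hhz : (1 : ℤ) ≤ h := by exact_mod_cast hh
  have hab' := abs_lt.mp hab
  obtain ⟨ha1, ha2⟩ := inA_bounds hN ha
  obtain ⟨hb1, hb2⟩ := inA_bounds hN hb
  set S0 : ℤ := (7 * m + 6) * h with hS0
  have hS0e : S0 = 7 * (m * h) + 6 * h := by rw [hS0]; ring
  have hSS : 6 * (h : ℤ) ≤ S0 := by rw [hS0e]; linarith
  have hpm : (7 * h * m : ℤ) = S0 - 6 * h := by rw [hS0e]; ring
  -- exclude the long interval
  have na : ¬ S0 ≤ a := by intro h1; linarith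
  have nb : ¬ S0 ≤ b := by intro h1; linarith
  -- exclude the short interval
  have key : ∀ {a b : ℤ}, inA N m h R r s t b → |a + b| < h → ¬ S0 ≤ b →
      ¬ (-S0 + h ≤ a ∧ a ≤ -S0 + 2 * h) := by
    rintro a b hb hab nb ⟨h1, h2⟩
    have hab' := abs_lt.mp hab
    have h3 : S0 - 3 * h < b := by linarith
    rcases hb with h4 | h4 | ⟨x, hx, h4, -⟩ | ⟨x, hx, h4, -⟩
    · exact nb h4.1
    · linarith [h4.2]
    · have h5 := px_le (h := h) hx
      rw [abs_le] at h4
      linarith [h4.2]
    · have h5 := px_ge (h := h) x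
      rw [abs_le] at h4
      linarith [h4.2]
  have ea := key hb hab nb
  have eb := key (a := b) (b := a) ha (by rwa [add_comm]) na
  rcases ha with h1 | h1 | ⟨x, hx, h1, h1'⟩ | ⟨x, hx, h1, h1'⟩
  · exact absurd h1.1 na
  · exact absurd h1 ea
  · rcases hb with h2 | h2 | ⟨y, hy, h2, h2'⟩ | ⟨y, hy, h2, h2'⟩
    · exact absurd h2.1 nb
    · exact absurd h2 eb
    · exfalso
      have h3 := px_ge (h := h) x
      have h4 := px_ge (h := h) y
      rw [abs_le] at h1 h2
      linarith [h1.1, h2.1]
    · -- the good case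
      have hxy : x = y := by
        by_contra hne
        rw [abs_le] at h1 h2
        rcases lt_or_gt_of_ne hne with hlt | hlt
        · have h5 : (7 * h * (x + 1) : ℤ) + 7 * h ≤ 7 * h * (y + 1) := by
            have h6 : (x : ℤ) + 1 ≤ y := by exact_mod_cast hlt
            nlinarith
          linarith [h1.1, h1.2, h2.1, h2.2]
        · have h5 : (7 * h * (y + 1) : ℤ) + 7 * h ≤ 7 * h * (x + 1) := by
            have h6 : (y : ℤ) + 1 ≤ x := by exact_mod_cast hlt
            nlinarith
          linarith [h1.1, h1.2, h2.1, h2.2]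
      subst hxy
      refine ⟨x, hx, ?_⟩
      have e : r x * ((a + b : ℤ) : ZMod N) + s x
          = (r x * (a : ZMod N) + t x) + (r x * (b : ZMod N) + (s x - t x)) := by
        push_cast; ring
      rw [e]
      exact ball_add hR h1' h2'
  · rcases hb with h2 | h2 | ⟨y, hy, h2, h2'⟩ | ⟨y, hy, h2, h2'⟩
    · exact absurd h2.1 nb
    · exact absurd h2 eb
    · have hxy : x = y := by
        by_contra hne
        rw [abs_le] at h1 h2
        rcases lt_or_gt_of_ne hne with hlt | hlt
        · have h5 : (7 * h * (x + 1) : ℤ) + 7 * h ≤ 7 * h * (y + 1) := by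
            have h6 : (x : ℤ) + 1 ≤ y := by exact_mod_cast hlt
            nlinarith
          linarith [h1.1, h1.2, h2.1, h2.2]
        · have h5 : (7 * h * (y + 1) : ℤ) + 7 * h ≤ 7 * h * (x + 1) := by
            have h6 : (y : ℤ) + 1 ≤ x := by exact_mod_cast hlt
            nlinarith
          linarith [h1.1, h1.2, h2.1, h2.2]
      subst hxy
      refine ⟨x, hx, ?_⟩
      have e : r x * ((a + b : ℤ) : ZMod N) + s x
          = (r x * (b : ZMod N) + t x) + (r x * (a : ZMod N) + (s x - t x)) := by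
        push_cast; ring
      rw [e]
      exact ball_add hR h2' h1'
    · exfalso
      have h3 := px_ge (h := h) x
      have h4 := px_ge (h := h) y
      rw [abs_le] at h1 h2
      linarith [h1.2, h2.2]

lemma mem_setA {z : ZMod N} : z ∈ setA N m h R r s t ↔ inA N m h R r s t z.valMinAbs := by
  simp [setA]

/-- The same for residues. -/
lemma sumset_window (hh : 1 ≤ h) (hN : 8 * ((7 * m + 6) * h) ≤ N) (hR : 4 * R < N) {z : ZMod N}
    (hz : z ∈ setA N m h R r s t + setA N m h R r s t) (hzw : |z.valMinAbs| < h) :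
    ∃ x : ℕ, x < m ∧ r x * z + s x ∈ ball N (2 * R) := by
  rw [Finset.mem_add] at hz
  obtain ⟨y₁, hy₁, y₂, hy₂, rfl⟩ := hz
  rw [mem_setA] at hy₁ hy₂
  obtain ⟨ha1, ha2⟩ := inA_bounds hN hy₁
  obtain ⟨hb1, hb2⟩ := inA_bounds hN hy₂
  set a := y₁.valMinAbs with ha
  set b := y₂.valMinAbs with hb
  have hN' : 8 * ((7 * m + 6) * h : ℤ) ≤ N := by exact_mod_cast hN
  have hm : (0 : ℤ) ≤ m * h := by positivity
  have hhz : (1 : ℤ) ≤ h := by exact_mod_cast hh
  have hcast : y₁ + y₂ = ((a + b : ℤ) : ZMod N) := by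
    rw [Int.cast_add, ha, hb, ZMod.coe_valMinAbs, ZMod.coe_valMinAbs]
  have hlow : -(N : ℤ) < 2 * (a + b) := by nlinarith
  rcases le_or_gt (2 * (a + b)) (N : ℤ) with hle | hgt
  · have hval : (y₁ + y₂).valMinAbs = a + b := by
      rw [hcast]; exact valMinAbs_cast hlow hle
    rw [hval] at hzw
    obtain ⟨x, hx, hx'⟩ := sum_window hh hN hR hy₁ hy₂ hzw
    refine ⟨x, hx, ?_⟩
    rw [hcast]; exact hx'
  · exfalso
    have hcast2 : y₁ + y₂ = ((a + b - N : ℤ) : ZMod N) := by
      rw [hcast]; push_cast; simp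
    have hval : (y₁ + y₂).valMinAbs = a + b - N := by
      rw [hcast2]; exact valMinAbs_cast (by linarith) (by linarith)
    rw [hval, abs_lt] at hzw
    linarith [hzw.1]

/-- Size of the sumset. -/
lemma card_sumset (hh : 1 ≤ h) (hN : 8 * ((7 * m + 6) * h) ≤ N) (hR : 4 * R < N) :
    (setA N m h R r s t + setA N m h R r s t).card + (2 * h - 1)
      ≤ N + ∑ x ∈ range m, hits (seg N (-((h : ℤ) - 1)) ((h : ℤ) - 1)) (ball N (2 * R)) (r x, s x) := by
  classical
  set J := seg N (-((h : ℤ) - 1)) ((h : ℤ) - 1) with hJ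
  have hhz : (1 : ℤ) ≤ h := by exact_mod_cast hh
  have hNh : 8 * (6 * h) ≤ N := by
    have : 6 * h ≤ (7 * m + 6) * h := Nat.mul_le_mul_right h (by omega)
    omega
  have hJcard : J.card = 2 * h - 1 := by
    rw [hJ, card_seg (by omega) (by omega)]; omega
  -- the part of J in the sumset is covered by the strips
  have hcov : J.filter (fun z => z ∈ setA N m h R r s t + setA N m h R r s t) ⊆
      (range m).biUnion (fun x => J.filter (fun v => r x * v + s x ∈ ball N (2 * R))) := by
    intro z hz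
    rw [mem_filter] at hz
    obtain ⟨hzJ, hzA⟩ := hz
    have hzJ' := hzJ
    rw [hJ, mem_seg] at hzJ'
    obtain ⟨x, hx, hx'⟩ := sumset_window hh hN hR hzA (by rw [abs_lt]; constructor <;> linarith)
    rw [mem_biUnion]
    exact ⟨x, mem_range.mpr hx, mem_filter.mpr ⟨hzJ, hx'⟩⟩
  have h1 : (J.filter (fun z => z ∈ setA N m h R r s t + setA N m h R r s t)).card
      ≤ ∑ x ∈ range m, hits J (ball N (2 * R)) (r x, s x) :=
    (Finset.card_le_card hcov).trans Finset.card_biUnion_le
  have h2 := Finset.card_filter_add_card_filter_not (s := J)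
    (fun z => z ∈ setA N m h R r s t + setA N m h R r s t)
  have h3 : (setA N m h R r s t + setA N m h R r s t).card
      + (J.filter (fun z => ¬ z ∈ setA N m h R r s t + setA N m h R r s t)).card ≤ N := by
    rw [← Finset.card_union_of_disjoint]
    · calc _ ≤ (univ : Finset (ZMod N)).card := Finset.card_le_card (subset_univ _)
        _ = N := by rw [card_univ, ZMod.card]
    · rw [Finset.disjoint_left]
      intro z hz hz'
      rw [mem_filter] at hz'
      exact hz'.2 hz
  omega

/-- number of representations -/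
def conv {N : ℕ} (A : Finset (ZMod N)) (z : ZMod N) : ℕ :=
  ((A ×ˢ A).filter (fun p => p.1 + p.2 = z)).card

omit [NeZero N] in
lemma conv_ge {A B : Finset (ZMod N)} {z : ZMod N} (hB : ∀ a ∈ B, a ∈ A ∧ z - a ∈ A) :
    B.card ≤ conv A z := by
  classical
  unfold conv
  apply Finset.card_le_card_of_injOn (fun a => (a, z - a))
  · intro a ha
    rw [Finset.mem_coe, mem_filter, mem_product]
    exact ⟨hB a ha, by simp⟩
  · intro a _ b _ he
    exact (Prod.mk.injEq _ _ _ _ ▸ he).1

/-- Size of `A`. -/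
lemma card_setA (hh : 1 ≤ h) (hN : 8 * ((7 * m + 6) * h) ≤ N) :
    N ≤ 4 * (setA N m h R r s t).card := by
  classical
  have hsub : seg N ((7 * m + 6) * h : ℤ) (((N : ℤ) - h) / 2) ⊆ setA N m h R r s t := by
    intro z hz
    rw [mem_seg] at hz
    rw [mem_setA]
    left
    refine ⟨hz.1, ?_⟩
    have : 2 * (((N : ℤ) - h) / 2) ≤ N - h := by omega
    linarith [hz.2]
  have hN' : 8 * ((7 * m + 6) * h : ℤ) ≤ N := by exact_mod_cast hN
  have h6 : (6 * h : ℤ) ≤ (7 * m + 6) * h := by
    have : (0 : ℤ) ≤ m * h := by positivity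
    nlinarith
  have hpos : (0 : ℤ) ≤ (7 * m + 6) * h := by positivity
  have h1 := Finset.card_le_card hsub
  rw [card_seg (by linarith [(Nat.cast_nonneg N : (0 : ℤ) ≤ N), hpos, (by exact_mod_cast
    (Nat.pos_of_ne_zero (NeZero.ne N)) : (0 : ℤ) < N)]) (by omega)] at h1
  set S0 : ℤ := (7 * m + 6) * h with hS0
  have hhz : (1 : ℤ) ≤ h := by exact_mod_cast hh
  omega

/-- Representations of residues outside the short window. -/
lemma conv_far (hh : 1 ≤ h) (hN : 8 * ((7 * m + 6) * h) ≤ N) {z : ZMod N}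
    (hz : 2 * (h : ℤ) < |z.valMinAbs|) : h + 1 ≤ conv (setA N m h R r s t) z := by
  classical
  have hN' : 8 * ((7 * m + 6) * h : ℤ) ≤ N := by exact_mod_cast hN
  have h6 : (6 * h : ℤ) ≤ (7 * m + 6) * h := by
    have : (0 : ℤ) ≤ m * h := by positivity
    nlinarith
  set S0 : ℤ := (7 * m + 6) * h with hS0
  have hhz : (1 : ℤ) ≤ h := by exact_mod_cast hh
  -- u : representative in [0, N)
  obtain ⟨u, hu, hu1, hu2⟩ : ∃ u : ℤ, z = (u : ZMod N) ∧ 2 * (h : ℤ) < u ∧ u < N - 2 * h := by
    have hmem := ZMod.valMinAbs_mem_Ioc z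
    rw [Set.mem_Ioc] at hmem
    rcases lt_abs.mp hz with h1 | h1
    · exact ⟨z.valMinAbs, (ZMod.coe_valMinAbs z).symm, h1, by linarith [hmem.2]⟩
    · refine ⟨z.valMinAbs + N, ?_, by linarith [hmem.1], by linarith⟩
      rw [Int.cast_add, ZMod.coe_valMinAbs]; simp
  have hval : ∀ k : ℤ, -S0 + h ≤ k → 2 * k ≤ N - h → ((k : ℤ) : ZMod N).valMinAbs = k := by
    intro k hk1 hk2
    exact valMinAbs_cast (by linarith) (by linarith)
  rcases le_or_gt (2 * u) (N - h - 2 * S0 + 2 * h) with hcase | hcase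
  · -- long interval + short interval
    have hB : ∀ a ∈ (Finset.Icc (-S0 + h) (-S0 + 2 * h)).image (fun k : ℤ => (k : ZMod N)),
        a ∈ setA N m h R r s t ∧ z - a ∈ setA N m h R r s t := by
      intro a ha
      rw [mem_image] at ha
      obtain ⟨k, hk, rfl⟩ := ha
      rw [Finset.mem_Icc] at hk
      constructor
      · rw [mem_setA, hval k hk.1 (by linarith)]
        right; left; exact hk
      · have e : z - (k : ZMod N) = ((u - k : ℤ) : ZMod N) := by rw [hu]; push_cast; ring
        rw [mem_setA, e, hval (u - k) (by linarith) (by linarith)]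
        left
        constructor <;> linarith [hk.1, hk.2]
    have h1 := conv_ge hB
    rw [Finset.card_image_of_injOn, Int.card_Icc] at h1
    · omega
    · intro x hx y hy he
      rw [Finset.mem_coe, Finset.mem_Icc] at hx hy
      simp only at he
      rw [← hval x hx.1 (by linarith), ← hval y hy.1 (by linarith), he]
  · -- long interval + long interval
    have hcase' : 2 * S0 + h < u := by linarith
    set c : ℤ := max S0 (u - (N - h) / 2) with hc
    have hc1 : S0 ≤ c := le_max_left _ _
    have hc2 : u - (N - h) / 2 ≤ c := le_max_right _ _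
    have hc3 : c + h ≤ (N - h) / 2 := by
      rcases max_choice S0 (u - (N - h) / 2) with h1 | h1
      · rw [hc, h1]; omega
      · rw [hc, h1]; omega
    have hc4 : c + h + S0 ≤ u := by
      rcases max_choice S0 (u - (N - h) / 2) with h1 | h1
      · rw [hc, h1]; linarith
      · rw [hc, h1]; omega
    have hB : ∀ a ∈ (Finset.Icc c (c + h)).image (fun k : ℤ => (k : ZMod N)),
        a ∈ setA N m h R r s t ∧ z - a ∈ setA N m h R r s t := by
      intro a ha
      rw [mem_image] at ha
      obtain ⟨k, hk, rfl⟩ := ha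
      rw [Finset.mem_Icc] at hk
      constructor
      · rw [mem_setA, hval k (by linarith) (by omega)]
        left
        constructor
        · linarith [hk.1]
        · omega
      · have e : z - (k : ZMod N) = ((u - k : ℤ) : ZMod N) := by rw [hu]; push_cast; ring
        rw [mem_setA, e, hval (u - k) (by linarith) (by omega)]
        left
        constructor
        · linarith [hk.2]
        · omega
    have h1 := conv_ge hB
    rw [Finset.card_image_of_injOn, Int.card_Icc] at h1
    · omega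
    · intro x hx y hy he
      rw [Finset.mem_coe, Finset.mem_Icc] at hx hy
      simp only at he
      rw [← hval x (by linarith) (by omega), ← hval y (by linarith) (by omega), he]

/-- Representations of residues of the short window lying in one of the strips. -/
lemma conv_near (hh : 1 ≤ h) (hN : 8 * ((7 * m + 6) * h) ≤ N) (hR : 4 * R < N) {z : ZMod N}
    (hz : |z.valMinAbs| ≤ 2 * (h : ℤ)) {x : ℕ} (hx : x < m) (hzx : r x * z + s x ∈ ball N R)
    {K : ℕ}
    (h1 : K ≤ hits (seg N (7 * h * (x + 1) - h) (7 * h * (x + 1) + h)) (seg N 0 R) (r x, t x))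
    (h2 : K ≤ hits (seg N (7 * h * (x + 1) - h) (7 * h * (x + 1) + h)) (seg N (-(R : ℤ)) 0)
      (r x, t x)) :
    K ≤ conv (setA N m h R r s t) z := by
  classical
  have hN' : 8 * ((7 * m + 6) * h : ℤ) ≤ N := by exact_mod_cast hN
  have hhz : (1 : ℤ) ≤ h := by exact_mod_cast hh
  have h3 := px_le (h := h) hx
  have h4 := px_ge (h := h) x
  have h5 : (7 * h * m : ℤ) = (7 * m + 6) * h - 6 * h := by ring
  have hm : (0 : ℤ) ≤ m * h := by positivity
  set P : ℤ := 7 * h * (x + 1) with hP
  have hz' := abs_le.mp hz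
  -- generic statement
  have key : ∀ U : Finset (ZMod N), U ⊆ ball N R →
      (∀ y ∈ U, (r x * z + s x) - y ∈ ball N R) →
      K ≤ hits (seg N (P - h) (P + h)) U (r x, t x) → K ≤ conv (setA N m h R r s t) z := by
    intro U hU1 hU2 hK
    refine hK.trans ?_
    unfold hits
    apply conv_ge
    intro a ha
    rw [mem_filter, mem_seg] at ha
    obtain ⟨⟨ha1, ha2⟩, haU⟩ := ha
    simp only at haU
    constructor
    · rw [mem_setA]
      right; right; left
      refine ⟨x, hx, ?_, ?_⟩
      · rw [abs_le]; constructor <;> linarith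
      · rw [ZMod.coe_valMinAbs]; exact hU1 haU
    · have hval : (z - a).valMinAbs = z.valMinAbs - a.valMinAbs :=
        valMinAbs_sub_of (by nlinarith) (by nlinarith)
      rw [mem_setA]
      right; right; right
      refine ⟨x, hx, ?_, ?_⟩
      · rw [hval, abs_le]
        constructor <;> linarith
      · rw [ZMod.coe_valMinAbs]
        have e : r x * (z - a) + (s x - t x) = (r x * z + s x) - (r x * a + t x) := by ring
        rw [e]
        exact hU2 _ haU
  rw [mem_ball, abs_le] at hzx
  rcases le_total 0 (r x * z + s x).valMinAbs with hs | hs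
  · apply key (seg N 0 R) _ _ h1
    · intro y hy
      rw [mem_seg] at hy
      rw [mem_ball, abs_le]
      constructor <;> linarith [hy.1, hy.2]
    · intro y hy
      rw [mem_seg] at hy
      rw [mem_ball, valMinAbs_sub_of (by omega) (by omega), abs_le]
      constructor <;> linarith [hy.1, hy.2]
  · apply key (seg N (-(R : ℤ)) 0) _ _ h2
    · intro y hy
      rw [mem_seg] at hy
      rw [mem_ball, abs_le]
      constructor <;> linarith [hy.1, hy.2]
    · intro y hy
      rw [mem_seg] at hy
      rw [mem_ball, valMinAbs_sub_of (by omega) (by omega), abs_le]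
      constructor <;> linarith [hy.1, hy.2]

end

end Pool.Agent.Lib_helper91.Low
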