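import Mathlib
import Pool.Agent.Lib_helper91.LowD

set_option autoImplicit false

namespace Pool.Agent.Lib_helper91.Low

open Finset
open scoped Pointwise

/-- Explicit form. With `m` pairs, for a prime `N ≥ 32768 m (7m+6)` and `N² < 2^m`, there is a set
`A` of density at least `1/4` whose sumset misses about `N/(8(7m+6))` residues, while every
progression of length `512 m` contains a residue with many representations. -/
theorem explicit (N : ℕ) [Fact N.Prime] (m : ℕ) (hm : 1 ≤ m) (hNm : N * N < 2 ^ m)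
    (hbig : 32768 * m * (7 * m + 6) ≤ N) :
    ∃ A : Finset (ZMod N), N ≤ 4 * A.card ∧
      2 * (A + A).card + N / (8 * (7 * m + 6)) ≤ 2 * N ∧
      ∀ q : ZMod N × ZMod N, q.2 ≠ 0 → ∃ i < 512 * m,
        N ≤ 1024 * m * (7 * m + 6) * conv A (q.1 + (i : ZMod N) * q.2) := by
  classical
  have hNpos : 0 < N := (Fact.out : N.Prime).pos
  haveI : NeZero N := ⟨hNpos.ne'⟩
  set d := 8 * (7 * m + 6) with hd
  set h := N / d with hh
  set R := N / (64 * m) with hR
  have hdpos : 0 < d := by omega
  have hmm : m ≤ m * (7 * m + 6) := Nat.le_mul_of_pos_right m (by omega)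
  have hbig' : 32768 * (m * (7 * m + 6)) ≤ N := by
    rw [← mul_assoc]; exact hbig
  have h512 : 512 * m ≤ N := by omega
  have hdN : 4096 * d ≤ N := by
    have : 7 * m + 6 ≤ m * (7 * m + 6) := Nat.le_mul_of_pos_left _ hm
    omega
  have hh1 : 1 ≤ h := by
    rw [hh, Nat.one_le_div_iff hdpos]; omega
  have hhd : d * h ≤ N := Nat.mul_div_le N d
  have hhd2 : N < d * (h + 1) := Nat.lt_mul_div_succ N hdpos
  have h64 : 0 < 64 * m := by omega
  have hRd : 64 * m * R ≤ N := Nat.mul_div_le N (64 * m)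
  have hRd2 : N < 64 * m * (R + 1) := Nat.lt_mul_div_succ N h64
  have hR4 : 64 * R ≤ N := by
    calc 64 * R ≤ 64 * m * R := Nat.mul_le_mul_right R (by omega)
      _ ≤ N := hRd
  have hR4' : 4 * R < N := by omega
  have hN8 : 8 * ((7 * m + 6) * h) ≤ N := by
    calc 8 * ((7 * m + 6) * h) = d * h := by rw [hd]; ring
      _ ≤ N := hhd
  -- cardinalities
  have cU : (ball N R).card = 2 * R + 1 := card_ball (by omega)
  have cW : (ball N (2 * R)).card = 4 * R + 1 := by
    rw [card_ball (by omega)]; ring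
  have cU1 : (seg N 0 R).card = R + 1 := by
    rw [card_seg (by omega) (by omega)]; omega
  have cU2 : (seg N (-(R : ℤ)) 0).card = R + 1 := by
    rw [card_seg (by omega) (by omega)]; omega
  have hN8z : 8 * ((7 * m + 6) * h : ℤ) ≤ N := by exact_mod_cast hN8
  have hhz : (1 : ℤ) ≤ h := by exact_mod_cast hh1
  have cV : ∀ x < m, (seg N (7 * h * ((x : ℤ) + 1) - h) (7 * h * ((x : ℤ) + 1) + h)).card
      = 2 * h + 1 := by
    intro x hx
    have h3 := px_le (h := h) hx
    have h4 := px_ge (h := h) x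
    have h5 : (7 * h * m : ℤ) = (7 * m + 6) * h - 6 * h := by ring
    rw [card_seg (by linarith) (by linarith)]
    omega
  have cJ : (seg N (-((h : ℤ) - 1)) ((h : ℤ) - 1)).card = 2 * h - 1 := by
    have hNh : 8 * (6 * h) ≤ N := by
      have : 6 * h ≤ (7 * m + 6) * h := Nat.mul_le_mul_right h (by omega)
      omega
    rw [card_seg (by omega) (by omega)]; omega
  have hLU : 8 * N ≤ 512 * m * (ball N R).card := by
    rw [cU]
    have : 512 * m * (2 * R + 1) = 8 * (64 * m * (R + 1)) + 512 * m * R := by ring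
    rw [this]
    omega
  -- (h+1)(R+1) large
  have hprod : N * N ≤ (d * (64 * m)) * ((h + 1) * (R + 1)) := by
    calc N * N ≤ (d * (h + 1)) * (64 * m * (R + 1)) := Nat.mul_le_mul hhd2.le hRd2.le
      _ = _ := by ring
  have hde : d * (64 * m) = 512 * (m * (7 * m + 6)) := by rw [hd]; ring
  have hVU : 64 * N ≤ (h + 1) * (R + 1) := by
    have h1 : 64 * (512 * (m * (7 * m + 6))) ≤ N := by omega
    have h2 : (512 * (m * (7 * m + 6))) * (64 * N) ≤ (512 * (m * (7 * m + 6))) * ((h + 1) * (R + 1)) := by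
      calc (512 * (m * (7 * m + 6))) * (64 * N) = (64 * (512 * (m * (7 * m + 6)))) * N := by ring
        _ ≤ N * N := Nat.mul_le_mul_right N h1
        _ ≤ (d * (64 * m)) * ((h + 1) * (R + 1)) := hprod
        _ = _ := by rw [hde]
    have hpos : 0 < 512 * (m * (7 * m + 6)) := by
      have : 0 < m * (7 * m + 6) := Nat.mul_pos hm (by omega)
      omega
    exact Nat.le_of_mul_le_mul_left h2 hpos
  have hVU' : 64 * N ≤ (2 * h + 1) * (R + 1) :=
    hVU.trans (Nat.mul_le_mul_right _ (by omega))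
  obtain ⟨r, s, t, hprop, hcard⟩ := build N (512 * m) h512 (ball N R)
    (seg N (-((h : ℤ) - 1)) ((h : ℤ) - 1)) (ball N (2 * R))
    (fun x => seg N (7 * h * ((x : ℤ) + 1) - h) (7 * h * ((x : ℤ) + 1) + h))
    (seg N 0 R) (seg N (-(R : ℤ)) 0) hLU m
    (fun x hx => by rw [cV x hx, cU1]; exact hVU')
    (fun x hx => by rw [cV x hx, cU2]; exact hVU') m le_rfl
  refine ⟨setA N m h R r s t, card_setA hh1 hN8, ?_, ?_⟩
  · -- sumset
    have h1 := card_sumset (r := r) (s := s) (t := t) hh1 hN8 hR4'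
    have h2 : N * ∑ x ∈ range m, hits (seg N (-((h : ℤ) - 1)) ((h : ℤ) - 1)) (ball N (2 * R)) (r x, s x)
        ≤ m * (4 * ((2 * h - 1) * (4 * R + 1))) := by
      rw [Finset.mul_sum]
      calc _ ≤ ∑ x ∈ range m, 4 * ((2 * h - 1) * (4 * R + 1)) := by
            apply Finset.sum_le_sum
            intro x hx
            have := (hprop x (mem_range.mp hx)).1
            rwa [cJ, cW] at this
        _ = _ := by rw [sum_const, card_range, smul_eq_mul]
    set Sh := ∑ x ∈ range m, hits (seg N (-((h : ℤ) - 1)) ((h : ℤ) - 1)) (ball N (2 * R)) (r x, s x)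
    have h3 : 2 * (m * (4 * ((2 * h - 1) * (4 * R + 1)))) ≤ N * (2 * h - 1) := by
      have h4 : 8 * m * (4 * R + 1) ≤ N := by
        have : 8 * m * (4 * R + 1) = 32 * m * R + 8 * m := by ring
        rw [this]
        have h5 : 64 * m * R = 2 * (32 * m * R) := by ring
        omega
      calc 2 * (m * (4 * ((2 * h - 1) * (4 * R + 1)))) = (8 * m * (4 * R + 1)) * (2 * h - 1) := by ring
        _ ≤ N * (2 * h - 1) := Nat.mul_le_mul_right _ h4
    have h6 : N * (2 * Sh) ≤ N * (2 * h - 1) := by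
      calc N * (2 * Sh) = 2 * (N * Sh) := by ring
        _ ≤ 2 * (m * (4 * ((2 * h - 1) * (4 * R + 1)))) := Nat.mul_le_mul_left 2 h2
        _ ≤ _ := h3
    have h7 : 2 * Sh ≤ 2 * h - 1 := Nat.le_of_mul_le_mul_left h6 hNpos
    omega
  · intro q hq
    have hempty : ((univ : Finset (ZMod N × ZMod N)).filter
        (fun q => q.2 ≠ 0 ∧ ∀ x < m, hits (apSet (512 * m) q) (ball N R) (r x, s x) = 0)) = ∅ := by
      rw [← Finset.card_eq_zero]
      by_contra hne
      have h1 : 1 ≤ ((univ : Finset (ZMod N × ZMod N)).filter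
        (fun q => q.2 ≠ 0 ∧ ∀ x < m, hits (apSet (512 * m) q) (ball N R) (r x, s x) = 0)).card :=
        Nat.one_le_iff_ne_zero.mpr hne
      have h2 : 2 ^ m * 1 ≤ N * N := (Nat.mul_le_mul_left _ h1).trans hcard
      omega
    have hq' : ∃ x < m, hits (apSet (512 * m) q) (ball N R) (r x, s x) ≠ 0 := by
      by_contra hcon
      push Not at hcon
      have : q ∈ ((univ : Finset (ZMod N × ZMod N)).filter
        (fun q => q.2 ≠ 0 ∧ ∀ x < m, hits (apSet (512 * m) q) (ball N R) (r x, s x) = 0)) := by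
        rw [mem_filter]
        exact ⟨mem_univ _, hq, hcon⟩
      rw [hempty] at this
      exact absurd this (Finset.notMem_empty _)
    -- final bound
    have hfinal : ∀ K : ℕ, (h + 1) * (R + 1) ≤ 2 * N * K → N ≤ 1024 * m * (7 * m + 6) * K := by
      intro K hK
      have h1 : N * N ≤ N * (1024 * m * (7 * m + 6) * K) := by
        calc N * N ≤ (d * (64 * m)) * ((h + 1) * (R + 1)) := hprod
          _ ≤ (d * (64 * m)) * (2 * N * K) := Nat.mul_le_mul_left _ hK
          _ = N * (1024 * m * (7 * m + 6) * K) := by rw [hde]; ring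
      exact Nat.le_of_mul_le_mul_left h1 hNpos
    obtain ⟨x, hx, hxhit⟩ := hq'
    rw [Ne, hits_eq_zero_iff] at hxhit
    push Not at hxhit
    obtain ⟨v, hv, hvU⟩ := hxhit
    rw [apSet, mem_image] at hv
    obtain ⟨i, hi, rfl⟩ := hv
    rw [mem_range] at hi
    refine ⟨i, hi, ?_⟩
    set z := q.1 + (i : ZMod N) * q.2 with hz
    simp only at hvU
    by_cases hwin : |z.valMinAbs| ≤ 2 * (h : ℤ)
    · obtain ⟨-, p1, p2⟩ := hprop x hx
      rw [cV x hx, cU1] at p1
      rw [cV x hx, cU2] at p2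
      set V := seg N (7 * h * ((x : ℤ) + 1) - h) (7 * h * ((x : ℤ) + 1) + h) with hV
      have hK := conv_near (m := m) (t := t) (s := s) hh1 hN8 hR4' hwin hx hvU
        (K := min (hits V (seg N 0 R) (r x, t x)) (hits V (seg N (-(R : ℤ)) 0) (r x, t x)))
        (min_le_left _ _) (min_le_right _ _)
      apply hfinal
      have h8 : (h + 1) * (R + 1) ≤ (2 * h + 1) * (R + 1) := Nat.mul_le_mul_right _ (by omega)
      have h9 : (2 * h + 1) * (R + 1) ≤ 2 * N *
          min (hits V (seg N 0 R) (r x, t x)) (hits V (seg N (-(R : ℤ)) 0) (r x, t x)) := by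
        rcases min_choice (hits V (seg N 0 R) (r x, t x)) (hits V (seg N (-(R : ℤ)) 0) (r x, t x))
          with h1 | h1
        · rw [h1]; exact p1
        · rw [h1]; exact p2
      exact h8.trans (h9.trans (Nat.mul_le_mul_left _ hK))
    · push Not at hwin
      have h1 := conv_far (R := R) (r := r) (s := s) (t := t) hh1 hN8 hwin
      calc N ≤ d * (h + 1) := hhd2.le
        _ = 8 * (7 * m + 6) * (h + 1) := by rw [hd]
        _ ≤ 1024 * m * (7 * m + 6) * (h + 1) := by
            apply Nat.mul_le_mul_right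
            apply Nat.mul_le_mul_right
            omega
        _ ≤ _ := Nat.mul_le_mul_left _ h1

end Pool.Agent.Lib_helper91.Low
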