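import Mathlib

set_option autoImplicit false

namespace Pool.Agent.Lib_helper91.Nodal

noncomputable section
open Real Set

/-- `N2 = p² cos²(qs) + q² sin²(qs)`. -/
def N2 (p q s : ℝ) : ℝ := p ^ 2 * cos (q * s) ^ 2 + q ^ 2 * sin (q * s) ^ 2

def Dn (p q s : ℝ) : ℝ := p * cos (q * s) ^ 2 + q * sin (q * s) ^ 2

/-- the phase function. -/
def Th (p q s : ℝ) : ℝ :=
  (p - q) * s + arctan ((p - q) * (sin (q * s) * cos (q * s)) / Dn p q s)

def Lg (p q s : ℝ) : ℝ := -(1 / 2) * log (N2 p q s)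

def Ee (p q s : ℝ) : ℝ := p / √(N2 p q s)

section basic
variable {p q : ℝ}

lemma N2_eq (s : ℝ) : N2 p q s = q ^ 2 + (p ^ 2 - q ^ 2) * cos (q * s) ^ 2 := by
  unfold N2; rw [sin_sq]; ring

lemma N2_pos (hq : 0 < q) (hpq : q < p) (s : ℝ) : 0 < N2 p q s := by
  rw [N2_eq]
  have : 0 ≤ (p ^ 2 - q ^ 2) * cos (q * s) ^ 2 := by
    apply mul_nonneg _ (sq_nonneg _)
    nlinarith
  positivity

lemma Dn_pos (hq : 0 < q) (hpq : q < p) (s : ℝ) : 0 < Dn p q s := by
  have h1 : Dn p q s = q + (p - q) * cos (q * s) ^ 2 := by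
    unfold Dn; rw [sin_sq]; ring
  rw [h1]
  have : 0 ≤ (p - q) * cos (q * s) ^ 2 := mul_nonneg (by linarith) (sq_nonneg _)
  linarith

lemma key_sqrt (hq : 0 < q) (hpq : q < p) (s : ℝ) :
    √(1 + ((p - q) * (sin (q * s) * cos (q * s)) / Dn p q s) ^ 2) =
      √(N2 p q s) / Dn p q s := by
  have hD := Dn_pos hq hpq s
  have h1 : 1 + ((p - q) * (sin (q * s) * cos (q * s)) / Dn p q s) ^ 2 =
      N2 p q s / (Dn p q s) ^ 2 := by
    field_simp
    unfold Dn N2
    have h := sin_sq_add_cos_sq (q * s)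
    have hs : sin (q * s) ^ 2 = 1 - cos (q * s) ^ 2 := by linarith
    generalize sin (q * s) = S at *
    generalize cos (q * s) = C at *
    calc (p * C ^ 2 + q * S ^ 2) ^ 2 + (p - q) ^ 2 * S ^ 2 * C ^ 2
        = (p ^ 2 * C ^ 2 + q ^ 2 * S ^ 2) * (S ^ 2 + C ^ 2) := by ring
      _ = _ := by rw [h]; ring
  rw [h1, sqrt_div' _ (sq_nonneg _), sqrt_sq hD.le]

lemma cos_part (hq : 0 < q) (hpq : q < p) (s : ℝ) :
    √(N2 p q s) * cos (arctan ((p - q) * (sin (q * s) * cos (q * s)) / Dn p q s)) =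
      Dn p q s := by
  have hD := Dn_pos hq hpq s
  have hN := sqrt_pos.2 (N2_pos hq hpq s)
  rw [cos_arctan, key_sqrt hq hpq]
  field_simp

lemma sin_part (hq : 0 < q) (hpq : q < p) (s : ℝ) :
    √(N2 p q s) * sin (arctan ((p - q) * (sin (q * s) * cos (q * s)) / Dn p q s)) =
      (p - q) * (sin (q * s) * cos (q * s)) := by
  have hD := Dn_pos hq hpq s
  have hN := sqrt_pos.2 (N2_pos hq hpq s)
  rw [sin_arctan, key_sqrt hq hpq]
  field_simp

lemma N_sin (hq : 0 < q) (hpq : q < p) (s d : ℝ) :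
    √(N2 p q s) * sin (Th p q s + d) =
      p * sin (p * s + d) * cos (q * s) - q * cos (p * s + d) * sin (q * s) := by
  have hc := cos_part hq hpq s
  have hs := sin_part hq hpq s
  have e : Th p q s + d = ((p * s + d) - q * s) +
      arctan ((p - q) * (sin (q * s) * cos (q * s)) / Dn p q s) := by
    unfold Th; ring
  rw [e, sin_add, sin_sub, cos_sub]
  generalize cos (arctan ((p - q) * (sin (q * s) * cos (q * s)) / Dn p q s)) = A at *
  generalize sin (arctan ((p - q) * (sin (q * s) * cos (q * s)) / Dn p q s)) = B at *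
  unfold Dn at hc
  have h := sin_sq_add_cos_sq (q * s)
  generalize sin (q * s) = S at *
  generalize cos (q * s) = C at *
  generalize √(N2 p q s) = N at *
  generalize sin (p * s + d) = U at *
  generalize cos (p * s + d) = V at *
  calc N * ((U * C - V * S) * A + (V * C + U * S) * B)
      = (U * C - V * S) * (N * A) + (V * C + U * S) * (N * B) := by ring
    _ = (U * C - V * S) * (p * C ^ 2 + q * S ^ 2) + (V * C + U * S) * ((p - q) * (S * C)) := by
        rw [hc, hs]
    _ = (p * U * C - q * V * S) * (S ^ 2 + C ^ 2) := by ring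
    _ = _ := by rw [h]; ring

lemma N_cos (hq : 0 < q) (hpq : q < p) (s d : ℝ) :
    √(N2 p q s) * cos (Th p q s + d) =
      p * cos (p * s + d) * cos (q * s) + q * sin (p * s + d) * sin (q * s) := by
  have h := N_sin hq hpq s (d + π / 2)
  rw [show Th p q s + (d + π / 2) = (Th p q s + d) + π / 2 by ring, sin_add_pi_div_two,
    show p * s + (d + π / 2) = (p * s + d) + π / 2 by ring, sin_add_pi_div_two,
    cos_add_pi_div_two] at h
  rw [h]; ring

/-- `cos(ps+d)` in terms of the phase. -/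
lemma C_eq (hq : 0 < q) (hpq : q < p) (s d : ℝ) :
    √(N2 p q s) * cos (p * s + d) =
      p * cos (Th p q s + d) * cos (q * s) - q * sin (Th p q s + d) * sin (q * s) := by
  have h1 := N_sin hq hpq s d
  have h2 := N_cos hq hpq s d
  have hN := sqrt_pos.2 (N2_pos hq hpq s)
  have hN2 : √(N2 p q s) * √(N2 p q s) = N2 p q s := mul_self_sqrt (N2_pos hq hpq s).le
  have : √(N2 p q s) * (√(N2 p q s) * cos (p * s + d)) =
      √(N2 p q s) * (p * cos (Th p q s + d) * cos (q * s) -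
        q * sin (Th p q s + d) * sin (q * s)) := by
    calc √(N2 p q s) * (√(N2 p q s) * cos (p * s + d)) = N2 p q s * cos (p * s + d) := by
          rw [← mul_assoc, hN2]
      _ = p * cos (q * s) * (p * cos (p * s + d) * cos (q * s) +
            q * sin (p * s + d) * sin (q * s)) -
          q * sin (q * s) * (p * sin (p * s + d) * cos (q * s) -
            q * cos (p * s + d) * sin (q * s)) := by unfold N2; ring
      _ = _ := by rw [← h1, ← h2]; ring
  exact mul_left_cancel₀ hN.ne' this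

lemma hasDerivAt_Th (hq : 0 < q) (hpq : q < p) (s : ℝ) :
    HasDerivAt (Th p q) (p * (p ^ 2 - q ^ 2) * cos (q * s) ^ 2 / N2 p q s) s := by
  have hD := Dn_pos hq hpq s
  have hN := N2_pos hq hpq s
  have hqs : HasDerivAt (fun x => q * x) q s := by simpa using (hasDerivAt_id s).const_mul q
  have hs : HasDerivAt (fun x => sin (q * x)) (cos (q * s) * q) s := hqs.sin
  have hc : HasDerivAt (fun x => cos (q * x)) (-sin (q * s) * q) s := hqs.cos
  have hnum : HasDerivAt (fun x => (p - q) * (sin (q * x) * cos (q * x)))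
      ((p - q) * (cos (q * s) * q * cos (q * s) + sin (q * s) * (-sin (q * s) * q))) s :=
    (hs.mul hc).const_mul (p - q)
  have hden : HasDerivAt (fun x => Dn p q x)
      (p * (2 * cos (q * s) * (-sin (q * s) * q)) + q * (2 * sin (q * s) * (cos (q * s) * q))) s := by
    unfold Dn
    have h1 := (hc.pow 2).const_mul p
    have h2 := (hs.pow 2).const_mul q
    have h3 := h1.add h2
    refine h3.congr_deriv ?_
    push_cast
    ring
  have hk : HasDerivAt (fun x => (p - q) * (sin (q * x) * cos (q * x)) / Dn p q x) _ s :=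
    hnum.fun_div hden hD.ne'
  have ha := hk.arctan
  have hlin : HasDerivAt (fun x => (p - q) * x) (p - q) s := by
    simpa using (hasDerivAt_id s).const_mul (p - q)
  have htot := hlin.fun_add ha
  refine htot.congr_deriv ?_
  have h1 : 1 + ((p - q) * (sin (q * s) * cos (q * s)) / Dn p q s) ^ 2 =
      N2 p q s / (Dn p q s) ^ 2 := by
    have h := key_sqrt hq hpq s
    have h0 : 0 ≤ 1 + ((p - q) * (sin (q * s) * cos (q * s)) / Dn p q s) ^ 2 := by positivity
    have h' : (√(1 + ((p - q) * (sin (q * s) * cos (q * s)) / Dn p q s) ^ 2)) ^ 2 =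
      (√(N2 p q s) / Dn p q s) ^ 2 := by rw [h]
    rw [sq_sqrt h0] at h'
    rw [h', div_pow, sq_sqrt hN.le]
  rw [h1]
  have hN' : N2 p q s ≠ 0 := hN.ne'
  have hD' : Dn p q s ≠ 0 := hD.ne'
  have hcs : sin (q * s) ^ 2 = 1 - cos (q * s) ^ 2 := by rw [sin_sq]
  field_simp
  unfold Dn N2
  generalize sin (q * s) = S at *
  generalize cos (q * s) = C at *
  have h3 : S ^ 2 + C ^ 2 = 1 := by rw [hcs]; ring
  linear_combination (p - q) * (p * q * C ^ 2 - q ^ 2 * S ^ 2) * h3

end basic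

/-- half width of a strip. -/
def hh (q : ℝ) : ℝ := π / (2 * q)

def rho (p q d s : ℝ) : ℝ := cos (p * s + d) / cos (q * s)

section more
variable {p q : ℝ}

lemma hh_pos (hq : 0 < q) : 0 < hh q := by unfold hh; positivity

lemma q_hh (hq : 0 < q) : q * hh q = π / 2 := by unfold hh; field_simp

lemma cos_q_pos (hq : 0 < q) {s : ℝ} (h0 : 0 ≤ s) (h1 : s < hh q) : 0 < cos (q * s) := by
  apply cos_pos_of_mem_Ioo
  have := q_hh hq
  constructor
  · have : 0 ≤ q * s := by positivity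
    linarith [pi_pos]
  · rw [← this]; exact mul_lt_mul_of_pos_left h1 hq

lemma cos_q_nonneg (hq : 0 < q) {s : ℝ} (h0 : 0 ≤ s) (h1 : s ≤ hh q) : 0 ≤ cos (q * s) := by
  rcases h1.eq_or_lt with h | h
  · rw [h, q_hh hq, cos_pi_div_two]
  · exact (cos_q_pos hq h0 h).le

lemma cos_q_hh (hq : 0 < q) : cos (q * hh q) = 0 := by rw [q_hh hq, cos_pi_div_two]

lemma sin_q_hh (hq : 0 < q) : sin (q * hh q) = 1 := by rw [q_hh hq, sin_pi_div_two]

lemma Th_zero : Th p q 0 = 0 := by simp [Th]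

lemma continuous_Th (hq : 0 < q) (hpq : q < p) : Continuous (Th p q) :=
  continuous_iff_continuousAt.2 fun s => (hasDerivAt_Th hq hpq s).continuousAt

lemma Th_strictMonoOn (hq : 0 < q) (hpq : q < p) : StrictMonoOn (Th p q) (Icc 0 (hh q)) := by
  apply strictMonoOn_of_deriv_pos (convex_Icc _ _) (continuous_Th hq hpq).continuousOn
  intro s hs
  rw [interior_Icc] at hs
  rw [(hasDerivAt_Th hq hpq s).deriv]
  have h1 := cos_q_pos hq hs.1.le hs.2
  have h2 := N2_pos hq hpq s
  have h3 : 0 < p ^ 2 - q ^ 2 := by nlinarith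
  have h4 : 0 < p := hq.trans hpq
  positivity

lemma hasDerivAt_N2 (s : ℝ) :
    HasDerivAt (N2 p q) (-2 * (p ^ 2 - q ^ 2) * q * (sin (q * s) * cos (q * s))) s := by
  have hqs : HasDerivAt (fun x => q * x) q s := by simpa using (hasDerivAt_id s).const_mul q
  have hs : HasDerivAt (fun x => sin (q * x)) (cos (q * s) * q) s := hqs.sin
  have hc : HasDerivAt (fun x => cos (q * x)) (-sin (q * s) * q) s := hqs.cos
  have h1 := (hc.fun_pow 2).const_mul (p ^ 2)
  have h2 := (hs.fun_pow 2).const_mul (q ^ 2)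
  have h3 := h1.fun_add h2
  refine h3.congr_deriv ?_
  push_cast
  ring

lemma hasDerivAt_Lg (hq : 0 < q) (hpq : q < p) (s : ℝ) :
    HasDerivAt (Lg p q) ((p ^ 2 - q ^ 2) * q * (sin (q * s) * cos (q * s)) / N2 p q s) s := by
  have h1 := ((hasDerivAt_N2 (p := p) (q := q) s).log (N2_pos hq hpq s).ne').const_mul (-(1 / 2))
  refine h1.congr_deriv ?_
  ring

lemma Ee_pos (hq : 0 < q) (hpq : q < p) (s : ℝ) : 0 < Ee p q s :=
  div_pos (hq.trans hpq) (sqrt_pos.2 (N2_pos hq hpq s))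

lemma log_Ee (hq : 0 < q) (hpq : q < p) (s : ℝ) : log (Ee p q s) = log p + Lg p q s := by
  unfold Ee Lg
  rw [log_div (hq.trans hpq).ne' (sqrt_pos.2 (N2_pos hq hpq s)).ne', log_sqrt (N2_pos hq hpq s).le]
  ring

lemma Ee_zero (hq : 0 < q) (hpq : q < p) : Ee p q 0 = 1 := by
  have : 0 < p := hq.trans hpq
  unfold Ee N2
  simp only [mul_zero, cos_zero, sin_zero]
  rw [show p ^ 2 * 1 ^ 2 + q ^ 2 * 0 ^ 2 = p ^ 2 by ring, sqrt_sq this.le]
  field_simp

lemma Ee_hh (hq : 0 < q) (hpq : q < p) : Ee p q (hh q) = p / q := by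
  unfold Ee N2
  rw [cos_q_hh hq, sin_q_hh hq]
  rw [show p ^ 2 * 0 ^ 2 + q ^ 2 * 1 ^ 2 = q ^ 2 by ring, sqrt_sq hq.le]

lemma Ee_lt_of_Lg (hq : 0 < q) (hpq : q < p) {a b : ℝ} (h : Lg p q a < Lg p q b) :
    Ee p q a < Ee p q b := by
  apply (log_lt_log_iff (Ee_pos hq hpq a) (Ee_pos hq hpq b)).1
  rw [log_Ee hq hpq, log_Ee hq hpq]; linarith

lemma Lg_strictMonoOn (hq : 0 < q) (hpq : q < p) : StrictMonoOn (Lg p q) (Icc 0 (hh q)) := by
  have hcont : Continuous (Lg p q) :=
    continuous_iff_continuousAt.2 fun s => (hasDerivAt_Lg hq hpq s).continuousAt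
  apply strictMonoOn_of_deriv_pos (convex_Icc _ _) hcont.continuousOn
  intro s hs
  rw [interior_Icc] at hs
  rw [(hasDerivAt_Lg hq hpq s).deriv]
  have h1 := cos_q_pos hq hs.1.le hs.2
  have h2 := N2_pos hq hpq s
  have h3 : 0 < p ^ 2 - q ^ 2 := by nlinarith
  have h5 : 0 < sin (q * s) := by
    apply sin_pos_of_pos_of_lt_pi (mul_pos hq hs.1)
    have := mul_lt_mul_of_pos_left hs.2 hq
    rw [q_hh hq] at this
    linarith [pi_pos]
  positivity

lemma Ee_strictMonoOn (hq : 0 < q) (hpq : q < p) : StrictMonoOn (Ee p q) (Icc 0 (hh q)) :=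
  fun _ ha _ hb hab => Ee_lt_of_Lg hq hpq (Lg_strictMonoOn hq hpq ha hb hab)

lemma Ee_ge_one (hq : 0 < q) (hpq : q < p) {s : ℝ} (h0 : 0 ≤ s) (h1 : s ≤ hh q) :
    1 ≤ Ee p q s := by
  rw [← Ee_zero hq hpq]
  exact (Ee_strictMonoOn hq hpq).monotoneOn ⟨le_rfl, (hh_pos hq).le⟩ ⟨h0, h1⟩ h0

lemma Ee_le (hq : 0 < q) (hpq : q < p) {s : ℝ} (h0 : 0 ≤ s) (h1 : s ≤ hh q) :
    Ee p q s ≤ p / q := by
  rw [← Ee_hh hq hpq]
  exact (Ee_strictMonoOn hq hpq).monotoneOn ⟨h0, h1⟩ ⟨(hh_pos hq).le, le_rfl⟩ h1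

lemma slope (hq : 0 < q) (hpq : q < p) {a b : ℝ} (h0 : 0 ≤ a) (hab : a < b) (hb : b ≤ hh q) :
    ∃ c ∈ Ioo a b, Lg p q b - Lg p q a = q / p * tan (q * c) * (Th p q b - Th p q a) := by
  have hLc : Continuous (Lg p q) :=
    continuous_iff_continuousAt.2 fun s => (hasDerivAt_Lg hq hpq s).continuousAt
  obtain ⟨c, hc, he⟩ := exists_ratio_hasDerivAt_eq_ratio_slope (Lg p q)
    (fun s => (p ^ 2 - q ^ 2) * q * (sin (q * s) * cos (q * s)) / N2 p q s) hab
    hLc.continuousOn (fun x _ => hasDerivAt_Lg hq hpq x) (Th p q)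
    (fun s => p * (p ^ 2 - q ^ 2) * cos (q * s) ^ 2 / N2 p q s)
    (continuous_Th hq hpq).continuousOn (fun x _ => hasDerivAt_Th hq hpq x)
  refine ⟨c, hc, ?_⟩
  have h1 := cos_q_pos hq (h0.trans hc.1.le) (hc.2.trans_le hb)
  have h2 := N2_pos hq hpq c
  have h3 : 0 < p ^ 2 - q ^ 2 := by nlinarith
  have h4 : 0 < p := hq.trans hpq
  rw [tan_eq_sin_div_cos]
  have hne : (p ^ 2 - q ^ 2) * cos (q * c) / N2 p q c ≠ 0 := by positivity
  have he' : (Th p q b - Th p q a) * (q * sin (q * c)) * ((p ^ 2 - q ^ 2) * cos (q * c) / N2 p q c) =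
      (Lg p q b - Lg p q a) * (p * cos (q * c)) * ((p ^ 2 - q ^ 2) * cos (q * c) / N2 p q c) := by
    calc _ = (Th p q b - Th p q a) *
          ((p ^ 2 - q ^ 2) * q * (sin (q * c) * cos (q * c)) / N2 p q c) := by ring
      _ = _ := by rw [he]; ring
  have he2 := mul_right_cancel₀ hne he'
  field_simp
  linarith

/-- comparison of logarithmic increments over intervals with the same phase increment. -/
lemma compare (hq : 0 < q) (hpq : q < p) {a b c d : ℝ} (h0 : 0 ≤ a) (hab : a < b) (hbc : b ≤ c)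
    (hcd : c < d) (hd : d ≤ hh q) (he : Th p q b - Th p q a = Th p q d - Th p q c) :
    Lg p q b - Lg p q a < Lg p q d - Lg p q c := by
  obtain ⟨x, hx, hxe⟩ := slope hq hpq h0 hab (hbc.trans (hcd.le.trans hd))
  obtain ⟨y, hy, hye⟩ := slope hq hpq (h0.trans (hab.le.trans hbc)) hcd hd
  rw [hxe, hye, he]
  have hpos : 0 < Th p q d - Th p q c := by
    have := Th_strictMonoOn hq hpq (a := c) (b := d) ⟨h0.trans (hab.le.trans hbc), hcd.le.trans hd⟩
      ⟨(h0.trans (hab.le.trans hbc)).trans hcd.le, hd⟩ hcd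
    linarith
  have hxy : x < y := (hx.2.trans_le hbc).trans hy.1
  have htan : tan (q * x) < tan (q * y) := by
    apply tan_lt_tan_of_nonneg_of_lt_pi_div_two
    · exact mul_nonneg hq.le (h0.trans hx.1.le)
    · rw [← q_hh hq]; exact mul_lt_mul_of_pos_left (hy.2.trans_le hd) hq
    · exact mul_lt_mul_of_pos_left hxy hq
  have hp : 0 < p := hq.trans hpq
  have : 0 < q / p := by positivity
  have h2 : q / p * tan (q * x) < q / p * tan (q * y) := mul_lt_mul_of_pos_left htan this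
  exact mul_lt_mul_of_pos_right h2 hpos

/-- the main comparison: steps of equal phase starting further out give a larger ratio. -/
lemma compare_step (hq : 0 < q) (hpq : q < p) {a b a' b' : ℝ} (h0 : 0 ≤ a) (hab : a < b)
    (ha : a < a') (hb : b < b') (hb' : b' ≤ hh q) (ha' : a' ≤ hh q)
    (he : Th p q a' - Th p q a = Th p q b' - Th p q b) :
    Ee p q a' * Ee p q b < Ee p q a * Ee p q b' := by
  have key : Lg p q a' - Lg p q a < Lg p q b' - Lg p q b := by
    rcases le_or_gt b a' with h | h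
    · have hab' : a' < b' := by
        by_contra hcon
        rw [not_lt] at hcon
        have h1 := (Th_strictMonoOn hq hpq).monotoneOn (a := b') (b := a')
          ⟨(h0.trans hab.le).trans hb.le, hb'⟩ ⟨h0.trans ha.le, ha'⟩ hcon
        have h2 := Th_strictMonoOn hq hpq (a := a) (b := b) ⟨h0, hab.le.trans (hb.le.trans hb')⟩
          ⟨h0.trans hab.le, hb.le.trans hb'⟩ hab
        linarith
      have := compare hq hpq h0 hab h hab' hb' (by linarith)
      linarith
    · exact compare hq hpq h0 ha h.le hb hb' he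
  have hpos := Ee_pos hq hpq
  apply (log_lt_log_iff (mul_pos (hpos _) (hpos _)) (mul_pos (hpos _) (hpos _))).1
  rw [log_mul (hpos _).ne' (hpos _).ne', log_mul (hpos _).ne' (hpos _).ne',
    log_Ee hq hpq, log_Ee hq hpq, log_Ee hq hpq, log_Ee hq hpq]
  linarith

lemma hasDerivAt_rho (hq : 0 < q) (hpq : q < p) (d : ℝ) {s : ℝ} (hs : cos (q * s) ≠ 0) :
    HasDerivAt (rho p q d) (-(√(N2 p q s) * sin (Th p q s + d)) / cos (q * s) ^ 2) s := by
  have hqs : HasDerivAt (fun x => q * x) q s := by simpa using (hasDerivAt_id s).const_mul q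
  have hps : HasDerivAt (fun x => p * x + d) p s := by
    simpa using ((hasDerivAt_id s).const_mul p).add_const d
  have h1 := hps.cos.fun_div hqs.cos hs
  refine h1.congr_deriv ?_
  rw [N_sin hq hpq]
  ring

lemma continuousAt_rho (hq : 0 < q) (hpq : q < p) (d : ℝ) {s : ℝ} (hs : cos (q * s) ≠ 0) :
    ContinuousAt (rho p q d) s := (hasDerivAt_rho hq hpq d hs).continuousAt

/-- value at a critical point. -/
lemma peak_val (hq : 0 < q) (hpq : q < p) {d s : ℝ} (h : sin (Th p q s + d) = 0) :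
    cos (p * s + d) = cos (Th p q s + d) * Ee p q s * cos (q * s) := by
  have h1 := C_eq hq hpq s d
  have hN := sqrt_pos.2 (N2_pos hq hpq s)
  rw [h] at h1
  have h2 : cos (p * s + d) = p * cos (Th p q s + d) * cos (q * s) / √(N2 p q s) := by
    rw [eq_div_iff hN.ne']; linarith
  rw [h2]; unfold Ee; ring

lemma rho_peak (hq : 0 < q) (hpq : q < p) {d s : ℝ} (hs : cos (q * s) ≠ 0)
    (h : sin (Th p q s + d) = 0) :
    rho p q d s = cos (Th p q s + d) * Ee p q s := by
  unfold rho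
  rw [peak_val hq hpq h]; field_simp

/-- monotonicity of `ε ρ` on intervals where `ε sin ω ≤ 0`. -/
lemma rho_mono (hq : 0 < q) (hpq : q < p) (d e : ℝ) {a b : ℝ} (h0 : 0 ≤ a) (hab : a ≤ b)
    (hb : b < hh q) (h : ∀ s ∈ Icc a b, e * sin (Th p q s + d) ≤ 0) :
    e * rho p q d a ≤ e * rho p q d b := by
  have hcos : ∀ s ∈ Icc a b, cos (q * s) ≠ 0 := fun s hs =>
    (cos_q_pos hq (h0.trans hs.1) (hs.2.trans_lt hb)).ne'
  have hmono : MonotoneOn (fun s => e * rho p q d s) (Icc a b) := by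
    apply monotoneOn_of_deriv_nonneg (convex_Icc a b)
    · intro s hs
      exact ((continuousAt_rho hq hpq d (hcos s hs)).const_mul e).continuousWithinAt
    · intro s hs
      rw [interior_Icc] at hs
      exact ((hasDerivAt_rho hq hpq d (hcos s ⟨hs.1.le, hs.2.le⟩)).const_mul e).differentiableAt.differentiableWithinAt
    · intro s hs
      rw [interior_Icc] at hs
      have hs' : s ∈ Icc a b := ⟨hs.1.le, hs.2.le⟩
      rw [((hasDerivAt_rho hq hpq d (hcos s hs')).const_mul e).deriv]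
      have h1 := h s hs'
      have h2 := sqrt_pos.2 (N2_pos hq hpq s)
      have h3 : 0 < cos (q * s) ^ 2 := by have := hcos s hs'; positivity
      have : e * (-(√(N2 p q s) * sin (Th p q s + d)) / cos (q * s) ^ 2) =
        √(N2 p q s) * (-(e * sin (Th p q s + d))) / cos (q * s) ^ 2 := by ring
      rw [this]
      apply div_nonneg _ h3.le
      apply mul_nonneg h2.le
      linarith
  exact hmono ⟨le_rfl, hab⟩ ⟨hab, le_rfl⟩ hab

end more

end
end Pool.Agent.Lib_helper91.Nodal
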