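import Mathlib
import Pool.Agent.Lib_helper91.NodalA

set_option autoImplicit false

namespace Pool.Agent.Lib_helper91.Nodal

noncomputable section
open Real Set

/-- `a` and `b` lie in a compact connected subset of `F`. -/
def Lk (F : Set (ℝ × ℝ)) (a b : ℝ × ℝ) : Prop :=
  ∃ T : Set (ℝ × ℝ), IsCompact T ∧ IsPreconnected T ∧ T ⊆ F ∧ a ∈ T ∧ b ∈ T

namespace Lk
variable {F : Set (ℝ × ℝ)} {a b c : ℝ × ℝ}

lemma refl (h : a ∈ F) : Lk F a a :=
  ⟨{a}, isCompact_singleton, isPreconnected_singleton, by simpa using h, rfl, rfl⟩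

lemma symm (h : Lk F a b) : Lk F b a := by
  obtain ⟨T, h1, h2, h3, h4, h5⟩ := h
  exact ⟨T, h1, h2, h3, h5, h4⟩

lemma trans (h : Lk F a b) (h' : Lk F b c) : Lk F a c := by
  obtain ⟨T, h1, h2, h3, h4, h5⟩ := h
  obtain ⟨T', h1', h2', h3', h4', h5'⟩ := h'
  exact ⟨T ∪ T', h1.union h1', h2.union b h5 h4' h2', union_subset h3 h3', Or.inl h4, Or.inr h5'⟩

lemma map {G : Set (ℝ × ℝ)} {f : ℝ × ℝ → ℝ × ℝ} (hf : Continuous f) (hm : MapsTo f F G)
    (h : Lk F a b) : Lk G (f a) (f b) := by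
  obtain ⟨T, h1, h2, h3, h4, h5⟩ := h
  exact ⟨f '' T, h1.image hf, h2.image f hf.continuousOn,
    by rintro _ ⟨x, hx, rfl⟩; exact hm (h3 hx), mem_image_of_mem f h4, mem_image_of_mem f h5⟩

lemma left_mem (h : Lk F a b) : a ∈ F := by
  obtain ⟨T, _, _, h3, h4, _⟩ := h
  exact h3 h4

lemma right_mem (h : Lk F a b) : b ∈ F := by
  obtain ⟨T, _, _, h3, _, h5⟩ := h
  exact h3 h5

lemma hor {y s t : ℝ} (h : ∀ x ∈ Icc s t, (x, y) ∈ F) (hst : s ≤ t) : Lk F (s, y) (t, y) := by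
  refine ⟨(fun x => (x, y)) '' Icc s t, ?_, ?_, ?_, ?_, ?_⟩
  · exact isCompact_Icc.image (by fun_prop)
  · exact isPreconnected_Icc.image _ (by fun_prop)
  · rintro _ ⟨x, hx, rfl⟩; exact h x hx
  · exact mem_image_of_mem _ ⟨le_rfl, hst⟩
  · exact mem_image_of_mem _ ⟨hst, le_rfl⟩

lemma ver {x s t : ℝ} (h : ∀ y ∈ Icc s t, (x, y) ∈ F) (hst : s ≤ t) : Lk F (x, s) (x, t) := by
  refine ⟨(fun y => (x, y)) '' Icc s t, ?_, ?_, ?_, ?_, ?_⟩
  · exact isCompact_Icc.image (by fun_prop)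
  · exact isPreconnected_Icc.image _ (by fun_prop)
  · rintro _ ⟨y, hy, rfl⟩; exact h y hy
  · exact mem_image_of_mem _ ⟨le_rfl, hst⟩
  · exact mem_image_of_mem _ ⟨hst, le_rfl⟩

end Lk

def Psi (p q t d d' : ℝ) (z : ℝ × ℝ) : ℝ :=
  cos (p * z.1 + d) * cos (q * z.2) + t * (cos (q * z.1) * cos (p * z.2 + d'))

def QF (p q t d d' : ℝ) : Set (ℝ × ℝ) :=
  {z | z.1 ∈ Icc 0 (hh q) ∧ z.2 ∈ Icc 0 (hh q) ∧ Psi p q t d d' z ≠ 0}

section cell
variable {p q t d d' : ℝ}

lemma rho_mul {d s : ℝ} (hs : cos (q * s) ≠ 0) : cos (p * s + d) = rho p q d s * cos (q * s) := by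
  unfold rho; rw [div_mul_cancel₀ _ hs]

lemma psi_eq {s y : ℝ} (hs : cos (q * s) ≠ 0) (hy : cos (q * y) ≠ 0) :
    Psi p q t d d' (s, y) = cos (q * s) * cos (q * y) * (rho p q d s + t * rho p q d' y) := by
  unfold Psi
  simp only
  rw [rho_mul (p := p) (d := d) hs, rho_mul (p := p) (d := d') hy]
  ring

lemma abs_et {e t c : ℝ} (he : e = 1 ∨ e = -1) (hc : c = 1 ∨ c = -1) : |e * t * c| = |t| := by
  rcases he with rfl | rfl <;> rcases hc with rfl | rfl <;> simp

lemma et_neg {e t c : ℝ} (he : e = 1 ∨ e = -1) (hc : c = 1 ∨ c = -1) (h : e * t * c < 0) :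
    e * t * c = -|t| := by
  rw [← abs_et (t := t) he hc, abs_of_neg h]; ring

lemma et_pos {e t c : ℝ} (he : e = 1 ∨ e = -1) (hc : c = 1 ∨ c = -1) (h : 0 < e * t * c) :
    e * t * c = |t| := by
  rw [← abs_et (t := t) he hc, abs_of_pos h]

lemma mem_QF (hq : 0 < q) {e s y : ℝ} (hs : s ∈ Ico 0 (hh q)) (hy : y ∈ Ico 0 (hh q))
    (h : 0 < e * (rho p q d s + t * rho p q d' y)) : (s, y) ∈ QF p q t d d' := by
  refine ⟨⟨hs.1, hs.2.le⟩, ⟨hy.1, hy.2.le⟩, ?_⟩
  have h1 := cos_q_pos hq hs.1 hs.2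
  have h2 := cos_q_pos hq hy.1 hy.2
  rw [psi_eq h1.ne' h2.ne']
  have h3 : rho p q d s + t * rho p q d' y ≠ 0 := by
    intro h0; rw [h0] at h; simp at h
  exact mul_ne_zero (mul_pos h1 h2).ne' h3

/-- inward vertical motion. -/
lemma inward (hq : 0 < q) (hpq : q < p) {e s y0 : ℝ} (he : e = 1 ∨ e = -1)
    (hs : s ∈ Ico 0 (hh q)) (hy : y0 ∈ Ico 0 (hh q))
    (h : 0 < e * (rho p q d s + t * rho p q d' y0))
    (hv : |t| < e * rho p q d s)
    (hub : ∀ r ∈ Ioo 0 y0, sin (Th p q r + d') = 0 → e * t * cos (Th p q r + d') < 0 →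
      |t| * Ee p q r < e * rho p q d s) :
    Lk (QF p q t d d') (s, y0) (s, 0) := by
  apply Lk.symm
  apply Lk.ver _ hy.1
  have hcont : ContinuousOn (fun r => e * t * rho p q d' r) (Icc 0 y0) := fun r hr =>
    ((continuousAt_rho hq hpq d'
      (cos_q_pos hq hr.1 (hr.2.trans_lt hy.2)).ne').const_mul _).continuousWithinAt
  obtain ⟨r, hr, hmin⟩ := isCompact_Icc.exists_isMinOn ⟨0, ⟨le_rfl, hy.1⟩⟩ hcont
  have key : -(e * rho p q d s) < e * t * rho p q d' r := by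
    by_contra hcon
    rw [not_lt] at hcon
    have hr0 : r ≠ 0 := by
      rintro rfl
      have h1 : rho p q d' 0 = cos d' := by simp [rho]
      rw [h1] at hcon
      have h2 : |e * t * cos d'| ≤ |t| := by
        rw [abs_mul, abs_mul]
        have : |e| = 1 := by rcases he with h | h <;> simp [h]
        rw [this, one_mul]
        exact mul_le_of_le_one_right (abs_nonneg _) (abs_cos_le_one _)
      have := (abs_le.1 h2).1
      linarith
    have hry : r ≠ y0 := by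
      rintro rfl
      have : e * (rho p q d s + t * rho p q d' r) = e * rho p q d s + e * t * rho p q d' r := by ring
      rw [this] at h
      linarith
    have hr' : r ∈ Ioo 0 y0 := ⟨lt_of_le_of_ne hr.1 (Ne.symm hr0), lt_of_le_of_ne hr.2 hry⟩
    have hcr := cos_q_pos hq hr.1 (hr.2.trans_lt hy.2)
    have hloc : IsLocalMin (fun r => e * t * rho p q d' r) r :=
      hmin.isLocalMin (Icc_mem_nhds hr'.1 hr'.2)
    have hder := ((hasDerivAt_rho hq hpq d' hcr.ne').const_mul (e * t))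
    have h0 := hloc.hasDerivAt_eq_zero hder
    have hN := sqrt_pos.2 (N2_pos hq hpq r)
    have het : e * t ≠ 0 := by
      intro h0'
      rw [h0', zero_mul] at hcon
      have : 0 ≤ |t| := abs_nonneg t
      linarith
    have hsin : sin (Th p q r + d') = 0 := by
      rcases mul_eq_zero.1 h0 with h1 | h1
      · exact absurd h1 het
      · rcases div_eq_zero_iff.1 h1 with h2 | h2
        · rcases mul_eq_zero.1 (neg_eq_zero.1 h2) with h3 | h3
          · exact absurd h3 hN.ne'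
          · exact h3
        · exact absurd h2 (by positivity)
    rw [rho_peak hq hpq hcr.ne' hsin] at hcon
    have hE := Ee_pos hq hpq r
    have hneg : e * t * cos (Th p q r + d') < 0 := by
      by_contra h5
      rw [not_lt] at h5
      have := mul_nonneg h5 hE.le
      have h6 : 0 ≤ |t| := abs_nonneg t
      nlinarith
    have h7 := hub r hr' hsin hneg
    have h10 : e * t * cos (Th p q r + d') = -|t| :=
      et_neg he (sin_eq_zero_iff_cos_eq.1 hsin) hneg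
    have : e * t * (cos (Th p q r + d') * Ee p q r) = -(|t| * Ee p q r) := by
      rw [← mul_assoc, h10]; ring
    rw [this] at hcon
    linarith
  intro y hy'
  apply mem_QF hq (e := e) hs ⟨hy'.1, hy'.2.trans_lt hy.2⟩
  have := hmin hy'
  have this : e * t * rho p q d' r ≤ e * t * rho p q d' y := this
  have h2 : e * (rho p q d s + t * rho p q d' y) = e * rho p q d s + e * t * rho p q d' y := by ring
  rw [h2]; linarith

lemma end_common (hq : 0 < q) (hpq : q < p) {d : ℝ} (h : sin (Th p q (hh q) + d) = 0) {B : ℝ}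
    (hB : B < p / q) {s0 : ℝ} (hs0 : s0 ∈ Ico 0 (hh q)) :
    ∃ s ∈ Ico s0 (hh q), B < cos (Th p q (hh q) + d) * rho p q d s := by
  have hNh : √(N2 p q (hh q)) = q := by
    unfold N2; rw [cos_q_hh hq, sin_q_hh hq,
      show p ^ 2 * 0 ^ 2 + q ^ 2 * 1 ^ 2 = q ^ 2 by ring, sqrt_sq hq.le]
  have hTc := continuous_Th hq hpq
  have hNc : Continuous (N2 p q) :=
    continuous_iff_continuousAt.2 fun s => (hasDerivAt_N2 s).continuousAt
  have hfc : ContinuousAt (fun s => p * cos (Th p q (hh q) - Th p q s) / √(N2 p q s)) (hh q) := by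
    apply ContinuousAt.div
    · fun_prop
    · exact (continuous_sqrt.comp hNc).continuousAt
    · rw [hNh]; exact hq.ne'
  have hfv : p * cos (Th p q (hh q) - Th p q (hh q)) / √(N2 p q (hh q)) = p / q := by
    rw [hNh]; simp
  have ev1 : ∀ᶠ s in nhdsWithin (hh q) (Iio (hh q)),
      B < p * cos (Th p q (hh q) - Th p q s) / √(N2 p q s) := by
    apply (hfc.tendsto.mono_left nhdsWithin_le_nhds).eventually_const_lt
    rw [hfv]; exact hB
  have ev2 : ∀ᶠ s in nhdsWithin (hh q) (Iio (hh q)), Th p q (hh q) - Th p q s < π := by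
    have hc : ContinuousAt (fun s => Th p q (hh q) - Th p q s) (hh q) := by fun_prop
    apply (hc.tendsto.mono_left nhdsWithin_le_nhds).eventually_lt_const
    simp [pi_pos]
  have ev3 : ∀ᶠ s in nhdsWithin (hh q) (Iio (hh q)), s ∈ Ioo s0 (hh q) :=
    Ioo_mem_nhdsLT hs0.2
  obtain ⟨s, h1, h2, h3⟩ := (ev1.and (ev2.and ev3)).exists
  refine ⟨s, ⟨h3.1.le, h3.2⟩, h1.trans_le ?_⟩
  have hs0' : 0 ≤ s := hs0.1.trans h3.1.le
  have hcs := cos_q_pos hq hs0' h3.2
  have hN := sqrt_pos.2 (N2_pos hq hpq s)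
  have hC := C_eq hq hpq s d
  have hη : cos (Th p q (hh q) + d) ^ 2 = 1 := by
    have := sin_sq_add_cos_sq (Th p q (hh q) + d)
    rw [h] at this; linarith
  have hv : 0 ≤ Th p q (hh q) - Th p q s := by
    have := (Th_strictMonoOn hq hpq).monotoneOn (a := s) (b := hh q) ⟨hs0', h3.2.le⟩
      ⟨(hh_pos hq).le, le_rfl⟩ h3.2.le
    linarith
  have hw : Th p q s + d = (Th p q (hh q) + d) - (Th p q (hh q) - Th p q s) := by ring
  have hcosw : cos (Th p q s + d) =
      cos (Th p q (hh q) + d) * cos (Th p q (hh q) - Th p q s) := by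
    rw [hw, cos_sub, h]; ring_nf
  have hsinw : sin (Th p q s + d) =
      -(cos (Th p q (hh q) + d) * sin (Th p q (hh q) - Th p q s)) := by
    rw [hw, sin_sub, h]; ring_nf
  rw [hcosw, hsinw] at hC
  have hsv : 0 ≤ sin (Th p q (hh q) - Th p q s) := sin_nonneg_of_nonneg_of_le_pi hv h2.le
  have hsq : 0 ≤ sin (q * s) := by
    apply sin_nonneg_of_nonneg_of_le_pi (by positivity)
    have := mul_le_mul_of_nonneg_left h3.2.le hq.le
    rw [q_hh hq] at this
    linarith [pi_pos]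
  generalize Th p q (hh q) - Th p q s = v at *
  generalize cos (Th p q (hh q) + d) = η at *
  unfold rho
  rw [div_le_iff₀ hN, ← mul_div_assoc, div_mul_eq_mul_div, le_div_iff₀ hcs]
  have e1 : η * cos (p * s + d) * √(N2 p q s) =
      p * cos v * cos (q * s) * η ^ 2 + q * sin v * sin (q * s) * η ^ 2 := by
    calc η * cos (p * s + d) * √(N2 p q s) = η * (√(N2 p q s) * cos (p * s + d)) := by ring
      _ = _ := by rw [hC]; ring
  rw [e1, hη]
  have : 0 ≤ q * sin v * sin (q * s) := by positivity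
  linarith

lemma end_pole {d e : ℝ} (hq : 0 < q) (h : 0 < e * cos (p * hh q + d)) (B : ℝ) {s0 : ℝ}
    (hs0 : s0 ∈ Ico 0 (hh q)) : ∃ s ∈ Ico s0 (hh q), B < e * rho p q d s := by
  have hc : ContinuousAt (fun s => e * cos (p * s + d) - (|B| + 1) * cos (q * s)) (hh q) := by
    fun_prop
  have ev1 : ∀ᶠ s in nhdsWithin (hh q) (Iio (hh q)),
      0 < e * cos (p * s + d) - (|B| + 1) * cos (q * s) := by
    apply (hc.tendsto.mono_left nhdsWithin_le_nhds).eventually_const_lt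
    rw [cos_q_hh hq]; linarith
  have ev3 : ∀ᶠ s in nhdsWithin (hh q) (Iio (hh q)), s ∈ Ioo s0 (hh q) :=
    Ioo_mem_nhdsLT hs0.2
  obtain ⟨s, h1, h3⟩ := (ev1.and ev3).exists
  refine ⟨s, ⟨h3.1.le, h3.2⟩, ?_⟩
  have hcs := cos_q_pos hq (hs0.1.trans h3.1.le) h3.2
  unfold rho
  rw [← mul_div_assoc, lt_div_iff₀ hcs]
  have : B * cos (q * s) ≤ |B| * cos (q * s) := mul_le_mul_of_nonneg_right (le_abs_self B) hcs.le
  linarith

lemma cos_ph (hq : 0 < q) (hpq : q < p) {d : ℝ} (h : sin (Th p q (hh q) + d) ≠ 0) :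
    cos (p * hh q + d) ≠ 0 := by
  intro h0
  have h1 := N_sin hq hpq (hh q) d
  rw [cos_q_hh hq, h0] at h1
  have hN := sqrt_pos.2 (N2_pos hq hpq (hh q))
  have : √(N2 p q (hh q)) * sin (Th p q (hh q) + d) = 0 := by rw [h1]; ring
  rcases mul_eq_zero.1 this with h2 | h2
  · exact hN.ne' h2
  · exact h h2

/-- the sign at the end of a strip. -/
lemma end_sign (hq : 0 < q) (hpq : q < p) (d : ℝ) : ∃ e : ℝ, (e = 1 ∨ e = -1) ∧
    ∀ B < p / q, ∀ s0 ∈ Ico 0 (hh q), ∃ s ∈ Ico s0 (hh q), B < e * rho p q d s := by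
  by_cases h : sin (Th p q (hh q) + d) = 0
  · exact ⟨cos (Th p q (hh q) + d), sin_eq_zero_iff_cos_eq.1 h,
      fun B hB s0 hs0 => end_common hq hpq h hB hs0⟩
  · have h1 := cos_ph hq hpq h
    rcases lt_or_gt_of_ne h1 with h2 | h2
    · exact ⟨-1, Or.inr rfl, fun B _ s0 hs0 => end_pole hq (by linarith) B hs0⟩
    · exact ⟨1, Or.inl rfl, fun B _ s0 hs0 => end_pole hq (by linarith) B hs0⟩

/-- what we can reach: the centre row or the pole row. -/
def Exit (p q t d d' : ℝ) (a : ℝ × ℝ) : Prop :=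
  (∃ s ∈ Icc 0 (hh q), Lk (QF p q t d d') a (s, 0)) ∨
  (∃ s ∈ Ico 0 (hh q), Lk (QF p q t d d') a (s, hh q))

lemma Exit.of_lk {a b : ℝ × ℝ} (h : Lk (QF p q t d d') a b) (hb : Exit p q t d d' b) :
    Exit p q t d d' a := by
  rcases hb with ⟨s, hs, h1⟩ | ⟨s, hs, h1⟩
  · exact Or.inl ⟨s, hs, h.trans h1⟩
  · exact Or.inr ⟨s, hs, h.trans h1⟩

/-- leaving through the pole column. -/
lemma pole_column (hq : 0 < q) (hpq : q < p) {y : ℝ} (hy : y ∈ Ico 0 (hh q))
    (h : cos (p * hh q + d) ≠ 0) : Lk (QF p q t d d') (hh q, y) (hh q, 0) := by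
  apply Lk.symm
  apply Lk.ver _ hy.1
  intro r hr
  refine ⟨⟨(hh_pos hq).le, le_rfl⟩, ⟨hr.1, hr.2.trans hy.2.le⟩, ?_⟩
  unfold Psi
  simp only
  rw [cos_q_hh hq]
  have := cos_q_pos hq hr.1 (hr.2.trans_lt hy.2)
  simpa using ⟨h, this.ne'⟩

/-- inward motion from a point with large `|ρ|`. -/
lemma inward_big (hq : 0 < q) (hpq : q < p) {e s y0 : ℝ} (he : e = 1 ∨ e = -1)
    (hs : s ∈ Ico 0 (hh q)) (hy : y0 ∈ Ico 0 (hh q))
    (h : 0 < e * (rho p q d s + t * rho p q d' y0))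
    (hv : |t| * (p / q) < e * rho p q d s) :
    Lk (QF p q t d d') (s, y0) (s, 0) := by
  have h1 : 1 ≤ p / q := by rw [le_div_iff₀ hq]; linarith
  apply inward hq hpq he hs hy h
  · have : |t| * 1 ≤ |t| * (p / q) := mul_le_mul_of_nonneg_left h1 (abs_nonneg _)
    linarith
  · intro r hr _ _
    have := Ee_le hq hpq hr.1.le (hr.2.le.trans hy.2.le)
    have := mul_le_mul_of_nonneg_left this (abs_nonneg t)
    linarith

end cell

end
end Pool.Agent.Lib_helper91.Nodal
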