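import Mathlib
import Pool.Agent.Lib_helper91.NodalB

set_option autoImplicit false

namespace Pool.Agent.Lib_helper91.Nodal

noncomputable section
open Real Set

lemma sin_sign {c φ0 φ : ℝ} (h0 : sin φ0 = 0) (hc : cos φ0 = c) (h1 : φ0 ≤ φ)
    (h2 : φ ≤ φ0 + π) : 0 ≤ c * sin φ := by
  have h3 : sin φ = c * sin (φ - φ0) := by
    have := sin_add (φ - φ0) φ0
    rw [h0, hc, sub_add_cancel, mul_zero, add_zero] at this
    linarith
  rw [h3, ← mul_assoc]
  exact mul_nonneg (mul_self_nonneg c)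
    (sin_nonneg_of_nonneg_of_le_pi (by linarith) (by linarith))

section cell
variable {p q t d d' : ℝ}

lemma exists_Th (hq : 0 < q) (hpq : q < p) {a b φ : ℝ} (hab : a ≤ b)
    (h1 : Th p q a ≤ φ) (h2 : φ ≤ Th p q b) : ∃ s ∈ Icc a b, Th p q s = φ := by
  have := intermediate_value_Icc hab (continuous_Th hq hpq).continuousOn
  exact this ⟨h1, h2⟩

lemma Th_le (hq : 0 < q) (hpq : q < p) {a b : ℝ} (h0 : 0 ≤ a) (hab : a ≤ b) (hb : b ≤ hh q) :
    Th p q a ≤ Th p q b :=
  (Th_strictMonoOn hq hpq).monotoneOn ⟨h0, hab.trans hb⟩ ⟨h0.trans hab, hb⟩ hab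

lemma Th_lt (hq : 0 < q) (hpq : q < p) {a b : ℝ} (h0 : 0 ≤ a) (hab : a < b) (hb : b ≤ hh q) :
    Th p q a < Th p q b :=
  (Th_strictMonoOn hq hpq) ⟨h0, hab.le.trans hb⟩ ⟨h0.trans hab.le, hb⟩ hab

lemma lt_of_Th (hq : 0 < q) (hpq : q < p) {a b : ℝ} (ha : a ∈ Icc 0 (hh q))
    (hb : b ∈ Icc 0 (hh q)) (h : Th p q a < Th p q b) : a < b :=
  ((Th_strictMonoOn hq hpq).lt_iff_lt ha hb).1 h

lemma lk_h (hq : 0 < q) {e a b y : ℝ} (h0 : 0 ≤ a) (hab : a ≤ b) (hb : b < hh q)
    (hy : y ∈ Ico 0 (hh q))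
    (h : ∀ s ∈ Icc a b, 0 < e * (rho p q d s + t * rho p q d' y)) :
    Lk (QF p q t d d') (a, y) (b, y) :=
  Lk.hor (fun s hs => mem_QF hq ⟨h0.trans hs.1, hs.2.trans_lt hb⟩ hy (h s hs)) hab

lemma lk_v (hq : 0 < q) {e a b s : ℝ} (h0 : 0 ≤ a) (hab : a ≤ b) (hb : b < hh q)
    (hs : s ∈ Ico 0 (hh q))
    (h : ∀ y ∈ Icc a b, 0 < e * (rho p q d s + t * rho p q d' y)) :
    Lk (QF p q t d d') (s, a) (s, b) :=
  Lk.ver (fun y hy => mem_QF hq hs ⟨h0.trans hy.1, hy.2.trans_lt hb⟩ (h y hy)) hab

lemma lk_h_end (hq : 0 < q) {e a y : ℝ} (h0 : 0 ≤ a) (ha : a < hh q)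
    (hy : y ∈ Ico 0 (hh q))
    (h : ∀ s ∈ Ico a (hh q), 0 < e * (rho p q d s + t * rho p q d' y))
    (hc : cos (p * hh q + d) ≠ 0) :
    Lk (QF p q t d d') (a, y) (hh q, y) := by
  apply Lk.hor _ ha.le
  intro s hs
  rcases hs.2.eq_or_lt with h1 | h1
  · subst h1
    refine ⟨⟨(hh_pos hq).le, le_rfl⟩, ⟨hy.1, hy.2.le⟩, ?_⟩
    unfold Psi
    simp only
    rw [cos_q_hh hq]
    have := cos_q_pos hq hy.1 hy.2
    simpa using ⟨hc, this.ne'⟩
  · exact mem_QF hq ⟨h0.trans hs.1, h1⟩ hy (h s ⟨hs.1, h1⟩)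

lemma lk_v_end (hq : 0 < q) (ht : t ≠ 0) {e a s : ℝ} (h0 : 0 ≤ a) (ha : a < hh q)
    (hs : s ∈ Ico 0 (hh q))
    (h : ∀ y ∈ Ico a (hh q), 0 < e * (rho p q d s + t * rho p q d' y))
    (hc : cos (p * hh q + d') ≠ 0) :
    Lk (QF p q t d d') (s, a) (s, hh q) := by
  apply Lk.ver _ ha.le
  intro y hy
  rcases hy.2.eq_or_lt with h1 | h1
  · subst h1
    refine ⟨⟨hs.1, hs.2.le⟩, ⟨(hh_pos hq).le, le_rfl⟩, ?_⟩
    unfold Psi
    simp only
    rw [cos_q_hh hq]
    have := cos_q_pos hq hs.1 hs.2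
    simpa using ⟨ht, this.ne', hc⟩
  · exact mem_QF hq hs ⟨h0.trans hy.1, h1⟩ (h y ⟨hy.1, h1⟩)

/-- on a stretch where the phase is in `[φ0, φ0+π]`, `cos φ0 = c`, the function `c ρ` decreases. -/
lemma rho_down (hq : 0 < q) (hpq : q < p) {c φ0 a b : ℝ} (hs : sin φ0 = 0) (hc : cos φ0 = c)
    (h0 : 0 ≤ a) (hab : a ≤ b) (hb : b < hh q) (h1 : φ0 ≤ Th p q a + d)
    (h2 : Th p q b + d ≤ φ0 + π) : c * rho p q d b ≤ c * rho p q d a := by
  have := rho_mono hq hpq d (-c) h0 hab hb (fun s hs' => by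
    have h3 := Th_le hq hpq h0 hs'.1 (hs'.2.trans hb.le)
    have h4 := Th_le hq hpq (h0.trans hs'.1) hs'.2 hb.le
    have := sin_sign (φ := Th p q s + d) hs hc (by linarith) (by linarith)
    linarith)
  linarith

/-- on a stretch where the phase is in `[φ0-π, φ0]`, `cos φ0 = c`, the function `c ρ` increases. -/
lemma rho_up (hq : 0 < q) (hpq : q < p) {c φ0 a b : ℝ} (hs : sin φ0 = 0) (hc : cos φ0 = c)
    (h0 : 0 ≤ a) (hab : a ≤ b) (hb : b < hh q) (h1 : φ0 - π ≤ Th p q a + d)
    (h2 : Th p q b + d ≤ φ0) : c * rho p q d a ≤ c * rho p q d b := by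
  have hs' : sin (φ0 - π) = 0 := by rw [sin_sub_pi, hs, neg_zero]
  have hc' : cos (φ0 - π) = -c := by rw [cos_sub_pi, hc]
  have := rho_down hq hpq (d := d) hs' hc' h0 hab hb h1 (by linarith)
  linarith

lemma et_eq {e t c : ℝ} (he : e = 1 ∨ e = -1) (hc : c = 1 ∨ c = -1) (h : 0 < e * t * c) :
    e * t = |t| * c := by
  rw [← et_pos he hc h]
  rcases hc with rfl | rfl <;> ring

lemma cos_int_pm (n : ℤ) : cos (n * π) = 1 ∨ cos (n * π) = -1 :=
  sin_eq_zero_iff_cos_eq.1 (sin_int_mul_pi n)

lemma sin_ne_between {n : ℤ} {φ : ℝ} (h1 : n * π < φ) (h2 : φ < (n + 1) * π) : sin φ ≠ 0 := by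
  have h3 : sin φ = cos (n * π) * sin (φ - n * π) := by
    have := sin_add (φ - n * π) (n * π)
    rw [sin_int_mul_pi, sub_add_cancel, mul_zero, add_zero] at this
    linarith
  rw [h3]
  apply mul_ne_zero
  · rcases cos_int_pm n with h | h <;> rw [h] <;> norm_num
  · exact (sin_pos_of_pos_of_lt_pi (by linarith) (by linarith)).ne'

lemma climb (hq : 0 < q) (hpq : q < p) {e s3 y0 r : ℝ} (he : e = 1 ∨ e = -1)
    (hs : s3 ∈ Ico 0 (hh q)) (hy : y0 ∈ Ico 0 (hh q))
    (hpos : 0 < e * (rho p q d s3 + t * rho p q d' y0))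
    (hr : r ∈ Ioo 0 y0) (hr1 : sin (Th p q r + d') = 0)
    (hr2 : e * t * cos (Th p q r + d') < 0) :
    Lk (QF p q t d d') (s3, y0) (s3, hh q) ∨
    ∃ y1 ∈ Ioc r (hh q), Th p q r + π ≤ Th p q y1 ∧ ∀ B < |t| * Ee p q y1,
      ∃ y ∈ Ico 0 (hh q), Lk (QF p q t d d') (s3, y0) (s3, y) ∧ B < e * t * rho p q d' y := by
  have ht : t ≠ 0 := by rintro rfl; simp at hr2
  have htp : 0 < |t| := abs_pos.2 ht
  set n : ℤ := ⌊(Th p q y0 + d') / π⌋ with hn
  have hn1 : n * π ≤ Th p q y0 + d' := by
    have := Int.floor_le ((Th p q y0 + d') / π)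
    rwa [le_div_iff₀ pi_pos] at this
  have hn2 : Th p q y0 + d' < (n + 1) * π := by
    have := Int.lt_floor_add_one ((Th p q y0 + d') / π)
    rwa [div_lt_iff₀ pi_pos] at this
  obtain ⟨m, hm⟩ := sin_eq_zero_iff.1 hr1
  have hTr : Th p q r < Th p q y0 := Th_lt hq hpq hr.1.le hr.2 hy.2.le
  have hmn : m ≤ n := by
    have : (m : ℝ) * π < (n + 1) * π := by rw [hm]; linarith
    have := lt_of_mul_lt_mul_right this pi_pos.le
    have : m < n + 1 := by exact_mod_cast this
    omega
  have hcn := cos_int_pm n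
  rw [← hm] at hr2
  have hposy : ∀ y, e * t * rho p q d' y0 ≤ e * t * rho p q d' y →
      0 < e * (rho p q d s3 + t * rho p q d' y) := by
    intro y hy'
    have h1 : e * (rho p q d s3 + t * rho p q d' y) = e * rho p q d s3 + e * t * rho p q d' y := by
      ring
    have h2 : e * (rho p q d s3 + t * rho p q d' y0) =
      e * rho p q d s3 + e * t * rho p q d' y0 := by ring
    rw [h2] at hpos
    rw [h1]; linarith
  rcases lt_or_ge 0 (e * t * cos (n * π)) with hA | hA
  · -- climb inward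
    right
    have hmn' : m ≤ n - 1 := by
      have : m ≠ n := by rintro h; rw [h] at hr2; linarith
      omega
    have hmn'' : (m : ℝ) * π + π ≤ n * π := by
      have : (m : ℝ) ≤ n - 1 := by exact_mod_cast hmn'
      nlinarith [pi_pos]
    obtain ⟨y1, hy1, hTy1⟩ := exists_Th hq hpq hr.2.le (φ := n * π - d')
      (by linarith [pi_pos]) (by linarith)
    have hTy : Th p q y1 + d' = n * π := by rw [hTy1]; ring
    have hry : r < y1 := by
      apply lt_of_Th hq hpq ⟨hr.1.le, (hr.2.trans hy.2).le⟩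
        ⟨hr.1.le.trans hy1.1, hy1.2.trans hy.2.le⟩
      linarith [pi_pos]
    refine ⟨y1, ⟨hry, hy1.2.trans hy.2.le⟩, by linarith, ?_⟩
    intro B hB
    have hety := et_eq he hcn hA
    have hy1' : y1 ∈ Ico 0 (hh q) := ⟨hr.1.le.trans hy1.1, hy1.2.trans_lt hy.2⟩
    have hval : e * t * rho p q d' y1 = |t| * Ee p q y1 := by
      rw [rho_peak hq hpq (cos_q_pos hq hy1'.1 hy1'.2).ne' (by rw [hTy]; exact sin_int_mul_pi n),
        hTy, hety]
      have : cos (n * π) * cos (n * π) = 1 := by rcases hcn with h | h <;> rw [h] <;> norm_num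
      calc |t| * cos (n * π) * (cos (n * π) * Ee p q y1) =
        |t| * (cos (n * π) * cos (n * π)) * Ee p q y1 := by ring
        _ = _ := by rw [this, mul_one]
    refine ⟨y1, hy1', ?_, by rw [hval]; exact hB⟩
    apply Lk.symm
    apply lk_v hq (e := e) hy1'.1 hy1.2 hy.2 hs
    intro y hy'
    apply hposy
    rw [hety, mul_assoc, mul_assoc]
    apply mul_le_mul_of_nonneg_left _ htp.le
    exact rho_down hq hpq (sin_int_mul_pi n) rfl (hy1'.1.trans hy'.1) hy'.2 hy.2
      (by have := Th_le hq hpq hy1'.1 hy'.1 (hy'.2.trans hy.2.le); linarith) (by linarith)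
  · -- climb outward
    have hne : e * t * cos (n * π) ≠ 0 := by
      apply mul_ne_zero (mul_ne_zero _ ht)
      · rcases hcn with h | h <;> rw [h] <;> norm_num
      · rcases he with h | h <;> rw [h] <;> norm_num
    have hlt : e * t * cos (n * π) < 0 := lt_of_le_of_ne hA hne
    have hc1 : cos ((n + 1 : ℤ) * π) = - cos (n * π) := by
      push_cast
      rw [add_mul, one_mul, cos_add_pi]
    have hc1pm := cos_int_pm (n + 1)
    have hety : e * t = |t| * cos ((n + 1 : ℤ) * π) := by
      apply et_eq he hc1pm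
      rw [hc1]; linarith
    have hcast : ((n + 1 : ℤ) : ℝ) * π = (n + 1) * π := by push_cast; ring
    have hup : ∀ y, y0 ≤ y → y < hh q → Th p q y + d' ≤ (n + 1) * π →
        e * t * rho p q d' y0 ≤ e * t * rho p q d' y := by
      intro y h1 h2 h3
      rw [hety, mul_assoc, mul_assoc]
      apply mul_le_mul_of_nonneg_left _ htp.le
      exact rho_up hq hpq (sin_int_mul_pi (n + 1)) rfl hy.1 h1 h2
        (by rw [hcast]; linarith) (by rw [hcast]; linarith)
    have hmn'' : (m : ℝ) * π + π ≤ (n + 1) * π := by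
      have : (m : ℝ) ≤ n := by exact_mod_cast hmn
      nlinarith [pi_pos]
    rcases le_or_gt ((n + 1) * π) (Th p q (hh q) + d') with hB | hB
    · right
      obtain ⟨y1, hy1, hTy1⟩ := exists_Th hq hpq hy.2.le (φ := (n + 1) * π - d')
        (by linarith [pi_pos]) (by linarith)
      have hTy : Th p q y1 + d' = (n + 1) * π := by rw [hTy1]; ring
      refine ⟨y1, ⟨hr.2.trans_le hy1.1, hy1.2⟩, by linarith, ?_⟩
      intro B hB
      rcases hy1.2.eq_or_lt with h1 | h1
      · subst h1
        have h2 : B / |t| < p / q := by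
          rw [div_lt_iff₀ htp, mul_comm, ← Ee_hh hq hpq]; exact hB
        obtain ⟨y, hy', hyB⟩ := end_common hq hpq
          (by rw [hTy, ← hcast]; exact sin_int_mul_pi (n + 1)) h2 hy
        rw [hTy, ← hcast] at hyB
        have hTyh : Th p q y + d' ≤ (n + 1) * π := by
          have := Th_le hq hpq (hy.1.trans hy'.1) hy'.2.le le_rfl
          linarith
        refine ⟨y, ⟨hy.1.trans hy'.1, hy'.2⟩, ?_, ?_⟩
        · apply lk_v hq (e := e) hy.1 hy'.1 hy'.2 hs
          intro z hz
          apply hposy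
          apply hup z hz.1 (hz.2.trans_lt hy'.2)
          have := Th_le hq hpq (hy.1.trans hz.1) hz.2 hy'.2.le
          linarith
        · rw [hety, mul_assoc]
          rw [div_lt_iff₀ htp] at hyB
          linarith
      · have hy1' : y1 ∈ Ico 0 (hh q) := ⟨hy.1.trans hy1.1, h1⟩
        have hval : e * t * rho p q d' y1 = |t| * Ee p q y1 := by
          rw [rho_peak hq hpq (cos_q_pos hq hy1'.1 hy1'.2).ne'
            (by rw [hTy, ← hcast]; exact sin_int_mul_pi (n + 1)), hTy, hety, ← hcast]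
          have : cos ((n + 1 : ℤ) * π) * cos ((n + 1 : ℤ) * π) = 1 := by
            rcases hc1pm with h | h <;> rw [h] <;> norm_num
          calc |t| * cos ((n + 1 : ℤ) * π) * (cos ((n + 1 : ℤ) * π) * Ee p q y1) =
            |t| * (cos ((n + 1 : ℤ) * π) * cos ((n + 1 : ℤ) * π)) * Ee p q y1 := by ring
            _ = _ := by rw [this, mul_one]
        refine ⟨y1, hy1', ?_, by rw [hval]; exact hB⟩
        apply lk_v hq (e := e) hy.1 hy1.1 h1 hs
        intro z hz
        apply hposy
        apply hup z hz.1 (hz.2.trans_lt h1)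
        have := Th_le hq hpq (hy.1.trans hz.1) hz.2 h1.le
        linarith
    · left
      have hlt' : Th p q y0 < Th p q (hh q) := Th_lt hq hpq hy.1 hy.2 le_rfl
      apply lk_v_end hq ht (e := e) hy.1 hy.2 hs
      · intro y hy'
        apply hposy
        apply hup y hy'.1 hy'.2
        have := Th_le hq hpq (hy.1.trans hy'.1) hy'.2.le le_rfl
        linarith
      · apply cos_ph hq hpq
        exact sin_ne_between (n := n) (by linarith) (by linarith)

lemma qc (hq : 0 < q) (hpq : q < p) (ht : |t| < 1) :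
    ∀ (k : ℕ) (e s3 y0 : ℝ), (e = 1 ∨ e = -1) → s3 ∈ Ico 0 (hh q) → y0 ∈ Ico 0 (hh q) →
    sin (Th p q s3 + d) = 0 → cos (Th p q s3 + d) = e →
    0 < e * (rho p q d s3 + t * rho p q d' y0) →
    Th p q (hh q) - Th p q s3 < k * π →
    Exit p q t d d' (s3, y0) := by
  intro k
  induction k with
  | zero =>
    intro e s3 y0 he hs hy hsin hcos hpos hk
    have := Th_lt hq hpq hs.1 hs.2 le_rfl
    simp at hk
    linarith
  | succ k ih =>
    intro e s3 y0 he hs hy hsin hcos hpos hk
    have hee : e * e = 1 := by rcases he with h | h <;> rw [h] <;> norm_num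
    have hcs := cos_q_pos hq hs.1 hs.2
    have hv : e * rho p q d s3 = Ee p q s3 := by
      rw [rho_peak hq hpq hcs.ne' hsin, hcos, ← mul_assoc, hee, one_mul]
    have hE1 := Ee_ge_one hq hpq hs.1 hs.2.le
    have habs : 0 ≤ |t| := abs_nonneg t
    by_cases hub : ∀ r ∈ Ioo 0 y0, sin (Th p q r + d') = 0 → e * t * cos (Th p q r + d') < 0 →
      |t| * Ee p q r < e * rho p q d s3
    · left
      exact ⟨s3, ⟨hs.1, hs.2.le⟩, inward hq hpq he hs hy hpos (by rw [hv]; linarith) hub⟩
    · push Not at hub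
      obtain ⟨r, hr, hr1, hr2, hr3⟩ := hub
      rw [hv] at hr3
      have hrhh : r < hh q := hr.2.trans hy.2
      have hEr := Ee_pos hq hpq r
      have hEs := Ee_pos hq hpq s3
      have hsr : s3 < r := by
        have h1 : Ee p q s3 < Ee p q r := by
          have : |t| * Ee p q r < 1 * Ee p q r := mul_lt_mul_of_pos_right ht hEr
          linarith
        exact ((Ee_strictMonoOn hq hpq).lt_iff_lt ⟨hs.1, hs.2.le⟩ ⟨hr.1.le, hrhh.le⟩).1 h1
      rcases climb hq hpq he hs hy hpos hr hr1 hr2 with h | ⟨y1, hy1, hTy1, hB⟩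
      · right
        exact ⟨s3, hs, h⟩
      · -- the next opposite peak
        have hTs3r : Th p q s3 < Th p q r := Th_lt hq hpq hs.1 hsr hrhh.le
        have hTy1h : Th p q y1 ≤ Th p q (hh q) :=
          Th_le hq hpq (hr.1.le.trans hy1.1.le) hy1.2 le_rfl
        obtain ⟨s3p, hs3p, hTs3p⟩ := exists_Th hq hpq hs.2.le (φ := Th p q s3 + π)
          (by linarith [pi_pos]) (by linarith)
        obtain ⟨rp, hrp, hTrp⟩ := exists_Th hq hpq hy1.1.le (φ := Th p q r + π)
          (by linarith [pi_pos]) (by linarith)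
        have hs3p0 : 0 ≤ s3p := hs.1.trans hs3p.1
        have hlt1 : s3 < s3p := by
          apply lt_of_Th hq hpq ⟨hs.1, hs.2.le⟩ ⟨hs3p0, hs3p.2⟩
          linarith [pi_pos]
        have hlt2 : r < rp := by
          apply lt_of_Th hq hpq ⟨hr.1.le, hrhh.le⟩ ⟨hr.1.le.trans hrp.1, hrp.2.trans hy1.2⟩
          linarith [pi_pos]
        have hlt3 : s3p < hh q := by
          rcases hs3p.2.eq_or_lt with h | h
          · exfalso
            have : Th p q s3p < Th p q rp := by linarith
            have h2 : Th p q rp ≤ Th p q (hh q) :=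
              Th_le hq hpq (hr.1.le.trans hrp.1) (hrp.2.trans hy1.2) le_rfl
            rw [h] at this
            linarith
          · exact h
        have hcmp := compare_step hq hpq (a := s3) (b := r) (a' := s3p) (b' := rp)
          hs.1 hsr hlt1 hlt2 (hrp.2.trans hy1.2) hs3p.2 (by linarith)
        have hErp : Ee p q rp ≤ Ee p q y1 :=
          (Ee_strictMonoOn hq hpq).monotoneOn ⟨hr.1.le.trans hrp.1, hrp.2.trans hy1.2⟩
            ⟨hr.1.le.trans hy1.1.le, hy1.2⟩ hrp.2
        have hkey : Ee p q s3p < |t| * Ee p q y1 := by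
          have h1 : Ee p q s3 * Ee p q rp ≤ |t| * Ee p q r * Ee p q y1 :=
            mul_le_mul hr3 hErp (Ee_pos hq hpq rp).le (by positivity)
          have h2 : Ee p q s3p * Ee p q r < |t| * Ee p q y1 * Ee p q r := by
            calc _ < Ee p q s3 * Ee p q rp := hcmp
              _ ≤ |t| * Ee p q r * Ee p q y1 := h1
              _ = _ := by ring
          exact lt_of_mul_lt_mul_right h2 hEr.le
        obtain ⟨y, hy', hLk, hyB⟩ := hB _ hkey
        refine Exit.of_lk hLk ?_
        have hsum : ∀ s, -(Ee p q s3p) ≤ e * rho p q d s →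
            0 < e * (rho p q d s + t * rho p q d' y) := by
          intro s h
          have : e * (rho p q d s + t * rho p q d' y) =
            e * rho p q d s + e * t * rho p q d' y := by ring
          rw [this]; linarith
        have hphase : Th p q s3p + d = (Th p q s3 + d) + π := by rw [hTs3p]; ring
        have hvp : e * rho p q d s3p = -(Ee p q s3p) := by
          rw [rho_peak hq hpq (cos_q_pos hq hs3p0 hlt3).ne'
            (by rw [hphase, sin_add_pi, hsin, neg_zero]), hphase, cos_add_pi, hcos]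
          have : e * (-e * Ee p q s3p) = -(e * e) * Ee p q s3p := by ring
          rw [this, hee]; ring
        have hL1 : Lk (QF p q t d d') (s3, y) (s3p, y) := by
          apply lk_h hq (e := e) hs.1 hs3p.1 hlt3 hy'
          intro s hs'
          apply hsum
          rw [← hvp]
          apply rho_down hq hpq hsin hcos (hs.1.trans hs'.1) hs'.2 hlt3
          · have := Th_le hq hpq hs.1 hs'.1 (hs'.2.trans hs3p.2)
            linarith
          · linarith
        refine Exit.of_lk hL1 ?_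
        -- beyond `s3p`
        have hbey : ∀ s, s3p ≤ s → s < hh q → Th p q s ≤ Th p q s3 + 2 * π →
            -(Ee p q s3p) ≤ e * rho p q d s := by
          intro s h1 h2 h3
          rw [← hvp]
          apply rho_up hq hpq (φ0 := (Th p q s3 + d) + 2 * π)
            (by rw [sin_add_two_pi, hsin]) (by rw [cos_add_two_pi, hcos]) hs3p0 h1 h2
          · linarith
          · linarith
        rcases le_or_gt (Th p q s3 + 2 * π) (Th p q (hh q)) with hC | hC
        · obtain ⟨s4, hs4, hTs4⟩ := exists_Th hq hpq hlt3.le (φ := Th p q s3 + 2 * π)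
            (by linarith [pi_pos]) hC
          have hphase4 : Th p q s4 + d = (Th p q s3 + d) + 2 * π := by rw [hTs4]; ring
          have hsin4 : sin (Th p q s4 + d) = 0 := by rw [hphase4, sin_add_two_pi, hsin]
          have hcos4 : cos (Th p q s4 + d) = e := by rw [hphase4, cos_add_two_pi, hcos]
          rcases hs4.2.eq_or_lt with h4 | h4
          · -- common end
            rw [h4] at hsin4 hcos4 hTs4
            have hlt : |t| * (p / q) < p / q := by
              have : 0 < p / q := div_pos (hq.trans hpq) hq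
              nlinarith
            obtain ⟨s, hs', hsB⟩ := end_common hq hpq hsin4 hlt ⟨hs3p0, hlt3⟩
            rw [hcos4] at hsB
            have hs0 : s ∈ Ico 0 (hh q) := ⟨hs3p0.trans hs'.1, hs'.2⟩
            have hTs : ∀ z, s3p ≤ z → z ≤ s → Th p q z ≤ Th p q s3 + 2 * π := by
              intro z h1 h2
              have := Th_le hq hpq (hs3p0.trans h1) (h2.trans hs'.2.le) le_rfl
              linarith
            have hL2 : Lk (QF p q t d d') (s3p, y) (s, y) := by
              apply lk_h hq (e := e) hs3p0 hs'.1 hs'.2 hy'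
              intro z hz
              exact hsum z (hbey z hz.1 (hz.2.trans_lt hs'.2) (hTs z hz.1 hz.2))
            refine Exit.of_lk hL2 ?_
            left
            exact ⟨s, ⟨hs0.1, hs0.2.le⟩, inward_big hq hpq he hs0 hy'
              (hsum s (hbey s hs'.1 hs'.2 (hTs s hs'.1 le_rfl))) hsB⟩
          · have hL2 : Lk (QF p q t d d') (s3p, y) (s4, y) := by
              apply lk_h hq (e := e) hs3p0 hs4.1 h4 hy'
              intro z hz
              apply hsum z (hbey z hz.1 (hz.2.trans_lt h4) _)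
              rw [← hTs4]
              exact Th_le hq hpq (hs3p0.trans hz.1) hz.2 hs4.2
            refine Exit.of_lk hL2 ?_
            apply ih e s4 y he ⟨hs3p0.trans hs4.1, h4⟩ hy' hsin4 hcos4
            · exact hsum s4 (hbey s4 hs4.1 h4 hTs4.le)
            · rw [hTs4]
              push_cast at hk
              nlinarith [pi_pos]
        · -- pole column
          left
          have hTall : ∀ s, s3p ≤ s → s < hh q → Th p q s ≤ Th p q s3 + 2 * π := by
            intro s h1 h2
            have := Th_le hq hpq (hs3p0.trans h1) h2.le le_rfl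
            linarith
          have hcne : cos (p * hh q + d) ≠ 0 := by
            apply cos_ph hq hpq
            obtain ⟨m, hm⟩ := sin_eq_zero_iff.1 hsin
            have hl : Th p q s3p < Th p q (hh q) := Th_lt hq hpq hs3p0 hlt3 le_rfl
            apply sin_ne_between (n := m + 1)
            · push_cast; linarith
            · push_cast; linarith
          have hL2 : Lk (QF p q t d d') (s3p, y) (hh q, y) := by
            apply lk_h_end hq (e := e) hs3p0 hlt3 hy' _ hcne
            intro s hs'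
            exact hsum s (hbey s hs'.1 hs'.2 (hTall s hs'.1 hs'.2))
          exact ⟨hh q, ⟨(hh_pos hq).le, le_rfl⟩, hL2.trans (pole_column hq hpq hy' hcne)⟩

end cell

end
end Pool.Agent.Lib_helper91.Nodal
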