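import Mathlib
import Pool.Agent.Lib_helper91.NodalC

set_option autoImplicit false

namespace Pool.Agent.Lib_helper91.Nodal

noncomputable section
open Real Set

section cell
variable {p q t d d' : ℝ}

lemma exit_of_peak (hq : 0 < q) (hpq : q < p) (ht : |t| < 1) {e s3 y0 : ℝ} (he : e = 1 ∨ e = -1)
    (hs : s3 ∈ Ico 0 (hh q)) (hy : y0 ∈ Ico 0 (hh q))
    (h1 : sin (Th p q s3 + d) = 0) (h2 : cos (Th p q s3 + d) = e)
    (hpos : 0 < e * (rho p q d s3 + t * rho p q d' y0)) : Exit p q t d d' (s3, y0) := by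
  obtain ⟨k, hk⟩ := exists_nat_gt ((Th p q (hh q) - Th p q s3) / π)
  rw [div_lt_iff₀ pi_pos] at hk
  exact qc hq hpq ht k e s3 y0 he hs hy h1 h2 hpos hk

lemma stepA_out (hq : 0 < q) (hpq : q < p) (ht : |t| < 1) {e s0 y0 : ℝ} (he : e = 1 ∨ e = -1)
    (hs : s0 ∈ Ico 0 (hh q)) (hy : y0 ∈ Ico 0 (hh q))
    (hpos : 0 < e * (rho p q d s0 + t * rho p q d' y0)) (n : ℤ)
    (h1 : n * π ≤ Th p q s0 + d) (h2 : Th p q s0 + d ≤ (n + 1) * π)
    (hn : cos ((n + 1 : ℤ) * π) = e) : Exit p q t d d' (s0, y0) := by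
  have hcast : ((n + 1 : ℤ) : ℝ) * π = (n + 1) * π := by push_cast; ring
  have hup : ∀ s, s0 ≤ s → s < hh q → Th p q s + d ≤ (n + 1) * π →
      0 < e * (rho p q d s + t * rho p q d' y0) := by
    intro s h3 h4 h5
    have := rho_up hq hpq (d := d) (sin_int_mul_pi (n + 1)) hn hs.1 h3 h4
      (by rw [hcast]; linarith) (by rw [hcast]; linarith)
    have e1 : ∀ s, e * (rho p q d s + t * rho p q d' y0) =
      e * rho p q d s + e * t * rho p q d' y0 := fun s => by ring
    rw [e1] at hpos ⊢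
    linarith
  rcases le_or_gt ((n + 1) * π) (Th p q (hh q) + d) with hB | hB
  · obtain ⟨s3, hs3, hTs3⟩ := exists_Th hq hpq hs.2.le (φ := (n + 1) * π - d)
      (by linarith) (by linarith)
    have hT : Th p q s3 + d = (n + 1 : ℤ) * π := by rw [hTs3, hcast]; ring
    rcases hs3.2.eq_or_lt with h3 | h3
    · rw [h3] at hT
      have hlt : |t| * (p / q) < p / q := by
        have : 0 < p / q := div_pos (hq.trans hpq) hq
        nlinarith
      obtain ⟨s, hs', hsB⟩ := end_common hq hpq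
        (by rw [hT]; exact sin_int_mul_pi (n + 1)) hlt hs
      rw [hT, hn] at hsB
      have hs'0 : s ∈ Ico 0 (hh q) := ⟨hs.1.trans hs'.1, hs'.2⟩
      have hTz : ∀ z, s0 ≤ z → z ≤ s → Th p q z + d ≤ (n + 1) * π := by
        intro z h4 h5
        have := Th_le hq hpq (hs.1.trans h4) (h5.trans hs'.2.le) le_rfl
        rw [hcast] at hT
        linarith
      have hL : Lk (QF p q t d d') (s0, y0) (s, y0) := by
        apply lk_h hq (e := e) hs.1 hs'.1 hs'.2 hy
        intro z hz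
        exact hup z hz.1 (hz.2.trans_lt hs'.2) (hTz z hz.1 hz.2)
      refine Exit.of_lk hL (Or.inl ⟨s, ⟨hs'0.1, hs'0.2.le⟩, ?_⟩)
      exact inward_big hq hpq he hs'0 hy (hup s hs'.1 hs'.2 (hTz s hs'.1 le_rfl)) hsB
    · have hL : Lk (QF p q t d d') (s0, y0) (s3, y0) := by
        apply lk_h hq (e := e) hs.1 hs3.1 h3 hy
        intro z hz
        apply hup z hz.1 (hz.2.trans_lt h3)
        have := Th_le hq hpq (hs.1.trans hz.1) hz.2 h3.le
        rw [hcast] at hT
        linarith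
      refine Exit.of_lk hL ?_
      apply exit_of_peak hq hpq ht he ⟨hs.1.trans hs3.1, h3⟩ hy
        (by rw [hT]; exact sin_int_mul_pi (n + 1)) (by rw [hT]; exact hn)
      apply hup s3 hs3.1 h3
      rw [hcast] at hT
      linarith
  · left
    have hl : Th p q s0 < Th p q (hh q) := Th_lt hq hpq hs.1 hs.2 le_rfl
    have hcne : cos (p * hh q + d) ≠ 0 := by
      apply cos_ph hq hpq
      exact sin_ne_between (n := n) (by linarith) (by linarith)
    refine ⟨hh q, ⟨(hh_pos hq).le, le_rfl⟩, Lk.trans ?_ (pole_column hq hpq hy hcne)⟩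
    apply lk_h_end hq (e := e) hs.1 hs.2 hy _ hcne
    intro z hz
    apply hup z hz.1 hz.2
    have := Th_le hq hpq (hs.1.trans hz.1) hz.2.le le_rfl
    linarith

lemma stepA_in (hq : 0 < q) (hpq : q < p) (ht : |t| < 1) {e s0 y0 : ℝ} (he : e = 1 ∨ e = -1)
    (hs : s0 ∈ Ico 0 (hh q)) (hy : y0 ∈ Ico 0 (hh q))
    (hpos : 0 < e * (rho p q d s0 + t * rho p q d' y0)) (n : ℤ)
    (h1 : n * π ≤ Th p q s0 + d) (h2 : Th p q s0 + d ≤ (n + 1) * π)
    (hn : cos (n * π) = e) (hd : d ≤ n * π) : Exit p q t d d' (s0, y0) := by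
  have e1 : ∀ s, e * (rho p q d s + t * rho p q d' y0) =
      e * rho p q d s + e * t * rho p q d' y0 := fun s => by ring
  obtain ⟨s3, hs3, hTs3⟩ := exists_Th hq hpq hs.1 (φ := n * π - d)
      (by rw [Th_zero]; linarith) (by linarith)
  have hT : Th p q s3 + d = n * π := by rw [hTs3]; ring
  have hup : ∀ s ∈ Icc s3 s0, 0 < e * (rho p q d s + t * rho p q d' y0) := by
    intro s hs'
    have := rho_down hq hpq (d := d) (sin_int_mul_pi n) hn (hs3.1.trans hs'.1) hs'.2 hs.2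
      (by have := Th_le hq hpq hs3.1 hs'.1 (hs'.2.trans hs.2.le); linarith) (by linarith)
    rw [e1] at hpos ⊢
    linarith
  have hL : Lk (QF p q t d d') (s3, y0) (s0, y0) := lk_h hq (e := e) hs3.1 hs3.2 hs.2 hy hup
  refine Exit.of_lk hL.symm ?_
  exact exit_of_peak hq hpq ht he ⟨hs3.1, hs3.2.trans_lt hs.2⟩ hy
    (by rw [hT]; exact sin_int_mul_pi n) (by rw [hT]; exact hn) (hup s3 ⟨le_rfl, hs3.2⟩)

lemma stepA_cross (hq : 0 < q) (hpq : q < p) {e s0 y0 : ℝ}
    (hs : s0 ∈ Ico 0 (hh q)) (hy : y0 ∈ Ico 0 (hh q))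
    (hpos : 0 < e * (rho p q d s0 + t * rho p q d' y0)) (n : ℤ)
    (h2 : Th p q s0 + d ≤ (n + 1) * π)
    (hn : cos (n * π) = e) (hd : n * π < d) :
    Lk (QF p q t d d') (s0, y0) (0, y0) ∧ 0 < e * (rho p q d 0 + t * rho p q d' y0) := by
  have e1 : ∀ s, e * (rho p q d s + t * rho p q d' y0) =
      e * rho p q d s + e * t * rho p q d' y0 := fun s => by ring
  have hup : ∀ s ∈ Icc 0 s0, 0 < e * (rho p q d s + t * rho p q d' y0) := by
    intro s hs'
    have := rho_down hq hpq (d := d) (sin_int_mul_pi n) hn hs'.1 hs'.2 hs.2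
      (by
        have := Th_le hq hpq le_rfl hs'.1 (hs'.2.trans hs.2.le)
        rw [Th_zero] at this
        linarith) (by linarith)
    rw [e1] at hpos ⊢
    linarith
  exact ⟨(lk_h hq (e := e) le_rfl hs.1 hs.2 hy hup).symm, hup 0 ⟨le_rfl, hs.1⟩⟩

theorem cell_exit (hq : 0 < q) (hpq : q < p) (ht : |t| < 1) {z : ℝ × ℝ}
    (hz : z ∈ QF p q t d d') : Exit p q t d d' z ∨
    (sin d ≠ 0 ∧ ∃ y0 ∈ Ico 0 (hh q), Lk (QF p q t d d') z (0, y0) ∧
      Exit p q t (-d) d' (0, y0)) := by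
  obtain ⟨s0, y0⟩ := z
  obtain ⟨hz1, hz2, hz3⟩ := id hz
  simp only at hz1 hz2
  rcases hz2.2.eq_or_lt with hy | hy
  · subst hy
    rcases hz1.2.eq_or_lt with hs | hs
    · exfalso
      apply hz3
      unfold Psi
      simp only
      rw [hs, cos_q_hh hq]; ring
    · left; right
      exact ⟨s0, ⟨hz1.1, hs⟩, Lk.refl hz⟩
  · rcases hz1.2.eq_or_lt with hs | hs
    · left; left
      subst hs
      refine ⟨hh q, ⟨(hh_pos hq).le, le_rfl⟩, pole_column hq hpq ⟨hz2.1, hy⟩ ?_⟩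
      intro h
      apply hz3
      unfold Psi
      simp only
      rw [h, cos_q_hh hq]; ring
    · have hs' : s0 ∈ Ico 0 (hh q) := ⟨hz1.1, hs⟩
      have hy' : y0 ∈ Ico 0 (hh q) := ⟨hz2.1, hy⟩
      have hc1 := cos_q_pos hq hs'.1 hs
      have hc2 := cos_q_pos hq hy'.1 hy
      have hne : rho p q d s0 + t * rho p q d' y0 ≠ 0 := by
        intro h
        apply hz3
        rw [psi_eq hc1.ne' hc2.ne', h, mul_zero]
      obtain ⟨e, he, hpos⟩ : ∃ e : ℝ, (e = 1 ∨ e = -1) ∧
          0 < e * (rho p q d s0 + t * rho p q d' y0) := by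
        rcases lt_or_gt_of_ne hne with h | h
        · exact ⟨-1, Or.inr rfl, by linarith⟩
        · exact ⟨1, Or.inl rfl, by linarith⟩
      set n : ℤ := ⌊(Th p q s0 + d) / π⌋ with hn
      have hn1 : n * π ≤ Th p q s0 + d := by
        have := Int.floor_le ((Th p q s0 + d) / π)
        rwa [le_div_iff₀ pi_pos] at this
      have hn2 : Th p q s0 + d < (n + 1) * π := by
        have := Int.lt_floor_add_one ((Th p q s0 + d) / π)
        rwa [div_lt_iff₀ pi_pos] at this
      have hc : cos ((n + 1 : ℤ) * π) = -cos (n * π) := by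
        push_cast; rw [add_mul, one_mul, cos_add_pi]
      have hcase : cos ((n + 1 : ℤ) * π) = e ∨ cos (n * π) = e := by
        rw [hc]
        rcases cos_int_pm n with h | h <;> rcases he with h' | h' <;> rw [h, h'] <;> norm_num
      rcases hcase with h | h
      · left
        exact stepA_out hq hpq ht he hs' hy' hpos n hn1 hn2.le h
      · rcases le_or_gt d (n * π) with hd | hd
        · left
          exact stepA_in hq hpq ht he hs' hy' hpos n hn1 hn2.le h hd
        · right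
          have hT0 : 0 ≤ Th p q s0 := by
            have := Th_le hq hpq le_rfl hs'.1 hs'.2.le
            rwa [Th_zero] at this
          obtain ⟨hL, hpos0⟩ := stepA_cross hq hpq hs' hy' hpos n hn2.le h hd
          refine ⟨sin_ne_between (n := n) hd (by linarith), y0, hy', hL, ?_⟩
          apply stepA_out hq hpq ht he ⟨le_rfl, hh_pos hq⟩ hy' _ (-n - 1)
          · rw [Th_zero]; push_cast; linarith
          · rw [Th_zero]; push_cast; linarith
          · rw [show (-n - 1 + 1 : ℤ) = -n by ring]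
            push_cast
            rw [neg_mul, cos_neg, h]
          · have : rho p q (-d) 0 = rho p q d 0 := by simp [rho]
            rw [this]; exact hpos0

lemma lowbd (hq : 0 < q) (hpq : q < p) {e : ℝ} (he : e = 1 ∨ e = -1)
    (h : 0 < e * t * cos (p * hh q + d')) {y : ℝ} (hy : y ∈ Ico 0 (hh q)) :
    -(|t| * (p / q)) ≤ e * t * rho p q d' y := by
  obtain ⟨y', hy', hy'B⟩ := end_pole (p := p) (d := d') (e := e * t) hq h 0 hy
  have hy'0 : y' ∈ Ico 0 (hh q) := ⟨hy.1.trans hy'.1, hy'.2⟩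
  have hcont : ContinuousOn (fun r => e * t * rho p q d' r) (Icc 0 y') := fun r hr =>
    ((continuousAt_rho hq hpq d'
      (cos_q_pos hq hr.1 (hr.2.trans_lt hy'.2)).ne').const_mul _).continuousWithinAt
  obtain ⟨r, hr, hmin⟩ := isCompact_Icc.exists_isMinOn ⟨0, ⟨le_rfl, hy'0.1⟩⟩ hcont
  have hle : e * t * rho p q d' r ≤ e * t * rho p q d' y := hmin ⟨hy.1, hy'.1⟩
  refine le_trans ?_ hle
  have h1 : 1 ≤ p / q := by rw [le_div_iff₀ hq]; linarith
  have habs : 0 ≤ |t| := abs_nonneg t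
  have h1' : |t| * 1 ≤ |t| * (p / q) := mul_le_mul_of_nonneg_left h1 habs
  have hee : |e| = 1 := by rcases he with h | h <;> simp [h]
  by_cases hr0 : r = 0
  · rw [hr0]
    have h1 : rho p q d' 0 = cos d' := by simp [rho]
    rw [h1]
    have h2 : |e * t * cos d'| ≤ |t| := by
      rw [abs_mul, abs_mul, hee, one_mul]
      exact mul_le_of_le_one_right (abs_nonneg _) (abs_cos_le_one _)
    have := (abs_le.1 h2).1
    linarith
  by_cases hry : r = y'
  · rw [hry]
    have : 0 ≤ |t| * (p / q) := by positivity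
    linarith
  have hr' : r ∈ Ioo 0 y' := ⟨lt_of_le_of_ne hr.1 (Ne.symm hr0), lt_of_le_of_ne hr.2 hry⟩
  have hcr := cos_q_pos hq hr.1 (hr.2.trans_lt hy'.2)
  have hloc : IsLocalMin (fun r => e * t * rho p q d' r) r :=
    hmin.isLocalMin (Icc_mem_nhds hr'.1 hr'.2)
  have hder := ((hasDerivAt_rho hq hpq d' hcr.ne').const_mul (e * t))
  have h0 := hloc.hasDerivAt_eq_zero hder
  have hN := sqrt_pos.2 (N2_pos hq hpq r)
  have het : e * t ≠ 0 := by
    intro h0'
    rw [h0', zero_mul] at h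
    exact lt_irrefl _ h
  have hsin : sin (Th p q r + d') = 0 := by
    rcases mul_eq_zero.1 h0 with h1 | h1
    · exact absurd h1 het
    · rcases div_eq_zero_iff.1 h1 with h2 | h2
      · rcases mul_eq_zero.1 (neg_eq_zero.1 h2) with h3 | h3
        · exact absurd h3 hN.ne'
        · exact h3
      · exact absurd h2 (by positivity)
  rw [rho_peak hq hpq hcr.ne' hsin]
  have hE := Ee_pos hq hpq r
  have hEle := Ee_le hq hpq hr.1 (hr.2.trans hy'.2.le)
  have h5 : |e * t * (cos (Th p q r + d') * Ee p q r)| ≤ |t| * (p / q) := by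
    rw [abs_mul, abs_mul, hee, one_mul, abs_mul, abs_of_pos hE]
    apply mul_le_mul_of_nonneg_left _ habs
    calc |cos (Th p q r + d')| * Ee p q r ≤ 1 * Ee p q r :=
          mul_le_mul_of_nonneg_right (abs_cos_le_one _) hE.le
      _ ≤ p / q := by linarith
  exact (abs_le.1 h5).1

/-- leaving a pole row. -/
lemma pole_row (hq : 0 < q) (hpq : q < p) (ht : |t| < 1) {e s0 : ℝ} (he : e = 1 ∨ e = -1)
    (hs : s0 ∈ Ico 0 (hh q)) (h : 0 < e * t * cos (p * hh q + d'))
    (hend : ∀ B < p / q, ∀ s0 ∈ Ico 0 (hh q), ∃ s ∈ Ico s0 (hh q), B < e * rho p q d s) :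
    ∃ s ∈ Icc 0 (hh q), Lk (QF p q t d d') (s0, hh q) (s, 0) := by
  have hlt : |t| * (p / q) < p / q := by
    have : 0 < p / q := div_pos (hq.trans hpq) hq
    nlinarith
  obtain ⟨s, hs', hsB⟩ := hend _ hlt s0 hs
  have hs0 : s ∈ Ico 0 (hh q) := ⟨hs.1.trans hs'.1, hs'.2⟩
  have htc : t * cos (p * hh q + d') ≠ 0 := by
    intro h0
    rw [mul_assoc, h0, mul_zero] at h
    exact lt_irrefl _ h
  have hrow : ∀ x ∈ Ico 0 (hh q), ((x, hh q) : ℝ × ℝ) ∈ QF p q t d d' := by
    intro x hx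
    refine ⟨⟨hx.1, hx.2.le⟩, ⟨(hh_pos hq).le, le_rfl⟩, ?_⟩
    unfold Psi
    simp only
    rw [cos_q_hh hq]
    have := cos_q_pos hq hx.1 hx.2
    have h2 : cos (p * x + d) * 0 + t * (cos (q * x) * cos (p * hh q + d')) =
      cos (q * x) * (t * cos (p * hh q + d')) := by ring
    rw [h2]
    exact mul_ne_zero this.ne' htc
  refine ⟨s, ⟨hs0.1, hs0.2.le⟩, Lk.trans (b := (s, hh q)) ?_ ?_⟩
  · exact Lk.hor (fun x hx => hrow x ⟨hs.1.trans hx.1, hx.2.trans_lt hs'.2⟩) hs'.1
  · apply Lk.symm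
    apply Lk.ver _ (hh_pos hq).le
    intro y hy
    rcases hy.2.eq_or_lt with h1 | h1
    · rw [h1]; exact hrow s hs0
    · apply mem_QF hq (e := e) hs0 ⟨hy.1, h1⟩
      have := lowbd hq hpq he h (y := y) ⟨hy.1, h1⟩
      have h2 : e * (rho p q d s + t * rho p q d' y) = e * rho p q d s + e * t * rho p q d' y := by
        ring
      rw [h2]; linarith

end cell

end
end Pool.Agent.Lib_helper91.Nodal
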