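import Mathlib
import Pool.Agent.Lib_helper91.NodalD

set_option autoImplicit false

namespace Pool.Agent.Lib_helper91.Nodal

noncomputable section
open Real Set

/-- the eigenfunction. -/
def Phi (p q : ℕ) (t : ℝ) (z : ℝ × ℝ) : ℝ :=
  cos (p * z.1) * cos (q * z.2) + t * (cos (q * z.1) * cos (p * z.2))

def FF (p q : ℕ) (t : ℝ) : Set (ℝ × ℝ) :=
  {z | z.1 ∈ Icc 0 π ∧ z.2 ∈ Icc 0 π ∧ Phi p q t z ≠ 0}

/-- valid half-strips. -/
def Val (q : ℕ) (a : ℕ) (σ : ℝ) : Prop := (σ = 1 ∧ a < q) ∨ (σ = -1 ∧ 1 ≤ a ∧ a ≤ q)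

lemma Val.pm {q a : ℕ} {σ : ℝ} (h : Val q a σ) : σ = 1 ∨ σ = -1 := by
  rcases h with h | h
  · exact Or.inl h.1
  · exact Or.inr h.1

def pt (q a : ℕ) (σ s : ℝ) : ℝ := a * π / q + σ * s

section
variable {p q : ℕ}

lemma pt_mem (hq : 0 < q) {a : ℕ} {σ s : ℝ} (h : Val q a σ) (hs : s ∈ Icc 0 (hh q)) :
    pt q a σ s ∈ Icc 0 π := by
  have hq' : (0 : ℝ) < q := by exact_mod_cast hq
  have h1 : hh q = π / q / 2 := by unfold hh; field_simp
  have h2 : 0 < π / q := by positivity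
  have h3 : q * (π / q) = π := by field_simp
  obtain ⟨hs0, hs1⟩ := hs
  rw [h1] at hs1
  unfold pt
  rw [mul_div_assoc]
  generalize π / (q : ℝ) = w at *
  rcases h with ⟨rfl, ha⟩ | ⟨rfl, ha, ha'⟩
  · have ha' : (a : ℝ) + 1 ≤ q := by exact_mod_cast ha
    constructor
    · have : 0 ≤ (a : ℝ) * w := by positivity
      linarith
    · have : ((a : ℝ) + 1) * w ≤ q * w := mul_le_mul_of_nonneg_right ha' h2.le
      linarith
  · have ha : (1 : ℝ) ≤ a := by exact_mod_cast ha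
    have ha' : (a : ℝ) ≤ q := by exact_mod_cast ha'
    constructor
    · have : 1 * w ≤ (a : ℝ) * w := mul_le_mul_of_nonneg_right ha h2.le
      linarith
    · have : (a : ℝ) * w ≤ q * w := mul_le_mul_of_nonneg_right ha' h2.le
      linarith

lemma exists_pt (hq : 0 < q) {x : ℝ} (hx : x ∈ Icc 0 π) :
    ∃ (a : ℕ) (σ : ℝ) (s : ℝ), Val q a σ ∧ s ∈ Icc 0 (hh q) ∧ x = pt q a σ s := by
  have hq' : (0 : ℝ) < q := by exact_mod_cast hq
  have h1 : hh q = π / q / 2 := by unfold hh; field_simp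
  have h2 : 0 < π / q := by positivity
  have h3 : q * (π / q) = π := by field_simp
  rcases hx.2.eq_or_lt with h | h
  · refine ⟨q, -1, 0, Or.inr ⟨rfl, hq, le_rfl⟩, ⟨le_rfl, (hh_pos hq').le⟩, ?_⟩
    unfold pt
    rw [h]; field_simp; ring
  · have hf1 := Nat.floor_le (a := x / (π / q)) (by have := hx.1; positivity)
    have hf2 := Nat.lt_floor_add_one (x / (π / q))
    rw [le_div_iff₀ h2] at hf1
    rw [div_lt_iff₀ h2] at hf2
    set a := ⌊x / (π / q)⌋₊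
    have haq : a < q := by
      have : (a : ℝ) * (π / q) < q * (π / q) := by rw [h3]; linarith
      exact_mod_cast lt_of_mul_lt_mul_right this h2.le
    rcases le_or_gt (x - a * (π / q)) (hh q) with h4 | h4
    · refine ⟨a, 1, x - a * (π / q), Or.inl ⟨rfl, haq⟩, ⟨by linarith, h4⟩, ?_⟩
      unfold pt; ring
    · refine ⟨a + 1, -1, (a + 1) * (π / q) - x, Or.inr ⟨rfl, by omega, by omega⟩,
        ⟨by linarith, ?_⟩, ?_⟩
      · rw [h1] at h4 ⊢; linarith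
      · unfold pt; push_cast; ring

lemma cos_p_pt {a : ℕ} {σ s : ℝ} (hσ : σ = 1 ∨ σ = -1) :
    cos (p * pt q a σ s) = cos (p * s + σ * (p * (a * π / q))) := by
  unfold pt
  rcases hσ with rfl | rfl
  · congr 1; ring
  · rw [← cos_neg]; congr 1; ring

lemma cos_q_pt (hq : 0 < q) {a : ℕ} {σ s : ℝ} (hσ : σ = 1 ∨ σ = -1) :
    cos (q * pt q a σ s) = (-1) ^ a * cos (q * s) := by
  have hq' : (q : ℝ) ≠ 0 := by exact_mod_cast hq.ne'
  have h1 : q * pt q a σ s = q * (σ * s) + a * π := by unfold pt; field_simp; ring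
  rw [h1, cos_add_nat_mul_pi]
  rcases hσ with rfl | rfl
  · rw [one_mul]
  · rw [neg_one_mul, mul_neg, cos_neg]

/-- phase of a strip. -/
def dd (p q a : ℕ) (σ : ℝ) : ℝ := σ * (p * (a * π / q))

lemma phi_pt (hq : 0 < q) {a j : ℕ} {σ τ s y t : ℝ} (hσ : σ = 1 ∨ σ = -1) (hτ : τ = 1 ∨ τ = -1) :
    Phi p q t (pt q a σ s, pt q j τ y) =
      (-1) ^ j * Psi p q ((-1) ^ (a + j) * t) (dd p q a σ) (dd p q j τ) (s, y) := by
  unfold Phi Psi dd
  simp only
  rw [cos_p_pt hσ, cos_q_pt hq hτ, cos_q_pt hq hσ, cos_p_pt hτ]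
  have h1 : ((-1 : ℝ)) ^ j * (-1) ^ j = 1 := by rw [← mul_pow]; norm_num
  rw [pow_add]
  linear_combination (-(t * ((-1) ^ a * cos (q * s) * cos (p * y + τ * (p * (j * π / q)))))) * h1

def cm (q a : ℕ) (σ : ℝ) (j : ℕ) (τ : ℝ) (z : ℝ × ℝ) : ℝ × ℝ := (pt q a σ z.1, pt q j τ z.2)

lemma continuous_cm (a : ℕ) (σ : ℝ) (j : ℕ) (τ : ℝ) : Continuous (cm q a σ j τ) := by
  unfold cm pt; fun_prop

lemma cm_maps (hq : 0 < q) {a j : ℕ} {σ τ t : ℝ} (hσ : Val q a σ) (hτ : Val q j τ) :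
    MapsTo (cm q a σ j τ) (QF p q ((-1) ^ (a + j) * t) (dd p q a σ) (dd p q j τ)) (FF p q t) := by
  rintro ⟨s, y⟩ ⟨h1, h2, h3⟩
  refine ⟨pt_mem hq hσ h1, pt_mem hq hτ h2, ?_⟩
  unfold cm
  simp only
  rw [phi_pt hq hσ.pm hτ.pm]
  exact mul_ne_zero (pow_ne_zero _ (by norm_num)) h3

lemma mem_QF_of (hq : 0 < q) {a j : ℕ} {σ τ s y t : ℝ} (hσ : Val q a σ) (hτ : Val q j τ)
    (hs : s ∈ Icc 0 (hh q)) (hy : y ∈ Icc 0 (hh q))
    (h : Phi p q t (pt q a σ s, pt q j τ y) ≠ 0) :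
    (s, y) ∈ QF p q ((-1) ^ (a + j) * t) (dd p q a σ) (dd p q j τ) := by
  refine ⟨hs, hy, ?_⟩
  rw [phi_pt hq hσ.pm hτ.pm] at h
  exact right_ne_zero_of_mul h

lemma abs_pow_mul (n : ℕ) {t : ℝ} : |(-1) ^ n * t| = |t| := by
  rw [abs_mul, abs_pow, abs_neg, abs_one, one_pow, one_mul]

/-- can reach a centre row. -/
def Row (p q : ℕ) (t : ℝ) (z : ℝ × ℝ) : Prop :=
  ∃ j ≤ q, ∃ x ∈ Icc 0 π, Lk (FF p q t) z (x, j * π / q)

lemma Row.of_lk {t : ℝ} {z w : ℝ × ℝ} (h : Lk (FF p q t) z w) (hw : Row p q t w) :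
    Row p q t z := by
  obtain ⟨j, hj, x, hx, h'⟩ := hw
  exact ⟨j, hj, x, hx, h.trans h'⟩

lemma Val.le {a : ℕ} {σ : ℝ} (h : Val q a σ) : a ≤ q := by
  rcases h with h | h
  · exact h.2.le
  · exact h.2.2

lemma row_of_centre (hq : 0 < q) {a j : ℕ} {σ τ t s0 y0 : ℝ} (hσ : Val q a σ) (hτ : Val q j τ)
    (h : ∃ s ∈ Icc 0 (hh q), Lk (QF p q ((-1) ^ (a + j) * t) (dd p q a σ) (dd p q j τ))
      (s0, y0) (s, 0)) : Row p q t (pt q a σ s0, pt q j τ y0) := by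
  obtain ⟨s, hs, hL⟩ := h
  have h1 := hL.map (continuous_cm a σ j τ) (cm_maps hq hσ hτ)
  refine ⟨j, hτ.le, pt q a σ s, pt_mem hq hσ hs, ?_⟩
  have e1 : pt q j τ 0 = j * π / q := by simp [pt]
  rw [← e1]
  exact h1

lemma row_of_pole (hq : 0 < q) (hpq : q < p) {a : ℕ} {σ t s0 : ℝ} (ht : |t| < 1)
    (hσ : Val q a σ) (hs : s0 ∈ Ico 0 (hh q)) {j : ℕ} {τ : ℝ} (hτ : Val q j τ)
    (hmem : (pt q a σ s0, pt q j τ (hh q)) ∈ FF p q t) :
    Row p q t (pt q a σ s0, pt q j τ (hh q)) := by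
  have hq' : (0 : ℝ) < q := by exact_mod_cast hq
  have hpq' : (q : ℝ) < p := by exact_mod_cast hpq
  obtain ⟨e, he, hend⟩ := end_sign hq' hpq' (dd p q a σ)
  have hhI : hh q ∈ Icc (0:ℝ) (hh q) := ⟨(hh_pos hq').le, le_rfl⟩
  have hm1 := mem_QF_of hq hσ hτ ⟨hs.1, hs.2.le⟩ hhI hmem.2.2
  have hne : e * ((-1) ^ (a + j) * t) * cos (p * hh q + dd p q j τ) ≠ 0 := by
    have h3 := hm1.2.2
    intro h0
    apply h3
    unfold Psi
    simp only
    rw [cos_q_hh hq']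
    have he0 : e ≠ 0 := by rcases he with h | h <;> rw [h] <;> norm_num
    rw [mul_assoc, mul_eq_zero] at h0
    rcases h0 with h0 | h0
    · exact absurd h0 he0
    · calc _ = cos (q * s0) * ((-1) ^ (a + j) * t * cos (p * hh q + dd p q j τ)) := by ring
        _ = 0 := by rw [h0, mul_zero]
  rcases lt_or_gt_of_ne hne with hneg | hpos
  · -- use the other side
    have hkey : ∃ (j' : ℕ) (τ' : ℝ), Val q j' τ' ∧ pt q j' τ' (hh q) = pt q j τ (hh q) ∧
        (-1 : ℝ) ^ (a + j') = -(-1) ^ (a + j) ∧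
        cos (p * hh q + dd p q j' τ') = cos (p * hh q + dd p q j τ) := by
      rcases hτ with ⟨rfl, hj⟩ | ⟨rfl, hj, hj'⟩
      · refine ⟨j + 1, -1, Or.inr ⟨rfl, by omega, by omega⟩, ?_, ?_, ?_⟩
        · unfold pt hh; push_cast; field_simp; ring
        · rw [← add_assoc, pow_succ]; ring
        · rw [← cos_neg]; congr 1
          unfold dd hh; push_cast; field_simp; ring
      · obtain ⟨i, rfl⟩ : ∃ i, j = i + 1 := ⟨j - 1, by omega⟩
        refine ⟨i, 1, Or.inl ⟨rfl, by omega⟩, ?_, ?_, ?_⟩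
        · unfold pt hh; push_cast; field_simp; ring
        · rw [← add_assoc, pow_succ]; ring
        · rw [← cos_neg]; congr 1
          unfold dd hh; push_cast; field_simp; ring
    obtain ⟨j', τ', hτ', hpt, hsgn, hcos⟩ := hkey
    rw [← hpt]
    apply row_of_centre hq hσ hτ'
    apply pole_row hq' hpq' (by rw [abs_pow_mul]; exact ht) he hs _ hend
    rw [hcos, hsgn]
    calc 0 < -(e * ((-1) ^ (a + j) * t) * cos (p * hh q + dd p q j τ)) := by linarith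
      _ = _ := by ring
  · apply row_of_centre hq hσ hτ
    exact pole_row hq' hpq' (by rw [abs_pow_mul]; exact ht) he hs hpos hend

lemma row_of_exit (hq : 0 < q) (hpq : q < p) {a j : ℕ} {σ τ t s0 y0 : ℝ} (ht : |t| < 1)
    (hσ : Val q a σ) (hτ : Val q j τ)
    (h : Exit p q ((-1) ^ (a + j) * t) (dd p q a σ) (dd p q j τ) (s0, y0)) :
    Row p q t (pt q a σ s0, pt q j τ y0) := by
  rcases h with h | ⟨s, hs, hL⟩
  · exact row_of_centre hq hσ hτ h
  · have h1 := hL.map (continuous_cm a σ j τ) (cm_maps hq hσ hτ)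
    refine Row.of_lk h1 ?_
    exact row_of_pole hq hpq ht hσ hs hτ h1.right_mem

theorem row_all (hq : 0 < q) (hpq : q < p) {t : ℝ} (ht : |t| < 1) {z : ℝ × ℝ}
    (hz : z ∈ FF p q t) : Row p q t z := by
  have hq' : (0 : ℝ) < q := by exact_mod_cast hq
  have hpq' : (q : ℝ) < p := by exact_mod_cast hpq
  obtain ⟨x, y⟩ := z
  obtain ⟨h1, h2, h3⟩ := hz
  obtain ⟨a, σ, s, hσ, hs, rfl⟩ := exists_pt hq h1
  obtain ⟨j, τ, s', hτ, hs', rfl⟩ := exists_pt hq h2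
  have hm := mem_QF_of hq hσ hτ hs hs' h3
  rcases cell_exit hq' hpq' (by rw [abs_pow_mul]; exact ht) hm with h | ⟨hd, y0, hy0, hL, hE⟩
  · exact row_of_exit hq hpq ht hσ hτ h
  · have hL' := hL.map (continuous_cm a σ j τ) (cm_maps hq hσ hτ)
    refine Row.of_lk hL' ?_
    have ha0 : a ≠ 0 := by
      rintro rfl
      apply hd; simp [dd]
    have haq : a ≠ q := by
      rintro rfl
      apply hd
      have : dd p a a σ = σ * (p * π) := by unfold dd; field_simp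
      rw [this]
      rcases hσ.pm with h | h
      · rw [h, one_mul]; exact sin_nat_mul_pi p
      · rw [h, neg_one_mul, sin_neg, sin_nat_mul_pi, neg_zero]
    have hale := hσ.le
    have hσ' : Val q a (-σ) := by
      rcases hσ.pm with h | h
      · right; exact ⟨by rw [h], by omega, hale⟩
      · left; exact ⟨by rw [h]; norm_num, by omega⟩
    have e1 : cm q a σ j τ (0, y0) = (pt q a (-σ) 0, pt q j τ y0) := by simp [cm, pt]
    rw [e1]
    apply row_of_exit hq hpq ht hσ' hτ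
    have e2 : dd p q a (-σ) = -dd p q a σ := by unfold dd; ring
    rw [e2]; exact hE

end

end
end Pool.Agent.Lib_helper91.Nodal
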