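import Mathlib
import Pool.Agent.Lib_helper91.NodalE

set_option autoImplicit false

namespace Pool.Agent.Lib_helper91.Nodal

noncomputable section
open Real Set

/-- the open square. -/
def Om : Set (ℝ × ℝ) := Ioo 0 π ×ˢ Ioo 0 π

/-- number of nodal domains in the open square. -/
def nodalCount (u : ℝ × ℝ → ℝ) : ℕ∞ :=
  ENat.card (ConnectedComponents {z : ℝ × ℝ // z ∈ Om ∧ u z ≠ 0})

section counting

/-- joined inside the open square minus the zero set. -/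
def Jn (u : ℝ × ℝ → ℝ) (z w : ℝ × ℝ) : Prop :=
  ∃ T : Set (ℝ × ℝ), IsPreconnected T ∧ (∀ v ∈ T, v ∈ Om ∧ u v ≠ 0) ∧ z ∈ T ∧ w ∈ T

lemma mk_eq_iff (u : ℝ × ℝ → ℝ) (z w : {z : ℝ × ℝ // z ∈ Om ∧ u z ≠ 0}) :
    (z : ConnectedComponents {z : ℝ × ℝ // z ∈ Om ∧ u z ≠ 0}) = w ↔ Jn u z w := by
  rw [ConnectedComponents.coe_eq_coe']
  constructor
  · intro h
    refine ⟨Subtype.val '' connectedComponent w, ?_, ?_, ⟨z, h, rfl⟩, ⟨w, mem_connectedComponent, rfl⟩⟩
    · exact isPreconnected_connectedComponent.image _ continuous_subtype_val.continuousOn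
    · rintro _ ⟨v, _, rfl⟩; exact v.2
  · rintro ⟨T, h1, h2, h3, h4⟩
    have hT : IsPreconnected ((Subtype.val : {z : ℝ × ℝ // z ∈ Om ∧ u z ≠ 0} → ℝ × ℝ) ⁻¹' T) := by
      have hi : Topology.IsInducing
          (Subtype.val : {z : ℝ × ℝ // z ∈ Om ∧ u z ≠ 0} → ℝ × ℝ) := Topology.IsInducing.subtypeVal
      rw [← hi.isPreconnected_image]
      have he : (Subtype.val : {z : ℝ × ℝ // z ∈ Om ∧ u z ≠ 0} → ℝ × ℝ) ''
          (Subtype.val ⁻¹' T) = T := by
        ext v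
        constructor
        · rintro ⟨x, hx, rfl⟩; exact hx
        · intro hv; exact ⟨⟨v, h2 v hv⟩, hv, rfl⟩
      rw [he]
      exact h1
    exact hT.subset_connectedComponent h4 h3

lemma count_le {u : ℝ × ℝ → ℝ} {α : Type*} [Fintype α]
    (g : {z : ℝ × ℝ // z ∈ Om ∧ u z ≠ 0} → α) (h : ∀ z w, g z = g w → Jn u z w) :
    nodalCount u ≤ Fintype.card α := by
  unfold nodalCount
  have hinj : Function.Injective (fun c : ConnectedComponents {z : ℝ × ℝ // z ∈ Om ∧ u z ≠ 0} =>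
      g (Function.surjInv ConnectedComponents.surjective_coe c)) := by
    intro c c' hc
    have h1 := h _ _ hc
    rw [← mk_eq_iff] at h1
    rw [← Function.surjInv_eq ConnectedComponents.surjective_coe c,
      ← Function.surjInv_eq ConnectedComponents.surjective_coe c']
    exact h1
  have := ENat.card_le_card_of_injective hinj
  rwa [ENat.card_eq_coe_fintype_card (α := α)] at this

lemma le_count {u : ℝ × ℝ → ℝ} {α : Type*} [Fintype α] (f : α → ℝ × ℝ)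
    (hf : ∀ i, f i ∈ Om ∧ u (f i) ≠ 0) (h : ∀ i j, Jn u (f i) (f j) → i = j) :
    (Fintype.card α : ℕ∞) ≤ nodalCount u := by
  unfold nodalCount
  rw [← ENat.card_eq_coe_fintype_card (α := α)]
  apply ENat.card_le_card_of_injective (f := fun i =>
    ((⟨f i, hf i⟩ : {z : ℝ × ℝ // z ∈ Om ∧ u z ≠ 0}) : ConnectedComponents _))
  intro i j hij
  have h1 := (mk_eq_iff u _ _).1 hij
  exact h i j h1

lemma count_le_of_surj {u v : ℝ × ℝ → ℝ} (F : ℝ × ℝ → ℝ × ℝ) (hF : Continuous F)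
    (h1 : ∀ z, z ∈ Om ∧ u z ≠ 0 → F z ∈ Om ∧ v (F z) ≠ 0)
    (h2 : ∀ w, w ∈ Om ∧ v w ≠ 0 → ∃ z, (z ∈ Om ∧ u z ≠ 0) ∧ F z = w) :
    nodalCount v ≤ nodalCount u := by
  let G : {z : ℝ × ℝ // z ∈ Om ∧ u z ≠ 0} → {z : ℝ × ℝ // z ∈ Om ∧ v z ≠ 0} :=
    fun z => ⟨F z, h1 z z.2⟩
  have hG : Continuous G := by
    apply Continuous.subtype_mk
    exact hF.comp continuous_subtype_val
  have hsur : Function.Surjective G := by
    rintro ⟨w, hw⟩
    obtain ⟨z, hz, rfl⟩ := h2 w hw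
    exact ⟨⟨z, hz⟩, rfl⟩
  have hs : Function.Surjective hG.connectedComponentsMap :=
    hG.connectedComponentsMap_surjective hsur
  unfold nodalCount
  exact ENat.card_le_card_of_injective (Function.injective_surjInv hs)

lemma count_swap (u : ℝ × ℝ → ℝ) : nodalCount (fun z => u (z.2, z.1)) = nodalCount u := by
  apply le_antisymm
  · apply count_le_of_surj (fun z => (z.2, z.1)) (by fun_prop)
    · rintro z ⟨h1, h2⟩
      exact ⟨⟨h1.2, h1.1⟩, h2⟩
    · rintro w ⟨h1, h2⟩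
      exact ⟨(w.2, w.1), ⟨⟨h1.2, h1.1⟩, h2⟩, rfl⟩
  · apply count_le_of_surj (fun z => (z.2, z.1)) (by fun_prop)
    · rintro z ⟨h1, h2⟩
      exact ⟨⟨h1.2, h1.1⟩, h2⟩
    · rintro w ⟨h1, h2⟩
      exact ⟨(w.2, w.1), ⟨⟨h1.2, h1.1⟩, h2⟩, rfl⟩

lemma count_smul {c : ℝ} (hc : c ≠ 0) (u : ℝ × ℝ → ℝ) : nodalCount (c • u) = nodalCount u := by
  have h : (fun z : ℝ × ℝ => z ∈ Om ∧ (c • u) z ≠ 0) = (fun z => z ∈ Om ∧ u z ≠ 0) := by
    funext z
    simp [hc]
  unfold nodalCount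
  show ENat.card (ConnectedComponents (Subtype (fun z : ℝ × ℝ => z ∈ Om ∧ (c • u) z ≠ 0))) =
    ENat.card (ConnectedComponents (Subtype (fun z : ℝ × ℝ => z ∈ Om ∧ u z ≠ 0)))
  rw [h]

end counting

section push

def Sc (η : ℝ) (v : ℝ × ℝ) : ℝ × ℝ := ((1 - η) * v.1 + η * (π / 2), (1 - η) * v.2 + η * (π / 2))

lemma Sc_mem {η : ℝ} (h0 : 0 < η) (h1 : η ≤ 1) {v : ℝ × ℝ} (hv1 : v.1 ∈ Icc 0 π)
    (hv2 : v.2 ∈ Icc 0 π) : Sc η v ∈ Om := by
  have key : ∀ x ∈ Icc 0 π, (1 - η) * x + η * (π / 2) ∈ Ioo 0 π := by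
    intro x hx
    have h2 : 0 < η * (π / 2) := by positivity
    have h3 : 0 ≤ (1 - η) * x := mul_nonneg (by linarith) hx.1
    have h4 : (1 - η) * x ≤ (1 - η) * π := mul_le_mul_of_nonneg_left hx.2 (by linarith)
    constructor
    · linarith
    · nlinarith
  exact ⟨key _ hv1, key _ hv2⟩

lemma push {u : ℝ × ℝ → ℝ} (hu : Continuous u) {F : Set (ℝ × ℝ)}
    (hF : ∀ v ∈ F, v.1 ∈ Icc 0 π ∧ v.2 ∈ Icc 0 π ∧ u v ≠ 0) {z w : ℝ × ℝ} (hz : z ∈ Om)
    (hw : w ∈ Om) (h : Lk F z w) : Jn u z w := by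
  obtain ⟨T, hTc, hTp, hTF, hzT, hwT⟩ := h
  have hS : Continuous (fun x : ℝ × (ℝ × ℝ) => Sc x.1 x.2) := by unfold Sc; fun_prop
  have hev : ∀ᶠ η in nhds (0 : ℝ), ∀ v ∈ T, u (Sc η v) ≠ 0 := by
    apply hTc.eventually_forall_of_forall_eventually
    intro v hv
    have h1 : ContinuousAt (fun x : ℝ × (ℝ × ℝ) => u (Sc x.1 x.2)) (0, v) :=
      (hu.comp hS).continuousAt
    apply h1.eventually_ne
    have : Sc 0 v = v := by simp [Sc]
    simp only
    rw [this]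
    exact (hF v (hTF hv)).2.2
  obtain ⟨δ, hδ, hδ'⟩ := Metric.eventually_nhds_iff.1 hev
  set η0 := min (δ / 2) 1 with hη0
  have hη0pos : 0 < η0 := by positivity
  have hη0le : η0 ≤ 1 := min_le_right _ _
  have hη0δ : η0 < δ := (min_le_left _ _).trans_lt (by linarith)
  have hgood : ∀ η ∈ Icc 0 η0, ∀ v ∈ T, u (Sc η v) ≠ 0 := by
    intro η hη v hv
    apply hδ' _ v hv
    rw [dist_zero_right, norm_eq_abs, abs_of_nonneg hη.1]
    exact hη.2.trans_lt hη0δ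
  have hseg : ∀ x ∈ Om, x ∈ T → Jn u x (Sc η0 x) := by
    intro x hx hxT
    refine ⟨(fun η => Sc η x) '' Icc 0 η0, ?_, ?_, ⟨0, ⟨le_rfl, hη0pos.le⟩, by simp [Sc]⟩,
      ⟨η0, ⟨hη0pos.le, le_rfl⟩, rfl⟩⟩
    · apply isPreconnected_Icc.image
      apply Continuous.continuousOn
      unfold Sc; fun_prop
    · rintro _ ⟨η, hη, rfl⟩
      refine ⟨?_, hgood η hη x hxT⟩
      rcases hη.1.eq_or_lt with h | h
      · simp only
        rw [← h]; simpa [Sc] using hx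
      · exact Sc_mem h (hη.2.trans hη0le) (hF x (hTF hxT)).1 (hF x (hTF hxT)).2.1
  obtain ⟨A, hA1, hA2, hA3, hA4⟩ := hseg z hz hzT
  obtain ⟨B, hB1, hB2, hB3, hB4⟩ := hseg w hw hwT
  have hC1 : IsPreconnected (Sc η0 '' T) := hTp.image _ (by
    apply Continuous.continuousOn; unfold Sc; fun_prop)
  have hC2 : ∀ v ∈ Sc η0 '' T, v ∈ Om ∧ u v ≠ 0 := by
    rintro _ ⟨v, hv, rfl⟩
    exact ⟨Sc_mem hη0pos hη0le (hF v (hTF hv)).1 (hF v (hTF hv)).2.1,
      hgood η0 ⟨hη0pos.le, le_rfl⟩ v hv⟩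
  refine ⟨A ∪ (Sc η0 '' T ∪ B), ?_, ?_, Or.inl hA3, Or.inr (Or.inr hB3)⟩
  · apply hA1.union (Sc η0 z) hA4 (Or.inl (mem_image_of_mem _ hzT))
    exact hC1.union (Sc η0 w) (mem_image_of_mem _ hwT) hB4 hB1
  · rintro v (hv | hv | hv)
    · exact hA2 v hv
    · exact hC2 v hv
    · exact hB2 v hv

end push

section zeros

lemma zeros_row {p q : ℕ} (hpq : q < p) {A B : ℝ} (hA : A ≠ 0) :
    {x ∈ Icc 0 π | A * cos (p * x) + B * cos (q * x) = 0}.Finite ∧
    {x ∈ Icc 0 π | A * cos (p * x) + B * cos (q * x) = 0}.ncard ≤ p := by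
  set Z : Set ℝ := {x ∈ Icc 0 π | A * cos (p * x) + B * cos (q * x) = 0} with hZ
  let P : Polynomial ℝ := Polynomial.C A * Polynomial.Chebyshev.T ℝ (p : ℤ) +
    Polynomial.C B * Polynomial.Chebyshev.T ℝ (q : ℤ)
  have hdeg : P.degree = p := by
    have h1 : (Polynomial.C A * Polynomial.Chebyshev.T ℝ (p : ℤ)).degree = p := by
      rw [Polynomial.degree_C_mul hA, Polynomial.Chebyshev.degree_T]; simp
    have h2 : (Polynomial.C B * Polynomial.Chebyshev.T ℝ (q : ℤ)).degree ≤ q := by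
      refine (Polynomial.degree_mul_le _ _).trans ?_
      rw [Polynomial.Chebyshev.degree_T]
      have := Polynomial.degree_C_le (a := B)
      calc (Polynomial.C B).degree + ((q : ℤ).natAbs : WithBot ℕ) ≤ 0 + ((q : ℤ).natAbs : WithBot ℕ) := by
            gcongr
        _ = q := by simp
    rw [← h1]
    apply Polynomial.degree_add_eq_left_of_degree_lt
    rw [h1]
    exact h2.trans_lt (by exact_mod_cast hpq)
  have hP0 : P ≠ 0 := by
    intro h; rw [h] at hdeg; simp at hdeg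
  have heval : ∀ x, P.eval (cos x) = A * cos (p * x) + B * cos (q * x) := by
    intro x
    simp only [P, Polynomial.eval_add, Polynomial.eval_mul, Polynomial.eval_C]
    rw [Polynomial.Chebyshev.T_real_cos, Polynomial.Chebyshev.T_real_cos]
    push_cast
    rfl
  have himg : cos '' Z ⊆ (P.roots.toFinset : Set ℝ) := by
    rintro _ ⟨x, hx, rfl⟩
    simp only [Finset.mem_coe, Multiset.mem_toFinset, Polynomial.mem_roots', Polynomial.IsRoot.def]
    exact ⟨hP0, by rw [heval]; exact hx.2⟩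
  have hinj : InjOn cos Z := injOn_cos.mono fun x hx => hx.1
  have hfin : Z.Finite := Set.Finite.of_finite_image ((Finset.finite_toSet _).subset himg) hinj
  refine ⟨hfin, ?_⟩
  calc Z.ncard = (cos '' Z).ncard := hinj.ncard_image.symm
    _ ≤ (P.roots.toFinset : Set ℝ).ncard := ncard_le_ncard himg (Finset.finite_toSet _)
    _ = P.roots.toFinset.card := ncard_coe_finset _
    _ ≤ Multiset.card P.roots := Multiset.toFinset_card_le _
    _ ≤ P.natDegree := Polynomial.card_roots' P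
    _ = p := Polynomial.natDegree_eq_of_degree_eq_some hdeg

end zeros

end
end Pool.Agent.Lib_helper91.Nodal
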