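import Mathlib
import Pool.Agent.Lib_helper91.NodalF

set_option autoImplicit false

namespace Pool.Agent.Lib_helper91.Nodal

noncomputable section
open Real Set

lemma continuous_Phi (p q : ℕ) (t : ℝ) : Continuous (Phi p q t) := by
  unfold Phi; fun_prop

/-- the case `q = 0` of reaching the row. -/
lemma row_zero {p : ℕ} (hp : 0 < p) {t : ℝ} (ht : |t| < 1) {z : ℝ × ℝ} (hz : z ∈ FF p 0 t) :
    Row p 0 t z := by
  obtain ⟨x0, y0⟩ := z
  obtain ⟨h1, h2, h3⟩ := hz
  simp only at h1 h2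
  have hp' : (0 : ℝ) < p := by exact_mod_cast hp
  have hPhi : ∀ x y, Phi p 0 t (x, y) = cos (p * x) + t * cos (p * y) := by
    intro x y; simp [Phi]
  rw [hPhi] at h3
  obtain ⟨e, he, hpos⟩ : ∃ e : ℝ, (e = 1 ∨ e = -1) ∧ 0 < e * (cos (p * x0) + t * cos (p * y0)) := by
    rcases lt_or_gt_of_ne h3 with h | h
    · exact ⟨-1, Or.inr rfl, by linarith⟩
    · exact ⟨1, Or.inl rfl, by linarith⟩
  have hbd : ∀ y, |e * t * cos (p * y)| < 1 := by
    intro y
    have hee : |e| = 1 := by rcases he with h | h <;> simp [h]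
    rw [abs_mul, abs_mul, hee, one_mul]
    calc |t| * |cos (p * y)| ≤ |t| * 1 :=
          mul_le_mul_of_nonneg_left (abs_cos_le_one _) (abs_nonneg _)
      _ < 1 := by linarith
  have hexp : ∀ x y, e * (cos (p * x) + t * cos (p * y)) =
      e * cos (p * x) + e * t * cos (p * y) := fun x y => by ring
  have hmem : ∀ x y, x ∈ Icc 0 π → y ∈ Icc 0 π → 0 < e * (cos (p * x) + t * cos (p * y)) →
      ((x, y) : ℝ × ℝ) ∈ FF p 0 t := by
    intro x y hx hy h
    refine ⟨hx, hy, ?_⟩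
    rw [hPhi]
    intro h0; rw [h0, mul_zero] at h; exact lt_irrefl _ h
  -- finishing
  have hfin : ∀ x1 ∈ Icc 0 π, e * cos (p * x1) = 1 → Lk (FF p 0 t) (x0, y0) (x1, y0) →
      Row p 0 t (x0, y0) := by
    intro x1 hx1 hc hL
    refine ⟨0, le_rfl, x1, hx1, hL.trans ?_⟩
    have e0 : ((0 : ℕ) : ℝ) * π / ((0 : ℕ) : ℝ) = 0 := by simp
    rw [e0]
    apply Lk.symm
    apply Lk.ver _ h2.1
    intro y hy
    apply hmem x1 y hx1 ⟨hy.1, hy.2.trans h2.2⟩
    rw [hexp, hc]
    have := (abs_lt.1 (hbd y)).1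
    linarith
  set i : ℕ := ⌊p * x0 / π⌋₊ with hi
  have hf1 : i * π ≤ p * x0 := by
    have := Nat.floor_le (a := p * x0 / π) (by have := h1.1; positivity)
    rwa [le_div_iff₀ pi_pos] at this
  have hf2 : p * x0 < (i + 1) * π := by
    have := Nat.lt_floor_add_one (p * x0 / π)
    rwa [div_lt_iff₀ pi_pos] at this
  have hci : cos (i * π) = 1 ∨ cos (i * π) = -1 := sin_eq_zero_iff_cos_eq.1 (sin_nat_mul_pi i)
  have hpiece : ∀ u v, i * π ≤ u → u ≤ v → v ≤ (i + 1) * π →
      cos (i * π) * cos v ≤ cos (i * π) * cos u := by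
    intro u v hu huv hv
    have h5 : ∀ w, cos (w - i * π) = cos (i * π) * cos w := by
      intro w; rw [cos_sub, sin_nat_mul_pi]; ring
    rw [← h5, ← h5]
    exact cos_le_cos_of_nonneg_of_le_pi (by linarith) (by linarith) (by linarith)
  have hx0p : p * x0 ≤ p * π := mul_le_mul_of_nonneg_left h1.2 hp'.le
  rcases (show cos (i * π) = e ∨ cos (i * π) = -e by
    rcases hci with h | h <;> rcases he with h' | h' <;> rw [h, h'] <;> norm_num) with hc | hc
  · -- go inward
    have hx1 : (i : ℝ) * π / p ≤ x0 := by rw [div_le_iff₀ hp']; linarith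
    have hx10 : 0 ≤ (i : ℝ) * π / p := by positivity
    apply hfin (i * π / p) ⟨hx10, hx1.trans h1.2⟩
    · rw [mul_div_cancel₀ _ hp'.ne', hc]
      rcases he with h | h <;> rw [h] <;> norm_num
    · apply Lk.symm
      apply Lk.hor _ hx1
      intro x hx
      apply hmem x y0 ⟨hx10.trans hx.1, hx.2.trans h1.2⟩ h2
      rw [hexp] at hpos ⊢
      have h6 : (i : ℝ) * π ≤ p * x := by
        have := (div_le_iff₀ hp').1 hx.1
        linarith
      have := hpiece (p * x) (p * x0) h6 (mul_le_mul_of_nonneg_left hx.2 hp'.le) hf2.le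
      rw [hc] at this
      linarith
  · -- go outward
    have hip : i < p := by
      by_contra hcon
      rw [not_lt] at hcon
      have : (p : ℝ) ≤ i := by exact_mod_cast hcon
      have h7 : (p : ℝ) * π ≤ i * π := mul_le_mul_of_nonneg_right this pi_pos.le
      have h8 : p * x0 = i * π := by linarith
      rw [hexp, h8, hc] at hpos
      have h9 := (abs_lt.1 (hbd y0)).2
      have h10 : e * -e = -1 := by rcases he with h | h <;> rw [h] <;> norm_num
      linarith
    have hip' : (i : ℝ) + 1 ≤ p := by exact_mod_cast hip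
    have hx1 : x0 ≤ ((i : ℝ) + 1) * π / p := by rw [le_div_iff₀ hp']; linarith
    have hx1π : ((i : ℝ) + 1) * π / p ≤ π := by
      rw [div_le_iff₀ hp']
      have := mul_le_mul_of_nonneg_right hip' pi_pos.le
      linarith
    apply hfin (((i : ℝ) + 1) * π / p) ⟨h1.1.trans hx1, hx1π⟩
    · rw [mul_div_cancel₀ _ hp'.ne', add_mul, one_mul, cos_add_pi, hc]
      rcases he with h | h <;> rw [h] <;> norm_num
    · apply Lk.hor _ hx1
      intro x hx
      apply hmem x y0 ⟨h1.1.trans hx.1, hx.2.trans hx1π⟩ h2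
      rw [hexp] at hpos ⊢
      have h6 : p * x ≤ ((i : ℝ) + 1) * π := by
        have := (le_div_iff₀ hp').1 hx.2
        linarith
      have := hpiece (p * x0) (p * x) hf1 (mul_le_mul_of_nonneg_left hx.1 hp'.le) h6
      rw [hc] at this
      linarith

theorem row_full {p q : ℕ} (hpq : q < p) {t : ℝ} (ht : |t| < 1) {z : ℝ × ℝ}
    (hz : z ∈ FF p q t) : Row p q t z := by
  rcases Nat.eq_zero_or_pos q with rfl | hq
  · exact row_zero hpq ht hz
  · exact row_all hq hpq ht hz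

lemma row_fun {p q : ℕ} {t : ℝ} (j : ℕ) : ∃ A B : ℝ, A ≠ 0 ∧
    ∀ x, Phi p q t (x, j * π / q) = A * cos (p * x) + B * cos (q * x) := by
  refine ⟨cos (q * (j * π / q)), t * cos (p * (j * π / q)), ?_, ?_⟩
  · rcases Nat.eq_zero_or_pos q with rfl | hq
    · simp
    · have hq' : (q : ℝ) ≠ 0 := by exact_mod_cast hq.ne'
      rw [mul_div_cancel₀ _ hq', cos_nat_mul_pi]
      exact pow_ne_zero _ (by norm_num)
  · intro x
    unfold Phi
    simp only
    ring

/-- zeros on row `j`. -/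
def Zr (p q : ℕ) (t : ℝ) (j : ℕ) : Set ℝ := {x ∈ Icc 0 π | Phi p q t (x, j * π / q) = 0}

lemma Zr_fin {p q : ℕ} (hpq : q < p) (t : ℝ) (j : ℕ) :
    (Zr p q t j).Finite ∧ (Zr p q t j).ncard ≤ p := by
  obtain ⟨A, B, hA, h⟩ := row_fun (p := p) (q := q) (t := t) j
  unfold Zr
  simp only [h]
  exact zeros_row hpq hA

lemma row_join {p q : ℕ} (hpq : q < p) {t : ℝ} {j : ℕ} (hj : j ≤ q) {x x' : ℝ}
    (hx : ((x, j * π / q) : ℝ × ℝ) ∈ FF p q t) (hx' : ((x', j * π / q) : ℝ × ℝ) ∈ FF p q t)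
    (hc : (Zr p q t j ∩ Iio x).ncard = (Zr p q t j ∩ Iio x').ncard) :
    Lk (FF p q t) (x, j * π / q) (x', j * π / q) := by
  have key : ∀ a b : ℝ, ((a, j * π / q) : ℝ × ℝ) ∈ FF p q t →
      ((b, j * π / q) : ℝ × ℝ) ∈ FF p q t → a ≤ b →
      (Zr p q t j ∩ Iio a).ncard = (Zr p q t j ∩ Iio b).ncard →
      Lk (FF p q t) (a, j * π / q) (b, j * π / q) := by
    intro a b ha hb hab hc
    apply Lk.hor _ hab
    intro s hs
    have hsI : s ∈ Icc 0 π := ⟨ha.1.1.trans hs.1, hs.2.trans hb.1.2⟩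
    refine ⟨hsI, ha.2.1, ?_⟩
    intro h0
    have hsZ : s ∈ Zr p q t j := ⟨hsI, h0⟩
    have hsb : s ≠ b := by rintro rfl; exact hb.2.2 h0
    have hsub : Zr p q t j ∩ Iio a ⊆ Zr p q t j ∩ Iio b :=
      inter_subset_inter_right _ (Iio_subset_Iio hab)
    have heq := eq_of_subset_of_ncard_le hsub hc.ge
      ((Zr_fin hpq t j).1.subset inter_subset_left)
    have hs1 : s ∈ Zr p q t j ∩ Iio b := ⟨hsZ, lt_of_le_of_ne hs.2 hsb⟩
    rw [← heq] at hs1
    exact absurd hs1.2 (not_lt.2 hs.1)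
  rcases le_total x x' with h | h
  · exact key x x' hx hx' h hc
  · exact (key x' x hx' hx h hc.symm).symm

theorem count_upper {p q : ℕ} (hpq : q < p) {t : ℝ} (ht : |t| < 1) :
    nodalCount (Phi p q t) ≤ ((p + 1) * (q + 1) : ℕ) := by
  classical
  have hmem : ∀ z : {z : ℝ × ℝ // z ∈ Om ∧ Phi p q t z ≠ 0}, (z : ℝ × ℝ) ∈ FF p q t := by
    rintro ⟨z, hz1, hz2⟩
    exact ⟨⟨hz1.1.1.le, hz1.1.2.le⟩, ⟨hz1.2.1.le, hz1.2.2.le⟩, hz2⟩
  have hrow := fun z : {z : ℝ × ℝ // z ∈ Om ∧ Phi p q t z ≠ 0} => row_full hpq ht (hmem z)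
  choose J hJ X hX hL using hrow
  let g : {z : ℝ × ℝ // z ∈ Om ∧ Phi p q t z ≠ 0} → Fin (p + 1) × Fin (q + 1) := fun z =>
    (⟨(Zr p q t (J z) ∩ Iio (X z)).ncard, by
      have h1 := Zr_fin hpq t (J z)
      have h2 := ncard_le_ncard (inter_subset_left (s := Zr p q t (J z)) (t := Iio (X z))) h1.1
      omega⟩, ⟨J z, by have := hJ z; omega⟩)
  have h := count_le (u := Phi p q t) g (by
    intro z w hzw
    simp only [g, Prod.mk.injEq, Fin.mk.injEq] at hzw
    obtain ⟨h1, h2⟩ := hzw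
    apply push (continuous_Phi p q t) (F := FF p q t) (fun v hv => hv) z.2.1 w.2.1
    have hLw := hL w
    rw [← h2] at hLw
    rw [← h2] at h1
    exact (hL z).trans ((row_join hpq (hJ z) (hL z).right_mem hLw.right_mem h1).trans hLw.symm))
  refine h.trans ?_
  simp

/-- sample points. -/
def sp (n i : ℕ) : ℝ := π * (4 * i + 1) / (4 * n + 2)

lemma sp_mem {n i : ℕ} (h : i ≤ n) : sp n i ∈ Ioo 0 π := by
  have h' : (i : ℝ) ≤ n := by exact_mod_cast h
  have hp := pi_pos
  unfold sp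
  constructor
  · positivity
  · rw [div_lt_iff₀ (by positivity)]
    nlinarith

lemma sp_lt {n i : ℕ} (hn : 0 < n) : sp n i < π * (2 * i + 1) / (2 * n) := by
  have hn' : (0 : ℝ) < n := by exact_mod_cast hn
  have hp := pi_pos
  unfold sp
  rw [div_lt_div_iff₀ (by positivity) (by positivity)]
  have hi : (0 : ℝ) ≤ i := by positivity
  nlinarith [mul_nonneg hp.le hi]

lemma lt_sp {n i : ℕ} (hn : i < n) : π * (2 * i + 1) / (2 * n) < sp n (i + 1) := by
  have hn0 : 0 < n := by omega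
  have hn' : (0 : ℝ) < n := by exact_mod_cast hn0
  have hin : (i : ℝ) + 1 ≤ n := by exact_mod_cast hn
  have hp := pi_pos
  unfold sp
  rw [div_lt_div_iff₀ (by positivity) (by positivity)]
  push_cast
  nlinarith [mul_le_mul_of_nonneg_left hin hp.le, mul_pos hp hn']

lemma sp_mono {n i j : ℕ} (h : i ≤ j) : sp n i ≤ sp n j := by
  have h' : (i : ℝ) ≤ j := by exact_mod_cast h
  unfold sp
  gcongr

lemma cos_sp_ne {n i : ℕ} (h : i ≤ n) : cos (n * sp n i) ≠ 0 := by
  rcases Nat.eq_zero_or_pos n with rfl | hn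
  · simp
  have hn' : (0 : ℝ) < n := by exact_mod_cast hn
  have h1 : n * sp n i < π * (2 * i + 1) / 2 := by
    have := mul_lt_mul_of_pos_left (sp_lt (i := i) hn) hn'
    calc _ < _ := this
      _ = _ := by field_simp
  have h2 : π * (2 * i - 1) / 2 < n * sp n i := by
    rcases Nat.eq_zero_or_pos i with rfl | hi
    · have := (sp_mem h).1
      have h3 : 0 < n * sp n 0 := mul_pos hn' this
      simp only [Nat.cast_zero]
      linarith [pi_pos]
    · obtain ⟨k, rfl⟩ : ∃ k, i = k + 1 := ⟨i - 1, by omega⟩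
      have := mul_lt_mul_of_pos_left (lt_sp (n := n) (i := k) (by omega)) hn'
      calc π * (2 * ((k + 1 : ℕ) : ℝ) - 1) / 2 = n * (π * (2 * k + 1) / (2 * n)) := by
            push_cast; field_simp; ring
        _ < _ := this
  have h3 : cos (n * sp n i - i * π) = cos (i * π) * cos (n * sp n i) := by
    rw [cos_sub, sin_nat_mul_pi]; ring
  have h4 : 0 < cos (n * sp n i - i * π) := by
    apply cos_pos_of_mem_Ioo
    constructor <;> linarith
  intro h0
  rw [h3, h0, mul_zero] at h4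
  exact lt_irrefl _ h4

lemma sep {n i j : ℕ} (hij : i < j) (hj : j ≤ n) {T : Set ℝ} (hT : IsPreconnected T)
    (hi : sp n i ∈ T) (hjT : sp n j ∈ T) : ∃ x ∈ T, cos (n * x) = 0 := by
  have hn : 0 < n := by omega
  have hn' : (n : ℝ) ≠ 0 := by exact_mod_cast hn.ne'
  refine ⟨π * (2 * i + 1) / (2 * n), ?_, ?_⟩
  · apply hT.ordConnected.out hi hjT
    exact ⟨(sp_lt hn).le, (lt_sp (by omega)).le.trans (sp_mono (by omega))⟩
  · have : n * (π * (2 * i + 1) / (2 * n)) = π / 2 + i * π := by field_simp; ring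
    rw [this, cos_add_nat_mul_pi, cos_pi_div_two, mul_zero]

theorem count_lower (p q : ℕ) :
    (((p + 1) * (q + 1) : ℕ) : ℕ∞) ≤ nodalCount (fun z => cos (p * z.1) * cos (q * z.2)) := by
  have h := le_count (u := fun z => cos (p * z.1) * cos (q * z.2))
    (α := Fin (p + 1) × Fin (q + 1)) (fun i => (sp p i.1, sp q i.2)) (by
      rintro ⟨i, j⟩
      have hi : (i : ℕ) ≤ p := by have := i.2; omega
      have hj : (j : ℕ) ≤ q := by have := j.2; omega
      exact ⟨⟨sp_mem hi, sp_mem hj⟩, mul_ne_zero (cos_sp_ne hi) (cos_sp_ne hj)⟩) (by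
      rintro ⟨i, j⟩ ⟨i', j'⟩ ⟨T, h1, h2, h3, h4⟩
      have hi : (i : ℕ) ≤ p := by have := i.2; omega
      have hj : (j : ℕ) ≤ q := by have := j.2; omega
      have hi' : (i' : ℕ) ≤ p := by have := i'.2; omega
      have hj' : (j' : ℕ) ≤ q := by have := j'.2; omega
      have hT1 : IsPreconnected (Prod.fst '' T) := h1.image _ continuous_fst.continuousOn
      have hT2 : IsPreconnected (Prod.snd '' T) := h1.image _ continuous_snd.continuousOn
      have key1 : ∀ x ∈ Prod.fst '' T, cos (p * x) ≠ 0 := by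
        rintro _ ⟨v, hv, rfl⟩
        exact left_ne_zero_of_mul (h2 v hv).2
      have key2 : ∀ x ∈ Prod.snd '' T, cos (q * x) ≠ 0 := by
        rintro _ ⟨v, hv, rfl⟩
        exact right_ne_zero_of_mul (h2 v hv).2
      have e1 : (i : ℕ) = i' := by
        by_contra hne
        rcases lt_or_gt_of_ne hne with h | h
        · obtain ⟨x, hx, hx0⟩ := sep h hi' hT1 ⟨_, h3, rfl⟩ ⟨_, h4, rfl⟩
          exact key1 x hx hx0
        · obtain ⟨x, hx, hx0⟩ := sep h hi hT1 ⟨_, h4, rfl⟩ ⟨_, h3, rfl⟩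
          exact key1 x hx hx0
      have e2 : (j : ℕ) = j' := by
        by_contra hne
        rcases lt_or_gt_of_ne hne with h | h
        · obtain ⟨x, hx, hx0⟩ := sep h hj' hT2 ⟨_, h3, rfl⟩ ⟨_, h4, rfl⟩
          exact key2 x hx hx0
        · obtain ⟨x, hx, hx0⟩ := sep h hj hT2 ⟨_, h4, rfl⟩ ⟨_, h3, rfl⟩
          exact key2 x hx hx0
      exact Prod.ext (Fin.ext e1) (Fin.ext e2))
  refine le_trans ?_ h
  simp

end
end Pool.Agent.Lib_helper91.Nodal
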