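import Mathlib

set_option autoImplicit false

namespace Pool.Agent.Lib_helper91.Tree

noncomputable section
open Finset

/-- a submultiplicative size function on a complex algebra. -/
structure Nu (R : Type*) [CommRing R] [Algebra ℂ R] where
  f : R → ℝ
  nonneg : ∀ a, 0 ≤ f a
  zero : f 0 = 0
  one : f 1 ≤ 1
  add : ∀ a b, f (a + b) ≤ f a + f b
  mul : ∀ a b, f (a * b) ≤ f a * f b
  smul : ∀ (c : ℂ) a, f (c • a) ≤ ‖c‖ * f a

namespace Nu
variable {R : Type*} [CommRing R] [Algebra ℂ R] (ν : Nu R)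

lemma sum_le {ι : Type*} (s : Finset ι) (g : ι → R) : ν.f (∑ i ∈ s, g i) ≤ ∑ i ∈ s, ν.f (g i) := by
  classical
  induction s using Finset.induction_on with
  | empty => simp [ν.zero]
  | insert a s ha ih =>
    rw [sum_insert ha, sum_insert ha]
    exact (ν.add _ _).trans (by linarith)

end Nu

lemma antidiag_le (M : ℕ) (f g : ℕ → ℝ) (hf : ∀ n, 0 ≤ f n) (hg : ∀ n, 0 ≤ g n) :
    ∑ k ∈ range (M + 1), ∑ p ∈ antidiagonal k, f p.1 * g p.2 ≤
      (∑ a ∈ range (M + 1), f a) * ∑ b ∈ range (M + 1), g b := by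
  rw [sum_mul_sum, ← sum_product', sum_sigma']
  have h : ∑ x ∈ (range (M + 1)).sigma (fun k => antidiagonal k), f x.2.1 * g x.2.2 =
      ∑ p ∈ ((range (M + 1)).sigma (fun k => antidiagonal k)).image
        (fun x : (Σ _ : ℕ, ℕ × ℕ) => x.2), f p.1 * g p.2 := by
    rw [sum_image]
    rintro ⟨k, a, b⟩ hx ⟨k', a', b'⟩ hy hxy
    simp only [coe_sigma, Set.mem_sigma_iff, mem_coe, HasAntidiagonal.mem_antidiagonal] at hx hy
    simp only [Prod.mk.injEq] at hxy
    obtain ⟨rfl, rfl⟩ := hxy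
    obtain ⟨_, rfl⟩ := hx
    obtain ⟨_, rfl⟩ := hy
    rfl
  rw [h]
  apply sum_le_sum_of_subset_of_nonneg
  · intro p hp
    simp only [mem_image, mem_sigma, mem_range, HasAntidiagonal.mem_antidiagonal] at hp
    obtain ⟨⟨k, q⟩, ⟨h1, h2⟩, rfl⟩ := hp
    simp only [mem_product, mem_range]
    simp only at h1 h2
    omega
  · intro p _ _
    exact mul_nonneg (hf _) (hg _)

section trunc
variable {R : Type*} [CommRing R] [Algebra ℂ R] (ν : Nu R)

/-- truncated weighted norm. -/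
def T (w : ℕ → ℝ) (M : ℕ) (G : PowerSeries R) : ℝ :=
  ∑ k ∈ range (M + 1), w k * ν.f (PowerSeries.coeff k G)

variable {ν}
variable {w : ℕ → ℝ} {M : ℕ}

lemma T_nonneg (hw : ∀ k, 0 ≤ w k) (G : PowerSeries R) : 0 ≤ T ν w M G :=
  sum_nonneg fun k _ => mul_nonneg (hw k) (ν.nonneg _)

lemma T_mul (hw : ∀ k, 0 ≤ w k) (hm : ∀ a b, w (a + b) ≤ w a * w b) (F G : PowerSeries R) :
    T ν w M (F * G) ≤ T ν w M F * T ν w M G := by
  unfold T
  refine le_trans ?_ (antidiag_le M (fun a => w a * ν.f (PowerSeries.coeff a F))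
    (fun b => w b * ν.f (PowerSeries.coeff b G)) (fun n => mul_nonneg (hw n) (ν.nonneg _))
    (fun n => mul_nonneg (hw n) (ν.nonneg _)))
  apply sum_le_sum
  intro k _
  rw [PowerSeries.coeff_mul]
  calc w k * ν.f (∑ p ∈ antidiagonal k, PowerSeries.coeff p.1 F * PowerSeries.coeff p.2 G)
      ≤ w k * ∑ p ∈ antidiagonal k, ν.f (PowerSeries.coeff p.1 F) * ν.f (PowerSeries.coeff p.2 G) := by
        apply mul_le_mul_of_nonneg_left _ (hw k)
        exact (ν.sum_le _ _).trans (sum_le_sum fun p _ => ν.mul _ _)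
    _ = ∑ p ∈ antidiagonal k, w k *
          (ν.f (PowerSeries.coeff p.1 F) * ν.f (PowerSeries.coeff p.2 G)) := by rw [mul_sum]
    _ ≤ _ := by
        apply sum_le_sum
        rintro ⟨a, b⟩ hp
        rw [HasAntidiagonal.mem_antidiagonal] at hp
        simp only at hp ⊢
        rw [← hp]
        calc w (a + b) * (ν.f (PowerSeries.coeff a F) * ν.f (PowerSeries.coeff b G))
            ≤ (w a * w b) * (ν.f (PowerSeries.coeff a F) * ν.f (PowerSeries.coeff b G)) :=
              mul_le_mul_of_nonneg_right (hm a b) (mul_nonneg (ν.nonneg _) (ν.nonneg _))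
          _ = _ := by ring

lemma T_one (h0 : w 0 = 1) : T ν w M (1 : PowerSeries R) ≤ 1 := by
  unfold T
  rw [sum_eq_single_of_mem 0 (by simp)]
  · rw [h0, one_mul, PowerSeries.coeff_zero_one]; exact ν.one
  · intro k _ hk
    rw [PowerSeries.coeff_one, if_neg hk, ν.zero, mul_zero]

lemma T_pow (h0 : w 0 = 1) (hw : ∀ k, 0 ≤ w k) (hm : ∀ a b, w (a + b) ≤ w a * w b)
    (G : PowerSeries R) (r : ℕ) : T ν w M (G ^ r) ≤ T ν w M G ^ r := by
  induction r with
  | zero => rw [pow_zero, pow_zero]; exact T_one h0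
  | succ r ih =>
    rw [pow_succ, pow_succ]
    exact (T_mul hw hm _ _).trans (mul_le_mul_of_nonneg_right ih (T_nonneg hw G))

end trunc

/-- one level of the renormalised convolution. -/
def S {R : Type*} [CommRing R] [Algebra ℂ R] (x : ℂ) (θ : ℝ) (G : PowerSeries R) :
    PowerSeries R :=
  PowerSeries.mk fun k => (1 / 4 : ℂ) • (PowerSeries.coeff k G + (3 : ℂ) •
    ∑ p ∈ antidiagonal k, ∑ r ∈ range (p.2 + 1),
      (x ^ p.1 * ((p.1 : ℂ) * θ) ^ r / (r.factorial : ℂ)) •
        (PowerSeries.coeff p.1 G * PowerSeries.coeff p.2 (G ^ r)))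

section bound
variable {R : Type*} [CommRing R] [Algebra ℂ R] {ν : Nu R}

lemma partial_exp_le (a : ℝ) (ha : 0 ≤ a) (n : ℕ) :
    ∑ r ∈ range n, a ^ r / (r.factorial : ℝ) ≤ Real.exp a := Real.sum_le_exp_of_nonneg ha n

/-- the basic bound. -/
lemma S_bound {x : ℂ} {θ : ℝ} (hθ : 0 ≤ θ) {w : ℕ → ℝ} {M : ℕ} (h0 : w 0 = 1)
    (hw : ∀ k, 0 ≤ w k) (hm : ∀ a b, w (a + b) ≤ w a * w b) (G : PowerSeries R)
    {τ : ℝ} (hT : T ν w M G ≤ τ) :
    T ν w M (S x θ G) ≤ ∑ m ∈ range (M + 1), (w m * ν.f (PowerSeries.coeff m G)) *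
      ((1 + 3 * (‖x‖ ^ m * Real.exp ((m * θ) * τ))) / 4) := by
  have hT0 : 0 ≤ T ν w M G := T_nonneg hw G
  -- bound of a single coefficient
  have h1 : ∀ k, ν.f (PowerSeries.coeff k (S x θ G)) ≤ (1 / 4) * (ν.f (PowerSeries.coeff k G) +
      3 * ∑ p ∈ antidiagonal k, ∑ r ∈ range (M + 1),
        (‖x‖ ^ p.1 * (p.1 * θ) ^ r / (r.factorial : ℝ)) *
          (ν.f (PowerSeries.coeff p.1 G) * ν.f (PowerSeries.coeff p.2 (G ^ r)))) ∨ M < k := by
    intro k
    by_cases hk : k ≤ M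
    · left
      unfold S
      rw [PowerSeries.coeff_mk]
      have e1 : ‖(1 / 4 : ℂ)‖ = 1 / 4 := by norm_num
      have e2 : ‖(3 : ℂ)‖ = 3 := by norm_num
      refine (ν.smul _ _).trans ?_
      rw [e1]
      apply mul_le_mul_of_nonneg_left _ (by norm_num)
      refine (ν.add _ _).trans ?_
      apply add_le_add le_rfl
      refine (ν.smul _ _).trans ?_
      rw [e2]
      apply mul_le_mul_of_nonneg_left _ (by norm_num)
      refine (ν.sum_le _ _).trans ?_
      apply sum_le_sum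
      rintro ⟨a, b⟩ hp
      rw [HasAntidiagonal.mem_antidiagonal] at hp
      simp only at hp ⊢
      refine (ν.sum_le _ _).trans ?_
      have hsub : range (b + 1) ⊆ range (M + 1) := by
        intro i hi; rw [mem_range] at hi ⊢; omega
      refine le_trans ?_ (sum_le_sum_of_subset_of_nonneg hsub ?_)
      · apply sum_le_sum
        intro r _
        refine (ν.smul _ _).trans ?_
        have e3 : ‖x ^ a * ((a : ℂ) * θ) ^ r / (r.factorial : ℂ)‖ =
            ‖x‖ ^ a * (a * θ) ^ r / (r.factorial : ℝ) := by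
          rw [norm_div, norm_mul, norm_pow, norm_pow, norm_mul, Complex.norm_natCast,
            Complex.norm_natCast, Complex.norm_real, Real.norm_of_nonneg hθ]
        rw [e3]
        apply mul_le_mul_of_nonneg_left (ν.mul _ _)
        positivity
      · intro r _ _
        have := ν.nonneg (PowerSeries.coeff a G)
        have := ν.nonneg (PowerSeries.coeff b (G ^ r))
        positivity
    · right; omega
  have h2 : T ν w M (S x θ G) ≤ ∑ k ∈ range (M + 1), w k * ((1 / 4) *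
      (ν.f (PowerSeries.coeff k G) + 3 * ∑ p ∈ antidiagonal k, ∑ r ∈ range (M + 1),
        (‖x‖ ^ p.1 * (p.1 * θ) ^ r / (r.factorial : ℝ)) *
          (ν.f (PowerSeries.coeff p.1 G) * ν.f (PowerSeries.coeff p.2 (G ^ r))))) := by
    unfold T
    apply sum_le_sum
    intro k hk
    rw [mem_range] at hk
    rcases h1 k with h | h
    · exact mul_le_mul_of_nonneg_left h (hw k)
    · omega
  refine h2.trans ?_
  -- rearrange
  have h3 : ∀ k, w k * ((1 / 4) * (ν.f (PowerSeries.coeff k G) + 3 * ∑ p ∈ antidiagonal k,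
      ∑ r ∈ range (M + 1), (‖x‖ ^ p.1 * (p.1 * θ) ^ r / (r.factorial : ℝ)) *
          (ν.f (PowerSeries.coeff p.1 G) * ν.f (PowerSeries.coeff p.2 (G ^ r))))) ≤
      (1 / 4) * (w k * ν.f (PowerSeries.coeff k G)) + (3 / 4) * ∑ r ∈ range (M + 1),
        ∑ p ∈ antidiagonal k, (w p.1 * (‖x‖ ^ p.1 * (p.1 * θ) ^ r / (r.factorial : ℝ)) *
          ν.f (PowerSeries.coeff p.1 G)) * (w p.2 * ν.f (PowerSeries.coeff p.2 (G ^ r))) := by
    intro k
    have hcomm := sum_comm (s := range (M + 1)) (t := antidiagonal k)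
      (f := fun r (p : ℕ × ℕ) => (w p.1 * (‖x‖ ^ p.1 * (p.1 * θ) ^ r / (r.factorial : ℝ)) *
          ν.f (PowerSeries.coeff p.1 G)) * (w p.2 * ν.f (PowerSeries.coeff p.2 (G ^ r))))
    have : w k * ∑ p ∈ antidiagonal k, ∑ r ∈ range (M + 1),
        (‖x‖ ^ p.1 * (p.1 * θ) ^ r / (r.factorial : ℝ)) *
          (ν.f (PowerSeries.coeff p.1 G) * ν.f (PowerSeries.coeff p.2 (G ^ r))) ≤
        ∑ p ∈ antidiagonal k, ∑ r ∈ range (M + 1),
        (w p.1 * (‖x‖ ^ p.1 * (p.1 * θ) ^ r / (r.factorial : ℝ)) *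
          ν.f (PowerSeries.coeff p.1 G)) * (w p.2 * ν.f (PowerSeries.coeff p.2 (G ^ r))) := by
      rw [mul_sum]
      apply sum_le_sum
      rintro ⟨a, b⟩ hp
      rw [HasAntidiagonal.mem_antidiagonal] at hp
      simp only at hp ⊢
      rw [mul_sum]
      apply sum_le_sum
      intro r _
      rw [← hp]
      have n1 := ν.nonneg (PowerSeries.coeff a G)
      have n2 := ν.nonneg (PowerSeries.coeff b (G ^ r))
      calc w (a + b) * (‖x‖ ^ a * (a * θ) ^ r / (r.factorial : ℝ) *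
            (ν.f (PowerSeries.coeff a G) * ν.f (PowerSeries.coeff b (G ^ r)))) ≤
          (w a * w b) * (‖x‖ ^ a * (a * θ) ^ r / (r.factorial : ℝ) *
            (ν.f (PowerSeries.coeff a G) * ν.f (PowerSeries.coeff b (G ^ r)))) :=
            mul_le_mul_of_nonneg_right (hm a b) (by positivity)
        _ = _ := by ring
    linarith
  refine (sum_le_sum fun k _ => h3 k).trans ?_
  rw [sum_add_distrib, ← mul_sum, ← mul_sum, sum_comm]
  have h4 : ∀ r ∈ range (M + 1), ∑ k ∈ range (M + 1), ∑ p ∈ antidiagonal k,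
      (w p.1 * (‖x‖ ^ p.1 * (p.1 * θ) ^ r / (r.factorial : ℝ)) *
          ν.f (PowerSeries.coeff p.1 G)) * (w p.2 * ν.f (PowerSeries.coeff p.2 (G ^ r))) ≤
      ∑ m ∈ range (M + 1), (w m * ν.f (PowerSeries.coeff m G)) *
        (‖x‖ ^ m * ((m * θ * τ) ^ r / (r.factorial : ℝ))) := by
    intro r _
    refine (antidiag_le M (fun a => w a * (‖x‖ ^ a * (a * θ) ^ r / (r.factorial : ℝ)) *
          ν.f (PowerSeries.coeff a G)) (fun b => w b * ν.f (PowerSeries.coeff b (G ^ r)))
          (fun n => ?_) (fun n => ?_)).trans ?_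
    · have := ν.nonneg (PowerSeries.coeff n G)
      have := hw n
      positivity
    · exact mul_nonneg (hw n) (ν.nonneg _)
    · have h5 : ∑ b ∈ range (M + 1), w b * ν.f (PowerSeries.coeff b (G ^ r)) ≤ τ ^ r :=
        (T_pow h0 hw hm G r).trans (pow_le_pow_left₀ hT0 hT r)
      refine (mul_le_mul_of_nonneg_left h5 (sum_nonneg fun n _ => ?_)).trans ?_
      · have := ν.nonneg (PowerSeries.coeff n G)
        have := hw n
        positivity
      · rw [sum_mul]
        apply le_of_eq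
        apply sum_congr rfl
        intro m _
        rw [mul_pow ((m : ℝ) * θ) τ r]
        ring
  have h6 := sum_le_sum h4
  rw [sum_comm (s := range (M + 1)) (t := range (M + 1))
    (f := fun r m => (w m * ν.f (PowerSeries.coeff m G)) *
        (‖x‖ ^ m * ((m * θ * τ) ^ r / (r.factorial : ℝ))))] at h6
  have h7 : ∑ m ∈ range (M + 1), ∑ r ∈ range (M + 1), (w m * ν.f (PowerSeries.coeff m G)) *
        (‖x‖ ^ m * ((m * θ * τ) ^ r / (r.factorial : ℝ))) ≤
      ∑ m ∈ range (M + 1), (w m * ν.f (PowerSeries.coeff m G)) *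
        (‖x‖ ^ m * Real.exp (m * θ * τ)) := by
    apply sum_le_sum
    intro m _
    rw [← mul_sum, ← mul_sum]
    have hτ : 0 ≤ τ := hT0.trans hT
    have := partial_exp_le (m * θ * τ) (by positivity) (M + 1)
    have n1 := ν.nonneg (PowerSeries.coeff m G)
    have n2 := hw m
    gcongr
  have h8 := h6.trans h7
  calc (1 / 4) * ∑ k ∈ range (M + 1), w k * ν.f (PowerSeries.coeff k G) + (3 / 4) *
        ∑ r ∈ range (M + 1), ∑ k ∈ range (M + 1), ∑ p ∈ antidiagonal k,
          (w p.1 * (‖x‖ ^ p.1 * (p.1 * θ) ^ r / (r.factorial : ℝ)) *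
            ν.f (PowerSeries.coeff p.1 G)) * (w p.2 * ν.f (PowerSeries.coeff p.2 (G ^ r))) ≤
      (1 / 4) * ∑ k ∈ range (M + 1), w k * ν.f (PowerSeries.coeff k G) + (3 / 4) *
        ∑ m ∈ range (M + 1), (w m * ν.f (PowerSeries.coeff m G)) *
          (‖x‖ ^ m * Real.exp (m * θ * τ)) := by linarith
    _ = _ := by
      rw [mul_sum, mul_sum, ← sum_add_distrib]
      apply sum_congr rfl
      intro m _
      ring

end bound

end
end Pool.Agent.Lib_helper91.Tree
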