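import Pool.Agent.Lib_helper91.TreeA

set_option autoImplicit false

namespace Pool.Agent.Lib_helper91.Tree

noncomputable section
open Finset

set_option linter.unusedSectionVars false

section local_S
variable {R : Type*} [CommRing R] [Algebra ℂ R]

lemma S_coeff (x : ℂ) (θ : ℝ) (G : PowerSeries R) (k : ℕ) :
    PowerSeries.coeff k (S x θ G) = (1 / 4 : ℂ) • (PowerSeries.coeff k G + (3 : ℂ) •
    ∑ p ∈ antidiagonal k, ∑ r ∈ range (p.2 + 1),
      (x ^ p.1 * ((p.1 : ℂ) * θ) ^ r / (r.factorial : ℂ)) •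
        (PowerSeries.coeff p.1 G * PowerSeries.coeff p.2 (G ^ r))) := by
  unfold S; rw [PowerSeries.coeff_mk]

lemma S_coeff_zero (x : ℂ) (θ : ℝ) {G : PowerSeries R} (h0 : PowerSeries.coeff 0 G = 0) :
    PowerSeries.coeff 0 (S x θ G) = 0 := by
  rw [S_coeff]
  simp [h0]

lemma S_coeff_one (x : ℂ) (θ : ℝ) {G : PowerSeries R} (h0 : PowerSeries.coeff 0 G = 0) :
    PowerSeries.coeff 1 (S x θ G) = ((1 + 3 * x ^ 1) / 4 : ℂ) • PowerSeries.coeff 1 G := by
  rw [S_coeff]
  rw [Finset.Nat.antidiagonal_succ]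
  simp only [Finset.Nat.antidiagonal_zero, map_singleton, sum_cons, sum_singleton, h0, zero_mul,
    smul_zero, sum_const_zero, zero_add]
  simp only [Function.Embedding.prodMap, Function.Embedding.coeFn_mk, Prod.map]
  simp [← smul_assoc, smul_eq_mul]
  rw [← add_smul]
  congr 1
  ring

lemma pow_sub_dvd {G G' : PowerSeries R} {K : ℕ} (h : (PowerSeries.X : PowerSeries R) ^ (K + 1) ∣ G - G')
    (r : ℕ) : (PowerSeries.X : PowerSeries R) ^ (K + 1) ∣ G ^ r - G' ^ r :=
  h.trans (sub_dvd_pow_sub_pow _ _ _)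

lemma pow_sub_dvd' {G G' : PowerSeries R} {K : ℕ} (h0 : (PowerSeries.X : PowerSeries R) ∣ G)
    (h0' : (PowerSeries.X : PowerSeries R) ∣ G')
    (h : (PowerSeries.X : PowerSeries R) ^ (K + 1) ∣ G - G')
    (r : ℕ) : (PowerSeries.X : PowerSeries R) ^ (K + 2) ∣ G ^ (r + 2) - G' ^ (r + 2) := by
  have e : G ^ (r + 2) - G' ^ (r + 2) = G ^ (r + 1) * (G - G') + (G ^ (r + 1) - G' ^ (r + 1)) * G' := by
    ring
  rw [e]
  apply dvd_add
  · have h1 : (PowerSeries.X : PowerSeries R) ∣ G ^ (r + 1) := h0.trans (dvd_pow_self _ (by omega))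
    have := mul_dvd_mul h1 h
    rwa [← pow_succ'] at this
  · have := mul_dvd_mul (pow_sub_dvd h (r + 1)) h0'
    rwa [← pow_succ] at this

lemma coeff_eq_of_dvd {F F' : PowerSeries R} {K n : ℕ}
    (h : (PowerSeries.X : PowerSeries R) ^ K ∣ F - F') (hn : n < K) :
    PowerSeries.coeff n F = PowerSeries.coeff n F' := by
  rw [PowerSeries.X_pow_dvd_iff] at h
  have := h n hn
  rwa [map_sub, sub_eq_zero] at this

/-- the linearised effect of the two last coefficients. -/
lemma S_local (x : ℂ) (θ : ℝ) {G G' : PowerSeries R} (h0 : PowerSeries.coeff 0 G = 0)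
    (h0' : PowerSeries.coeff 0 G' = 0) (n : ℕ)
    (h : ∀ j ≤ n + 1, PowerSeries.coeff j G = PowerSeries.coeff j G') :
    PowerSeries.coeff (n + 3) (S x θ G) - PowerSeries.coeff (n + 3) (S x θ G') =
      ((1 + 3 * x ^ (n + 3)) / 4 : ℂ) • (PowerSeries.coeff (n + 3) G - PowerSeries.coeff (n + 3) G') +
      ((3 / 4 : ℂ) * θ * (x + ((n + 2 : ℕ) : ℂ) * x ^ (n + 2))) • (PowerSeries.coeff 1 G *
        (PowerSeries.coeff (n + 2) G - PowerSeries.coeff (n + 2) G')) := by
  have hd : (PowerSeries.X : PowerSeries R) ^ (n + 1 + 1) ∣ G - G' := by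
    rw [PowerSeries.X_pow_dvd_iff]
    intro m hm
    rw [map_sub, sub_eq_zero]
    exact h m (by omega)
  have hX : (PowerSeries.X : PowerSeries R) ∣ G := by
    rw [PowerSeries.X_dvd_iff, ← PowerSeries.coeff_zero_eq_constantCoeff_apply]; exact h0
  have hX' : (PowerSeries.X : PowerSeries R) ∣ G' := by
    rw [PowerSeries.X_dvd_iff, ← PowerSeries.coeff_zero_eq_constantCoeff_apply]; exact h0'
  rw [S_coeff, S_coeff]
  set f : PowerSeries R → ℕ → ℕ → R := fun H a b => ∑ r ∈ range (b + 1),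
      (x ^ a * ((a : ℂ) * θ) ^ r / (r.factorial : ℂ)) •
        (PowerSeries.coeff a H * PowerSeries.coeff b (H ^ r)) with hf
  have hsum : ∀ H : PowerSeries R, ∑ p ∈ antidiagonal (n + 3), ∑ r ∈ range (p.2 + 1),
      (x ^ p.1 * ((p.1 : ℂ) * θ) ^ r / (r.factorial : ℂ)) •
        (PowerSeries.coeff p.1 H * PowerSeries.coeff p.2 (H ^ r)) =
      ∑ a ∈ range (n + 4), f H a (n + 3 - a) := by
    intro H
    rw [Finset.Nat.sum_antidiagonal_eq_sum_range_succ_mk]
  rw [hsum, hsum]
  have hdiff : ∑ a ∈ range (n + 4), f G a (n + 3 - a) - ∑ a ∈ range (n + 4), f G' a (n + 3 - a) =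
      (x ^ (n + 3)) • (PowerSeries.coeff (n + 3) G - PowerSeries.coeff (n + 3) G') +
      ((θ : ℂ) * (x + ((n + 2 : ℕ) : ℂ) * x ^ (n + 2))) • (PowerSeries.coeff 1 G *
        (PowerSeries.coeff (n + 2) G - PowerSeries.coeff (n + 2) G')) := by
    rw [← sum_sub_distrib, sum_range_succ, sum_range_succ]
    have e1 : ∑ a ∈ range (n + 2), (f G a (n + 3 - a) - f G' a (n + 3 - a)) =
        f G 1 (n + 2) - f G' 1 (n + 2) := by
      refine (sum_eq_single 1 ?_ ?_).trans ?_
      · intro a ha ha1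
        rw [mem_range] at ha
        rcases Nat.eq_zero_or_pos a with rfl | hpos
        · simp [hf, h0, h0']
        · rw [sub_eq_zero]
          simp only [hf]
          apply sum_congr rfl
          intro r _
          rw [h a (by omega), coeff_eq_of_dvd (pow_sub_dvd hd r) (n := n + 3 - a) (by omega)]
      · intro hh
        exact absurd (mem_range.2 (by omega)) hh
      · have : n + 3 - 1 = n + 2 := by omega
        rw [this]
    rw [e1]
    have e2 : f G 1 (n + 2) - f G' 1 (n + 2) = ((x * θ : ℂ)) • (PowerSeries.coeff 1 G *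
        (PowerSeries.coeff (n + 2) G - PowerSeries.coeff (n + 2) G')) := by
      simp only [hf]
      rw [← sum_sub_distrib]
      refine (sum_eq_single 1 ?_ ?_).trans ?_
      rotate_left 2
      · rw [← h 1 (by omega), pow_one, pow_one, pow_one, pow_one, Nat.factorial_one]
        rw [← smul_sub, ← mul_sub]
        simp
      · intro r _ hr
        rcases Nat.eq_zero_or_pos r with rfl | hpos
        · simp only [pow_zero]
          rw [h 1 (by omega), sub_self]
        · obtain ⟨s, rfl⟩ : ∃ s, r = s + 2 := ⟨r - 2, by omega⟩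
          rw [h 1 (by omega), coeff_eq_of_dvd (pow_sub_dvd' hX hX' hd s) (n := n + 2) (by omega),
            sub_self]
      · intro hh
        exact absurd (mem_range.2 (by omega)) hh
    have e3 : f G (n + 2) (n + 3 - (n + 2)) - f G' (n + 2) (n + 3 - (n + 2)) =
        ((x ^ (n + 2) * (((n + 2 : ℕ) : ℂ) * θ))) • (PowerSeries.coeff 1 G *
        (PowerSeries.coeff (n + 2) G - PowerSeries.coeff (n + 2) G')) := by
      have : n + 3 - (n + 2) = 1 := by omega
      rw [this]
      simp only [hf]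
      rw [sum_range_succ, sum_range_succ, sum_range_succ, sum_range_succ]
      simp only [range_zero, sum_empty, pow_zero, pow_one, Nat.factorial_zero, Nat.factorial_one,
        PowerSeries.coeff_one, zero_add, one_ne_zero, if_false, mul_zero, smul_zero]
      rw [← h 1 (by omega), ← smul_sub]
      simp only [Nat.cast_one, div_one]
      congr 1
      ring
    have e4 : f G (n + 3) (n + 3 - (n + 3)) - f G' (n + 3) (n + 3 - (n + 3)) =
        (x ^ (n + 3)) • (PowerSeries.coeff (n + 3) G - PowerSeries.coeff (n + 3) G') := by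
      rw [Nat.sub_self]
      simp [hf, smul_sub]
    rw [e2, e3, e4]
    have e5 : ((θ : ℂ) * (x + ((n + 2 : ℕ) : ℂ) * x ^ (n + 2))) =
        (x * θ : ℂ) + (x ^ (n + 2) * (((n + 2 : ℕ) : ℂ) * θ)) := by ring
    rw [e5, add_smul]
    abel
  rw [← smul_sub]
  have e6 : PowerSeries.coeff (n + 3) G + (3 : ℂ) • ∑ a ∈ range (n + 4), f G a (n + 3 - a) -
      (PowerSeries.coeff (n + 3) G' + (3 : ℂ) • ∑ a ∈ range (n + 4), f G' a (n + 3 - a)) =
      (PowerSeries.coeff (n + 3) G - PowerSeries.coeff (n + 3) G') +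
      (3 : ℂ) • (∑ a ∈ range (n + 4), f G a (n + 3 - a) -
        ∑ a ∈ range (n + 4), f G' a (n + 3 - a)) := by
    rw [smul_sub]; abel
  rw [e6, hdiff, smul_add, smul_add, smul_smul, smul_smul, smul_add, smul_smul, smul_smul,
    ← add_assoc, ← add_smul]
  congr 2
  · ring
  · ring

lemma S_congr_le (x : ℂ) (θ : ℝ) {G G' : PowerSeries R} {n : ℕ}
    (h : ∀ j ≤ n, PowerSeries.coeff j G = PowerSeries.coeff j G') {k : ℕ} (hk : k ≤ n) :
    PowerSeries.coeff k (S x θ G) = PowerSeries.coeff k (S x θ G') := by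
  have hd : (PowerSeries.X : PowerSeries R) ^ (n + 1) ∣ G - G' := by
    rw [PowerSeries.X_pow_dvd_iff]
    intro m hm
    rw [map_sub, sub_eq_zero]
    exact h m (by omega)
  rw [S_coeff, S_coeff, h k hk]
  congr 3
  apply sum_congr rfl
  rintro ⟨a, b⟩ hp
  rw [HasAntidiagonal.mem_antidiagonal] at hp
  simp only at hp ⊢
  apply sum_congr rfl
  intro r _
  rw [h a (by omega), coeff_eq_of_dvd (pow_sub_dvd hd r) (n := b) (by omega)]

/-- one step before: the coefficient `n+2`. -/
lemma S_local' (x : ℂ) (θ : ℝ) {G G' : PowerSeries R} (h0 : PowerSeries.coeff 0 G = 0)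
    (h0' : PowerSeries.coeff 0 G' = 0) (n : ℕ)
    (h : ∀ j ≤ n + 1, PowerSeries.coeff j G = PowerSeries.coeff j G') :
    PowerSeries.coeff (n + 2) (S x θ G) - PowerSeries.coeff (n + 2) (S x θ G') =
      ((1 + 3 * x ^ (n + 2)) / 4 : ℂ) • (PowerSeries.coeff (n + 2) G - PowerSeries.coeff (n + 2) G') := by
  have hd : (PowerSeries.X : PowerSeries R) ^ (n + 1 + 1) ∣ G - G' := by
    rw [PowerSeries.X_pow_dvd_iff]
    intro m hm
    rw [map_sub, sub_eq_zero]
    exact h m (by omega)
  rw [S_coeff, S_coeff]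
  set f : PowerSeries R → ℕ → ℕ → R := fun H a b => ∑ r ∈ range (b + 1),
      (x ^ a * ((a : ℂ) * θ) ^ r / (r.factorial : ℂ)) •
        (PowerSeries.coeff a H * PowerSeries.coeff b (H ^ r)) with hf
  have hsum : ∀ H : PowerSeries R, ∑ p ∈ antidiagonal (n + 2), ∑ r ∈ range (p.2 + 1),
      (x ^ p.1 * ((p.1 : ℂ) * θ) ^ r / (r.factorial : ℂ)) •
        (PowerSeries.coeff p.1 H * PowerSeries.coeff p.2 (H ^ r)) =
      ∑ a ∈ range (n + 3), f H a (n + 2 - a) := by
    intro H
    rw [Finset.Nat.sum_antidiagonal_eq_sum_range_succ_mk]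
  rw [hsum, hsum]
  have hdiff : ∑ a ∈ range (n + 3), f G a (n + 2 - a) - ∑ a ∈ range (n + 3), f G' a (n + 2 - a) =
      (x ^ (n + 2)) • (PowerSeries.coeff (n + 2) G - PowerSeries.coeff (n + 2) G') := by
    rw [← sum_sub_distrib, sum_range_succ]
    have e1 : ∑ a ∈ range (n + 2), (f G a (n + 2 - a) - f G' a (n + 2 - a)) = 0 := by
      apply sum_eq_zero
      intro a ha
      rw [mem_range] at ha
      rcases Nat.eq_zero_or_pos a with rfl | hpos
      · simp [hf, h0, h0']
      · rw [sub_eq_zero]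
        simp only [hf]
        apply sum_congr rfl
        intro r _
        rw [h a (by omega), coeff_eq_of_dvd (pow_sub_dvd hd r) (n := n + 2 - a) (by omega)]
    rw [e1, zero_add, Nat.sub_self]
    simp [hf, smul_sub]
  rw [← smul_sub]
  have e6 : PowerSeries.coeff (n + 2) G + (3 : ℂ) • ∑ a ∈ range (n + 3), f G a (n + 2 - a) -
      (PowerSeries.coeff (n + 2) G' + (3 : ℂ) • ∑ a ∈ range (n + 3), f G' a (n + 2 - a)) =
      (PowerSeries.coeff (n + 2) G - PowerSeries.coeff (n + 2) G') +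
      (3 : ℂ) • (∑ a ∈ range (n + 3), f G a (n + 2 - a) -
        ∑ a ∈ range (n + 3), f G' a (n + 2 - a)) := by
    rw [smul_sub]; abel
  rw [e6, hdiff, smul_add, smul_smul, smul_smul, ← add_smul]
  congr 1
  ring

end local_S

end
end Pool.Agent.Lib_helper91.Tree
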