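import Pool.Agent.Lib_helper91.TreeB

set_option autoImplicit false
set_option linter.unusedSectionVars false

namespace Pool.Agent.Lib_helper91.Tree

noncomputable section
open Finset

/-- the constant `A = 4 (log 3 + i π)`. -/
def Ac : ℂ := 4 * ((Real.log 3 : ℝ) + Real.pi * Complex.I)
/-- scales `4^{-j}`. -/
def th (j : ℕ) : ℝ := (1 / 4) ^ j
/-- `x_j = exp(-A 4^{-j})`. -/
def xc (j : ℕ) : ℂ := Complex.exp (-(Ac * th j))
/-- weights. -/
def wt (j : ℕ) (k : ℕ) : ℝ := 1 + 3 / 4 * th j * k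

/-- the composition of `l` levels. -/
def NN {R : Type*} [CommRing R] [Algebra ℂ R] : ℕ → PowerSeries R → PowerSeries R
  | 0, G => G
  | (l + 1), G => NN l (S (xc (l + 1)) (th (l + 1)) G)

/-- linear multipliers. -/
def lam (j k : ℕ) : ℂ := (1 + 3 * xc j ^ k) / 4

def Ph : ℕ → ℕ → ℂ
  | 0, _ => 1
  | (l + 1), k => Ph l k * lam (l + 1) k

/-- coefficients of the quadratic part. -/
def qf : ℕ → ℕ → ℕ → ℂ
  | 0, _, _ => 0
  | (l + 1), m, n => Ph l (m + n) * (3 / 4 * th (l + 1) * (m * xc (l + 1) ^ m)) +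
      lam (l + 1) m * lam (l + 1) n * qf l m n

/-- coefficient of the pair `(1,k-1)`. -/
def Cc (l k : ℕ) : ℂ := qf l 1 (k - 1) + qf l (k - 1) 1

def qj (j k : ℕ) : ℂ := 3 / 4 * th j * (xc j + ((k - 1 : ℕ) : ℂ) * xc j ^ (k - 1))

lemma Cc_zero (k : ℕ) : Cc 0 k = 0 := by simp [Cc, qf]

lemma Cc_succ (l k : ℕ) (hk : 3 ≤ k) :
    Cc (l + 1) k = Ph l k * qj (l + 1) k + Cc l k * (lam (l + 1) 1 * lam (l + 1) (k - 1)) := by
  simp only [Cc, qf, qj]
  have e1 : 1 + (k - 1) = k := by omega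
  have e2 : k - 1 + 1 = k := by omega
  rw [e1, e2, pow_one]
  push_cast
  ring

lemma th_pos (j : ℕ) : 0 < th j := by unfold th; positivity
lemma th_succ (j : ℕ) : th (j + 1) = th j / 4 := by unfold th; rw [pow_succ]; ring
lemma th_le_one (j : ℕ) : th j ≤ 1 := by
  unfold th; exact pow_le_one₀ (by norm_num) (by norm_num)

lemma log3_ge : 1 ≤ Real.log 3 := by
  rw [Real.le_log_iff_exp_le (by norm_num)]
  exact (Real.exp_one_lt_d9.le).trans (by norm_num)

lemma Ac_re : Ac.re = 4 * Real.log 3 := by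
  unfold Ac
  simp only [Complex.mul_re, Complex.add_re, Complex.ofReal_re, Complex.mul_im, Complex.add_im,
    Complex.ofReal_im, Complex.I_re, Complex.I_im]
  norm_num

lemma Ac_im : Ac.im = 4 * Real.pi := by
  unfold Ac
  simp only [Complex.mul_re, Complex.add_re, Complex.ofReal_re, Complex.mul_im, Complex.add_im,
    Complex.ofReal_im, Complex.I_re, Complex.I_im]
  norm_num

lemma norm_xc (j : ℕ) : ‖xc j‖ = Real.exp (-(4 * Real.log 3 * th j)) := by
  unfold xc
  rw [Complex.norm_exp]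
  congr 1
  rw [Complex.neg_re, Complex.mul_re, Complex.ofReal_re, Complex.ofReal_im, Ac_re]
  ring

lemma norm_xc_le (j : ℕ) : ‖xc j‖ ≤ Real.exp (-(4 * th j)) := by
  rw [norm_xc]
  apply Real.exp_le_exp.2
  have := log3_ge
  have h := th_pos j
  nlinarith

lemma norm_xc_pow_le (j k : ℕ) : ‖xc j‖ ^ k ≤ Real.exp (-(4 * (k * th j))) := by
  refine (pow_le_pow_left₀ (norm_nonneg _) (norm_xc_le j) k).trans (le_of_eq ?_)
  rw [← Real.exp_nat_mul]
  congr 1
  ring

lemma norm_xc_pow_le_one (j k : ℕ) : ‖xc j‖ ^ k ≤ 1 := by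
  refine (norm_xc_pow_le j k).trans ?_
  rw [Real.exp_le_one_iff]
  have h := th_pos j
  have : 0 ≤ (k : ℝ) * th j := by positivity
  linarith

lemma wt_pos (j k : ℕ) : 0 < wt j k := by
  unfold wt; have := th_pos j; positivity
lemma one_le_wt (j k : ℕ) : 1 ≤ wt j k := by
  unfold wt; have := th_pos j
  have : 0 ≤ 3 / 4 * th j * k := by positivity
  linarith
lemma wt_zero (j : ℕ) : wt j 0 = 1 := by simp [wt]
lemma wt_submul (j a b : ℕ) : wt j (a + b) ≤ wt j a * wt j b := by
  unfold wt; have := th_pos j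
  push_cast
  have : 0 ≤ (3 / 4 * th j * a) * (3 / 4 * th j * b) := by positivity
  nlinarith
lemma wt_succ_le (j k : ℕ) : wt (j + 1) k ≤ wt j k := by
  unfold wt; rw [th_succ]; have := th_pos j
  have : 0 ≤ th j * k := by positivity
  linarith
lemma wt_le_four (j k : ℕ) : wt j k ≤ 4 * wt (j + 1) k := by
  unfold wt; rw [th_succ]; have := th_pos j
  have : 0 ≤ th j * k := by positivity
  linarith
lemma wt_mono_le (j : ℕ) {a b : ℕ} (h : a ≤ b) : wt j a ≤ wt j b := by
  unfold wt; have := th_pos j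
  have : (a : ℝ) ≤ b := by exact_mod_cast h
  have : th j * a ≤ th j * b := by gcongr
  linarith
lemma wt_anti (k : ℕ) {i j : ℕ} (h : i ≤ j) : wt j k ≤ wt i k := by
  induction j, h using Nat.le_induction with
  | base => exact le_rfl
  | succ n _ ih => exact (wt_succ_le n k).trans ih

/-- the key scalar inequality. -/
lemma key_ineq (y : ℝ) :
    (1 + 3 * y) * ((1 + 3 * Real.exp (-(3 * y))) / 4) ≤ 1 + 3 / 4 * y := by
  have h := Real.add_one_le_exp (3 * y)
  have hp : 0 < Real.exp (3 * y) := Real.exp_pos _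
  have e : Real.exp (-(3 * y)) = (Real.exp (3 * y))⁻¹ := Real.exp_neg _
  have h2 : (1 + 3 * y) * Real.exp (-(3 * y)) ≤ 1 := by
    rw [e, ← div_eq_mul_inv, div_le_one hp]; linarith
  nlinarith

section bounds
variable {R : Type*} [CommRing R] [Algebra ℂ R] {ν : Nu R}

lemma T_le_four (M l : ℕ) (G : PowerSeries R) : T ν (wt l) M G ≤ 4 * T ν (wt (l + 1)) M G := by
  unfold T
  rw [mul_sum]
  apply sum_le_sum
  intro k _
  rw [← mul_assoc]
  exact mul_le_mul_of_nonneg_right (wt_le_four l k) (ν.nonneg _)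

/-- one level does not increase the norm. -/
lemma S_step (M l : ℕ) (G : PowerSeries R) (hT : T ν (wt (l + 1)) M G ≤ 1 / 4) :
    T ν (wt l) M (S (xc (l + 1)) (th (l + 1)) G) ≤ T ν (wt (l + 1)) M G := by
  have h1 : T ν (wt l) M G ≤ 1 := (T_le_four M l G).trans (by linarith)
  refine (S_bound (th_pos _).le (wt_zero l) (fun k => (wt_pos l k).le) (wt_submul l) G h1).trans ?_
  unfold T
  apply sum_le_sum
  intro k _
  have hth := th_pos (l + 1)
  set y : ℝ := k * th (l + 1) with hy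
  have hy0 : 0 ≤ y := by positivity
  have e1 : wt l k = 1 + 3 * y := by
    unfold wt; rw [hy, th_succ]; ring
  have e2 : wt (l + 1) k = 1 + 3 / 4 * y := by
    unfold wt; rw [hy]; ring
  have h2 : ‖xc (l + 1)‖ ^ k * Real.exp (y * 1) ≤ Real.exp (-(3 * y)) := by
    have := norm_xc_pow_le (l + 1) k
    calc ‖xc (l + 1)‖ ^ k * Real.exp (y * 1) ≤ Real.exp (-(4 * y)) * Real.exp (y * 1) := by
          gcongr
      _ = Real.exp (-(3 * y)) := by rw [← Real.exp_add]; congr 1; ring
  have h3 := key_ineq y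
  have h4 : (1 + 3 * y) * ((1 + 3 * (‖xc (l + 1)‖ ^ k * Real.exp (y * 1))) / 4) ≤ 1 + 3 / 4 * y := by
    refine le_trans ?_ h3
    gcongr
  rw [e1, e2]
  calc (1 + 3 * y) * ν.f (PowerSeries.coeff k G) * ((1 + 3 * (‖xc (l + 1)‖ ^ k * Real.exp (y * 1))) / 4)
      = ((1 + 3 * y) * ((1 + 3 * (‖xc (l + 1)‖ ^ k * Real.exp (y * 1))) / 4)) *
        ν.f (PowerSeries.coeff k G) := by ring
    _ ≤ _ := mul_le_mul_of_nonneg_right h4 (ν.nonneg _)

lemma NN_bound (M l : ℕ) (G : PowerSeries R) (hT : T ν (wt l) M G ≤ 1 / 4) :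
    T ν (wt 0) M (NN l G) ≤ T ν (wt l) M G := by
  induction l generalizing G with
  | zero => exact le_rfl
  | succ l ih =>
    have h1 := S_step M l G hT
    exact (ih _ (h1.trans hT)).trans h1

end bounds

section localN
variable {R : Type*} [CommRing R] [Algebra ℂ R]

lemma NN_coeff_zero (l : ℕ) {G : PowerSeries R} (h0 : PowerSeries.coeff 0 G = 0) :
    PowerSeries.coeff 0 (NN l G) = 0 := by
  induction l generalizing G with
  | zero => exact h0
  | succ l ih => exact ih (S_coeff_zero _ _ h0)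

lemma NN_coeff_one (l : ℕ) {G : PowerSeries R} (h0 : PowerSeries.coeff 0 G = 0) :
    PowerSeries.coeff 1 (NN l G) = (Ph l 1) • PowerSeries.coeff 1 G := by
  induction l generalizing G with
  | zero => simp [NN, Ph]
  | succ l ih =>
    rw [NN, ih (S_coeff_zero _ _ h0), S_coeff_one _ _ h0, Ph, smul_smul, lam]

lemma NN_congr_le (l : ℕ) {G G' : PowerSeries R} {n : ℕ}
    (h : ∀ j ≤ n, PowerSeries.coeff j G = PowerSeries.coeff j G') {k : ℕ} (hk : k ≤ n) :
    PowerSeries.coeff k (NN l G) = PowerSeries.coeff k (NN l G') := by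
  induction l generalizing G G' with
  | zero => exact h k hk
  | succ l ih => exact ih (fun j hj => S_congr_le _ _ h hj)

lemma NN_local (l : ℕ) {G G' : PowerSeries R} (h0 : PowerSeries.coeff 0 G = 0)
    (h0' : PowerSeries.coeff 0 G' = 0) (n : ℕ)
    (h : ∀ j ≤ n + 1, PowerSeries.coeff j G = PowerSeries.coeff j G') :
    PowerSeries.coeff (n + 3) (NN l G) - PowerSeries.coeff (n + 3) (NN l G') =
      (Ph l (n + 3)) • (PowerSeries.coeff (n + 3) G - PowerSeries.coeff (n + 3) G') +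
      (Cc l (n + 3)) • (PowerSeries.coeff 1 G *
        (PowerSeries.coeff (n + 2) G - PowerSeries.coeff (n + 2) G')) := by
  induction l generalizing G G' with
  | zero => simp [NN, Ph, Cc_zero]
  | succ l ih =>
    rw [NN, NN, ih (S_coeff_zero _ _ h0) (S_coeff_zero _ _ h0')
      (fun j hj => S_congr_le _ _ h hj), S_local _ _ h0 h0' n h, S_local' _ _ h0 h0' n h,
      S_coeff_one _ _ h0, Cc_succ l (n + 3) (by omega), Ph]
    have e1 : n + 3 - 1 = n + 2 := by omega
    simp only [lam, qj, e1, pow_one]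
    rw [smul_add, smul_smul, smul_smul, smul_mul_smul_comm, smul_smul, add_assoc, ← add_smul]

end localN

end
end Pool.Agent.Lib_helper91.Tree
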