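import Pool.Agent.Lib_helper91.TreeC

set_option autoImplicit false
set_option linter.unusedSectionVars false

namespace Pool.Agent.Lib_helper91.Tree

noncomputable section
open Finset

section mapping
variable {R R' : Type*} [CommRing R] [Algebra ℂ R] [CommRing R'] [Algebra ℂ R']

lemma S_map (φ : R →ₐ[ℂ] R') (x : ℂ) (θ : ℝ) (G : PowerSeries R) :
    S x θ (PowerSeries.map (φ : R →+* R') G) = PowerSeries.map (φ : R →+* R') (S x θ G) := by
  ext k
  have h : PowerSeries.coeff k (PowerSeries.map (φ : R →+* R') (S x θ G)) =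
      φ (PowerSeries.coeff k (S x θ G)) := PowerSeries.coeff_map _ _ _
  rw [h, S_coeff, S_coeff]
  simp only [map_smul, map_add, map_sum, map_mul]
  rw [PowerSeries.coeff_map]
  congr 3
  apply sum_congr rfl
  intro p _
  apply sum_congr rfl
  intro r _
  rw [← map_pow, PowerSeries.coeff_map, PowerSeries.coeff_map]
  rfl

lemma NN_map (φ : R →ₐ[ℂ] R') (l : ℕ) (G : PowerSeries R) :
    NN l (PowerSeries.map (φ : R →+* R') G) = PowerSeries.map (φ : R →+* R') (NN l G) := by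
  induction l generalizing G with
  | zero => rfl
  | succ l ih => rw [NN, NN, S_map, ih]

end mapping

lemma S_rescale (s : ℂ) (x : ℂ) (θ : ℝ) (G : PowerSeries ℂ) :
    S x θ (PowerSeries.rescale s G) = PowerSeries.rescale s (S x θ G) := by
  ext k
  have h : PowerSeries.coeff k (PowerSeries.rescale s (S x θ G)) =
      s ^ k * (PowerSeries.coeff k (S x θ G)) := PowerSeries.coeff_rescale _ _ _
  rw [h, S_coeff, S_coeff]
  simp only [smul_eq_mul]
  rw [PowerSeries.coeff_rescale]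
  have h2 : ∑ p ∈ antidiagonal k, ∑ r ∈ range (p.2 + 1),
      (x ^ p.1 * ((p.1 : ℂ) * θ) ^ r / (r.factorial : ℂ)) *
        (PowerSeries.coeff p.1 (PowerSeries.rescale s G) *
          PowerSeries.coeff p.2 ((PowerSeries.rescale s G) ^ r)) =
      s ^ k * ∑ p ∈ antidiagonal k, ∑ r ∈ range (p.2 + 1),
      (x ^ p.1 * ((p.1 : ℂ) * θ) ^ r / (r.factorial : ℂ)) *
        (PowerSeries.coeff p.1 G * PowerSeries.coeff p.2 (G ^ r)) := by
    rw [mul_sum]
    apply sum_congr rfl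
    rintro ⟨a, b⟩ hp
    rw [HasAntidiagonal.mem_antidiagonal] at hp
    simp only at hp ⊢
    rw [mul_sum]
    apply sum_congr rfl
    intro r _
    rw [← map_pow, PowerSeries.coeff_rescale, PowerSeries.coeff_rescale, ← hp, pow_add]
    ring
  rw [h2]
  ring

lemma NN_rescale (s : ℂ) (l : ℕ) (G : PowerSeries ℂ) :
    NN l (PowerSeries.rescale s G) = PowerSeries.rescale s (NN l G) := by
  induction l generalizing G with
  | zero => rfl
  | succ l ih => rw [NN, NN, S_rescale, ih]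

section texp
open Polynomial

/-- truncated weighted norm on polynomials in `t`. -/
def nuPoly (ρ : ℝ) (hρ : 0 ≤ ρ) (D : ℕ) : Nu ℂ[X] where
  f P := ∑ p ∈ range (D + 1), ρ ^ p * ‖P.coeff p‖
  nonneg P := sum_nonneg fun p _ => by positivity
  zero := by simp
  one := by
    rw [sum_eq_single_of_mem 0 (by simp)]
    · simp
    · intro p _ hp
      rw [coeff_one, if_neg hp, norm_zero, mul_zero]
  add P Q := by
    rw [← sum_add_distrib]
    apply sum_le_sum
    intro p _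
    rw [coeff_add, ← mul_add]
    exact mul_le_mul_of_nonneg_left (norm_add_le _ _) (by positivity)
  mul P Q := by
    refine le_trans ?_ (antidiag_le D (fun a => ρ ^ a * ‖P.coeff a‖) (fun b => ρ ^ b * ‖Q.coeff b‖)
      (fun n => by positivity) (fun n => by positivity))
    apply sum_le_sum
    intro k _
    rw [coeff_mul]
    calc ρ ^ k * ‖∑ p ∈ antidiagonal k, P.coeff p.1 * Q.coeff p.2‖ ≤
        ρ ^ k * ∑ p ∈ antidiagonal k, ‖P.coeff p.1 * Q.coeff p.2‖ :=
          mul_le_mul_of_nonneg_left (norm_sum_le _ _) (by positivity)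
      _ = _ := by
        rw [mul_sum]
        apply sum_congr rfl
        rintro ⟨a, b⟩ hp
        rw [HasAntidiagonal.mem_antidiagonal] at hp
        simp only at hp ⊢
        rw [← hp, norm_mul, pow_add]
        ring
  smul c P := by
    rw [mul_sum]
    apply sum_le_sum
    intro p _
    rw [coeff_smul, smul_eq_mul, norm_mul]
    apply le_of_eq; ring

/-- the norm on `ℂ`. -/
def nuC : Nu ℂ where
  f a := ‖a‖
  nonneg a := norm_nonneg a
  zero := norm_zero
  one := by simp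
  add := norm_add_le
  mul a b := (norm_mul a b).le
  smul c a := (norm_smul c a).le

lemma pow_coeff_dvd {U : PowerSeries ℂ[X]} (hU : ∀ k, (X : ℂ[X]) ∣ PowerSeries.coeff k U) (r n : ℕ) :
    (X : ℂ[X]) ^ r ∣ PowerSeries.coeff n (U ^ r) := by
  induction r generalizing n with
  | zero => simp
  | succ r ih =>
    rw [pow_succ U, PowerSeries.coeff_mul, pow_succ (X : ℂ[X])]
    exact dvd_sum fun p _ => mul_dvd_mul (ih _) (hU _)

lemma smul_coeff' (c : ℂ) (P : ℂ[X]) (n : ℕ) : (c • P).coeff n = c * P.coeff n := by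
  rw [coeff_smul, smul_eq_mul]

lemma low_coeff {r n : ℕ} {P : ℂ[X]} (h : (X : ℂ[X]) ^ r ∣ P) (hn : n < r) : P.coeff n = 0 :=
  X_pow_dvd_iff.1 h n hn

lemma term_dvd {U : PowerSeries ℂ[X]} (hU : ∀ k, (X : ℂ[X]) ∣ PowerSeries.coeff k U) (a b r : ℕ) :
    (X : ℂ[X]) ^ (r + 1) ∣ PowerSeries.coeff a U * PowerSeries.coeff b (U ^ r) := by
  rw [pow_succ']
  exact mul_dvd_mul (hU a) (pow_coeff_dvd hU r b)

lemma S_t0 (x : ℂ) (θ : ℝ) {U : PowerSeries ℂ[X]} (hU : ∀ k, (X : ℂ[X]) ∣ PowerSeries.coeff k U) (k : ℕ) :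
    (X : ℂ[X]) ∣ PowerSeries.coeff k (S x θ U) := by
  rw [S_coeff, X_dvd_iff]
  simp only [smul_coeff', coeff_add, finsetSum_coeff]
  have h1 : (PowerSeries.coeff k U).coeff 0 = 0 := X_dvd_iff.1 (hU k)
  rw [h1, zero_add]
  have h2 : ∑ p ∈ antidiagonal k, ∑ r ∈ range (p.2 + 1),
      (x ^ p.1 * ((p.1 : ℂ) * θ) ^ r / (r.factorial : ℂ)) *
        (PowerSeries.coeff p.1 U * PowerSeries.coeff p.2 (U ^ r)).coeff 0 = 0 := by
    apply sum_eq_zero
    intro p _
    apply sum_eq_zero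
    intro r _
    rw [low_coeff (term_dvd hU p.1 p.2 r) (by omega), mul_zero]
  rw [h2]; ring

lemma S_t1 (x : ℂ) (θ : ℝ) {U : PowerSeries ℂ[X]} (hU : ∀ k, (X : ℂ[X]) ∣ PowerSeries.coeff k U) (k : ℕ) :
    (PowerSeries.coeff k (S x θ U)).coeff 1 =
      (1 + 3 * x ^ k) / 4 * (PowerSeries.coeff k U).coeff 1 := by
  rw [S_coeff]
  simp only [smul_coeff', coeff_add, finsetSum_coeff]
  have h2 : ∑ p ∈ antidiagonal k, ∑ r ∈ range (p.2 + 1),
      (x ^ p.1 * ((p.1 : ℂ) * θ) ^ r / (r.factorial : ℂ)) *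
        (PowerSeries.coeff p.1 U * PowerSeries.coeff p.2 (U ^ r)).coeff 1 =
      x ^ k * (PowerSeries.coeff k U).coeff 1 := by
    have h3 : ∀ p ∈ antidiagonal k, ∑ r ∈ range (p.2 + 1),
      (x ^ p.1 * ((p.1 : ℂ) * θ) ^ r / (r.factorial : ℂ)) *
        (PowerSeries.coeff p.1 U * PowerSeries.coeff p.2 (U ^ r)).coeff 1 =
        x ^ p.1 * (PowerSeries.coeff p.1 U * PowerSeries.coeff p.2 (1 : PowerSeries ℂ[X])).coeff 1 := by
      intro p _
      rw [sum_eq_single 0]
      · simp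
      · intro r _ hr
        rw [low_coeff (term_dvd hU p.1 p.2 r) (by omega), mul_zero]
      · intro hh
        exact absurd (mem_range.2 (by omega)) hh
    rw [sum_congr rfl h3, sum_eq_single (k, 0)]
    · simp
    · rintro ⟨a, b⟩ hp hne
      rw [HasAntidiagonal.mem_antidiagonal] at hp
      simp only at hp ⊢
      have hb : b ≠ 0 := by
        rintro rfl
        apply hne
        rw [← hp]; simp
      rw [PowerSeries.coeff_one, if_neg hb, mul_zero, coeff_zero, mul_zero]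
    · intro hh
      exact absurd (HasAntidiagonal.mem_antidiagonal.2 (by simp)) hh
  rw [h2]; ring

lemma S_t2 (x : ℂ) (θ : ℝ) {U : PowerSeries ℂ[X]} (hU : ∀ k, (X : ℂ[X]) ∣ PowerSeries.coeff k U)
    (hU0 : PowerSeries.coeff 0 U = 0) (k : ℕ) :
    (PowerSeries.coeff k (S x θ U)).coeff 2 =
      (1 + 3 * x ^ k) / 4 * (PowerSeries.coeff k U).coeff 2 +
      ∑ p ∈ antidiagonal k, (3 / 4 * θ * (p.1 * x ^ p.1)) *
        ((PowerSeries.coeff p.1 U).coeff 1 * (PowerSeries.coeff p.2 U).coeff 1) := by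
  rw [S_coeff]
  simp only [smul_coeff', coeff_add, finsetSum_coeff]
  have h2 : ∑ p ∈ antidiagonal k, ∑ r ∈ range (p.2 + 1),
      (x ^ p.1 * ((p.1 : ℂ) * θ) ^ r / (r.factorial : ℂ)) *
        (PowerSeries.coeff p.1 U * PowerSeries.coeff p.2 (U ^ r)).coeff 2 =
      x ^ k * (PowerSeries.coeff k U).coeff 2 + ∑ p ∈ antidiagonal k, (x ^ p.1 * (p.1 * θ)) *
        ((PowerSeries.coeff p.1 U).coeff 1 * (PowerSeries.coeff p.2 U).coeff 1) := by
    have h3 : ∀ p ∈ antidiagonal k, ∑ r ∈ range (p.2 + 1),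
      (x ^ p.1 * ((p.1 : ℂ) * θ) ^ r / (r.factorial : ℂ)) *
        (PowerSeries.coeff p.1 U * PowerSeries.coeff p.2 (U ^ r)).coeff 2 =
        x ^ p.1 * (PowerSeries.coeff p.1 U * PowerSeries.coeff p.2 (1 : PowerSeries ℂ[X])).coeff 2 +
        (x ^ p.1 * (p.1 * θ)) *
        ((PowerSeries.coeff p.1 U).coeff 1 * (PowerSeries.coeff p.2 U).coeff 1) := by
      rintro ⟨a, b⟩ hp
      simp only
      have hhigh : ∀ r ≥ 2, (PowerSeries.coeff a U * PowerSeries.coeff b (U ^ r)).coeff 2 = 0 :=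
        fun r hr => low_coeff (term_dvd hU a b r) (by omega)
      have hq : (PowerSeries.coeff a U * PowerSeries.coeff b U).coeff 2 =
          (PowerSeries.coeff a U).coeff 1 * (PowerSeries.coeff b U).coeff 1 := by
        obtain ⟨P, hP⟩ := hU a
        obtain ⟨Q, hQ⟩ := hU b
        rw [hP, hQ]
        have : X * P * (X * Q) = X ^ 2 * (P * Q) := by ring
        rw [this, coeff_X_pow_mul']
        simp [coeff_X_mul]
      rcases Nat.eq_zero_or_pos b with rfl | hb
      · rw [zero_add, sum_range_one]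
        rw [hU0]
        simp
      · obtain ⟨c, rfl⟩ : ∃ c, b = c + 1 := ⟨b - 1, by omega⟩
        rw [sum_range_succ', sum_range_succ']
        have hz : ∑ r ∈ range c, (x ^ a * ((a : ℂ) * θ) ^ (r + 1 + 1) / ((r + 1 + 1).factorial : ℂ)) *
            (PowerSeries.coeff a U * PowerSeries.coeff (c + 1) (U ^ (r + 1 + 1))).coeff 2 = 0 := by
          apply sum_eq_zero
          intro r _
          rw [hhigh _ (by omega), mul_zero]
        rw [hz, zero_add]
        simp only [zero_add, pow_one, pow_zero, Nat.factorial_one, Nat.factorial_zero,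
          Nat.cast_one, div_one, mul_one]
        rw [hq]
        ring
    rw [sum_congr rfl h3, sum_add_distrib]
    congr 1
    rw [sum_eq_single (k, 0)]
    · simp
    · rintro ⟨a, b⟩ hp hne
      rw [HasAntidiagonal.mem_antidiagonal] at hp
      simp only at hp ⊢
      have hb : b ≠ 0 := by
        rintro rfl
        apply hne
        rw [← hp]; simp
      rw [PowerSeries.coeff_one, if_neg hb, mul_zero, coeff_zero, mul_zero]
    · intro hh
      exact absurd (HasAntidiagonal.mem_antidiagonal.2 (by simp)) hh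
  rw [h2]
  have h4 : ∑ p ∈ antidiagonal k, (3 / 4 * θ * (p.1 * x ^ p.1) : ℂ) *
        ((PowerSeries.coeff p.1 U).coeff 1 * (PowerSeries.coeff p.2 U).coeff 1) =
      3 / 4 * ∑ p ∈ antidiagonal k, (x ^ p.1 * (p.1 * θ)) *
        ((PowerSeries.coeff p.1 U).coeff 1 * (PowerSeries.coeff p.2 U).coeff 1) := by
    rw [mul_sum]
    apply sum_congr rfl
    intro p _
    ring
  rw [h4]
  ring

/-- expansion of `NN` to second order in `t`. -/
lemma NN_t0 (l : ℕ) {U : PowerSeries ℂ[X]} (hU : ∀ k, (X : ℂ[X]) ∣ PowerSeries.coeff k U) (k : ℕ) :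
    (X : ℂ[X]) ∣ PowerSeries.coeff k (NN l U) := by
  induction l generalizing U with
  | zero => exact hU k
  | succ l ih => exact ih (S_t0 _ _ hU)

lemma NN_t1 (l : ℕ) {U : PowerSeries ℂ[X]} (hU : ∀ k, (X : ℂ[X]) ∣ PowerSeries.coeff k U) (k : ℕ) :
    (PowerSeries.coeff k (NN l U)).coeff 1 = Ph l k * (PowerSeries.coeff k U).coeff 1 := by
  induction l generalizing U with
  | zero => simp [NN, Ph]
  | succ l ih =>
    rw [NN, ih (S_t0 _ _ hU), S_t1 _ _ hU, Ph, lam]
    ring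

lemma NN_t2 (l : ℕ) {U : PowerSeries ℂ[X]} (hU : ∀ k, (X : ℂ[X]) ∣ PowerSeries.coeff k U)
    (hU0 : PowerSeries.coeff 0 U = 0) (k : ℕ) :
    (PowerSeries.coeff k (NN l U)).coeff 2 = Ph l k * (PowerSeries.coeff k U).coeff 2 +
      ∑ p ∈ antidiagonal k, qf l p.1 p.2 *
        ((PowerSeries.coeff p.1 U).coeff 1 * (PowerSeries.coeff p.2 U).coeff 1) := by
  induction l generalizing U with
  | zero => simp [NN, Ph, qf]
  | succ l ih =>
    rw [NN, ih (S_t0 _ _ hU) (S_coeff_zero _ _ hU0), S_t2 _ _ hU hU0, Ph, mul_add, mul_sum,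
      add_assoc, ← sum_add_distrib]
    congr 1
    · rw [lam]; ring
    · apply sum_congr rfl
      rintro ⟨a, b⟩ hp
      rw [HasAntidiagonal.mem_antidiagonal] at hp
      simp only at hp ⊢
      rw [S_t1 _ _ hU, S_t1 _ _ hU, qf, hp, lam, lam]
      ring

/-- the series `t · G`. -/
def tG (G : PowerSeries ℂ) : PowerSeries ℂ[X] :=
  PowerSeries.mk fun k => C (PowerSeries.coeff k G) * X

lemma tG_coeff (G : PowerSeries ℂ) (k : ℕ) :
    PowerSeries.coeff k (tG G) = C (PowerSeries.coeff k G) * X := by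
  unfold tG; rw [PowerSeries.coeff_mk]

lemma tG_dvd (G : PowerSeries ℂ) (k : ℕ) : (X : ℂ[X]) ∣ PowerSeries.coeff k (tG G) := by
  rw [tG_coeff]; exact dvd_mul_left _ _

lemma tG_coeff0 {G : PowerSeries ℂ} (h0 : PowerSeries.coeff 0 G = 0) :
    PowerSeries.coeff 0 (tG G) = 0 := by
  rw [tG_coeff, h0]; simp

lemma tG_eval (l : ℕ) (G : PowerSeries ℂ) (k : ℕ) :
    PowerSeries.coeff k (NN l G) = (PowerSeries.coeff k (NN l (tG G))).eval 1 := by
  have h : G = PowerSeries.map ((aeval (1 : ℂ) : ℂ[X] →ₐ[ℂ] ℂ) : ℂ[X] →+* ℂ) (tG G) := by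
    ext k
    rw [PowerSeries.coeff_map, tG_coeff]
    simp
  conv_lhs => rw [h, NN_map, PowerSeries.coeff_map]
  simp

/-- truncated norm bound of the homogeneous parts. -/
lemma hom_bound (l M D : ℕ) (G : PowerSeries ℂ) {ρ : ℝ} (hρ : 0 ≤ ρ) (hD : 1 ≤ D)
    (h : ρ * T nuC (wt l) M G ≤ 1 / 4) :
    ∑ k ∈ range (M + 1), wt 0 k * ∑ p ∈ range (D + 1), ρ ^ p *
      ‖(PowerSeries.coeff k (NN l (tG G))).coeff p‖ ≤ ρ * T nuC (wt l) M G := by
  have h1 : T (nuPoly ρ hρ D) (wt l) M (tG G) = ρ * T nuC (wt l) M G := by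
    unfold T
    rw [mul_sum]
    apply sum_congr rfl
    intro k _
    have : (nuPoly ρ hρ D).f (PowerSeries.coeff k (tG G)) = ρ * ‖PowerSeries.coeff k G‖ := by
      simp only [nuPoly]
      rw [sum_eq_single_of_mem 1 (by rw [mem_range]; omega)]
      · rw [tG_coeff, coeff_C_mul, coeff_X_one, mul_one, pow_one]
      · intro p _ hp
        rw [tG_coeff, coeff_C_mul, coeff_X_of_ne_one hp, mul_zero, norm_zero, mul_zero]
    rw [this]
    simp only [nuC]
    ring
  have h2 := NN_bound (ν := nuPoly ρ hρ D) M l (tG G) (by rw [h1]; exact h)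
  rw [h1] at h2
  exact h2

/-- the part of index `≥ 2`. -/
def tl (G : PowerSeries ℂ) : PowerSeries ℂ :=
  PowerSeries.mk fun k => if k < 2 then 0 else PowerSeries.coeff k G

lemma tl_coeff (G : PowerSeries ℂ) (k : ℕ) :
    PowerSeries.coeff k (tl G) = if k < 2 then 0 else PowerSeries.coeff k G := by
  unfold tl; rw [PowerSeries.coeff_mk]

lemma quad_diff (l : ℕ) {G : PowerSeries ℂ} (h0 : PowerSeries.coeff 0 G = 0) (n : ℕ) :
    ∑ p ∈ antidiagonal (n + 3), qf l p.1 p.2 * (PowerSeries.coeff p.1 G * PowerSeries.coeff p.2 G) =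
    ∑ p ∈ antidiagonal (n + 3), qf l p.1 p.2 *
      (PowerSeries.coeff p.1 (tl G) * PowerSeries.coeff p.2 (tl G)) +
    Cc l (n + 3) * (PowerSeries.coeff 1 G * PowerSeries.coeff (n + 2) G) := by
  rw [Finset.Nat.sum_antidiagonal_eq_sum_range_succ_mk,
    Finset.Nat.sum_antidiagonal_eq_sum_range_succ_mk, ← sub_eq_iff_eq_add', ← sum_sub_distrib,
    sum_range_succ, sum_range_succ]
  have e1 : ∑ a ∈ range (n + 2), (qf l a (n + 3 - a) * (PowerSeries.coeff a G *
      PowerSeries.coeff (n + 3 - a) G) - qf l a (n + 3 - a) * (PowerSeries.coeff a (tl G) *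
      PowerSeries.coeff (n + 3 - a) (tl G))) = qf l 1 (n + 2) * (PowerSeries.coeff 1 G *
        PowerSeries.coeff (n + 2) G) := by
    refine (sum_eq_single 1 ?_ ?_).trans ?_
    · intro a ha ha1
      rw [mem_range] at ha
      rcases Nat.eq_zero_or_pos a with rfl | hpos
      · rw [tl_coeff, if_pos (by omega), h0]; simp
      · rw [tl_coeff, tl_coeff, if_neg (by omega), if_neg (by omega), sub_self]
    · intro hh
      exact absurd (mem_range.2 (by omega)) hh
    · rw [tl_coeff, if_pos (by omega)]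
      have : n + 3 - 1 = n + 2 := by omega
      rw [this]; ring
  rw [e1]
  have e2 : n + 3 - (n + 2) = 1 := by omega
  have e3 : n + 3 - 1 = n + 2 := by omega
  simp only
  rw [e2, Nat.sub_self, tl_coeff G 1, if_pos (by omega), tl_coeff G 0, if_pos (by omega), h0, Cc, e3]
  ring

/-- the remainder after removing the linear part and the pair `(1,k-1)`. -/
def Rm (l : ℕ) (G : PowerSeries ℂ) (k : ℕ) : ℂ :=
  PowerSeries.coeff k (NN l G) - Ph l k * PowerSeries.coeff k G -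
    Cc l k * (PowerSeries.coeff 1 G * PowerSeries.coeff (k - 1) G)

lemma Rm_norm_le (l : ℕ) {G : PowerSeries ℂ} (h0 : PowerSeries.coeff 0 G = 0) (n D : ℕ)
    (hD : (PowerSeries.coeff (n + 3) (NN l (tG G))).natDegree < D + 3) :
    ‖Rm l G (n + 3)‖ ≤ ‖(PowerSeries.coeff (n + 3) (NN l (tG (tl G)))).coeff 2‖ +
      ∑ p ∈ range D, ‖(PowerSeries.coeff (n + 3) (NN l (tG G))).coeff (p + 3)‖ := by
  have htl0 : PowerSeries.coeff 0 (tl G) = 0 := by rw [tl_coeff, if_pos (by omega)]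
  have h1 : Rm l G (n + 3) = (PowerSeries.coeff (n + 3) (NN l (tG (tl G)))).coeff 2 +
      ∑ p ∈ range D, (PowerSeries.coeff (n + 3) (NN l (tG G))).coeff (p + 3) := by
    have c0 : (PowerSeries.coeff (n + 3) (NN l (tG G))).coeff 0 = 0 :=
      X_dvd_iff.1 (NN_t0 l (tG_dvd G) _)
    have c1 := NN_t1 l (tG_dvd G) (n + 3)
    have c2 := NN_t2 l (tG_dvd G) (tG_coeff0 h0) (n + 3)
    have c2' := NN_t2 l (tG_dvd (tl G)) (tG_coeff0 htl0) (n + 3)
    simp only [tG_coeff, coeff_C_mul, coeff_X_one, mul_one] at c1 c2 c2'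
    rw [coeff_X_of_ne_one (by norm_num : (2 : ℕ) ≠ 1), mul_zero, mul_zero, zero_add] at c2 c2'
    rw [quad_diff l h0 n, ← c2'] at c2
    unfold Rm
    rw [tG_eval, eval_eq_sum_range' hD]
    simp only [one_pow, mul_one]
    rw [sum_range_succ', sum_range_succ', sum_range_succ']
    simp only [zero_add, add_assoc, Nat.reduceAdd] at *
    rw [c0, c1, c2]
    have e3 : n + 3 - 1 = n + 2 := by omega
    rw [e3]
    ring
  rw [h1]
  exact (norm_add_le _ _).trans (add_le_add le_rfl (norm_sum_le _ _))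

lemma shift3 (M : ℕ) (f : ℕ → ℝ) (hf : ∀ k, 0 ≤ f k) :
    ∑ n ∈ range M, f (n + 3) ≤ ∑ k ∈ range (M + 3), f k := by
  rw [sum_range_succ' f (M + 2), sum_range_succ' _ (M + 1), sum_range_succ' _ M]
  have q0 := hf 0
  have q1 := hf (0 + 1)
  have q2 := hf (0 + 1 + 1)
  have : ∑ n ∈ range M, f (n + 3) = ∑ n ∈ range M, f (n + 1 + 1 + 1) := rfl
  linarith

lemma Rm_sum (l M : ℕ) {G : PowerSeries ℂ} (h0 : PowerSeries.coeff 0 G = 0) {ρ₁ ρ₂ : ℝ}
    (h1 : 1 ≤ ρ₁) (h2 : 1 ≤ ρ₂) (hT1 : ρ₁ * T nuC (wt l) (M + 3) (tl G) ≤ 1 / 4)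
    (hT2 : ρ₂ * T nuC (wt l) (M + 3) G ≤ 1 / 4) :
    ∑ n ∈ range (M + 1), wt 0 (n + 3) * ‖Rm l G (n + 3)‖ ≤
      T nuC (wt l) (M + 3) (tl G) / ρ₁ + T nuC (wt l) (M + 3) G / ρ₂ ^ 2 := by
  obtain ⟨D, hD⟩ : ∃ D, ∀ n ∈ range (M + 1),
      (PowerSeries.coeff (n + 3) (NN l (tG G))).natDegree ≤ D := by
    refine ⟨∑ n ∈ range (M + 1), (PowerSeries.coeff (n + 3) (NN l (tG G))).natDegree, fun n hn => ?_⟩
    exact single_le_sum (f := fun n => (PowerSeries.coeff (n + 3) (NN l (tG G))).natDegree)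
      (fun _ _ => Nat.zero_le _) hn
  have p1 : 0 < ρ₁ := by linarith
  have p2 : 0 < ρ₂ := by linarith
  have hb1 := hom_bound l (M + 3) 2 (tl G) p1.le (by norm_num) hT1
  have hb2 := hom_bound l (M + 3) (D + 2) G p2.le (by omega) hT2
  have s1 : ∑ n ∈ range (M + 1), wt 0 (n + 3) *
      ‖(PowerSeries.coeff (n + 3) (NN l (tG (tl G)))).coeff 2‖ ≤ T nuC (wt l) (M + 3) (tl G) / ρ₁ := by
    rw [le_div_iff₀ p1]
    have hs : ρ₁ * (∑ n ∈ range (M + 1), wt 0 (n + 3) *
      ‖(PowerSeries.coeff (n + 3) (NN l (tG (tl G)))).coeff 2‖ * ρ₁) ≤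
        ρ₁ * T nuC (wt l) (M + 3) (tl G) := by
      refine le_trans ?_ hb1
      refine le_trans ?_ (shift3 (M + 1) (fun k => wt 0 k * ∑ p ∈ range (2 + 1), ρ₁ ^ p *
          ‖(PowerSeries.coeff k (NN l (tG (tl G)))).coeff p‖) (fun k =>
        mul_nonneg (wt_pos _ _).le (sum_nonneg fun p _ => by positivity)))
      rw [mul_sum]
      apply sum_le_sum
      intro k _
      have : ρ₁ ^ 2 * ‖(PowerSeries.coeff (k + 3) (NN l (tG (tl G)))).coeff 2‖ ≤
          ∑ p ∈ range (2 + 1), ρ₁ ^ p *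
            ‖(PowerSeries.coeff (k + 3) (NN l (tG (tl G)))).coeff p‖ :=
        single_le_sum (f := fun p => ρ₁ ^ p *
            ‖(PowerSeries.coeff (k + 3) (NN l (tG (tl G)))).coeff p‖)
          (fun p _ => by positivity) (by simp)
      have hw := (wt_pos 0 (k + 3)).le
      calc ρ₁ * (wt 0 (k + 3) * ‖(PowerSeries.coeff (k + 3) (NN l (tG (tl G)))).coeff 2‖ * ρ₁)
          = wt 0 (k + 3) * (ρ₁ ^ 2 * ‖(PowerSeries.coeff (k + 3) (NN l (tG (tl G)))).coeff 2‖) := by
            ring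
        _ ≤ _ := mul_le_mul_of_nonneg_left this hw
    rw [← sum_mul] at hs
    exact le_of_mul_le_mul_left hs p1
  have s2 : ∑ n ∈ range (M + 1), wt 0 (n + 3) *
      ∑ p ∈ range D, ‖(PowerSeries.coeff (n + 3) (NN l (tG G))).coeff (p + 3)‖ ≤
      T nuC (wt l) (M + 3) G / ρ₂ ^ 2 := by
    rw [le_div_iff₀ (by positivity)]
    have hs : ρ₂ * (∑ n ∈ range (M + 1), wt 0 (n + 3) *
      (∑ p ∈ range D, ‖(PowerSeries.coeff (n + 3) (NN l (tG G))).coeff (p + 3)‖) * ρ₂ ^ 2) ≤
        ρ₂ * T nuC (wt l) (M + 3) G := by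
      refine le_trans ?_ hb2
      refine le_trans ?_ (shift3 (M + 1) (fun k => wt 0 k * ∑ p ∈ range (D + 2 + 1), ρ₂ ^ p *
          ‖(PowerSeries.coeff k (NN l (tG G))).coeff p‖) (fun k =>
        mul_nonneg (wt_pos _ _).le (sum_nonneg fun p _ => by positivity)))
      rw [mul_sum]
      apply sum_le_sum
      intro k _
      have : ρ₂ ^ 3 * ∑ p ∈ range D, ‖(PowerSeries.coeff (k + 3) (NN l (tG G))).coeff (p + 3)‖ ≤
          ∑ p ∈ range (D + 2 + 1), ρ₂ ^ p *
            ‖(PowerSeries.coeff (k + 3) (NN l (tG G))).coeff p‖ := by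
        refine le_trans ?_ (shift3 D (fun p => ρ₂ ^ p *
            ‖(PowerSeries.coeff (k + 3) (NN l (tG G))).coeff p‖) (fun p => by positivity))
        rw [mul_sum]
        apply sum_le_sum
        intro p _
        apply mul_le_mul_of_nonneg_right _ (norm_nonneg _)
        exact pow_le_pow_right₀ h2 (by omega)
      have hw := (wt_pos 0 (k + 3)).le
      calc ρ₂ * (wt 0 (k + 3) *
            (∑ p ∈ range D, ‖(PowerSeries.coeff (k + 3) (NN l (tG G))).coeff (p + 3)‖) * ρ₂ ^ 2)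
          = wt 0 (k + 3) * (ρ₂ ^ 3 *
            ∑ p ∈ range D, ‖(PowerSeries.coeff (k + 3) (NN l (tG G))).coeff (p + 3)‖) := by
            ring
        _ ≤ _ := mul_le_mul_of_nonneg_left this hw
    rw [← sum_mul] at hs
    exact le_of_mul_le_mul_left hs p2
  calc ∑ n ∈ range (M + 1), wt 0 (n + 3) * ‖Rm l G (n + 3)‖ ≤
      ∑ n ∈ range (M + 1), (wt 0 (n + 3) *
      ‖(PowerSeries.coeff (n + 3) (NN l (tG (tl G)))).coeff 2‖ + wt 0 (n + 3) *
      ∑ p ∈ range D, ‖(PowerSeries.coeff (n + 3) (NN l (tG G))).coeff (p + 3)‖) := by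
        apply sum_le_sum
        intro n hn
        rw [← mul_add]
        apply mul_le_mul_of_nonneg_left _ (wt_pos _ _).le
        exact Rm_norm_le l h0 n D (by have := hD n hn; omega)
    _ ≤ _ := by rw [sum_add_distrib]; exact add_le_add s1 s2

end texp

end
end Pool.Agent.Lib_helper91.Tree
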