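import Pool.Agent.Lib_helper91.TreeC

set_option autoImplicit false

namespace Pool.Agent.Lib_helper91.Tree

noncomputable section
open Finset

lemma log3_le : Real.log 3 ≤ 6 / 5 := by
  have h1 : Real.log 3 = Real.log (3 / 2) + Real.log 2 := by
    rw [← Real.log_mul (by norm_num) (by norm_num)]; norm_num
  have h2 := Real.log_le_sub_one_of_pos (show (0 : ℝ) < 3 / 2 by norm_num)
  have h3 := Real.log_two_lt_d9
  rw [h1]; linarith

lemma norm_Ac : ‖Ac‖ ≤ 14 := by
  have h1 : ‖Ac‖ ^ 2 = Ac.re ^ 2 + Ac.im ^ 2 := by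
    rw [Complex.sq_norm, Complex.normSq_apply]; ring
  rw [Ac_re, Ac_im] at h1
  have h2 := log3_le
  have h3 := log3_ge
  have h4 := Real.pi_lt_d2
  have h5 := Real.pi_pos
  have h6 : ‖Ac‖ ^ 2 ≤ 14 ^ 2 := by
    rw [h1]
    have a1 : Real.log 3 ^ 2 ≤ (6 / 5) ^ 2 := by
      apply pow_le_pow_left₀ (by linarith) h2
    have a2 : Real.pi ^ 2 ≤ 3.15 ^ 2 := by
      apply pow_le_pow_left₀ (by linarith) h4.le
    nlinarith
  exact le_of_sq_le_sq h6 (by norm_num)

lemma xc_pow (j k : ℕ) : xc j ^ k = Complex.exp (-(Ac * ((k * th j : ℝ) : ℂ))) := by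
  unfold xc
  rw [← Complex.exp_nat_mul]
  congr 1
  push_cast
  ring

lemma norm_xc_pow (j k : ℕ) : ‖xc j‖ ^ k = Real.exp (-(4 * Real.log 3 * (k * th j))) := by
  rw [norm_xc, ← Real.exp_nat_mul]
  congr 1
  ring

lemma norm_exp_sub_one_le' {w : ℂ} (hw : 0 ≤ w.re) : ‖1 - Complex.exp (-w)‖ ≤ ‖w‖ := by
  have h := Convex.norm_image_sub_le_of_norm_deriv_le (f := Complex.exp) (C := 1)
    (s := {z : ℂ | z.re ≤ 0}) (x := -w) (y := 0) (fun z _ => Complex.differentiable_exp z)
    (fun z hz => by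
      rw [Complex.deriv_exp, Complex.norm_exp]
      exact Real.exp_le_one_iff.2 hz)
    (convex_halfSpace_re_le 0) (by simpa using hw) (by simp)
  simpa using h

/-- `‖lam‖ ≥ 1 - 11 y`. -/
lemma lam_small (j k : ℕ) : 1 - 11 * (k * th j) ≤ ‖lam j k‖ := by
  have hth := th_pos j
  have hy : (0 : ℝ) ≤ k * th j := by positivity
  unfold lam
  rw [xc_pow]
  have h1 : ‖1 - Complex.exp (-(Ac * ((k * th j : ℝ) : ℂ)))‖ ≤ ‖Ac * ((k * th j : ℝ) : ℂ)‖ := by
    apply norm_exp_sub_one_le'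
    rw [Complex.mul_re, Complex.ofReal_re, Complex.ofReal_im, Ac_re]
    have := log3_ge
    have : 0 ≤ 4 * Real.log 3 * (k * th j) := by positivity
    linarith
  rw [norm_mul, Complex.norm_real, Real.norm_of_nonneg hy] at h1
  have h2 : ‖Ac‖ * (k * th j) ≤ 14 * (k * th j) := mul_le_mul_of_nonneg_right norm_Ac hy
  set w := Complex.exp (-(Ac * ((k * th j : ℝ) : ℂ))) with hw
  have e : (1 + 3 * w) / 4 = 1 - (3 / 4) * (1 - w) := by ring
  rw [e]
  have h3 : ‖(3 / 4 : ℂ) * (1 - w)‖ = 3 / 4 * ‖1 - w‖ := by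
    rw [norm_mul]; norm_num
  have h4 : ‖(1 : ℂ)‖ - ‖(3 / 4 : ℂ) * (1 - w)‖ ≤ ‖1 - (3 / 4) * (1 - w)‖ := norm_sub_norm_le _ _
  rw [h3, norm_one] at h4
  linarith

lemma lam_lower1 (j k : ℕ) :
    (1 - 3 * Real.exp (-(4 * Real.log 3 * (k * th j)))) / 4 ≤ ‖lam j k‖ := by
  unfold lam
  rw [norm_div]
  have h : ‖(1 : ℂ)‖ - ‖(3 : ℂ) * xc j ^ k‖ ≤ ‖1 + 3 * xc j ^ k‖ := by
    have := norm_sub_norm_le (1 : ℂ) (-(3 * xc j ^ k))
    rwa [norm_neg, sub_neg_eq_add] at this
  rw [norm_one, norm_mul, norm_pow, norm_xc_pow] at h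
  have e1 : ‖(3 : ℂ)‖ = 3 := by norm_num
  have e2 : ‖(4 : ℂ)‖ = 4 := by norm_num
  rw [e1] at h
  rw [e2]
  linarith

lemma lam_lower2 (j k : ℕ) :
    (3 * Real.exp (-(4 * Real.log 3 * (k * th j))) - 1) / 4 ≤ ‖lam j k‖ := by
  unfold lam
  rw [norm_div]
  have h : ‖(3 : ℂ) * xc j ^ k‖ - ‖(1 : ℂ)‖ ≤ ‖1 + 3 * xc j ^ k‖ := by
    have := norm_sub_norm_le (3 * xc j ^ k) (-1 : ℂ)
    rwa [norm_neg, sub_neg_eq_add, add_comm (3 * xc j ^ k)] at this
  rw [norm_one, norm_mul, norm_pow, norm_xc_pow] at h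
  have e1 : ‖(3 : ℂ)‖ = 3 := by norm_num
  have e2 : ‖(4 : ℂ)‖ = 4 := by norm_num
  rw [e1] at h
  rw [e2]
  linarith

lemma lam_upper (j k : ℕ) : ‖lam j k‖ ≤ (1 + 3 * Real.exp (-(3 * (k * th j)))) / 4 := by
  unfold lam
  rw [norm_div]
  have h := norm_add_le (1 : ℂ) (3 * xc j ^ k)
  rw [norm_one, norm_mul, norm_pow] at h
  have e1 : ‖(3 : ℂ)‖ = 3 := by norm_num
  have e2 : ‖(4 : ℂ)‖ = 4 := by norm_num
  rw [e1] at h
  rw [e2]
  have h1 := norm_xc_pow_le j k
  have h2 : Real.exp (-(4 * (k * th j))) ≤ Real.exp (-(3 * (k * th j))) := by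
    apply Real.exp_le_exp.2
    have hth := th_pos j
    have hy : (0 : ℝ) ≤ k * th j := by positivity
    linarith
  linarith

lemma lam_le_one (j k : ℕ) : ‖lam j k‖ ≤ 1 := by
  refine (lam_upper j k).trans ?_
  have hth := th_pos j
  have hy : (0 : ℝ) ≤ k * th j := by positivity
  have : Real.exp (-(3 * (k * th j))) ≤ 1 := by
    rw [Real.exp_le_one_iff]; linarith
  linarith

lemma lam_wt (j k : ℕ) : ‖lam (j + 1) k‖ * wt j k ≤ wt (j + 1) k := by
  have hth := th_pos (j + 1)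
  set y : ℝ := k * th (j + 1) with hy
  have hy0 : 0 ≤ y := by positivity
  have e1 : wt j k = 1 + 3 * y := by
    unfold wt; rw [hy, th_succ]; ring
  have e2 : wt (j + 1) k = 1 + 3 / 4 * y := by
    unfold wt; rw [hy]; ring
  have h := lam_upper (j + 1) k
  rw [← hy] at h
  rw [e1, e2]
  have := key_ineq y
  nlinarith

lemma Ph_upper (l k : ℕ) : ‖Ph l k‖ * wt 0 k ≤ wt l k := by
  induction l with
  | zero => simp [Ph]
  | succ l ih =>
    rw [Ph, norm_mul]
    calc ‖Ph l k‖ * ‖lam (l + 1) k‖ * wt 0 k = (‖Ph l k‖ * wt 0 k) * ‖lam (l + 1) k‖ := by ring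
      _ ≤ wt l k * ‖lam (l + 1) k‖ := mul_le_mul_of_nonneg_right ih (norm_nonneg _)
      _ = ‖lam (l + 1) k‖ * wt l k := by ring
      _ ≤ _ := lam_wt l k

/-- `η(δ)` -/
def et (δ : ℝ) : ℝ := (1 - Real.exp (-(Real.log 3 * δ))) / 4

lemma et_pos {δ : ℝ} (h : 0 < δ) : 0 < et δ := by
  unfold et
  have : Real.exp (-(Real.log 3 * δ)) < 1 := by
    rw [Real.exp_lt_one_iff]
    have := log3_ge
    have : 0 < Real.log 3 * δ := by positivity
    linarith
  linarith

lemma et_le (δ : ℝ) : et δ ≤ 1 / 4 := by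
  unfold et
  have := Real.exp_pos (-(Real.log 3 * δ))
  linarith

lemma et_half : 1 / 10 ≤ et (1 / 2) := by
  unfold et
  have h1 : Real.exp (-(Real.log 3 * (1 / 2))) ^ 2 = 1 / 3 := by
    rw [← Real.exp_nat_mul]
    have : ((2 : ℕ) : ℝ) * -(Real.log 3 * (1 / 2)) = -Real.log 3 := by push_cast; ring
    rw [this, Real.exp_neg, Real.exp_log (by norm_num)]
    norm_num
  have h2 : Real.exp (-(Real.log 3 * (1 / 2))) ≤ 3 / 5 := by
    apply le_of_sq_le_sq _ (by norm_num)
    rw [h1]; norm_num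
  linarith

lemma lam_mid (j k : ℕ) {δ : ℝ} (h : δ ≤ |4 * (k * th j) - 1|) : et δ ≤ ‖lam j k‖ := by
  set y : ℝ := k * th j with hy
  have hL := log3_ge
  have e3 : 3 * Real.exp (-(4 * Real.log 3 * y)) = Real.exp (Real.log 3 * (1 - 4 * y)) := by
    have : Real.log 3 * (1 - 4 * y) = Real.log 3 + -(4 * Real.log 3 * y) := by ring
    rw [this, Real.exp_add, Real.exp_log (by norm_num)]
  rcases le_abs.1 h with h1 | h1
  · have h2 := lam_lower1 j k
    rw [← hy, e3] at h2
    refine le_trans ?_ h2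
    unfold et
    have : Real.exp (Real.log 3 * (1 - 4 * y)) ≤ Real.exp (-(Real.log 3 * δ)) := by
      apply Real.exp_le_exp.2
      nlinarith
    linarith
  · have h2 := lam_lower2 j k
    rw [← hy, e3] at h2
    refine le_trans ?_ h2
    unfold et
    have h3 : Real.exp (Real.log 3 * δ) ≤ Real.exp (Real.log 3 * (1 - 4 * y)) := by
      apply Real.exp_le_exp.2
      nlinarith
    have h4 : Real.exp (-(Real.log 3 * δ)) * Real.exp (Real.log 3 * δ) = 1 := by
      rw [← Real.exp_add]; simp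
    have h5 := Real.exp_pos (Real.log 3 * δ)
    have h6 := Real.exp_pos (-(Real.log 3 * δ))
    have h7 : 2 ≤ Real.exp (-(Real.log 3 * δ)) + Real.exp (Real.log 3 * δ) := by
      nlinarith [sq_nonneg (Real.exp (-(Real.log 3 * δ)) - Real.exp (Real.log 3 * δ))]
    linarith

/-- the potential. -/
def Ps (η y : ℝ) : ℝ :=
  if y ≤ 1 / 4 then 1 - 11 / 3 * y else if y ≤ 1 then η / 12 else if y < 4 then η ^ 2 / 12
    else η ^ 3 / 36 * (1 + 8 / y)

lemma Ps_step {η y N : ℝ} (hη : 0 < η) (hη1 : η ≤ 1 / 4) (hy : 0 ≤ y) (h1 : 1 - 11 * y ≤ N)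
    (h2 : 1 / 16 < y → η ≤ N) (h3 : (1 - 3 * Real.exp (-(4 * Real.log 3 * y))) / 4 ≤ N) :
    (1 + 3 / 4 * y) * Ps η (4 * y) ≤ N * (1 + 3 * y) * Ps η y := by
  have hη2 : η ^ 2 ≤ η := by nlinarith
  have hη3 : η ^ 3 ≤ η ^ 2 := by nlinarith [sq_nonneg η]
  have hη2' : 0 < η ^ 2 := by positivity
  have hη3' : 0 < η ^ 3 := by positivity
  rcases le_or_gt y (1 / 16) with c1 | c1
  · have e1 : Ps η (4 * y) = 1 - 11 / 3 * (4 * y) := by
      unfold Ps; rw [if_pos (by linarith)]
    have e2 : Ps η y = 1 - 11 / 3 * y := by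
      unfold Ps; rw [if_pos (by linarith)]
    rw [e1, e2]
    have a1 : 0 < 1 - 11 * y := by linarith
    have a2 : 0 < 1 - 11 / 3 * y := by linarith
    have a3 : (1 - 11 * y) * (1 - 11 / 3 * y) ≤ N * (1 - 11 / 3 * y) :=
      mul_le_mul_of_nonneg_right h1 a2.le
    have a4 : 1 - 11 / 3 * (4 * y) ≤ (1 - 11 * y) * (1 - 11 / 3 * y) := by nlinarith
    have a5 : 1 - 11 / 3 * (4 * y) ≤ N * (1 - 11 / 3 * y) := a4.trans a3
    have a6 : 0 ≤ N * (1 - 11 / 3 * y) := mul_nonneg (a1.le.trans h1) a2.le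
    calc (1 + 3 / 4 * y) * (1 - 11 / 3 * (4 * y)) ≤ (1 + 3 / 4 * y) * (N * (1 - 11 / 3 * y)) :=
          mul_le_mul_of_nonneg_left a5 (by linarith)
      _ ≤ (1 + 3 * y) * (N * (1 - 11 / 3 * y)) := mul_le_mul_of_nonneg_right (by linarith) a6
      _ = _ := by ring
  · have hN := h2 c1
    have hN0 : 0 < N := hη.trans_le hN
    have key : ∀ P P' : ℝ, 0 ≤ P → P' ≤ η * P → (1 + 3 / 4 * y) * P' ≤ N * (1 + 3 * y) * P := by
      intro P P' hP hPP
      calc (1 + 3 / 4 * y) * P' ≤ (1 + 3 / 4 * y) * (η * P) :=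
            mul_le_mul_of_nonneg_left hPP (by linarith)
        _ ≤ (1 + 3 / 4 * y) * (N * P) := by
            apply mul_le_mul_of_nonneg_left _ (by linarith)
            exact mul_le_mul_of_nonneg_right hN hP
        _ ≤ (1 + 3 * y) * (N * P) := mul_le_mul_of_nonneg_right (by linarith) (by positivity)
        _ = _ := by ring
    rcases le_or_gt y (1 / 4) with c2 | c2
    · have e1 : Ps η (4 * y) = η / 12 := by
        unfold Ps; rw [if_neg (by linarith), if_pos (by linarith)]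
      have e2 : Ps η y = 1 - 11 / 3 * y := by
        unfold Ps; rw [if_pos (by linarith)]
      rw [e1, e2]
      apply key _ _ (by linarith)
      nlinarith
    · rcases le_or_gt y 1 with c3 | c3
      · have e2 : Ps η y = η / 12 := by
          unfold Ps; rw [if_neg (by linarith), if_pos (by linarith)]
        rw [e2]
        apply key _ _ (by positivity)
        unfold Ps
        rw [if_neg (by linarith), if_neg (by linarith)]
        split_ifs with c4
        · apply le_of_eq; ring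
        · have : y = 1 := by linarith
          rw [this]
          norm_num
          nlinarith
      · rcases lt_or_ge y 4 with c4 | c4
        · have e2 : Ps η y = η ^ 2 / 12 := by
            unfold Ps; rw [if_neg (by linarith), if_neg (by linarith), if_pos c4]
          have e1 : Ps η (4 * y) = η ^ 3 / 36 * (1 + 8 / (4 * y)) := by
            unfold Ps; rw [if_neg (by linarith), if_neg (by linarith), if_neg (by linarith)]
          rw [e1, e2]
          apply key _ _ (by positivity)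
          have : 8 / (4 * y) ≤ 2 := by
            rw [div_le_iff₀ (by linarith)]; linarith
          calc η ^ 3 / 36 * (1 + 8 / (4 * y)) ≤ η ^ 3 / 36 * (1 + 2) := by gcongr
            _ = _ := by ring
        · have e2 : Ps η y = η ^ 3 / 36 * (1 + 8 / y) := by
            unfold Ps; rw [if_neg (by linarith), if_neg (by linarith), if_neg (by linarith)]
          have e1 : Ps η (4 * y) = η ^ 3 / 36 * (1 + 8 / (4 * y)) := by
            unfold Ps; rw [if_neg (by linarith), if_neg (by linarith), if_neg (by linarith)]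
          rw [e1, e2]
          have y0 : 0 < y := by linarith
          have hE : 3 * Real.exp (-(4 * Real.log 3 * y)) ≤ 1 / y := by
            have hL := log3_ge
            have b1 : Real.exp (-(4 * Real.log 3 * y)) ≤ Real.exp (-(4 * y)) := by
              apply Real.exp_le_exp.2; nlinarith
            have b2 := Real.add_one_le_exp (4 * y)
            have b3 : Real.exp (-(4 * y)) = (Real.exp (4 * y))⁻¹ := Real.exp_neg _
            have b4 : Real.exp (-(4 * y)) ≤ 1 / (3 * y) := by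
              rw [b3, ← one_div]
              apply one_div_le_one_div_of_le (by linarith)
              linarith
            have b5 : 3 * (1 / (3 * y)) = 1 / y := by field_simp
            linarith
          have hN1 : (1 - 1 / y) / 4 ≤ N := by linarith
          have g1 : (1 + 3 / 4 * y) * (1 + 8 / (4 * y)) ≤ (1 - 1 / y) / 4 * (1 + 3 * y) * (1 + 8 / y) := by
            have : (1 - 1 / y) / 4 * (1 + 3 * y) * (1 + 8 / y) -
                (1 + 3 / 4 * y) * (1 + 8 / (4 * y)) = (16 * y ^ 2 - 68 * y ^ 1 - 0 + (0:ℝ)) / (16 * y ^ 2) * 0 +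
                  ((1 - 1 / y) / 4 * (1 + 3 * y) * (1 + 8 / y) -
                (1 + 3 / 4 * y) * (1 + 8 / (4 * y))) := by ring
            have e : (1 - 1 / y) / 4 * (1 + 3 * y) * (1 + 8 / y) -
                (1 + 3 / 4 * y) * (1 + 8 / (4 * y)) = (12 * y ^ 2 - 25 * y - 8) / (4 * y ^ 2) := by
              field_simp
              ring
            have : 0 ≤ (12 * y ^ 2 - 25 * y - 8) / (4 * y ^ 2) := by
              apply div_nonneg _ (by positivity)
              nlinarith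
            linarith
          have g2 : (1 - 1 / y) / 4 * (1 + 3 * y) * (1 + 8 / y) ≤ N * (1 + 3 * y) * (1 + 8 / y) := by
            gcongr
          calc (1 + 3 / 4 * y) * (η ^ 3 / 36 * (1 + 8 / (4 * y)))
              = η ^ 3 / 36 * ((1 + 3 / 4 * y) * (1 + 8 / (4 * y))) := by ring
            _ ≤ η ^ 3 / 36 * (N * (1 + 3 * y) * (1 + 8 / y)) :=
                mul_le_mul_of_nonneg_left (g1.trans g2) (by positivity)
            _ = _ := by ring

lemma Ps_le_one {η y : ℝ} (hη : 0 < η) (hη1 : η ≤ 1 / 4) (hy : 0 ≤ y) : Ps η y ≤ 1 := by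
  have hη2 : η ^ 2 ≤ 1 := by nlinarith
  have hη3 : η ^ 3 ≤ 1 := by nlinarith [sq_nonneg η]
  unfold Ps
  split_ifs with a b c
  · linarith
  · linarith
  · linarith
  · have : 8 / y ≤ 2 := by
      rw [div_le_iff₀ (by linarith)]; linarith
    have h0 : 0 < η ^ 3 := by positivity
    calc η ^ 3 / 36 * (1 + 8 / y) ≤ η ^ 3 / 36 * (1 + 2) := by gcongr
      _ ≤ 1 := by linarith

lemma Ps_lower {η y : ℝ} (hη : 0 < η) (hη1 : η ≤ 1 / 4) (hy : 3 ≤ y) : η ^ 3 / 36 ≤ Ps η y := by
  have hη2 : 0 < η ^ 2 := by positivity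
  have hη3 : 0 < η ^ 3 := by positivity
  unfold Ps
  rw [if_neg (by linarith), if_neg (by linarith)]
  split_ifs with c
  · nlinarith
  · have : 0 ≤ 8 / y := by positivity
    nlinarith

/-- lower bound for the linear multiplier away from the resonances. -/
theorem Ph_lower {δ : ℝ} (hδ : 0 < δ) (l k : ℕ) (hk : 3 ≤ k)
    (h : ∀ i, i + 1 ≤ l → δ ≤ |k * th i - 1|) :
    (et δ) ^ 3 / 36 * wt l k ≤ ‖Ph l k‖ * wt 0 k := by
  have hη := et_pos hδ
  have hη1 := et_le δ
  have hk0 : (3 : ℝ) ≤ k := by exact_mod_cast hk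
  have main : ∀ l, (∀ i, i + 1 ≤ l → δ ≤ |k * th i - 1|) →
      wt l k * Ps (et δ) k ≤ ‖Ph l k‖ * wt 0 k * Ps (et δ) (k * th l) := by
    intro l
    induction l with
    | zero =>
      intro _
      simp [Ph, th]
    | succ l ih =>
      intro hl
      have ih' := ih (fun i hi => hl i (by omega))
      have hth := th_pos (l + 1)
      set y : ℝ := k * th (l + 1) with hy
      have hy0 : 0 ≤ y := by positivity
      have e0 : (k : ℝ) * th l = 4 * y := by rw [hy, th_succ]; ring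
      have e1 : wt l k = 1 + 3 * y := by
        unfold wt; rw [hy, th_succ]; ring
      have e2 : wt (l + 1) k = 1 + 3 / 4 * y := by
        unfold wt; rw [hy]; ring
      rw [e0] at ih'
      have hl' := hl l le_rfl
      rw [e0] at hl'
      have hs := Ps_step hη hη1 hy0 (lam_small (l + 1) k)
        (fun _ => lam_mid (l + 1) k hl') (lam_lower1 (l + 1) k)
      rw [← e1, ← e2] at hs
      rw [Ph, norm_mul]
      have hw : 0 < wt l k := wt_pos _ _
      have hA : 0 ≤ ‖Ph l k‖ * wt 0 k := mul_nonneg (norm_nonneg _) (wt_pos _ _).le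
      have : wt l k * (wt (l + 1) k * Ps (et δ) k) ≤
          wt l k * (‖Ph l k‖ * ‖lam (l + 1) k‖ * wt 0 k * Ps (et δ) y) := by
        calc wt l k * (wt (l + 1) k * Ps (et δ) k) = wt (l + 1) k * (wt l k * Ps (et δ) k) := by ring
          _ ≤ wt (l + 1) k * (‖Ph l k‖ * wt 0 k * Ps (et δ) (4 * y)) :=
              mul_le_mul_of_nonneg_left ih' (wt_pos _ _).le
          _ = (‖Ph l k‖ * wt 0 k) * (wt (l + 1) k * Ps (et δ) (4 * y)) := by ring
          _ ≤ (‖Ph l k‖ * wt 0 k) * (‖lam (l + 1) k‖ * wt l k * Ps (et δ) y) :=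
              mul_le_mul_of_nonneg_left hs hA
          _ = _ := by ring
      exact le_of_mul_le_mul_left this hw
  have h1 := main l h
  have hth := th_pos l
  have h2 := Ps_le_one hη hη1 (show 0 ≤ (k : ℝ) * th l by positivity)
  have h3 := Ps_lower hη hη1 hk0
  have hA : 0 ≤ ‖Ph l k‖ * wt 0 k := mul_nonneg (norm_nonneg _) (wt_pos _ _).le
  calc (et δ) ^ 3 / 36 * wt l k ≤ Ps (et δ) k * wt l k :=
        mul_le_mul_of_nonneg_right h3 (wt_pos _ _).le
    _ = wt l k * Ps (et δ) k := by ring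
    _ ≤ ‖Ph l k‖ * wt 0 k * Ps (et δ) (k * th l) := h1
    _ ≤ ‖Ph l k‖ * wt 0 k * 1 := mul_le_mul_of_nonneg_left h2 hA
    _ = _ := by ring

end
end Pool.Agent.Lib_helper91.Tree
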