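import Pool.Agent.Lib_helper91.TreeE

set_option autoImplicit false

namespace Pool.Agent.Lib_helper91.Tree

noncomputable section
open Finset

/-- sum of the `q_j`. -/
def Qs (l k : ℕ) : ℝ := ∑ j ∈ range l, ‖qj (j + 1) k‖

def P1 (s : ℝ) : ℝ := s / (1 + s)

lemma P1_step {s : ℝ} (hs : 0 ≤ s) : s * Real.exp (-(4 * s)) ≤ P1 (4 * s) - P1 s := by
  unfold P1
  have e : 4 * s / (1 + 4 * s) - s / (1 + s) = 3 * s / ((1 + 4 * s) * (1 + s)) := by
    field_simp
    ring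
  rw [e, le_div_iff₀ (by positivity)]
  have h1 : 1 + 4 * s + (4 * s) ^ 2 / 2 ≤ Real.exp (4 * s) := Real.quadratic_le_exp_of_nonneg (by positivity)
  have h2 : Real.exp (-(4 * s)) * Real.exp (4 * s) = 1 := by
    rw [← Real.exp_add]; simp
  have h3 : (1 + 4 * s) * (1 + s) ≤ 3 * Real.exp (4 * s) := by nlinarith
  have h4 : 0 < Real.exp (-(4 * s)) := Real.exp_pos _
  calc s * Real.exp (-(4 * s)) * ((1 + 4 * s) * (1 + s)) ≤
      s * Real.exp (-(4 * s)) * (3 * Real.exp (4 * s)) := by gcongr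
    _ = 3 * s * (Real.exp (-(4 * s)) * Real.exp (4 * s)) := by ring
    _ = 3 * s := by rw [h2, mul_one]

lemma norm_qj_le (j k : ℕ) : ‖qj j k‖ ≤ 3 / 4 * (th j + ((k - 1 : ℕ) : ℝ) * th j *
    Real.exp (-(4 * (((k - 1 : ℕ) : ℝ) * th j)))) := by
  have hth := th_pos j
  unfold qj
  rw [norm_mul, norm_mul]
  have e1 : ‖(3 / 4 : ℂ)‖ = 3 / 4 := by norm_num
  have e2 : ‖((th j : ℝ) : ℂ)‖ = th j := by rw [Complex.norm_real, Real.norm_of_nonneg hth.le]
  rw [e1, e2]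
  have h1 : ‖xc j + ((k - 1 : ℕ) : ℂ) * xc j ^ (k - 1)‖ ≤ 1 + ((k - 1 : ℕ) : ℝ) *
      Real.exp (-(4 * (((k - 1 : ℕ) : ℝ) * th j))) := by
    refine (norm_add_le _ _).trans ?_
    rw [norm_mul, norm_pow, Complex.norm_natCast]
    have h2 := norm_xc_pow_le_one j 1
    rw [pow_one] at h2
    have h3 := norm_xc_pow_le j (k - 1)
    gcongr
  calc 3 / 4 * th j * ‖xc j + ((k - 1 : ℕ) : ℂ) * xc j ^ (k - 1)‖ ≤ 3 / 4 * th j *
      (1 + ((k - 1 : ℕ) : ℝ) * Real.exp (-(4 * (((k - 1 : ℕ) : ℝ) * th j)))) := by gcongr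
    _ = _ := by ring

lemma Qs_le (l k : ℕ) : Qs l k ≤ 3 / 4 * (1 / 3 * (1 - th l) + P1 ((k - 1 : ℕ) : ℝ) -
    P1 (((k - 1 : ℕ) : ℝ) * th l)) := by
  induction l with
  | zero => simp [Qs, th]
  | succ l ih =>
    have hth := th_pos (l + 1)
    have e0 : th l = 4 * th (l + 1) := by rw [th_succ]; ring
    have h1 := norm_qj_le (l + 1) k
    have h2 := P1_step (show 0 ≤ ((k - 1 : ℕ) : ℝ) * th (l + 1) by positivity)
    have e1 : ((k - 1 : ℕ) : ℝ) * th l = 4 * (((k - 1 : ℕ) : ℝ) * th (l + 1)) := by rw [e0]; ring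
    rw [e1] at ih
    have h3 : Qs (l + 1) k = Qs l k + ‖qj (l + 1) k‖ := by
      unfold Qs; rw [sum_range_succ]
    rw [h3]
    linarith

lemma P1_le_one {s : ℝ} (hs : 0 ≤ s) : P1 s ≤ 1 := by
  unfold P1; rw [div_le_one (by linarith)]; linarith
lemma P1_nonneg {s : ℝ} (hs : 0 ≤ s) : 0 ≤ P1 s := by unfold P1; positivity

lemma Qs_le_one (l k : ℕ) : Qs l k ≤ 1 := by
  have h := Qs_le l k
  have hth := th_pos l
  have h1 := P1_le_one (show 0 ≤ ((k - 1 : ℕ) : ℝ) by positivity)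
  have h2 := P1_nonneg (show 0 ≤ ((k - 1 : ℕ) : ℝ) * th l by positivity)
  linarith

lemma Qs_nonneg (l k : ℕ) : 0 ≤ Qs l k := sum_nonneg fun _ _ => norm_nonneg _

lemma Qs_succ (l k : ℕ) : Qs (l + 1) k = Qs l k + ‖qj (l + 1) k‖ := by
  unfold Qs; rw [sum_range_succ]

lemma Cc_upper (l k : ℕ) (hk : 3 ≤ k) : ‖Cc l k‖ * wt 0 k ≤ 7 * Qs l k * wt l (k - 1) := by
  induction l with
  | zero => simp [Cc_zero, Qs]
  | succ l ih =>
    rw [Cc_succ l k hk, Qs_succ]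
    have hw0 : 0 < wt 0 k := wt_pos _ _
    have h1 : ‖Ph l k * qj (l + 1) k + Cc l k * (lam (l + 1) 1 * lam (l + 1) (k - 1))‖ ≤
        ‖Ph l k‖ * ‖qj (l + 1) k‖ + ‖Cc l k‖ * ‖lam (l + 1) (k - 1)‖ := by
      refine (norm_add_le _ _).trans ?_
      rw [norm_mul, norm_mul, norm_mul]
      have := lam_le_one (l + 1) 1
      have h0 := norm_nonneg (lam (l + 1) (k - 1))
      have h00 := norm_nonneg (Cc l k)
      have : ‖lam (l + 1) 1‖ * ‖lam (l + 1) (k - 1)‖ ≤ 1 * ‖lam (l + 1) (k - 1)‖ :=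
        mul_le_mul_of_nonneg_right this h0
      rw [one_mul] at this
      have := mul_le_mul_of_nonneg_left this h00
      linarith
    have h2 := Ph_upper l k
    have h3 := lam_wt l (k - 1)
    have h4 : wt l k ≤ 7 * wt (l + 1) (k - 1) := by
      have a1 := wt_submul l 1 (k - 1)
      have e : 1 + (k - 1) = k := by omega
      rw [e] at a1
      have a2 : wt l 1 ≤ 7 / 4 := by
        unfold wt; have := th_le_one l; push_cast; linarith
      have a3 := wt_le_four l (k - 1)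
      have a4 := wt_pos l (k - 1)
      have a5 := wt_pos (l + 1) (k - 1)
      calc wt l k ≤ wt l 1 * wt l (k - 1) := a1
        _ ≤ 7 / 4 * (4 * wt (l + 1) (k - 1)) := by gcongr
        _ = _ := by ring
    have n1 := norm_nonneg (qj (l + 1) k)
    have n2 := norm_nonneg (lam (l + 1) (k - 1))
    have n3 := Qs_nonneg l k
    calc ‖Ph l k * qj (l + 1) k + Cc l k * (lam (l + 1) 1 * lam (l + 1) (k - 1))‖ * wt 0 k ≤
        (‖Ph l k‖ * ‖qj (l + 1) k‖ + ‖Cc l k‖ * ‖lam (l + 1) (k - 1)‖) * wt 0 k := by gcongr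
      _ = (‖Ph l k‖ * wt 0 k) * ‖qj (l + 1) k‖ + (‖Cc l k‖ * wt 0 k) * ‖lam (l + 1) (k - 1)‖ := by ring
      _ ≤ (7 * wt (l + 1) (k - 1)) * ‖qj (l + 1) k‖ +
          (7 * Qs l k * wt l (k - 1)) * ‖lam (l + 1) (k - 1)‖ :=
          add_le_add (mul_le_mul_of_nonneg_right (h2.trans h4) n1)
            (mul_le_mul_of_nonneg_right ih n2)
      _ = (7 * wt (l + 1) (k - 1)) * ‖qj (l + 1) k‖ +
          7 * Qs l k * (‖lam (l + 1) (k - 1)‖ * wt l (k - 1)) := by ring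
      _ ≤ (7 * wt (l + 1) (k - 1)) * ‖qj (l + 1) k‖ + 7 * Qs l k * wt (l + 1) (k - 1) := by gcongr
      _ = _ := by ring

/-- multiplier near a zero. -/
lemma lam_near (j m : ℕ) {δ : ℝ} (h : |4 * (m * th j) - 1| ≤ 2 * δ) (hδ : 7 * δ ≤ 1) :
    ‖lam j m‖ ≤ 4 * δ := by
  have hδ0 : 0 ≤ δ := by
    have := abs_nonneg (4 * (m * th j) - 1); linarith
  unfold lam
  rw [xc_pow]
  set s : ℝ := 4 * (m * th j) - 1 with hs
  have e1 : (3 : ℂ) * Complex.exp (-(Ac * ((m * th j : ℝ) : ℂ))) = -Complex.exp (-(Ac * ((s / 4 : ℝ) : ℂ))) := by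
    have h3 : (3 : ℂ) = Complex.exp ((Real.log 3 : ℝ) : ℂ) := by
      rw [← Complex.ofReal_exp, Real.exp_log (by norm_num)]; norm_num
    have hpi : Complex.exp (-(Real.pi * Complex.I)) = -1 := by
      rw [Complex.exp_neg, Complex.exp_pi_mul_I]; norm_num
    have e2 : -(Ac * ((m * th j : ℝ) : ℂ)) = -(Ac * ((s / 4 : ℝ) : ℂ)) + -((Real.log 3 : ℝ) : ℂ) +
        -(Real.pi * Complex.I) := by
      have : (m * th j : ℝ) = s / 4 + 1 / 4 := by rw [hs]; ring
      rw [this]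
      unfold Ac
      push_cast
      ring
    rw [e2, Complex.exp_add, Complex.exp_add, hpi]
    have : (3 : ℂ) * Complex.exp (-((Real.log 3 : ℝ) : ℂ)) = 1 := by
      nth_rewrite 1 [h3]
      rw [← Complex.exp_add]; simp
    calc (3 : ℂ) * (Complex.exp (-(Ac * ((s / 4 : ℝ) : ℂ))) * Complex.exp (-((Real.log 3 : ℝ) : ℂ)) * -1)
        = -((3 : ℂ) * Complex.exp (-((Real.log 3 : ℝ) : ℂ))) * Complex.exp (-(Ac * ((s / 4 : ℝ) : ℂ))) := by ring
      _ = _ := by rw [this]; ring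
  rw [e1]
  have h1 : ‖-(Ac * ((s / 4 : ℝ) : ℂ))‖ ≤ 7 * δ := by
    rw [norm_neg, norm_mul, Complex.norm_real, Real.norm_eq_abs, abs_div]
    have := norm_Ac
    have a4 : |(4 : ℝ)| = 4 := by norm_num
    rw [a4]
    have h0 := abs_nonneg s
    calc ‖Ac‖ * (|s| / 4) ≤ 14 * (2 * δ / 4) := by gcongr
      _ = _ := by ring
  have h2 := Complex.norm_exp_sub_one_le (h1.trans hδ)
  rw [norm_div]
  have e4 : ‖(4 : ℂ)‖ = 4 := by norm_num
  rw [e4]
  have e5 : (1 : ℂ) + -Complex.exp (-(Ac * ((s / 4 : ℝ) : ℂ))) =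
      -(Complex.exp (-(Ac * ((s / 4 : ℝ) : ℂ))) - 1) := by ring
  rw [e5, norm_neg]
  linarith

/-- the window width. -/
def d0 : ℝ := 1 / 10 ^ 11

lemma Pa_step {y : ℝ} (hy : 0 ≤ y) (hy1 : y ≤ 1 / 11) {N : ℝ} (hN : 1 - 11 * y ≤ N) :
    1 - 11 / 3 * (4 * y) ≤ N * (1 - 11 / 3 * y) := by
  have h1 : (1 - 11 * y) * (1 - 11 / 3 * y) ≤ N * (1 - 11 / 3 * y) :=
    mul_le_mul_of_nonneg_right hN (by linarith)
  nlinarith

theorem Cc_lower (l k i : ℕ) (hk : 3 ≤ k) (hodd : Odd k) (hi : i + 1 ≤ l)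
    (hw : |k * th i - 1| < d0) : 1 / 10 ^ 10 * wt l k ≤ ‖Cc l k‖ * wt 0 k := by
  have hd0 : d0 = 1 / 10 ^ 11 := rfl
  have hthi := th_pos i
  -- `th i < d0`
  have h4 : (4 : ℝ) ^ i * th i = 1 := by
    unfold th; rw [← mul_pow]; norm_num
  have hne : (k : ℤ) - 4 ^ i ≠ 0 := by
    intro h0
    rcases Nat.eq_zero_or_pos i with rfl | hpos
    · simp at h0; omega
    · have : Even ((4 : ℤ) ^ i) := by
        apply Even.pow_of_ne_zero _ (by omega); decide
      have hk' : Odd (k : ℤ) := by exact_mod_cast hodd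
      have e : (k : ℤ) = 4 ^ i := by linarith
      rw [e] at hk'
      exact (Int.not_odd_iff_even.2 this) hk'
  have habs : (1 : ℝ) ≤ |(k : ℝ) - 4 ^ i| := by
    have := Int.one_le_abs hne
    have h' : ((1 : ℤ) : ℝ) ≤ ((|(k : ℤ) - 4 ^ i| : ℤ) : ℝ) := by exact_mod_cast this
    push_cast at h'
    exact h'
  have hth : th i < d0 := by
    have : |k * th i - 1| = |(k : ℝ) - 4 ^ i| * th i := by
      have e : (k : ℝ) * th i - 1 = ((k : ℝ) - 4 ^ i) * th i := by rw [sub_mul, h4]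
      rw [e, abs_mul, abs_of_pos hthi]
    rw [this] at hw
    nlinarith
  have hw' := abs_lt.1 hw
  have hk1 : ((k - 1 : ℕ) : ℝ) = k - 1 := by
    rw [Nat.cast_sub (by omega)]; simp
  -- levels
  have hth1 : th (i + 1) = th i / 4 := th_succ i
  have hth1p := th_pos (i + 1)
  have a1 : |4 * (k * th (i + 1)) - 1| ≤ 2 * d0 := by
    rw [hth1, abs_le]; constructor <;> linarith
  have a2 : |4 * (((k - 1 : ℕ) : ℝ) * th (i + 1)) - 1| ≤ 2 * d0 := by
    rw [hth1, hk1, abs_le]; constructor <;> linarith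
  have L1 : ‖lam (i + 1) k‖ ≤ 4 * d0 := lam_near (i + 1) k a1 (by rw [hd0]; norm_num)
  have L2 : ‖lam (i + 1) (k - 1)‖ ≤ 4 * d0 := lam_near (i + 1) (k - 1) a2 (by rw [hd0]; norm_num)
  have hwi : wt i k ≤ 2 := by
    unfold wt; rw [hd0] at hw'; linarith
  have hwi1 : 1 ≤ wt i k := one_le_wt _ _
  -- Φ before the window
  have hP : 1 / 36000 * wt i k ≤ ‖Ph i k‖ * wt 0 k := by
    have := Ph_lower (δ := 1 / 2) (by norm_num) i k hk (fun j hj => by
      have e1 : th i = th (j + 1) * th (i - (j + 1)) := by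
        unfold th; rw [← pow_add]; congr 1; omega
      have e2 := th_le_one (i - (j + 1))
      have e3 := th_pos (j + 1)
      have e4 : th i ≤ th j / 4 := by
        rw [← th_succ, e1]; nlinarith
      have hk0 : (3 : ℝ) ≤ k := by exact_mod_cast hk
      have e5 : 4 * (k * th i) ≤ k * th j := by nlinarith
      rw [hd0] at hw'
      refine le_trans ?_ (le_abs_self _)
      linarith)
    refine le_trans ?_ this
    apply mul_le_mul_of_nonneg_right _ (wt_pos _ _).le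
    have h3 : (1 / 10 : ℝ) ^ 3 ≤ (et (1 / 2)) ^ 3 := pow_le_pow_left₀ (by norm_num) et_half 3
    linarith
  -- lower bound of q
  have hq : 1 / 200 ≤ ‖qj (i + 1) k‖ := by
    unfold qj
    rw [norm_mul, norm_mul]
    have e1 : ‖(3 / 4 : ℂ)‖ = 3 / 4 := by norm_num
    have e2 : ‖((th (i + 1) : ℝ) : ℂ)‖ = th (i + 1) := by
      rw [Complex.norm_real, Real.norm_of_nonneg hth1p.le]
    rw [e1, e2]
    have h1 : ((k - 1 : ℕ) : ℝ) * ‖xc (i + 1)‖ ^ (k - 1) - 1 ≤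
        ‖xc (i + 1) + ((k - 1 : ℕ) : ℂ) * xc (i + 1) ^ (k - 1)‖ := by
      have := norm_sub_norm_le (((k - 1 : ℕ) : ℂ) * xc (i + 1) ^ (k - 1)) (-(xc (i + 1)))
      rw [sub_neg_eq_add, norm_neg, norm_mul, norm_pow, Complex.norm_natCast,
        add_comm (((k - 1 : ℕ) : ℂ) * xc (i + 1) ^ (k - 1))] at this
      have h2 := norm_xc_pow_le_one (i + 1) 1
      rw [pow_one] at h2
      linarith
    have h2 : 1 / 9 ≤ ‖xc (i + 1)‖ ^ (k - 1) := by
      rw [norm_xc_pow]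
      have e3 : (1 / 9 : ℝ) = Real.exp (-(2 * Real.log 3)) := by
        have : -(2 * Real.log 3) = -Real.log 3 + -Real.log 3 := by ring
        rw [this, Real.exp_add, Real.exp_neg, Real.exp_log (by norm_num)]
        norm_num
      rw [e3]
      apply Real.exp_le_exp.2
      have hL := log3_ge
      have hs : ((k - 1 : ℕ) : ℝ) * th (i + 1) ≤ 1 / 2 := by
        have := (abs_le.1 a2).2
        rw [hd0] at this; linarith
      nlinarith
    have hs : 1 / 8 ≤ ((k - 1 : ℕ) : ℝ) * th (i + 1) := by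
      have := (abs_le.1 a2).1
      rw [hd0] at this; linarith
    have h5 : 1 / 72 - th (i + 1) ≤ th (i + 1) *
        ‖xc (i + 1) + ((k - 1 : ℕ) : ℂ) * xc (i + 1) ^ (k - 1)‖ := by
      have := mul_le_mul_of_nonneg_left h1 hth1p.le
      have h6 : 1 / 72 ≤ (((k - 1 : ℕ) : ℝ) * th (i + 1)) * ‖xc (i + 1)‖ ^ (k - 1) := by
        calc (1 / 72 : ℝ) = 1 / 8 * (1 / 9) := by norm_num
          _ ≤ _ := by gcongr
      linarith
    have h7 : th (i + 1) < d0 := by linarith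
    rw [hd0] at h7
    linarith
  -- C at the level i+1
  have hCi := Cc_upper i k hk
  have hC1 : 1 / 14400000 ≤ ‖Cc (i + 1) k‖ * wt 0 k - 0 := by
    rw [Cc_succ i k hk]
    have hw0 : 0 < wt 0 k := wt_pos _ _
    have h1 : ‖Ph i k‖ * ‖qj (i + 1) k‖ - ‖Cc i k‖ * (4 * d0) ≤
        ‖Ph i k * qj (i + 1) k + Cc i k * (lam (i + 1) 1 * lam (i + 1) (k - 1))‖ := by
      have := norm_sub_norm_le (Ph i k * qj (i + 1) k)
        (-(Cc i k * (lam (i + 1) 1 * lam (i + 1) (k - 1))))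
      rw [sub_neg_eq_add, norm_neg, norm_mul, norm_mul, norm_mul] at this
      have h2 : ‖lam (i + 1) 1‖ * ‖lam (i + 1) (k - 1)‖ ≤ 1 * (4 * d0) := by
        apply mul_le_mul (lam_le_one _ _) L2 (norm_nonneg _) (by norm_num)
      have h3 := mul_le_mul_of_nonneg_left h2 (norm_nonneg (Cc i k))
      linarith
    have h2 : wt i (k - 1) ≤ 2 := (wt_mono_le i (by omega)).trans hwi
    have h3 : ‖Cc i k‖ * wt 0 k ≤ 14 := by
      have q1 := Qs_le_one i k
      have q0 := Qs_nonneg i k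
      have w0 := wt_pos i (k - 1)
      calc ‖Cc i k‖ * wt 0 k ≤ 7 * Qs i k * wt i (k - 1) := hCi
        _ ≤ 7 * 1 * 2 := by gcongr
        _ = 14 := by norm_num
    have h4 : 1 / 7200000 ≤ (‖Ph i k‖ * wt 0 k) * ‖qj (i + 1) k‖ := by
      calc (1 / 7200000 : ℝ) = (1 / 36000 * 1) * (1 / 200) := by norm_num
        _ ≤ (1 / 36000 * wt i k) * (1 / 200) := by gcongr
        _ ≤ _ := by gcongr
    have h5 := mul_le_mul_of_nonneg_right h1 hw0.le
    have h6 : (‖Ph i k‖ * ‖qj (i + 1) k‖ - ‖Cc i k‖ * (4 * d0)) * wt 0 k =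
        (‖Ph i k‖ * wt 0 k) * ‖qj (i + 1) k‖ - (‖Cc i k‖ * wt 0 k) * (4 * d0) := by ring
    rw [h6] at h5
    have h7 : (‖Cc i k‖ * wt 0 k) * (4 * d0) ≤ 14 * (4 * d0) := by
      gcongr
      rw [hd0]; norm_num
    rw [hd0] at h7 h5
    linarith
  rw [sub_zero] at hC1
  -- Φ after the window
  have hPa : ∀ l, i + 1 ≤ l → ‖Ph l k‖ * wt 0 k ≤ 8 * d0 := by
    intro l hl
    induction l, hl using Nat.le_induction with
    | base =>
      rw [Ph, norm_mul]
      have h1 := Ph_upper i k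
      calc ‖Ph i k‖ * ‖lam (i + 1) k‖ * wt 0 k = (‖Ph i k‖ * wt 0 k) * ‖lam (i + 1) k‖ := by ring
        _ ≤ 2 * (4 * d0) := mul_le_mul (h1.trans hwi) L1 (norm_nonneg _) (by norm_num)
        _ = _ := by ring
    | succ n _ ih =>
      rw [Ph, norm_mul]
      have h1 := lam_le_one (n + 1) k
      have hA : 0 ≤ ‖Ph n k‖ * wt 0 k := mul_nonneg (norm_nonneg _) (wt_pos _ _).le
      calc ‖Ph n k‖ * ‖lam (n + 1) k‖ * wt 0 k = (‖Ph n k‖ * wt 0 k) * ‖lam (n + 1) k‖ := by ring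
        _ ≤ (‖Ph n k‖ * wt 0 k) * 1 := mul_le_mul_of_nonneg_left h1 hA
        _ ≤ _ := by rw [mul_one]; exact ih
  -- main recursion
  have hg : ∀ l, i + 1 ≤ l → th l ≤ th (i + 1) := by
    intro l hl
    unfold th
    exact pow_le_pow_of_le_one (by norm_num) (by norm_num) hl
  set g : ℕ → ℝ := fun l => (1 - 11 / 3 * ((1 : ℕ) * th l)) * (1 - 11 / 3 * (((k - 1 : ℕ) : ℝ) * th l)) with hgdef
  have hks : ((k - 1 : ℕ) : ℝ) * th (i + 1) ≤ (1 + 2 * d0) / 4 := by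
    have := (abs_le.1 a2).2
    linarith
  have hy' : ∀ l, i + 1 ≤ l → ((k - 1 : ℕ) : ℝ) * th l ≤ (1 + 2 * d0) / 4 := by
    intro l hl
    refine le_trans ?_ hks
    exact mul_le_mul_of_nonneg_left (hg l hl) (Nat.cast_nonneg _)
  have hrec : ∀ l, i + 1 ≤ l → (1 / 14400000) * g (i + 1) - 8 * d0 * (Qs l k - Qs (i + 1) k) ≤
      (‖Cc l k‖ * wt 0 k) * g l := by
    intro l hl
    induction l, hl using Nat.le_induction with
    | base =>
      rw [sub_self, mul_zero, sub_zero]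
      apply mul_le_mul_of_nonneg_right hC1
      simp only [hgdef]
      have h1 := hy' (i + 1) le_rfl
      rw [hd0] at h1 hth
      apply mul_nonneg
      · push_cast; linarith
      · linarith
    | succ n hn ih =>
      have hthn := th_pos (n + 1)
      have hy1 : (0 : ℝ) ≤ ((k - 1 : ℕ) : ℝ) * th (n + 1) := by positivity
      have e4 : th n = 4 * th (n + 1) := by rw [th_succ]; ring
      have hyn := hy' n hn
      rw [e4] at hyn
      have hgn := hg n hn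
      rw [e4] at hgn
      rw [hd0] at hyn hth
      have s1 := Pa_step (y := ((1 : ℕ) : ℝ) * th (n + 1)) (by positivity) (by push_cast; linarith)
        (lam_small (n + 1) 1)
      have s2 := Pa_step (y := ((k - 1 : ℕ) : ℝ) * th (n + 1)) hy1 (by linarith)
        (lam_small (n + 1) (k - 1))
      have g1 : g n ≤ ‖lam (n + 1) 1‖ * ‖lam (n + 1) (k - 1)‖ * g (n + 1) := by
        simp only [hgdef]
        rw [e4]
        have r1 : 0 ≤ 1 - 11 / 3 * (4 * (((1 : ℕ) : ℝ) * th (n + 1))) := by push_cast; linarith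
        have r2 : 0 ≤ 1 - 11 / 3 * (4 * (((k - 1 : ℕ) : ℝ) * th (n + 1))) := by linarith
        calc (1 - 11 / 3 * (((1 : ℕ) : ℝ) * (4 * th (n + 1)))) *
              (1 - 11 / 3 * (((k - 1 : ℕ) : ℝ) * (4 * th (n + 1)))) =
            (1 - 11 / 3 * (4 * (((1 : ℕ) : ℝ) * th (n + 1)))) *
              (1 - 11 / 3 * (4 * (((k - 1 : ℕ) : ℝ) * th (n + 1)))) := by ring
          _ ≤ (‖lam (n + 1) 1‖ * (1 - 11 / 3 * (((1 : ℕ) : ℝ) * th (n + 1)))) *
              (‖lam (n + 1) (k - 1)‖ * (1 - 11 / 3 * (((k - 1 : ℕ) : ℝ) * th (n + 1)))) :=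
              mul_le_mul s1 s2 r2 (r1.trans s1)
          _ = _ := by ring
      have g0 : 0 ≤ g (n + 1) ∧ g (n + 1) ≤ 1 := by
        simp only [hgdef]
        have r1 : 0 ≤ 1 - 11 / 3 * (((1 : ℕ) : ℝ) * th (n + 1)) := by push_cast; linarith
        have r2 : 0 ≤ 1 - 11 / 3 * (((k - 1 : ℕ) : ℝ) * th (n + 1)) := by linarith
        refine ⟨mul_nonneg r1 r2, ?_⟩
        apply mul_le_one₀ _ r2 _
        · have : 0 ≤ ((1 : ℕ) : ℝ) * th (n + 1) := by positivity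
          linarith
        · linarith
      have hD0 : 0 ≤ ‖Cc n k‖ * wt 0 k := mul_nonneg (norm_nonneg _) (wt_pos _ _).le
      have h1 : (‖Cc n k‖ * wt 0 k) * (‖lam (n + 1) 1‖ * ‖lam (n + 1) (k - 1)‖) -
          8 * d0 * ‖qj (n + 1) k‖ ≤ ‖Cc (n + 1) k‖ * wt 0 k := by
        rw [Cc_succ n k hk]
        have := norm_sub_norm_le (Cc n k * (lam (n + 1) 1 * lam (n + 1) (k - 1)))
          (-(Ph n k * qj (n + 1) k))
        rw [sub_neg_eq_add, norm_neg, norm_mul, norm_mul, norm_mul,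
          add_comm (Cc n k * (lam (n + 1) 1 * lam (n + 1) (k - 1)))] at this
        have h2 := mul_le_mul_of_nonneg_right this (wt_pos 0 k).le
        have h3 := mul_le_mul_of_nonneg_right (hPa n hn) (norm_nonneg (qj (n + 1) k))
        have h4 : (‖Cc n k‖ * (‖lam (n + 1) 1‖ * ‖lam (n + 1) (k - 1)‖) -
            ‖Ph n k‖ * ‖qj (n + 1) k‖) * wt 0 k =
            (‖Cc n k‖ * wt 0 k) * (‖lam (n + 1) 1‖ * ‖lam (n + 1) (k - 1)‖) -
            (‖Ph n k‖ * wt 0 k) * ‖qj (n + 1) k‖ := by ring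
        rw [h4] at h2
        linarith
      have h2 := mul_le_mul_of_nonneg_right h1 g0.1
      have h3 := mul_le_mul_of_nonneg_left g1 hD0
      have hd0p : 0 < d0 := by rw [hd0]; norm_num
      have h5 : 8 * d0 * ‖qj (n + 1) k‖ * g (n + 1) ≤ 8 * d0 * ‖qj (n + 1) k‖ * 1 := by
        apply mul_le_mul_of_nonneg_left g0.2 (by positivity)
      rw [Qs_succ n k]
      linarith
  have hfin := hrec l hi
  have hgi : 1 / 48 ≤ g (i + 1) := by
    simp only [hgdef]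
    have h1 := hy' (i + 1) le_rfl
    rw [hd0] at h1 hth
    have r1 : (1 : ℝ) / 2 ≤ 1 - 11 / 3 * (((1 : ℕ) : ℝ) * th (i + 1)) := by push_cast; linarith
    have r2 : (1 : ℝ) / 24 ≤ 1 - 11 / 3 * (((k - 1 : ℕ) : ℝ) * th (i + 1)) := by linarith
    calc (1 / 48 : ℝ) = 1 / 2 * (1 / 24) := by norm_num
      _ ≤ _ := mul_le_mul r1 r2 (by norm_num) (by linarith)
  have hgl : g l ≤ 1 := by
    simp only [hgdef]
    have h1 := hy' l hi
    have h2 := hg l hi
    have h3 := th_pos l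
    rw [hd0] at h1 hth
    apply mul_le_one₀
    · have : 0 ≤ ((1 : ℕ) : ℝ) * th l := by positivity
      linarith
    · linarith
    · have : 0 ≤ ((k - 1 : ℕ) : ℝ) * th l := by positivity
      linarith
  have hD0 : 0 ≤ ‖Cc l k‖ * wt 0 k := mul_nonneg (norm_nonneg _) (wt_pos _ _).le
  have h1 : (‖Cc l k‖ * wt 0 k) * g l ≤ (‖Cc l k‖ * wt 0 k) * 1 := mul_le_mul_of_nonneg_left hgl hD0
  have h2 := Qs_le_one l k
  have h3 := Qs_nonneg (i + 1) k
  have h5 : wt l k ≤ 2 := (wt_anti k (by omega : i ≤ l)).trans hwi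
  rw [hd0] at hfin
  linarith

end
end Pool.Agent.Lib_helper91.Tree
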