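import Pool.Agent.Lib_helper91.TreeD
import Pool.Agent.Lib_helper91.TreeF

set_option autoImplicit false

namespace Pool.Agent.Lib_helper91.Tree

noncomputable section
open Finset

/-- the constant of the lower bounds. -/
def cc : ℝ := min ((et d0) ^ 3 / 36) (1 / 10 ^ 10)

lemma cc_pos : 0 < cc := by
  unfold cc
  apply lt_min
  · have := et_pos (show 0 < d0 by unfold d0; norm_num)
    positivity
  · norm_num

lemma cc_le : cc ≤ 1 / 10 ^ 10 := min_le_right _ _

/-- resonance windows. -/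
def Win (l k : ℕ) : Prop := ∃ i, i + 1 ≤ l ∧ |(k : ℝ) * th i - 1| < d0

lemma Ph_cc (l k : ℕ) (hk : 3 ≤ k) (h : ¬ Win l k) : cc * wt l k ≤ ‖Ph l k‖ * wt 0 k := by
  refine le_trans (mul_le_mul_of_nonneg_right (min_le_left _ _) (wt_pos _ _).le)
    (Ph_lower (show 0 < d0 by unfold d0; norm_num) l k hk ?_)
  intro i hi
  by_contra hc
  exact h ⟨i, hi, not_le.1 hc⟩

lemma Cc_cc (l k : ℕ) (hk : 3 ≤ k) (hodd : Odd k) (h : Win l k) :
    cc * wt l k ≤ ‖Cc l k‖ * wt 0 k := by
  obtain ⟨i, hi, hw⟩ := h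
  exact le_trans (mul_le_mul_of_nonneg_right (min_le_right _ _) (wt_pos _ _).le)
    (Cc_lower l k i hk hodd hi hw)

open Classical in
/-- the successive approximations. -/
def Pp (l : ℕ) (ε : ℝ) : ℕ → PowerSeries ℂ
  | 0 => PowerSeries.monomial 1 (ε : ℂ)
  | (j + 1) => if Win l (2 * j + 3) then
      Pp l ε j - PowerSeries.monomial (2 * j + 2)
        (PowerSeries.coeff (2 * j + 3) (NN l (Pp l ε j)) / (ε * Cc l (2 * j + 3)))
    else Pp l ε j - PowerSeries.monomial (2 * j + 3)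
        (PowerSeries.coeff (2 * j + 3) (NN l (Pp l ε j)) / Ph l (2 * j + 3))

lemma Pp_stable_succ (l : ℕ) (ε : ℝ) (j n : ℕ) (hn : n ≤ 2 * j + 1) :
    PowerSeries.coeff n (Pp l ε (j + 1)) = PowerSeries.coeff n (Pp l ε j) := by
  rw [Pp]
  split_ifs
  · rw [map_sub, PowerSeries.coeff_monomial, if_neg (by omega), sub_zero]
  · rw [map_sub, PowerSeries.coeff_monomial, if_neg (by omega), sub_zero]

lemma Pp_stable (l : ℕ) (ε : ℝ) (j J n : ℕ) (hJ : j ≤ J) (hn : n ≤ 2 * j + 1) :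
    PowerSeries.coeff n (Pp l ε J) = PowerSeries.coeff n (Pp l ε j) := by
  induction J, hJ using Nat.le_induction with
  | base => rfl
  | succ J hJ ih => rw [Pp_stable_succ l ε J n (by omega), ih]

lemma Pp_high (l : ℕ) (ε : ℝ) (j n : ℕ) (hn : 2 * j + 1 < n) :
    PowerSeries.coeff n (Pp l ε j) = 0 := by
  induction j with
  | zero => rw [Pp, PowerSeries.coeff_monomial, if_neg (by omega)]
  | succ j ih =>
    rw [Pp]
    split_ifs
    · rw [map_sub, PowerSeries.coeff_monomial, if_neg (by omega), sub_zero, ih (by omega)]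
    · rw [map_sub, PowerSeries.coeff_monomial, if_neg (by omega), sub_zero, ih (by omega)]

lemma Pp_zero (l : ℕ) (ε : ℝ) (j : ℕ) : PowerSeries.coeff 0 (Pp l ε j) = 0 := by
  rw [Pp_stable l ε 0 j 0 (by omega) (by omega), Pp, PowerSeries.coeff_monomial, if_neg (by omega)]

lemma Pp_one (l : ℕ) (ε : ℝ) (j : ℕ) : PowerSeries.coeff 1 (Pp l ε j) = ε := by
  rw [Pp_stable l ε 0 j 1 (by omega) (by omega), Pp, PowerSeries.coeff_monomial, if_pos rfl]

/-- the defect at step `j`. -/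
def Rj (l : ℕ) (ε : ℝ) (j : ℕ) : ℂ := PowerSeries.coeff (2 * j + 3) (NN l (Pp l ε j))

lemma Rj_eq (l : ℕ) (ε : ℝ) (j J : ℕ) (hJ : j ≤ J) : Rj l ε j = Rm l (Pp l ε J) (2 * j + 3) := by
  have h := NN_local l (G := Pp l ε J) (G' := Pp l ε j) (Pp_zero _ _ _) (Pp_zero _ _ _) (2 * j)
    (fun n hn => Pp_stable l ε j J n hJ hn)
  rw [Pp_high l ε j (2 * j + 3) (by omega), Pp_high l ε j (2 * j + 2) (by omega), sub_zero,
    sub_zero, smul_eq_mul, smul_eq_mul] at h
  unfold Rj Rm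
  have e : 2 * j + 3 - 1 = 2 * j + 2 := by omega
  rw [e]
  linear_combination -h

lemma Pp_kill (l : ℕ) {ε : ℝ} (hε : 0 < ε) (j : ℕ) :
    PowerSeries.coeff (2 * j + 3) (NN l (Pp l ε (j + 1))) = 0 := by
  have h := NN_local l (G := Pp l ε (j + 1)) (G' := Pp l ε j) (Pp_zero _ _ _) (Pp_zero _ _ _) (2 * j)
    (fun n hn => Pp_stable_succ l ε j n hn)
  rw [Pp_high l ε j (2 * j + 3) (by omega), Pp_high l ε j (2 * j + 2) (by omega), sub_zero,
    sub_zero, smul_eq_mul, smul_eq_mul, Pp_one] at h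
  have hε' : (ε : ℂ) ≠ 0 := by exact_mod_cast hε.ne'
  have hodd : Odd (2 * j + 3) := ⟨j + 1, by omega⟩
  by_cases hw : Win l (2 * j + 3)
  · have e1 : PowerSeries.coeff (2 * j + 3) (Pp l ε (j + 1)) = 0 := by
      rw [Pp, if_pos hw, map_sub, PowerSeries.coeff_monomial, if_neg (by omega), sub_zero,
        Pp_high l ε j _ (by omega)]
    have e2 : PowerSeries.coeff (2 * j + 2) (Pp l ε (j + 1)) =
        -(PowerSeries.coeff (2 * j + 3) (NN l (Pp l ε j)) / (ε * Cc l (2 * j + 3))) := by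
      rw [Pp, if_pos hw, map_sub, PowerSeries.coeff_monomial, if_pos rfl,
        Pp_high l ε j _ (by omega), zero_sub]
    have hC : Cc l (2 * j + 3) ≠ 0 := by
      intro h0
      have := Cc_cc l (2 * j + 3) (by omega) hodd hw
      rw [h0, norm_zero, zero_mul] at this
      have h1 := mul_pos cc_pos (wt_pos l (2 * j + 3))
      linarith
    rw [e1, e2, mul_zero, zero_add] at h
    have e3 : Cc l (2 * j + 3) * (ε * -(PowerSeries.coeff (2 * j + 3) (NN l (Pp l ε j)) /
        (ε * Cc l (2 * j + 3)))) = -PowerSeries.coeff (2 * j + 3) (NN l (Pp l ε j)) := by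
      field_simp
    rw [e3] at h
    linear_combination h
  · have e1 : PowerSeries.coeff (2 * j + 3) (Pp l ε (j + 1)) =
        -(PowerSeries.coeff (2 * j + 3) (NN l (Pp l ε j)) / Ph l (2 * j + 3)) := by
      rw [Pp, if_neg hw, map_sub, PowerSeries.coeff_monomial, if_pos rfl,
        Pp_high l ε j _ (by omega), zero_sub]
    have e2 : PowerSeries.coeff (2 * j + 2) (Pp l ε (j + 1)) = 0 := by
      rw [Pp, if_neg hw, map_sub, PowerSeries.coeff_monomial, if_neg (by omega), sub_zero,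
        Pp_high l ε j _ (by omega)]
    have hC : Ph l (2 * j + 3) ≠ 0 := by
      intro h0
      have := Ph_cc l (2 * j + 3) (by omega) hw
      rw [h0, norm_zero, zero_mul] at this
      have h1 := mul_pos cc_pos (wt_pos l (2 * j + 3))
      linarith
    rw [e1, e2, mul_zero, mul_zero, add_zero] at h
    have e3 : Ph l (2 * j + 3) * -(PowerSeries.coeff (2 * j + 3) (NN l (Pp l ε j)) /
        Ph l (2 * j + 3)) = -PowerSeries.coeff (2 * j + 3) (NN l (Pp l ε j)) := by
      field_simp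
    rw [e3] at h
    linear_combination h

lemma T_add_le {w : ℕ → ℝ} (hw : ∀ k, 0 ≤ w k) (M : ℕ) (F G : PowerSeries ℂ) :
    T nuC w M (F + G) ≤ T nuC w M F + T nuC w M G := by
  unfold T
  rw [← sum_add_distrib]
  apply sum_le_sum
  intro k _
  rw [← mul_add, map_add]
  exact mul_le_mul_of_nonneg_left (norm_add_le _ _) (hw k)

lemma T_monomial_le {w : ℕ → ℝ} (hw : ∀ k, 0 ≤ w k) (M n : ℕ) (a : ℂ) :
    T nuC w M (PowerSeries.monomial n a) ≤ w n * ‖a‖ := by
  unfold T
  by_cases hn : n ∈ range (M + 1)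
  · rw [sum_eq_single_of_mem n hn]
    · rw [PowerSeries.coeff_monomial, if_pos rfl]; rfl
    · intro k _ hk
      rw [PowerSeries.coeff_monomial, if_neg hk, nuC.zero, mul_zero]
  · rw [sum_eq_zero]
    · exact mul_nonneg (hw n) (norm_nonneg _)
    · intro k hk
      rw [PowerSeries.coeff_monomial, if_neg (by rintro rfl; exact hn hk), nuC.zero, mul_zero]

/-- cost of a step. -/
lemma step_cost (l : ℕ) {ε : ℝ} (hε : 0 < ε) (hε1 : ε ≤ 1) (j M : ℕ) :
    T nuC (wt l) M (tl (Pp l ε (j + 1))) ≤ T nuC (wt l) M (tl (Pp l ε j)) +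
      wt 0 (2 * j + 3) * ‖Rj l ε j‖ / (cc * ε) := by
  have hodd : Odd (2 * j + 3) := ⟨j + 1, by omega⟩
  have hcc := cc_pos
  have hw0 : ∀ k, 0 ≤ wt l k := fun k => (wt_pos l k).le
  have htl : ∀ (F : PowerSeries ℂ) (n : ℕ) (a : ℂ), 2 ≤ n →
      tl (F - PowerSeries.monomial n a) = tl F + PowerSeries.monomial n (-a) := by
    intro F n a hn
    ext k
    rw [tl_coeff, map_add, tl_coeff, map_sub, PowerSeries.coeff_monomial, PowerSeries.coeff_monomial]
    split_ifs with h1 h2 h2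
    · omega
    · simp
    · ring
    · ring
  by_cases hw : Win l (2 * j + 3)
  · rw [Pp, if_pos hw, htl _ _ _ (by omega)]
    refine (T_add_le hw0 M _ _).trans (add_le_add le_rfl ?_)
    refine (T_monomial_le hw0 M _ _).trans ?_
    have h1 := Cc_cc l (2 * j + 3) (by omega) hodd hw
    have hCp : 0 < ‖Cc l (2 * j + 3)‖ := by
      have h2 := mul_pos cc_pos (wt_pos l (2 * j + 3))
      by_contra hc
      have : ‖Cc l (2 * j + 3)‖ = 0 := le_antisymm (not_lt.1 hc) (norm_nonneg _)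
      rw [this, zero_mul] at h1
      linarith
    rw [norm_neg, norm_div, norm_mul, Complex.norm_real, Real.norm_of_nonneg hε.le]
    have h2 : wt l (2 * j + 2) ≤ wt l (2 * j + 3) := wt_mono_le l (by omega)
    rw [mul_div_assoc', div_le_div_iff₀ (by positivity) (by positivity)]
    have hR := norm_nonneg (Rj l ε j)
    calc wt l (2 * j + 2) * ‖PowerSeries.coeff (2 * j + 3) (NN l (Pp l ε j))‖ * (cc * ε)
        ≤ wt l (2 * j + 3) * ‖PowerSeries.coeff (2 * j + 3) (NN l (Pp l ε j))‖ * (cc * ε) := by gcongr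
      _ = (cc * wt l (2 * j + 3)) * (‖PowerSeries.coeff (2 * j + 3) (NN l (Pp l ε j))‖ * ε) := by ring
      _ ≤ (‖Cc l (2 * j + 3)‖ * wt 0 (2 * j + 3)) *
          (‖PowerSeries.coeff (2 * j + 3) (NN l (Pp l ε j))‖ * ε) := by gcongr
      _ = _ := by unfold Rj; ring
  · rw [Pp, if_neg hw, htl _ _ _ (by omega)]
    refine (T_add_le hw0 M _ _).trans (add_le_add le_rfl ?_)
    refine (T_monomial_le hw0 M _ _).trans ?_
    have h1 := Ph_cc l (2 * j + 3) (by omega) hw
    have hCp : 0 < ‖Ph l (2 * j + 3)‖ := by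
      have h2 := mul_pos cc_pos (wt_pos l (2 * j + 3))
      by_contra hc
      have : ‖Ph l (2 * j + 3)‖ = 0 := le_antisymm (not_lt.1 hc) (norm_nonneg _)
      rw [this, zero_mul] at h1
      linarith
    rw [norm_neg, norm_div]
    rw [mul_div_assoc', div_le_div_iff₀ (by positivity) (by positivity)]
    have hR := norm_nonneg (Rj l ε j)
    have hw1 := wt_pos l (2 * j + 3)
    have hw2 := wt_pos 0 (2 * j + 3)
    calc wt l (2 * j + 3) * ‖PowerSeries.coeff (2 * j + 3) (NN l (Pp l ε j))‖ * (cc * ε)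
        ≤ wt l (2 * j + 3) * ‖PowerSeries.coeff (2 * j + 3) (NN l (Pp l ε j))‖ * (cc * 1) := by gcongr
      _ = (cc * wt l (2 * j + 3)) * ‖PowerSeries.coeff (2 * j + 3) (NN l (Pp l ε j))‖ := by ring
      _ ≤ (‖Ph l (2 * j + 3)‖ * wt 0 (2 * j + 3)) *
          ‖PowerSeries.coeff (2 * j + 3) (NN l (Pp l ε j))‖ := by gcongr
      _ = _ := by unfold Rj; ring

lemma tl_Pp_zero (l : ℕ) (ε : ℝ) (M : ℕ) : T nuC (wt l) M (tl (Pp l ε 0)) = 0 := by
  unfold T
  apply sum_eq_zero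
  intro k _
  have : PowerSeries.coeff k (tl (Pp l ε 0)) = 0 := by
    rw [tl_coeff, Pp, PowerSeries.coeff_monomial]
    split_ifs with h1 h2
    · rfl
    · omega
    · rfl
  rw [this, nuC.zero, mul_zero]

lemma cost_sum (l : ℕ) {ε : ℝ} (hε : 0 < ε) (hε1 : ε ≤ 1) (J M : ℕ) :
    T nuC (wt l) M (tl (Pp l ε J)) ≤
      (∑ i ∈ range J, wt 0 (2 * i + 3) * ‖Rj l ε i‖) / (cc * ε) := by
  induction J with
  | zero => rw [tl_Pp_zero]; simp
  | succ J ih =>
    refine (step_cost l hε hε1 J M).trans ?_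
    rw [sum_range_succ, add_div]
    linarith

lemma T_le_tl (l : ℕ) {ε : ℝ} (hε : 0 < ε) (M : ℕ) {G : PowerSeries ℂ}
    (h0 : PowerSeries.coeff 0 G = 0) (h1 : PowerSeries.coeff 1 G = ε) :
    T nuC (wt l) M G ≤ 2 * ε + T nuC (wt l) M (tl G) := by
  have e : G = PowerSeries.monomial 1 (ε : ℂ) + tl G := by
    ext k
    rw [map_add, PowerSeries.coeff_monomial, tl_coeff]
    rcases Nat.lt_or_ge k 2 with hk | hk
    · interval_cases k
      · simp only [h0]; simp
      · simp only [h1]; simp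
    · rw [if_neg (by omega), if_neg (by omega), zero_add]
  have hw0 : ∀ k, 0 ≤ wt l k := fun k => (wt_pos l k).le
  calc T nuC (wt l) M G = T nuC (wt l) M (PowerSeries.monomial 1 (ε : ℂ) + tl G) := by rw [← e]
    _ ≤ T nuC (wt l) M (PowerSeries.monomial 1 (ε : ℂ)) + T nuC (wt l) M (tl G) := T_add_le hw0 M _ _
    _ ≤ wt l 1 * ‖(ε : ℂ)‖ + T nuC (wt l) M (tl G) :=
        add_le_add (T_monomial_le hw0 M _ _) le_rfl
    _ ≤ _ := by
      rw [Complex.norm_real, Real.norm_of_nonneg hε.le]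
      have : wt l 1 ≤ 2 := by
        unfold wt; have := th_le_one l; push_cast; linarith
      nlinarith

lemma even_sum_le (J : ℕ) (f : ℕ → ℝ) (hf : ∀ n, 0 ≤ f n) :
    ∑ i ∈ range (J + 1), f (2 * i) ≤ ∑ n ∈ range (2 * J + 1), f n := by
  induction J with
  | zero => simp
  | succ J ih =>
    rw [sum_range_succ]
    have e : 2 * (J + 1) + 1 = 2 * J + 1 + 1 + 1 := by ring
    rw [e, sum_range_succ f (2 * J + 1 + 1), sum_range_succ f (2 * J + 1)]
    have h1 := hf (2 * J + 1)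
    have e2 : 2 * (J + 1) = 2 * J + 1 + 1 := by ring
    rw [e2]
    linarith

/-- the a priori bound. -/
lemma Pp_bound (l : ℕ) {ε K : ℝ} (hε : 0 < ε) (hK : K = 864 / cc) (hε2 : 8 * K * ε ≤ cc) (J M : ℕ) :
    T nuC (wt l) M (tl (Pp l ε J)) ≤ K * ε ^ 2 := by
  have hcc := cc_pos
  have hcc1 := cc_le
  have hKp : 0 < K := by rw [hK]; positivity
  have hK1 : 864 ≤ K := by
    rw [hK, le_div_iff₀ hcc]
    have : cc ≤ 1 := hcc1.trans (by norm_num)
    linarith
  have hKε : K * ε ≤ 1 / 8 := by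
    have : cc ≤ 1 := hcc1.trans (by norm_num)
    linarith
  have hε1 : ε ≤ 1 / 100 := by nlinarith
  have hb : K * ε ^ 2 ≤ ε / 8 := by nlinarith
  have hbp : 0 < K * ε ^ 2 := by positivity
  have main : ∀ J, (∑ i ∈ range J, wt 0 (2 * i + 3) * ‖Rj l ε i‖) / (cc * ε) ≤ K * ε ^ 2 := by
    intro J
    induction J with
    | zero => simp; positivity
    | succ J ih =>
      have hT1 : ∀ M, T nuC (wt l) M (tl (Pp l ε J)) ≤ K * ε ^ 2 := fun M =>
        (cost_sum l hε (by linarith) J M).trans ih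
      have hT2 : ∀ M, T nuC (wt l) M (Pp l ε J) ≤ 3 * ε := fun M =>
        (T_le_tl l hε M (Pp_zero _ _ _) (Pp_one _ _ _)).trans (by have := hT1 M; linarith)
      have h1 := Rm_sum l (2 * J) (G := Pp l ε J) (Pp_zero _ _ _)
        (ρ₁ := 1 / (4 * (K * ε ^ 2))) (ρ₂ := 1 / (12 * ε))
        (by rw [le_div_iff₀ (by positivity)]; linarith)
        (by rw [le_div_iff₀ (by positivity)]; linarith)
        (by
          have := hT1 (2 * J + 3)
          rw [div_mul_eq_mul_div, one_mul, div_le_iff₀ (by positivity)]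
          linarith)
        (by
          have := hT2 (2 * J + 3)
          rw [div_mul_eq_mul_div, one_mul, div_le_iff₀ (by positivity)]
          linarith)
      have h2 : ∑ i ∈ range (J + 1), wt 0 (2 * i + 3) * ‖Rj l ε i‖ ≤
          ∑ n ∈ range (2 * J + 1), wt 0 (n + 3) * ‖Rm l (Pp l ε J) (n + 3)‖ := by
        refine le_trans (le_of_eq ?_) (even_sum_le J
          (fun n => wt 0 (n + 3) * ‖Rm l (Pp l ε J) (n + 3)‖)
          (fun n => mul_nonneg (wt_pos _ _).le (norm_nonneg _)))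
        apply sum_congr rfl
        intro i hi
        rw [mem_range] at hi
        rw [Rj_eq l ε i J (by omega)]
      have h3 : T nuC (wt l) (2 * J + 3) (tl (Pp l ε J)) / (1 / (4 * (K * ε ^ 2))) ≤
          4 * (K * ε ^ 2) ^ 2 := by
        rw [div_div_eq_mul_div, div_one]
        have := hT1 (2 * J + 3)
        nlinarith
      have h4 : T nuC (wt l) (2 * J + 3) (Pp l ε J) / (1 / (12 * ε)) ^ 2 ≤ 432 * ε ^ 3 := by
        rw [one_div, inv_pow, div_inv_eq_mul]
        have := hT2 (2 * J + 3)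
        have h5 : 0 ≤ (12 * ε) ^ 2 := by positivity
        calc T nuC (wt l) (2 * J + 3) (Pp l ε J) * (12 * ε) ^ 2 ≤ 3 * ε * (12 * ε) ^ 2 := by gcongr
          _ = _ := by ring
      rw [div_le_iff₀ (by positivity)]
      have h5 : 4 * (K * ε ^ 2) ^ 2 + 432 * ε ^ 3 ≤ K * ε ^ 2 * (cc * ε) := by
        have e1 : K * cc = 864 := by rw [hK]; field_simp
        have e2 : K * ε ^ 2 * (cc * ε) = 864 * ε ^ 3 := by
          calc K * ε ^ 2 * (cc * ε) = (K * cc) * ε ^ 3 := by ring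
            _ = _ := by rw [e1]
        rw [e2]
        have e3 : 4 * (K * ε ^ 2) ^ 2 = (8 * K * ε) * K * ε ^ 3 / 2 := by ring
        have e4 : (8 * K * ε) * K * ε ^ 3 / 2 ≤ cc * K * ε ^ 3 / 2 := by gcongr
        have e5 : cc * K * ε ^ 3 / 2 = 432 * ε ^ 3 := by
          rw [mul_comm cc K, e1]; ring
        linarith
      linarith
  exact (cost_sum l hε (by linarith) J M).trans (main J)

/-- the constructed series. -/
def Gl (l : ℕ) (ε : ℝ) : PowerSeries ℂ := PowerSeries.mk fun k => PowerSeries.coeff k (Pp l ε k)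

lemma Gl_coeff (l : ℕ) (ε : ℝ) (j n : ℕ) (hn : n ≤ 2 * j + 1) :
    PowerSeries.coeff n (Gl l ε) = PowerSeries.coeff n (Pp l ε j) := by
  unfold Gl
  rw [PowerSeries.coeff_mk]
  rcases le_total n j with h | h
  · rw [Pp_stable l ε n j n h (by omega)]
  · rw [Pp_stable l ε j n n h hn]

lemma lam_one_one : lam 1 1 = 0 := by
  have := lam_near 1 1 (δ := 0) (by simp [th]) (by norm_num)
  rw [mul_zero] at this
  exact norm_le_zero_iff.1 this

lemma Ph_one (l : ℕ) (hl : 1 ≤ l) : Ph l 1 = 0 := by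
  induction l, hl using Nat.le_induction with
  | base => rw [Ph, lam_one_one, mul_zero]
  | succ n _ ih => rw [Ph, ih, zero_mul]

/-- **Main algebraic result**: level `l` data whose image is even. -/
theorem exists_G : ∃ ε : ℝ, 0 < ε ∧ ε ≤ 1 / 100 ∧ ∀ l : ℕ, 1 ≤ l → ∃ G : PowerSeries ℂ,
    PowerSeries.coeff 0 G = 0 ∧ PowerSeries.coeff 1 G = ε ∧
    (∀ M, T nuC (wt l) M (tl G) ≤ ε / 2) ∧ (∀ M, T nuC (wt l) M G ≤ 1 / 4) ∧
    ∀ k, Odd k → PowerSeries.coeff k (NN l G) = 0 := by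
  have hcc := cc_pos
  have hcc1 := cc_le
  set K : ℝ := 864 / cc with hK
  have hKp : 0 < K := by rw [hK]; positivity
  have hK1 : 864 ≤ K := by
    rw [hK, le_div_iff₀ hcc]
    have : cc ≤ 1 := hcc1.trans (by norm_num)
    linarith
  have hε0 : 0 < cc / (8 * K) := by positivity
  have hε1 : 8 * K * (cc / (8 * K)) ≤ cc := by
    rw [mul_div_cancel₀ _ (by positivity)]
  set ε : ℝ := cc / (8 * K) with hεdef
  have hKε : K * ε ≤ 1 / 8 := by
    have : cc ≤ 1 := hcc1.trans (by norm_num)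
    linarith
  have hε2 : ε ≤ 1 / 100 := by nlinarith
  refine ⟨ε, hε0, hε2, fun l hl => ⟨Gl l ε, ?_, ?_, ?_, ?_, ?_⟩⟩
  · rw [Gl_coeff l ε 0 0 (by omega), Pp_zero]
  · rw [Gl_coeff l ε 0 1 (by omega), Pp_one]
  · intro M
    have h1 : T nuC (wt l) M (tl (Gl l ε)) = T nuC (wt l) M (tl (Pp l ε M)) := by
      unfold T
      apply sum_congr rfl
      intro k hk
      rw [mem_range] at hk
      rw [tl_coeff, tl_coeff, Gl_coeff l ε M k (by omega)]
    rw [h1]
    refine (Pp_bound l hε0 hK hε1 M M).trans ?_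
    nlinarith
  · intro M
    have h0 : PowerSeries.coeff 0 (Gl l ε) = 0 := by rw [Gl_coeff l ε 0 0 (by omega), Pp_zero]
    have h1' : PowerSeries.coeff 1 (Gl l ε) = ε := by rw [Gl_coeff l ε 0 1 (by omega), Pp_one]
    have h1 : T nuC (wt l) M (tl (Gl l ε)) = T nuC (wt l) M (tl (Pp l ε M)) := by
      unfold T
      apply sum_congr rfl
      intro k hk
      rw [mem_range] at hk
      rw [tl_coeff, tl_coeff, Gl_coeff l ε M k (by omega)]
    refine (T_le_tl l hε0 M h0 h1').trans ?_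
    rw [h1]
    have := Pp_bound l hε0 hK hε1 M M
    nlinarith
  · intro k hk
    obtain ⟨m, rfl⟩ := hk
    rcases Nat.eq_zero_or_pos m with rfl | hm
    · have h0 : PowerSeries.coeff 0 (Gl l ε) = 0 := by rw [Gl_coeff l ε 0 0 (by omega), Pp_zero]
      rw [mul_zero, zero_add, NN_coeff_one l h0, Ph_one l hl, zero_smul]
    · obtain ⟨j, rfl⟩ : ∃ j, m = j + 1 := ⟨m - 1, by omega⟩
      have e : 2 * (j + 1) + 1 = 2 * j + 3 := by ring
      rw [e, NN_congr_le l (G := Gl l ε) (G' := Pp l ε (j + 1)) (n := 2 * j + 3)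
        (fun n hn => Gl_coeff l ε (j + 1) n (by omega)) le_rfl, Pp_kill l hε0]

end
end Pool.Agent.Lib_helper91.Tree
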