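import Pool.Agent.Lib_helper91.TreeG

set_option autoImplicit false

namespace Pool.Agent.Lib_helper91.Tree

noncomputable section
open Finset

/-- value of the series. -/
def ev (G : PowerSeries ℂ) (E : ℂ) : ℂ := ∑' k, PowerSeries.coeff k G * E ^ k

/-- absolute summability with bound `τ`. -/
def Bd (G : PowerSeries ℂ) (τ : ℝ) : Prop := ∀ M, ∑ k ∈ range M, ‖PowerSeries.coeff k G‖ ≤ τ

lemma Bd.summable {G : PowerSeries ℂ} {τ : ℝ} (h : Bd G τ) :
    Summable fun k => ‖PowerSeries.coeff k G‖ :=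
  summable_of_sum_range_le (fun _ => norm_nonneg _) h

lemma Bd.tsum_le {G : PowerSeries ℂ} {τ : ℝ} (h : Bd G τ) :
    ∑' k, ‖PowerSeries.coeff k G‖ ≤ τ :=
  Real.tsum_le_of_sum_range_le (fun _ => norm_nonneg _) h

lemma Bd.nonneg {G : PowerSeries ℂ} {τ : ℝ} (h : Bd G τ) : 0 ≤ τ := by
  have := h 0
  simpa using this

lemma term_norm_le (G : PowerSeries ℂ) {E : ℂ} (hE : ‖E‖ ≤ 1) (k : ℕ) :
    ‖PowerSeries.coeff k G * E ^ k‖ ≤ ‖PowerSeries.coeff k G‖ := by
  rw [norm_mul, norm_pow]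
  exact mul_le_of_le_one_right (norm_nonneg _) (pow_le_one₀ (norm_nonneg _) hE)

lemma Bd.summable_term {G : PowerSeries ℂ} {τ : ℝ} (h : Bd G τ) {E : ℂ} (hE : ‖E‖ ≤ 1) :
    Summable fun k => ‖PowerSeries.coeff k G * E ^ k‖ :=
  Summable.of_nonneg_of_le (fun _ => norm_nonneg _) (term_norm_le G hE) h.summable

lemma Bd.norm_ev_le {G : PowerSeries ℂ} {τ : ℝ} (h : Bd G τ) {E : ℂ} (hE : ‖E‖ ≤ 1) :
    ‖ev G E‖ ≤ τ :=
  (norm_tsum_le_tsum_norm (h.summable_term hE)).trans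
    ((Summable.tsum_le_tsum (term_norm_le G hE) (h.summable_term hE) h.summable).trans h.tsum_le)

lemma Bd_of_T {w : ℕ → ℝ} (hw : ∀ k, 1 ≤ w k) {G : PowerSeries ℂ} {τ : ℝ}
    (h : ∀ M, T nuC w M G ≤ τ) : Bd G τ := by
  intro M
  have h1 := h M
  unfold T at h1
  refine le_trans ?_ h1
  rw [sum_range_succ]
  have h2 : 0 ≤ w M * nuC.f (PowerSeries.coeff M G) :=
    mul_nonneg (by linarith [hw M]) (norm_nonneg _)
  have h3 : ∑ k ∈ range M, ‖PowerSeries.coeff k G‖ ≤ ∑ k ∈ range M, w k * nuC.f (PowerSeries.coeff k G) := by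
    apply sum_le_sum
    intro k _
    exact le_mul_of_one_le_left (norm_nonneg _) (hw k)
  linarith

lemma T_of_Bd {G : PowerSeries ℂ} {τ : ℝ} (h : Bd G τ) (M : ℕ) : T nuC (fun _ => 1) M G ≤ τ := by
  unfold T
  have := h (M + 1)
  simpa [nuC] using this

lemma Bd.mul {F G : PowerSeries ℂ} {σ τ : ℝ} (hF : Bd F σ) (hG : Bd G τ) : Bd (F * G) (σ * τ) := by
  apply Bd_of_T (w := fun _ => 1) (fun _ => le_rfl)
  intro M
  refine (T_mul (fun _ => zero_le_one) (fun _ _ => by norm_num) F G).trans ?_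
  exact mul_le_mul (T_of_Bd hF M) (T_of_Bd hG M) (T_nonneg (fun _ => zero_le_one) _) hF.nonneg

lemma Bd_one : Bd (1 : PowerSeries ℂ) 1 := by
  apply Bd_of_T (w := fun _ => 1) (fun _ => le_rfl)
  intro M
  exact T_one rfl

lemma Bd_X_pow (m : ℕ) : Bd ((PowerSeries.X : PowerSeries ℂ) ^ m) 1 := by
  apply Bd_of_T (w := fun _ => 1) (fun _ => le_rfl)
  intro M
  have h := T_monomial_le (w := fun _ => 1) (fun _ => zero_le_one) M m (1 : ℂ)
  rw [← PowerSeries.X_pow_eq] at h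
  simpa using h

lemma Bd.pow {G : PowerSeries ℂ} {τ : ℝ} (hG : Bd G τ) (r : ℕ) : Bd (G ^ r) (τ ^ r) := by
  induction r with
  | zero => rw [pow_zero, pow_zero]; exact Bd_one
  | succ r ih => rw [pow_succ, pow_succ]; exact ih.mul hG

lemma ev_mul {F G : PowerSeries ℂ} {σ τ : ℝ} (hF : Bd F σ) (hG : Bd G τ) {E : ℂ} (hE : ‖E‖ ≤ 1) :
    ev (F * G) E = ev F E * ev G E := by
  unfold ev
  rw [tsum_mul_tsum_eq_tsum_sum_antidiagonal_of_summable_norm (hF.summable_term hE)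
    (hG.summable_term hE)]
  apply tsum_congr
  intro k
  rw [PowerSeries.coeff_mul, sum_mul]
  apply sum_congr rfl
  rintro ⟨a, b⟩ hp
  rw [HasAntidiagonal.mem_antidiagonal] at hp
  simp only at hp ⊢
  rw [← hp, pow_add]
  ring

lemma ev_one (E : ℂ) : ev 1 E = 1 := by
  unfold ev
  rw [tsum_eq_single 0]
  · simp
  · intro k hk
    rw [PowerSeries.coeff_one, if_neg hk, zero_mul]

lemma ev_X_pow (m : ℕ) (E : ℂ) : ev ((PowerSeries.X : PowerSeries ℂ) ^ m) E = E ^ m := by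
  unfold ev
  rw [tsum_eq_single m]
  · simp
  · intro k hk
    rw [PowerSeries.coeff_X_pow, if_neg hk, zero_mul]

lemma ev_pow {G : PowerSeries ℂ} {τ : ℝ} (hG : Bd G τ) {E : ℂ} (hE : ‖E‖ ≤ 1) (r : ℕ) :
    ev (G ^ r) E = ev G E ^ r := by
  induction r with
  | zero => rw [pow_zero, pow_zero, ev_one]
  | succ r ih => rw [pow_succ, pow_succ, ev_mul (hG.pow r) hG hE, ih]

lemma coeff_pow_zero {G : PowerSeries ℂ} (h0 : PowerSeries.coeff 0 G = 0) {r n : ℕ} (h : n < r) :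
    PowerSeries.coeff n (G ^ r) = 0 := by
  have hX : (PowerSeries.X : PowerSeries ℂ) ∣ G := by
    rw [PowerSeries.X_dvd_iff, ← PowerSeries.coeff_zero_eq_constantCoeff_apply]; exact h0
  exact (PowerSeries.X_pow_dvd_iff.1 (pow_dvd_pow_of_dvd hX r)) n h

section evalS
variable {x : ℂ} {θ : ℝ} {G : PowerSeries ℂ} {τ : ℝ}

/-- coefficient in the double expansion. -/
def cf (x : ℂ) (θ : ℝ) (G : PowerSeries ℂ) (i : ℕ × ℕ) : ℂ :=
  x ^ i.1 * ((i.1 : ℂ) * θ) ^ i.2 / (i.2.factorial : ℂ) * PowerSeries.coeff i.1 G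

def uu (x : ℂ) (θ : ℝ) (G : PowerSeries ℂ) (E : ℂ) (i : ℕ × ℕ) (n : ℕ) : ℂ :=
  cf x θ G i * (PowerSeries.coeff n (PowerSeries.X ^ i.1 * G ^ i.2) * E ^ n)

lemma norm_cf (hθ : 0 ≤ θ) (i : ℕ × ℕ) : ‖cf x θ G i‖ =
    ‖x‖ ^ i.1 * (i.1 * θ) ^ i.2 / (i.2.factorial : ℝ) * ‖PowerSeries.coeff i.1 G‖ := by
  unfold cf
  rw [norm_mul, norm_div, norm_mul, norm_pow, norm_pow, norm_mul, Complex.norm_natCast,
    Complex.norm_natCast, Complex.norm_real, Real.norm_of_nonneg hθ]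

lemma sum_A (hθ : 0 ≤ θ) (hG : Bd G τ) (hx : ∀ m : ℕ, ‖x‖ ^ m * Real.exp (m * θ * τ) ≤ 1) :
    Summable fun i : ℕ × ℕ => ‖cf x θ G i‖ * τ ^ i.2 := by
  have hτ := hG.nonneg
  have hexp : ∀ m : ℕ, HasSum (fun r : ℕ => (m * θ * τ) ^ r / (r.factorial : ℝ)) (Real.exp (m * θ * τ)) := by
    intro m
    rw [Real.exp_eq_exp_ℝ]
    exact NormedSpace.expSeries_div_hasSum_exp _
  have hinner : ∀ m : ℕ, HasSum (fun r : ℕ => ‖cf x θ G (m, r)‖ * τ ^ r)
      (‖PowerSeries.coeff m G‖ * (‖x‖ ^ m * Real.exp (m * θ * τ))) := by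
    intro m
    have h3 := ((hexp m).mul_left (‖PowerSeries.coeff m G‖ * ‖x‖ ^ m))
    have e : ‖PowerSeries.coeff m G‖ * ‖x‖ ^ m * Real.exp (m * θ * τ) =
        ‖PowerSeries.coeff m G‖ * (‖x‖ ^ m * Real.exp (m * θ * τ)) := by ring
    rw [e] at h3
    refine h3.congr_fun ?_
    intro r
    rw [norm_cf hθ]
    simp only
    rw [mul_pow ((m : ℝ) * θ) τ r]
    ring
  rw [summable_prod_of_nonneg (fun i => mul_nonneg (norm_nonneg _) (pow_nonneg hτ _))]
  refine ⟨fun m => (hinner m).summable, ?_⟩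
  refine Summable.of_nonneg_of_le (fun m => ?_) (fun m => ?_) hG.summable
  · exact tsum_nonneg fun r => mul_nonneg (norm_nonneg _) (pow_nonneg hτ _)
  · rw [(hinner m).tsum_eq]
    exact mul_le_of_le_one_right (norm_nonneg _) (hx m)

lemma sum_uu (hθ : 0 ≤ θ) (hG : Bd G τ) (hx : ∀ m : ℕ, ‖x‖ ^ m * Real.exp (m * θ * τ) ≤ 1)
    {E : ℂ} (hE : ‖E‖ ≤ 1) : Summable (Function.uncurry (uu x θ G E)) := by
  have hτ := hG.nonneg
  apply Summable.of_norm
  rw [summable_prod_of_nonneg (fun _ => norm_nonneg _)]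
  have hB : ∀ i : ℕ × ℕ, Bd (PowerSeries.X ^ i.1 * G ^ i.2) (τ ^ i.2) := by
    intro i
    have := (Bd_X_pow i.1).mul (hG.pow i.2)
    rwa [one_mul] at this
  have hs : ∀ i : ℕ × ℕ, Summable fun n => ‖Function.uncurry (uu x θ G E) (i, n)‖ := by
    intro i
    simp only [Function.uncurry, uu, norm_mul (cf x θ G i)]
    exact ((hB i).summable_term hE).mul_left _
  refine ⟨hs, ?_⟩
  refine Summable.of_nonneg_of_le (fun i => tsum_nonneg fun n => norm_nonneg _) (fun i => ?_)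
    (sum_A hθ hG hx)
  simp only [Function.uncurry, uu, norm_mul (cf x θ G i)]
  rw [tsum_mul_left]
  apply mul_le_mul_of_nonneg_left _ (norm_nonneg _)
  exact (Summable.tsum_le_tsum (term_norm_le _ hE) ((hB i).summable_term hE) (hB i).summable).trans
    (hB i).tsum_le

lemma sum_left (hθ : 0 ≤ θ) (hG : Bd G τ) (hx : ∀ m : ℕ, ‖x‖ ^ m * Real.exp (m * θ * τ) ≤ 1)
    {E : ℂ} (hE : ‖E‖ ≤ 1) :
    ∑' i, ∑' n, uu x θ G E i n = ev G (x * E * Complex.exp (θ * ev G E)) := by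
  have hτ := hG.nonneg
  have h1 : ∀ i : ℕ × ℕ, ∑' n, uu x θ G E i n = cf x θ G i * (E ^ i.1 * ev G E ^ i.2) := by
    intro i
    unfold uu
    rw [tsum_mul_left]
    congr 1
    have : ev (PowerSeries.X ^ i.1 * G ^ i.2) E = E ^ i.1 * ev G E ^ i.2 := by
      rw [ev_mul (Bd_X_pow i.1) (hG.pow i.2) hE, ev_X_pow, ev_pow hG hE]
    exact this
  simp only [h1]
  have hsum : Summable fun i : ℕ × ℕ => cf x θ G i * (E ^ i.1 * ev G E ^ i.2) := by
    apply Summable.of_norm_bounded (sum_A hθ hG hx)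
    intro i
    rw [norm_mul]
    apply mul_le_mul_of_nonneg_left _ (norm_nonneg _)
    rw [norm_mul, norm_pow, norm_pow]
    calc ‖E‖ ^ i.1 * ‖ev G E‖ ^ i.2 ≤ 1 * τ ^ i.2 := by
          gcongr
          · exact pow_le_one₀ (norm_nonneg _) hE
          · exact hG.norm_ev_le hE
      _ = _ := one_mul _
  rw [hsum.tsum_prod]
  unfold ev
  apply tsum_congr
  intro m
  have hexp : HasSum (fun r : ℕ => ((m : ℂ) * θ * ev G E) ^ r / (r.factorial : ℂ))
      (Complex.exp ((m : ℂ) * θ * ev G E)) := by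
    rw [Complex.exp_eq_exp_ℂ]
    exact NormedSpace.expSeries_div_hasSum_exp _
  have h2 : HasSum (fun r : ℕ => cf x θ G (m, r) * (E ^ m * ev G E ^ r))
      (PowerSeries.coeff m G * (x * E * Complex.exp (θ * ev G E)) ^ m) := by
    have h3 := hexp.mul_left (PowerSeries.coeff m G * x ^ m * E ^ m)
    have e : PowerSeries.coeff m G * x ^ m * E ^ m * Complex.exp ((m : ℂ) * θ * ev G E) =
        PowerSeries.coeff m G * (x * E * Complex.exp (θ * ev G E)) ^ m := by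
      rw [mul_pow, mul_pow, ← Complex.exp_nat_mul]
      ring_nf
    rw [e] at h3
    refine h3.congr_fun ?_
    intro r
    unfold cf
    simp only
    rw [mul_pow ((m : ℂ) * θ)]
    ring
  exact h2.tsum_eq

lemma sum_right_coeff (h0 : PowerSeries.coeff 0 G = 0) (n : ℕ) (E : ℂ) :
    ∑' i, uu x θ G E i n = (∑ p ∈ antidiagonal n, ∑ r ∈ range (p.2 + 1),
      (x ^ p.1 * ((p.1 : ℂ) * θ) ^ r / (r.factorial : ℂ)) *
        (PowerSeries.coeff p.1 G * PowerSeries.coeff p.2 (G ^ r))) * E ^ n := by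
  rw [tsum_eq_sum (s := range (n + 1) ×ˢ range (n + 1))]
  · rw [sum_product, Finset.Nat.sum_antidiagonal_eq_sum_range_succ_mk, sum_mul]
    apply sum_congr rfl
    intro m hm
    rw [mem_range] at hm
    simp only
    rw [sum_mul]
    symm
    have hsub : range (n - m + 1) ⊆ range (n + 1) := by
      intro i hi; rw [mem_range] at hi ⊢; omega
    rw [← sum_subset hsub]
    · apply sum_congr rfl
      intro r _
      unfold uu cf
      rw [PowerSeries.coeff_X_pow_mul', if_pos (by simp only; omega)]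
      simp only
      ring
    · intro r _ hr
      rw [mem_range] at hr
      unfold uu
      rw [PowerSeries.coeff_X_pow_mul', if_pos (by simp only; omega)]
      simp only
      rw [coeff_pow_zero h0 (by omega)]
      ring
  · rintro ⟨m, r⟩ hi
    simp only [mem_product, mem_range, not_and_or] at hi
    unfold uu
    simp only
    rw [PowerSeries.coeff_X_pow_mul']
    split_ifs with hm
    · rw [coeff_pow_zero h0 (by omega)]
      ring
    · ring

/-- **Evaluation of one level.** -/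
theorem ev_S (hθ : 0 ≤ θ) (hG : Bd G τ) (h0 : PowerSeries.coeff 0 G = 0)
    (hx : ∀ m : ℕ, ‖x‖ ^ m * Real.exp (m * θ * τ) ≤ 1) {E : ℂ} (hE : ‖E‖ ≤ 1) :
    ev (S x θ G) E = 1 / 4 * (ev G E + 3 * ev G (x * E * Complex.exp (θ * ev G E))) := by
  have hu := sum_uu hθ hG hx hE
  have h1 := sum_left hθ hG hx hE
  have h2 := hu.tsum_comm
  rw [h1] at h2
  have hsumR : Summable fun n => ∑' i, uu x θ G E i n := by
    have := hu.prod_symm
    exact this.prod
  simp only [sum_right_coeff h0] at h2 hsumR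
  unfold ev
  rw [show (∑' k, PowerSeries.coeff k G * (x * E * Complex.exp (θ * ∑' k, PowerSeries.coeff k G * E ^ k)) ^ k)
    = ev G (x * E * Complex.exp (θ * ev G E)) from rfl, ← h2, ← tsum_mul_left,
    ← Summable.tsum_add (hG.summable_term hE).of_norm (hsumR.mul_left 3), ← tsum_mul_left]
  apply tsum_congr
  intro n
  rw [S_coeff]
  simp only [smul_eq_mul]
  ring

end evalS

end
end Pool.Agent.Lib_helper91.Tree
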