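import Mathlib

set_option autoImplicit false

namespace Pool.Agent.Lib_helper91.Tree

noncomputable section
open MeasureTheory Filter Topology Complex Set

/-- continuous function on the closed half plane, holomorphic inside, `O(1/|w|^2)`:
the integral over the real line vanishes. -/
theorem line_integral_zero {F : ℂ → ℂ} {B : ℝ} (hc : ContinuousOn F {z | 0 ≤ z.im})
    (hd : DifferentiableOn ℂ F {z | 0 < z.im})
    (hB : ∀ w : ℂ, 0 ≤ w.im → ‖F w‖ ≤ B * (1 + ‖w‖ ^ 2)⁻¹) :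
    Integrable (fun t : ℝ => F t) ∧ ∫ t : ℝ, F t = 0 := by
  have hcont : Continuous fun t : ℝ => F t := by
    have h1 : ContinuousOn (fun t : ℝ => F t) univ :=
      hc.comp Complex.continuous_ofReal.continuousOn (fun t _ => by simp)
    rwa [continuousOn_univ] at h1
  have hB0 : 0 ≤ B := by
    have h := hB 0 (by simp)
    have h1 := norm_nonneg (F 0)
    simp at h
    linarith
  have hint : Integrable (fun t : ℝ => F t) := by
    have h1 : Integrable (fun t : ℝ => B * (1 + t ^ 2)⁻¹) := integrable_inv_one_add_sq.const_mul B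
    refine h1.mono' hcont.aestronglyMeasurable (Eventually.of_forall fun t => ?_)
    have := hB t (by simp)
    rwa [Complex.norm_real, Real.norm_eq_abs, sq_abs] at this
  refine ⟨hint, ?_⟩
  have hlim := intervalIntegral_tendsto_integral hint tendsto_neg_atTop_atBot tendsto_id
  -- the integral over `[-R,R]` is small
  have hbound : ∀ R : ℝ, 1 ≤ R → ‖∫ x in (-R)..R, F x‖ ≤ 4 * B / R := by
    intro R hR
    have hR0 : 0 < R := by linarith
    have hrect := Complex.integral_boundary_rect_eq_zero_of_continuousOn_of_differentiableOn F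
      (-R : ℝ) (R + R * I) ?_ ?_
    · simp only [ofReal_re, ofReal_im, add_re, mul_re, I_re, mul_zero, I_im, mul_one, sub_self,
        add_zero, add_im, mul_im, zero_add, zero_mul, ofReal_zero] at hrect
      have hb : ∀ w : ℂ, 0 ≤ w.im → R ≤ ‖w‖ → ‖F w‖ ≤ B / R ^ 2 := by
        intro w hw hRw
        refine (hB w hw).trans ?_
        rw [← div_eq_mul_inv]
        apply div_le_div_of_nonneg_left hB0 (by positivity)
        nlinarith [sq_nonneg (‖w‖ - R)]
      have i1 : ‖∫ x in (-R)..R, F (x + R * I)‖ ≤ B / R ^ 2 * |R - -R| := by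
        apply intervalIntegral.norm_integral_le_of_norm_le_const
        intro x _
        apply hb
        · simp; linarith
        · have := Complex.abs_im_le_norm (x + R * I)
          simp at this
          exact (le_abs_self R).trans this
      have i2 : ‖∫ y in (0 : ℝ)..R, F (R + y * I)‖ ≤ B / R ^ 2 * |R - 0| := by
        apply intervalIntegral.norm_integral_le_of_norm_le_const
        intro y hy
        rw [uIoc_of_le hR0.le] at hy
        apply hb
        · simp; exact hy.1.le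
        · have := Complex.abs_re_le_norm (R + y * I)
          simp at this
          exact (le_abs_self R).trans this
      have i3 : ‖∫ y in (0 : ℝ)..R, F ((-R : ℝ) + y * I)‖ ≤ B / R ^ 2 * |R - 0| := by
        apply intervalIntegral.norm_integral_le_of_norm_le_const
        intro y hy
        rw [uIoc_of_le hR0.le] at hy
        apply hb
        · simp; exact hy.1.le
        · have := Complex.abs_re_le_norm ((-R : ℝ) + y * I)
          simp at this
          refine (le_abs_self R).trans ?_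
          simpa using this
      have e : ∫ x in (-R)..R, F x = (∫ x in (-R)..R, F (x + R * I)) -
          I • (∫ y in (0 : ℝ)..R, F (R + y * I)) + I • ∫ y in (0 : ℝ)..R, F ((-R : ℝ) + y * I) := by
        linear_combination hrect
      rw [e]
      have n1 : ‖I • (∫ y in (0 : ℝ)..R, F (R + y * I))‖ = ‖∫ y in (0 : ℝ)..R, F (R + y * I)‖ := by
        rw [norm_smul, norm_I, one_mul]
      have n2 : ‖I • (∫ y in (0 : ℝ)..R, F ((-R : ℝ) + y * I))‖ =
          ‖∫ y in (0 : ℝ)..R, F ((-R : ℝ) + y * I)‖ := by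
        rw [norm_smul, norm_I, one_mul]
      refine (norm_add_le _ _).trans ?_
      refine (add_le_add (norm_sub_le _ _) le_rfl).trans ?_
      rw [n1, n2]
      have a1 : |R - -R| = 2 * R := by rw [abs_of_pos (by linarith)]; ring
      have a2 : |R - 0| = R := by rw [sub_zero, abs_of_pos hR0]
      rw [a1] at i1
      rw [a2] at i2 i3
      have e2 : 4 * B / R = B / R ^ 2 * (2 * R) + B / R ^ 2 * R + B / R ^ 2 * R := by
        field_simp; ring
      rw [e2]
      linarith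
    · apply hc.mono
      rintro z ⟨_, hz⟩
      simp only [ofReal_im, add_im, mul_im, ofReal_re, I_im, mul_one, I_re, mul_zero, add_zero,
        zero_add] at hz
      rw [mem_preimage, uIcc_of_le hR0.le] at hz
      exact hz.1
    · apply hd.mono
      rintro z ⟨_, hz⟩
      simp only [ofReal_im, add_im, mul_im, ofReal_re, I_im, mul_one, I_re, mul_zero, add_zero,
        zero_add] at hz
      rw [mem_preimage, min_eq_left hR0.le] at hz
      exact hz.1
  have hlim2 : Tendsto (fun R : ℝ => ∫ x in (-R)..R, F x) atTop (𝓝 0) := by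
    rw [tendsto_zero_iff_norm_tendsto_zero]
    apply squeeze_zero' (Eventually.of_forall fun _ => norm_nonneg _)
      ((eventually_ge_atTop 1).mono hbound)
    exact tendsto_const_nhds.div_atTop tendsto_id
  exact tendsto_nhds_unique hlim hlim2

/-- the class of `K`-functions used. -/
structure Good (C δ : ℝ) (F : ℂ → ℂ) : Prop where
  dpos : 0 < δ
  cont : ContinuousOn F {z | 0 ≤ z.im}
  diff : DifferentiableOn ℂ F {z | 0 < z.im}
  bdd : ∀ z : ℂ, 0 ≤ z.im → ‖F z‖ ≤ C
  im : ∀ z : ℂ, 0 ≤ z.im → (F z).im ≤ -δ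

/-- the Cauchy transform candidate. -/
def GG (F : ℂ → ℂ) (z : ℂ) : ℂ := (z - F z)⁻¹

/-- the density. -/
def dens (F : ℂ → ℂ) (x : ℝ) : ℝ := -(GG F x).im / Real.pi

section good
variable {C δ : ℝ} {F : ℂ → ℂ}

/-- the constant in the decay of `GG`. -/
def La (C δ : ℝ) : ℝ := (1 + C + δ) / δ

lemma Good.Cpos (h : Good C δ F) : 0 ≤ C := (norm_nonneg _).trans (h.bdd 0 (by simp))

lemma Good.La_pos (h : Good C δ F) : 0 < La C δ := by
  have h1 := h.dpos
  have h2 := h.Cpos
  unfold La; positivity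

lemma Good.im_sub (h : Good C δ F) {z : ℂ} (hz : 0 ≤ z.im) : δ ≤ (z - F z).im := by
  have := h.im z hz
  rw [sub_im]; linarith

lemma Good.ne (h : Good C δ F) {z : ℂ} (hz : 0 ≤ z.im) : z - F z ≠ 0 := by
  intro h0
  have h1 := h.im_sub hz
  rw [h0, zero_im] at h1
  linarith [h.dpos]

lemma Good.norm_lower (h : Good C δ F) {z : ℂ} (hz : 0 ≤ z.im) :
    1 + ‖z‖ ≤ La C δ * ‖z - F z‖ := by
  have h1 := (h.im_sub hz).trans ((le_abs_self _).trans (Complex.abs_im_le_norm _))
  have h2 : ‖z‖ - C ≤ ‖z - F z‖ := by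
    have := norm_sub_norm_le z (F z)
    have := h.bdd z hz
    linarith
  have hC := h.Cpos
  have hd := h.dpos
  unfold La
  have h3 : (1 + C + δ) / δ * ‖z - F z‖ = (1 + C) * (‖z - F z‖ / δ) + ‖z - F z‖ := by
    field_simp
  rw [h3]
  have h4 : 1 ≤ ‖z - F z‖ / δ := by rw [le_div_iff₀ hd]; linarith
  nlinarith

lemma Good.norm_GG (h : Good C δ F) {z : ℂ} (hz : 0 ≤ z.im) :
    ‖GG F z‖ ≤ La C δ / (1 + ‖z‖) := by
  unfold GG
  rw [norm_inv, le_div_iff₀ (by positivity), inv_mul_le_iff₀ (norm_pos_iff.2 (h.ne hz))]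
  rw [mul_comm]
  exact h.norm_lower hz

lemma Good.contGG (h : Good C δ F) : ContinuousOn (GG F) {z | 0 ≤ z.im} :=
  (continuousOn_id.sub h.cont).inv₀ fun _ hz => h.ne hz

lemma Good.diffGG (h : Good C δ F) : DifferentiableOn ℂ (GG F) {z | 0 < z.im} :=
  (differentiableOn_id.sub h.diff).inv fun _ hz => h.ne (le_of_lt hz)

lemma im_GG (F : ℂ → ℂ) (x : ℝ) :
    (GG F x).im = (F x).im / ‖(x : ℂ) - F x‖ ^ 2 := by
  unfold GG
  rw [inv_im, sub_im, ofReal_im, zero_sub, neg_neg, Complex.sq_norm]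

lemma Good.dens_nonneg (h : Good C δ F) (x : ℝ) : 0 ≤ dens F x := by
  unfold dens
  rw [im_GG]
  apply div_nonneg _ Real.pi_pos.le
  rw [neg_nonneg]
  apply div_nonpos_of_nonpos_of_nonneg _ (by positivity)
  have := h.im x (by simp)
  linarith [h.dpos]

lemma Good.dens_le (h : Good C δ F) (x : ℝ) : dens F x ≤ C * La C δ ^ 2 * (1 + x ^ 2)⁻¹ := by
  have hC := h.Cpos
  have h1 := h.norm_lower (z := x) (by simp)
  rw [Complex.norm_real, Real.norm_eq_abs] at h1
  have hne := norm_pos_iff.2 (h.ne (z := x) (by simp))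
  have hL := h.La_pos
  have h2 : -(F x).im ≤ C := by
    have := h.bdd x (by simp)
    have h3 := Complex.abs_im_le_norm (F x)
    have h4 := neg_abs_le (F x).im
    linarith
  unfold dens
  rw [im_GG, ← neg_div, div_div, ← div_eq_mul_inv]
  rw [div_le_div_iff₀ (by positivity) (by positivity)]
  have h5 : 1 + x ^ 2 ≤ (1 + |x|) ^ 2 := by
    have := abs_nonneg x
    have := sq_abs x
    nlinarith
  have h6 : (1 + |x|) ^ 2 ≤ (La C δ * ‖(x : ℂ) - F x‖) ^ 2 :=
    pow_le_pow_left₀ (by positivity) h1 2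
  have hpi : 1 ≤ Real.pi := by linarith [Real.pi_gt_three]
  have h7 : 0 ≤ C * (1 + x ^ 2) := by positivity
  calc -(F x).im * (1 + x ^ 2) ≤ C * (1 + x ^ 2) := by gcongr
    _ ≤ C * (La C δ * ‖(x : ℂ) - F x‖) ^ 2 := by gcongr; exact h5.trans h6
    _ = C * La C δ ^ 2 * (‖(x : ℂ) - F x‖ ^ 2 * 1) := by ring
    _ ≤ _ := by gcongr

lemma Good.dens_cont (h : Good C δ F) : Continuous (dens F) := by
  have h1 : ContinuousOn (fun t : ℝ => GG F t) univ :=
    h.contGG.comp Complex.continuous_ofReal.continuousOn (fun t _ => by simp)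
  rw [continuousOn_univ] at h1
  unfold dens
  exact (Complex.continuous_im.comp h1).neg.div_const _

lemma Good.dens_int (h : Good C δ F) : Integrable (dens F) := by
  refine (integrable_inv_one_add_sq.const_mul (C * La C δ ^ 2)).mono'
    h.dens_cont.aestronglyMeasurable (Eventually.of_forall fun x => ?_)
  rw [Real.norm_of_nonneg (h.dens_nonneg x)]
  exact h.dens_le x

/-- total mass one. -/
lemma Good.mass (h : Good C δ F) : ∫ x, dens F x = 1 := by
  have hL := h.La_pos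
  have hC := h.Cpos
  have hwI : ∀ w : ℂ, 0 ≤ w.im → 1 + ‖w‖ ≤ 2 * ‖w + I‖ := by
    intro w hw
    have h1 : 1 ≤ ‖w + I‖ := by
      have := Complex.abs_im_le_norm (w + I)
      rw [add_im, I_im] at this
      have := le_abs_self (w.im + 1)
      linarith
    have h2 : ‖w‖ ≤ ‖w + I‖ := by
      apply le_of_sq_le_sq _ (norm_nonneg _)
      rw [Complex.sq_norm, Complex.sq_norm, normSq_apply, normSq_apply, add_re, add_im, I_re, I_im]
      nlinarith
    linarith
  have hwne : ∀ w : ℂ, 0 ≤ w.im → w + I ≠ 0 := by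
    intro w hw h0
    have := hwI w hw
    rw [h0, norm_zero] at this
    have := norm_nonneg w
    linarith
  have hz := line_integral_zero (F := fun w => GG F w - (w + I)⁻¹)
    (B := 2 * (1 + C) * La C δ)
    (h.contGG.sub ((continuousOn_id.add continuousOn_const).inv₀ fun w hw => hwne w hw))
    (h.diffGG.sub ((differentiableOn_id.add (differentiableOn_const _)).inv
      fun w hw => hwne w (le_of_lt hw)))
    (by
      intro w hw
      have e : GG F w - (w + I)⁻¹ = GG F w * ((I + F w) * (w + I)⁻¹) := by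
        unfold GG
        have h1 := h.ne hw
        have h2 := hwne w hw
        field_simp
        ring
      rw [e, norm_mul, norm_mul, norm_inv]
      have h1 := h.norm_GG hw
      have h2 : ‖I + F w‖ ≤ 1 + C := by
        refine (norm_add_le _ _).trans ?_
        rw [norm_I]
        have := h.bdd w hw
        linarith
      have h3 : ‖w + I‖⁻¹ ≤ 2 / (1 + ‖w‖) := by
        have := hwI w hw
        have hp := norm_pos_iff.2 (hwne w hw)
        rw [le_div_iff₀ (by positivity), inv_mul_le_iff₀ hp]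
        linarith
      calc ‖GG F w‖ * (‖I + F w‖ * ‖w + I‖⁻¹) ≤
          (La C δ / (1 + ‖w‖)) * ((1 + C) * (2 / (1 + ‖w‖))) := by gcongr
        _ = 2 * (1 + C) * La C δ * ((1 + ‖w‖) ^ 2)⁻¹ := by field_simp
        _ ≤ _ := by
          gcongr
          have := norm_nonneg w
          nlinarith)
  have him : (∫ t : ℝ, (GG F t - ((t : ℂ) + I)⁻¹)).im = 0 := by rw [hz.2]; simp
  have him2 : ∫ t : ℝ, (GG F t - ((t : ℂ) + I)⁻¹).im = 0 := by
    have := integral_im hz.1
    simp only [RCLike.im_to_complex] at this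
    rw [this]; exact him
  have e : ∀ t : ℝ, (GG F t - ((t : ℂ) + I)⁻¹).im = (1 + t ^ 2)⁻¹ - Real.pi * dens F t := by
    intro t
    unfold dens
    rw [sub_im, inv_im, add_im, ofReal_im, I_im, normSq_apply, add_re, add_im, ofReal_re, ofReal_im,
      I_re, I_im]
    have : t ^ 2 + 1 ≠ 0 := by positivity
    field_simp
    ring
  simp only [e] at him2
  rw [integral_sub integrable_inv_one_add_sq (h.dens_int.const_mul _), integral_univ_inv_one_add_sq,
    integral_const_mul] at him2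
  have hpi := Real.pi_pos
  have : Real.pi * (1 - ∫ x, dens F x) = 0 := by linarith
  rcases mul_eq_zero.1 this with h1 | h1
  · exact absurd h1 hpi.ne'
  · linarith

lemma poisson (x0 : ℝ) {y0 : ℝ} (hy : 0 < y0) :
    ∫ t : ℝ, ((t - x0) ^ 2 + y0 ^ 2)⁻¹ = Real.pi / y0 := by
  have h1 : ∀ t : ℝ, ((t - x0) ^ 2 + y0 ^ 2)⁻¹ =
      (y0 ^ 2)⁻¹ * (fun s : ℝ => (1 + (y0⁻¹ * s) ^ 2)⁻¹) (t - x0) := by
    intro t
    simp only
    rw [← mul_inv]
    congr 1
    field_simp
    ring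
  simp only [h1]
  rw [integral_const_mul, integral_sub_right_eq_self (fun s : ℝ => (1 + (y0⁻¹ * s) ^ 2)⁻¹) x0,
    Measure.integral_comp_mul_left (fun s : ℝ => (1 + s ^ 2)⁻¹) y0⁻¹, integral_univ_inv_one_add_sq,
    inv_inv, abs_of_pos hy, smul_eq_mul]
  field_simp

lemma conj_dist {w z : ℂ} (hw : 0 ≤ w.im) (hz : 0 < z.im) :
    1 + ‖w‖ ≤ ((1 + ‖z‖ + z.im) / z.im) * ‖w - (starRingEnd ℂ) z‖ := by
  have h1 : z.im ≤ ‖w - (starRingEnd ℂ) z‖ := by
    have := Complex.abs_im_le_norm (w - (starRingEnd ℂ) z)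
    rw [sub_im, conj_im] at this
    have := le_abs_self (w.im - -z.im)
    linarith
  have h2 : ‖w‖ - ‖z‖ ≤ ‖w - (starRingEnd ℂ) z‖ := by
    have := norm_sub_norm_le w ((starRingEnd ℂ) z)
    rwa [RCLike.norm_conj] at this
  have h3 : (1 + ‖z‖ + z.im) / z.im * ‖w - (starRingEnd ℂ) z‖ =
      (1 + ‖z‖) * (‖w - (starRingEnd ℂ) z‖ / z.im) + ‖w - (starRingEnd ℂ) z‖ := by
    field_simp
  rw [h3]
  have h4 : 1 ≤ ‖w - (starRingEnd ℂ) z‖ / z.im := by rw [le_div_iff₀ hz]; linarith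
  have := norm_nonneg z
  nlinarith

lemma conj_ne {w z : ℂ} (hw : 0 ≤ w.im) (hz : 0 < z.im) : w - (starRingEnd ℂ) z ≠ 0 := by
  intro h0
  have := conj_dist hw hz
  rw [h0, norm_zero, mul_zero] at this
  have := norm_nonneg w
  linarith

lemma inv_conj_le {w z : ℂ} (hw : 0 ≤ w.im) (hz : 0 < z.im) :
    ‖(w - (starRingEnd ℂ) z)⁻¹‖ ≤ ((1 + ‖z‖ + z.im) / z.im) / (1 + ‖w‖) := by
  have hp := norm_pos_iff.2 (conj_ne hw hz)
  rw [norm_inv, le_div_iff₀ (by positivity), inv_mul_le_iff₀ hp, mul_comm]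
  exact conj_dist hw hz

lemma one_add_sq_le (w : ℂ) : 1 + ‖w‖ ^ 2 ≤ (1 + ‖w‖) ^ 2 := by
  have := norm_nonneg w
  nlinarith

/-- first identity. -/
lemma Good.I1 (h : Good C δ F) {z : ℂ} (hz : 0 < z.im) :
    Integrable (fun t : ℝ => GG F t * ((t : ℂ) - (starRingEnd ℂ) z)⁻¹) ∧
    ∫ t : ℝ, GG F t * ((t : ℂ) - (starRingEnd ℂ) z)⁻¹ = 0 := by
  have hL := h.La_pos
  refine line_integral_zero (F := fun w => GG F w * (w - (starRingEnd ℂ) z)⁻¹)
    (B := La C δ * ((1 + ‖z‖ + z.im) / z.im))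
    (h.contGG.mul ((continuousOn_id.sub continuousOn_const).inv₀ fun w hw => conj_ne hw hz))
    (h.diffGG.mul ((differentiableOn_id.sub (differentiableOn_const _)).inv
      fun w hw => conj_ne (le_of_lt hw) hz)) ?_
  intro w hw
  rw [norm_mul]
  have h1 := h.norm_GG hw
  have h2 := inv_conj_le hw hz
  have h3 : 0 ≤ (1 + ‖z‖ + z.im) / z.im := by positivity
  calc ‖GG F w‖ * ‖(w - (starRingEnd ℂ) z)⁻¹‖ ≤
      (La C δ / (1 + ‖w‖)) * (((1 + ‖z‖ + z.im) / z.im) / (1 + ‖w‖)) := by gcongr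
    _ = La C δ * ((1 + ‖z‖ + z.im) / z.im) * ((1 + ‖w‖) ^ 2)⁻¹ := by field_simp
    _ ≤ _ := by
      gcongr
      exact one_add_sq_le w

/-- numerator of the second identity. -/
def NF (F : ℂ → ℂ) (z w : ℂ) : ℂ :=
  GG F w - GG F z * (z - (starRingEnd ℂ) z) * (w - (starRingEnd ℂ) z)⁻¹

lemma NF_self (F : ℂ → ℂ) {z : ℂ} (hz : 0 < z.im) : NF F z z = 0 := by
  unfold NF
  have := conj_ne (w := z) hz.le hz
  field_simp
  ring

lemma Good.I2 (h : Good C δ F) {z : ℂ} (hz : 0 < z.im) :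
    Integrable (fun t : ℝ => NF F z t / ((t : ℂ) - z)) ∧
    ∫ t : ℝ, NF F z t / ((t : ℂ) - z) = 0 := by
  have hL := h.La_pos
  have hopen : IsOpen {w : ℂ | 0 < w.im} := isOpen_lt continuous_const Complex.continuous_im
  have hnhds : {w : ℂ | 0 < w.im} ∈ 𝓝 z := hopen.mem_nhds hz
  have hnhds' : {w : ℂ | 0 ≤ w.im} ∈ 𝓝 z := mem_of_superset hnhds fun w hw => le_of_lt (show 0 < w.im from hw)
  have hNd : DifferentiableOn ℂ (NF F z) {w | 0 < w.im} :=
    h.diffGG.sub (((differentiableOn_id.sub (differentiableOn_const _)).inv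
      fun w hw => conj_ne (le_of_lt hw) hz).const_mul _)
  have hNc : ContinuousOn (NF F z) {w | 0 ≤ w.im} :=
    h.contGG.sub (continuousOn_const.mul
      ((continuousOn_id.sub continuousOn_const).inv₀ fun w hw => conj_ne hw hz))
  have hDd : DifferentiableOn ℂ (dslope (NF F z) z) {w | 0 < w.im} :=
    (Complex.differentiableOn_dslope hnhds).2 hNd
  have hDc : ContinuousOn (dslope (NF F z) z) {w | 0 ≤ w.im} :=
    (continuousOn_dslope hnhds').2 ⟨hNc, hNd.differentiableAt hnhds⟩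
  have hval : ∀ w : ℂ, w ≠ z → dslope (NF F z) z w = NF F z w / (w - z) := by
    intro w hw
    rw [dslope_of_ne _ hw, slope_def_field, NF_self F hz, sub_zero]
  -- bound on a compact piece
  obtain ⟨B1, hB1⟩ : ∃ B1, ∀ w ∈ Metric.closedBall z 1 ∩ {w : ℂ | 0 ≤ w.im},
      ‖dslope (NF F z) z w‖ ≤ B1 := by
    apply IsCompact.exists_bound_of_continuousOn
    · exact (isCompact_closedBall z 1).inter_right
        (isClosed_le continuous_const Complex.continuous_im)
    · exact hDc.mono inter_subset_right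
  have hB10 : 0 ≤ B1 := (norm_nonneg _).trans (hB1 z ⟨by simp, le_of_lt hz⟩)
  set L2 : ℝ := (1 + ‖z‖ + z.im) / z.im with hL2
  have hL20 : 0 ≤ L2 := by rw [hL2]; positivity
  set A1 : ℝ := ‖GG F z * (z - (starRingEnd ℂ) z)‖ with hA1
  have hA10 : 0 ≤ A1 := norm_nonneg _
  have hfar : ∀ w : ℂ, 0 ≤ w.im → 1 ≤ ‖w - z‖ → ‖dslope (NF F z) z w‖ ≤
      (La C δ + A1 * L2) * (2 + ‖z‖) * (1 + ‖w‖ ^ 2)⁻¹ := by
    intro w hw hwz
    have hne : w ≠ z := by
      rintro rfl; simp at hwz; linarith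
    rw [hval w hne, norm_div]
    have h1 := h.norm_GG hw
    have h2 := inv_conj_le hw hz
    have h3 : ‖NF F z w‖ ≤ (La C δ + A1 * L2) / (1 + ‖w‖) := by
      unfold NF
      refine (norm_sub_le _ _).trans ?_
      rw [norm_mul (GG F z * (z - (starRingEnd ℂ) z)), add_div, mul_div_assoc]
      apply add_le_add h1
      exact mul_le_mul_of_nonneg_left h2 hA10
    have h4 : 1 + ‖w‖ ≤ (2 + ‖z‖) * ‖w - z‖ := by
      have : ‖w‖ - ‖z‖ ≤ ‖w - z‖ := norm_sub_norm_le w z
      have := norm_nonneg z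
      nlinarith
    have h5 : ‖w - z‖⁻¹ ≤ (2 + ‖z‖) / (1 + ‖w‖) := by
      rw [le_div_iff₀ (by positivity), inv_mul_le_iff₀ (by linarith), mul_comm]
      exact h4
    calc ‖NF F z w‖ / ‖w - z‖ = ‖NF F z w‖ * ‖w - z‖⁻¹ := by rw [div_eq_mul_inv]
      _ ≤ (La C δ + A1 * L2) / (1 + ‖w‖) * ((2 + ‖z‖) / (1 + ‖w‖)) := by gcongr
      _ = (La C δ + A1 * L2) * (2 + ‖z‖) * ((1 + ‖w‖) ^ 2)⁻¹ := by field_simp
      _ ≤ _ := by
        gcongr
        exact one_add_sq_le w
  have hnear : ∀ w : ℂ, 0 ≤ w.im → ‖w - z‖ ≤ 1 → ‖dslope (NF F z) z w‖ ≤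
      B1 * (1 + (‖z‖ + 1) ^ 2) * (1 + ‖w‖ ^ 2)⁻¹ := by
    intro w hw hwz
    have h1 := hB1 w ⟨by rw [Metric.mem_closedBall, dist_eq_norm]; exact hwz, hw⟩
    have h2 : ‖w‖ ≤ ‖z‖ + 1 := by
      have : ‖w‖ - ‖z‖ ≤ ‖w - z‖ := norm_sub_norm_le w z
      linarith
    have h3 : 1 + ‖w‖ ^ 2 ≤ 1 + (‖z‖ + 1) ^ 2 := by
      have := norm_nonneg w
      nlinarith
    have h4 : 1 ≤ (1 + (‖z‖ + 1) ^ 2) * (1 + ‖w‖ ^ 2)⁻¹ := by
      rw [← div_eq_mul_inv, le_div_iff₀ (by positivity), one_mul]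
      exact h3
    calc ‖dslope (NF F z) z w‖ ≤ B1 * 1 := by rw [mul_one]; exact h1
      _ ≤ B1 * ((1 + (‖z‖ + 1) ^ 2) * (1 + ‖w‖ ^ 2)⁻¹) := by gcongr
      _ = _ := by ring
  have hfin := line_integral_zero hDc hDd
    (B := (La C δ + A1 * L2) * (2 + ‖z‖) + B1 * (1 + (‖z‖ + 1) ^ 2)) (by
      intro w hw
      rw [add_mul]
      rcases le_total 1 ‖w - z‖ with hwz | hwz
      · have := hfar w hw hwz
        have h2 : 0 ≤ B1 * (1 + (‖z‖ + 1) ^ 2) * (1 + ‖w‖ ^ 2)⁻¹ := by positivity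
        linarith
      · have := hnear w hw hwz
        have h2 : 0 ≤ (La C δ + A1 * L2) * (2 + ‖z‖) * (1 + ‖w‖ ^ 2)⁻¹ := by positivity
        linarith)
  have e : ∀ t : ℝ, dslope (NF F z) z t = NF F z t / ((t : ℂ) - z) := by
    intro t
    apply hval
    intro h0
    have : (t : ℂ).im = z.im := by rw [h0]
    rw [ofReal_im] at this
    linarith
  simp only [e] at hfin
  exact hfin

/-- **Cauchy transform of the density.** -/
theorem Good.cauchy (h : Good C δ F) {z : ℂ} (hz : 0 < z.im) :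
    ∫ t : ℝ, (dens F t : ℂ) * (z - t)⁻¹ = GG F z := by
  obtain ⟨i1, e1⟩ := h.I1 hz
  obtain ⟨i2, e2⟩ := h.I2 hz
  have hpi : (Real.pi : ℂ) ≠ 0 := by exact_mod_cast Real.pi_pos.ne'
  have hzc : z - (starRingEnd ℂ) z = 2 * z.im * I := by
    apply Complex.ext
    · simp
    · simp; ring
  have hne1 : ∀ t : ℝ, (t : ℂ) - z ≠ 0 := by
    intro t h0
    have : ((t : ℂ) - z).im = 0 := by rw [h0]; simp
    rw [sub_im, ofReal_im] at this
    linarith
  have hne2 : ∀ t : ℝ, (t : ℂ) - (starRingEnd ℂ) z ≠ 0 := fun t => conj_ne (by simp) hz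
  have hprod : ∀ t : ℝ, ((t : ℂ) - (starRingEnd ℂ) z) * ((t : ℂ) - z) =
      (((t - z.re) ^ 2 + z.im ^ 2 : ℝ) : ℂ) := by
    intro t
    have : (t : ℂ) - (starRingEnd ℂ) z = (starRingEnd ℂ) ((t : ℂ) - z) := by
      rw [map_sub, conj_ofReal]
    rw [this, mul_comm, mul_conj, normSq_apply, sub_re, sub_im, ofReal_re, ofReal_im]
    congr 1
    ring
  have key : ∀ t : ℝ, (dens F t : ℂ) * (z - t)⁻¹ = (2 * Real.pi * I)⁻¹ *
      (NF F z t / ((t : ℂ) - z) + GG F z * (2 * z.im * I) * (((t - z.re) ^ 2 + z.im ^ 2)⁻¹ : ℝ) -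
        (starRingEnd ℂ) (GG F t * ((t : ℂ) - (starRingEnd ℂ) z)⁻¹)) := by
    intro t
    have hconj : (starRingEnd ℂ) (GG F t * ((t : ℂ) - (starRingEnd ℂ) z)⁻¹) =
        (starRingEnd ℂ) (GG F t) * ((t : ℂ) - z)⁻¹ := by
      rw [map_mul, map_inv₀, map_sub, conj_ofReal, conj_conj]
    have hd : (dens F t : ℂ) = -(GG F t - (starRingEnd ℂ) (GG F t)) / (2 * I) / Real.pi := by
      have h2 : GG F t - (starRingEnd ℂ) (GG F t) = 2 * (GG F t).im * I := by
        apply Complex.ext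
        · simp
        · simp; ring
      rw [h2]
      unfold dens
      push_cast
      field_simp
    have hq : (((t - z.re) ^ 2 + z.im ^ 2)⁻¹ : ℝ) =
        (((t : ℂ) - (starRingEnd ℂ) z)⁻¹ * ((t : ℂ) - z)⁻¹ : ℂ) := by
      rw [← mul_inv, hprod t]
      push_cast
      rfl
    have hneg : (z - t)⁻¹ = -((t : ℂ) - z)⁻¹ := by
      rw [← neg_sub, inv_neg]
    rw [hconj, hd, hq, hneg]
    unfold NF
    rw [hzc]
    have a1 := hne1 t
    have a2 := hne2 t
    field_simp
    ring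
  simp only [key]
  have i3 : Integrable fun t : ℝ => GG F z * (2 * z.im * I) * (((t - z.re) ^ 2 + z.im ^ 2)⁻¹ : ℝ) := by
    apply Integrable.const_mul
    apply Integrable.ofReal
    have hP : Integrable fun s : ℝ => (1 + (z.im⁻¹ * s) ^ 2)⁻¹ :=
      integrable_inv_one_add_sq.comp_mul_left' (inv_ne_zero hz.ne')
    have hP2 := (hP.comp_sub_right z.re).const_mul ((z.im ^ 2)⁻¹)
    refine hP2.congr (Eventually.of_forall fun t => ?_)
    simp only
    rw [← mul_inv]
    congr 1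
    have := hz.ne'
    field_simp
    ring
  have i4 : Integrable fun t : ℝ => (starRingEnd ℂ) (GG F t * ((t : ℂ) - (starRingEnd ℂ) z)⁻¹) := by
    have := i1.norm
    refine this.mono' ?_ (Eventually.of_forall fun t => ?_)
    · exact (Complex.continuous_conj.comp_aestronglyMeasurable i1.aestronglyMeasurable)
    · rw [RCLike.norm_conj]
  have hI : ∫ t : ℝ, (NF F z t / ((t : ℂ) - z) +
      GG F z * (2 * z.im * I) * (((t - z.re) ^ 2 + z.im ^ 2)⁻¹ : ℝ) -
        (starRingEnd ℂ) (GG F t * ((t : ℂ) - (starRingEnd ℂ) z)⁻¹)) =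
      (∫ t : ℝ, NF F z t / ((t : ℂ) - z)) +
      (∫ t : ℝ, GG F z * (2 * z.im * I) * (((t - z.re) ^ 2 + z.im ^ 2)⁻¹ : ℝ)) -
      ∫ t : ℝ, (starRingEnd ℂ) (GG F t * ((t : ℂ) - (starRingEnd ℂ) z)⁻¹) := by
    have s1 := integral_add i2 i3
    have s2 := integral_sub (i2.add i3) i4
    simp only [Pi.add_apply] at s2
    rw [s2, ← s1]
  have hP : ∫ t : ℝ, ((((t - z.re) ^ 2 + z.im ^ 2)⁻¹ : ℝ) : ℂ) = ((Real.pi / z.im : ℝ) : ℂ) := by
    rw [← poisson z.re hz]
    exact integral_ofReal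
  rw [integral_const_mul, hI, e2, integral_conj, e1, integral_const_mul, hP]
  simp only [map_zero, sub_zero, zero_add]
  have hy : (z.im : ℂ) ≠ 0 := by exact_mod_cast hz.ne'
  push_cast
  field_simp

end good

end
end Pool.Agent.Lib_helper91.Tree
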