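import Pool.Agent.Lib_helper91.TreeI

set_option autoImplicit false

namespace Pool.Agent.Lib_helper91.Tree

noncomputable section
open MeasureTheory Filter Topology Complex Set

/-- the measure with the given `K`-function. -/
def mK (F : ℂ → ℂ) : Measure ℝ := volume.withDensity fun x => ENNReal.ofReal (dens F x)

section good
variable {C δ : ℝ} {F : ℂ → ℂ}

lemma Good.isProb (h : Good C δ F) : IsProbabilityMeasure (mK F) := by
  constructor
  unfold mK
  rw [withDensity_apply _ MeasurableSet.univ, Measure.restrict_univ,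
    ← ofReal_integral_eq_lintegral_ofReal h.dens_int (Eventually.of_forall h.dens_nonneg), h.mass,
    ENNReal.ofReal_one]

lemma Good.integral_mK {E : Type*} [NormedAddCommGroup E] [NormedSpace ℝ E] (h : Good C δ F)
    (g : ℝ → E) : ∫ x, g x ∂(mK F) = ∫ x, dens F x • g x := by
  unfold mK
  rw [integral_withDensity_eq_integral_toReal_smul]
  · apply integral_congr_ae
    filter_upwards with x
    rw [ENNReal.toReal_ofReal (h.dens_nonneg x)]
  · exact h.dens_cont.measurable.ennreal_ofReal
  · exact Eventually.of_forall fun x => ENNReal.ofReal_lt_top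

lemma Good.cauchy_mK (h : Good C δ F) {z : ℂ} (hz : 0 < z.im) :
    ∫ t : ℝ, (z - t)⁻¹ ∂(mK F) = (z - F z)⁻¹ := by
  rw [h.integral_mK]
  have := h.cauchy hz
  simp only [Complex.real_smul]
  exact this

/-- the probability measure with the given `K`-function. -/
def Good.pK (h : Good C δ F) : ProbabilityMeasure ℝ := ⟨mK F, h.isProb⟩

lemma Good.coe_pK (h : Good C δ F) : (h.pK : Measure ℝ) = mK F := rfl

/-- weak convergence from pointwise convergence of the `K`-functions on the real line. -/
theorem weak_conv {Fm : ℕ → ℂ → ℂ} (hm : ∀ m, Good C δ (Fm m)) (h : Good C δ F)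
    (hconv : ∀ x : ℝ, Tendsto (fun m => Fm m x) atTop (𝓝 (F x))) :
    Tendsto (fun m => (hm m).pK) atTop (𝓝 h.pK) := by
  rw [ProbabilityMeasure.tendsto_iff_forall_integral_tendsto]
  intro f
  simp only [Good.coe_pK]
  have e : ∀ m, ∫ x, f x ∂(mK (Fm m)) = ∫ x, dens (Fm m) x • f x := fun m => (hm m).integral_mK _
  simp only [h.integral_mK, e]
  apply tendsto_integral_of_dominated_convergence
    (fun x => C * La C δ ^ 2 * (1 + x ^ 2)⁻¹ * ‖f‖)
  · intro m
    exact ((hm m).dens_cont.smul f.continuous).aestronglyMeasurable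
  · exact (integrable_inv_one_add_sq.const_mul _).mul_const _
  · intro m
    filter_upwards with x
    rw [norm_smul, Real.norm_of_nonneg ((hm m).dens_nonneg x)]
    have h1 := (hm m).dens_le x
    have h2 := f.norm_coe_le_norm x
    have h3 := (hm m).dens_nonneg x
    exact mul_le_mul h1 h2 (norm_nonneg _) (h3.trans h1)
  · filter_upwards with x
    apply Tendsto.smul_const
    unfold dens GG
    apply Tendsto.div_const
    apply Tendsto.neg
    have hne := h.ne (z := x) (by simp)
    have h1 : Tendsto (fun m => ((x : ℂ) - Fm m x)⁻¹) atTop (𝓝 (((x : ℂ) - F x)⁻¹)) :=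
      (tendsto_const_nhds.sub (hconv x)).inv₀ hne
    exact (Complex.continuous_im.tendsto _).comp h1

end good

/-- weak convergence implies convergence of Cauchy transforms. -/
theorem cauchy_conv {σ : ℕ → ProbabilityMeasure ℝ} {ν : ProbabilityMeasure ℝ}
    (h : Tendsto σ atTop (𝓝 ν)) {z : ℂ} (hz : 0 < z.im) :
    Tendsto (fun m => ∫ t : ℝ, (z - t)⁻¹ ∂(σ m : Measure ℝ)) atTop
      (𝓝 (∫ t : ℝ, (z - t)⁻¹ ∂(ν : Measure ℝ))) := by
  have hne : ∀ t : ℝ, z - (t : ℂ) ≠ 0 := by
    intro t h0
    have : (z - (t : ℂ)).im = 0 := by rw [h0]; simp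
    rw [sub_im, ofReal_im] at this
    linarith
  have hcont : Continuous fun t : ℝ => (z - (t : ℂ))⁻¹ :=
    (continuous_const.sub Complex.continuous_ofReal).inv₀ hne
  have hbd : ∀ t : ℝ, ‖(z - (t : ℂ))⁻¹‖ ≤ z.im⁻¹ := by
    intro t
    rw [norm_inv]
    apply inv_anti₀ hz
    have := Complex.abs_im_le_norm (z - (t : ℂ))
    rw [sub_im, ofReal_im, sub_zero] at this
    exact (le_abs_self _).trans this
  rw [ProbabilityMeasure.tendsto_iff_forall_integral_rclike_tendsto ℂ] at h
  exact h (BoundedContinuousFunction.ofNormedAddCommGroup (fun t : ℝ => (z - (t : ℂ))⁻¹) hcont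
    z.im⁻¹ hbd)

end
end Pool.Agent.Lib_helper91.Tree
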