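import Pool.Agent.Lib_helper91.TreeH
import Pool.Agent.Lib_helper91.TreeJ

set_option autoImplicit false

namespace Pool.Agent.Lib_helper91.Tree

noncomputable section
open MeasureTheory Filter Topology Finset

/-- data of level `l`. -/
structure LevelOK (l : ℕ) (G : PowerSeries ℂ) : Prop where
  zero : PowerSeries.coeff 0 G = 0
  bd : ∀ M, T nuC (wt l) M G ≤ 1 / 4

/-- the `K`-function of level `l`. -/
def KF (θ : ℝ) (G : PowerSeries ℂ) (z : ℂ) : ℂ :=
  Complex.I * θ * (-Ac + ev G (Complex.exp (Complex.I * z)))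

lemma LevelOK.Bd {l : ℕ} {G : PowerSeries ℂ} (h : LevelOK l G) : Bd G (1 / 4) :=
  Bd_of_T (one_le_wt l) h.bd

lemma LevelOK.step {l : ℕ} {G : PowerSeries ℂ} (h : LevelOK (l + 1) G) :
    LevelOK l (S (xc (l + 1)) (th (l + 1)) G) :=
  ⟨S_coeff_zero _ _ h.zero, fun M => (S_step M l G (h.bd M)).trans (h.bd M)⟩

lemma LevelOK.NN {l : ℕ} {G : PowerSeries ℂ} (h : LevelOK l G) : LevelOK 0 (NN l G) :=
  ⟨NN_coeff_zero l h.zero, fun M => (NN_bound M l G (h.bd M)).trans (h.bd M)⟩

lemma norm_exp_le {z : ℂ} (hz : 0 ≤ z.im) : ‖Complex.exp (Complex.I * z)‖ ≤ 1 := by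
  rw [Complex.norm_exp, Complex.mul_re, Complex.I_re, Complex.I_im, Real.exp_le_one_iff]
  linarith

lemma norm_exp_lt {z : ℂ} (hz : 0 < z.im) : ‖Complex.exp (Complex.I * z)‖ < 1 := by
  rw [Complex.norm_exp, Complex.mul_re, Complex.I_re, Complex.I_im, Real.exp_lt_one_iff]
  linarith

lemma ev_contOn {G : PowerSeries ℂ} {τ : ℝ} (h : Bd G τ) : ContinuousOn (ev G) {E | ‖E‖ ≤ 1} :=
  continuousOn_tsum (fun k => (continuous_const.mul (continuous_pow k)).continuousOn) h.summable
    (fun k _ hE => term_norm_le G hE k)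

lemma ev_diffOn {G : PowerSeries ℂ} {τ : ℝ} (h : Bd G τ) :
    DifferentiableOn ℂ (ev G) {E | ‖E‖ < 1} := by
  apply Complex.differentiableOn_tsum_of_summable_norm h.summable
  · intro k
    exact ((differentiable_const _).mul (differentiable_pow k)).differentiableOn
  · exact isOpen_lt continuous_norm continuous_const
  · intro k E hE
    exact term_norm_le G (le_of_lt hE) k

lemma KF_good {l : ℕ} {G : PowerSeries ℂ} (h : LevelOK l G) {θ : ℝ} (h0 : 0 < θ) (h1 : θ ≤ 1) :
    Good 15 (3 * θ) (KF θ G) := by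
  have hB := h.Bd
  refine ⟨by positivity, ?_, ?_, ?_, ?_⟩
  · apply ContinuousOn.mul continuousOn_const
    apply ContinuousOn.add continuousOn_const
    exact (ev_contOn hB).comp (by fun_prop) (fun z hz => norm_exp_le hz)
  · apply DifferentiableOn.mul (differentiableOn_const _)
    apply DifferentiableOn.add (differentiableOn_const _)
    exact (ev_diffOn hB).comp (by fun_prop) (fun z hz => norm_exp_lt hz)
  · intro z hz
    unfold KF
    have h2 := hB.norm_ev_le (norm_exp_le hz)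
    have h3 := norm_Ac
    rw [norm_mul, norm_mul, Complex.norm_I, one_mul, Complex.norm_real, Real.norm_of_nonneg h0.le]
    have h4 : ‖-Ac + ev G (Complex.exp (Complex.I * z))‖ ≤ 14 + 1 / 4 := by
      refine (norm_add_le _ _).trans ?_
      rw [norm_neg]; linarith
    have h5 := norm_nonneg (-Ac + ev G (Complex.exp (Complex.I * z)))
    nlinarith
  · intro z hz
    unfold KF
    have h2 := hB.norm_ev_le (norm_exp_le hz)
    have h3 := (le_abs_self _).trans ((Complex.abs_re_le_norm _).trans h2)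
    have e : (Complex.I * θ * (-Ac + ev G (Complex.exp (Complex.I * z)))).im =
        θ * (-Ac.re + (ev G (Complex.exp (Complex.I * z))).re) := by
      rw [mul_assoc, Complex.I_mul_im, Complex.re_ofReal_mul, Complex.add_re, Complex.neg_re]
    rw [e, Ac_re]
    have := log3_ge
    nlinarith

/-- the functional equation of one level. -/
lemma KF_step {l : ℕ} {G : PowerSeries ℂ} (h : LevelOK (l + 1) G) {z : ℂ} (hz : 0 ≤ z.im) :
    KF (th l) (S (xc (l + 1)) (th (l + 1)) G) z =
      KF (th (l + 1)) G z + 3 * KF (th (l + 1)) G (z - KF (th (l + 1)) G z) := by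
  have hth := th_pos (l + 1)
  have hx : ∀ m : ℕ, ‖xc (l + 1)‖ ^ m * Real.exp (m * th (l + 1) * (1 / 4)) ≤ 1 := by
    intro m
    have h1 := norm_xc_pow_le (l + 1) m
    have h2 : 0 ≤ (m : ℝ) * th (l + 1) := by positivity
    calc ‖xc (l + 1)‖ ^ m * Real.exp (m * th (l + 1) * (1 / 4)) ≤
        Real.exp (-(4 * (m * th (l + 1)))) * Real.exp (m * th (l + 1) * (1 / 4)) := by gcongr
      _ = Real.exp (-(4 * (m * th (l + 1))) + m * th (l + 1) * (1 / 4)) := by rw [Real.exp_add]
      _ ≤ 1 := by rw [Real.exp_le_one_iff]; linarith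
  have hev := ev_S hth.le h.Bd h.zero hx (norm_exp_le hz)
  have harg : Complex.exp (Complex.I * (z - KF (th (l + 1)) G z)) =
      xc (l + 1) * Complex.exp (Complex.I * z) *
        Complex.exp (th (l + 1) * ev G (Complex.exp (Complex.I * z))) := by
    unfold xc
    rw [← Complex.exp_add, ← Complex.exp_add]
    congr 1
    unfold KF
    linear_combination (-(th (l + 1) : ℂ) * (-Ac + ev G (Complex.exp (Complex.I * z)))) *
      Complex.I_mul_I
  have e0 : th l = 4 * th (l + 1) := by rw [th_succ]; ring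
  unfold KF at harg ⊢
  rw [harg, hev, e0]
  push_cast
  ring

/-- a uniform tail bound at level `0`. -/
lemma tail_bound {G : PowerSeries ℂ} (h : LevelOK 0 G) (M : ℕ) {E : ℂ} (hE : ‖E‖ ≤ 1) :
    ‖ev G E - ∑ k ∈ range M, PowerSeries.coeff k G * E ^ k‖ ≤ 1 / 4 / wt 0 M := by
  have hs := h.Bd.summable_term hE
  have h1 : ev G E - ∑ k ∈ range M, PowerSeries.coeff k G * E ^ k =
      ∑' k, PowerSeries.coeff (k + M) G * E ^ (k + M) := by
    unfold ev
    rw [← hs.of_norm.sum_add_tsum_nat_add M]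
    ring
  rw [h1]
  have hs' : Summable fun k => ‖PowerSeries.coeff (k + M) G * E ^ (k + M)‖ :=
    (summable_nat_add_iff M).2 hs
  refine (norm_tsum_le_tsum_norm hs').trans ?_
  apply Real.tsum_le_of_sum_range_le (fun _ => norm_nonneg _)
  intro n
  rw [le_div_iff₀ (wt_pos _ _), sum_mul]
  have h2 := h.bd (n + M)
  refine le_trans ?_ h2
  unfold T
  have h3 : ∑ i ∈ range n, ‖PowerSeries.coeff (i + M) G * E ^ (i + M)‖ * wt 0 M ≤
      ∑ i ∈ range n, wt 0 (M + i) * nuC.f (PowerSeries.coeff (M + i) G) := by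
    apply sum_le_sum
    intro i _
    rw [mul_comm, add_comm i M]
    exact mul_le_mul (wt_mono_le 0 (by omega)) (term_norm_le G hE _) (norm_nonneg _) (wt_pos _ _).le
  refine h3.trans ?_
  rw [add_assoc, add_comm n, add_assoc, sum_range_add]
  have h4 : 0 ≤ ∑ k ∈ range M, wt 0 k * nuC.f (PowerSeries.coeff k G) :=
    sum_nonneg fun k _ => mul_nonneg (wt_pos _ _).le (norm_nonneg _)
  have h5 : ∑ i ∈ range n, wt 0 (M + i) * nuC.f (PowerSeries.coeff (M + i) G) ≤
      ∑ i ∈ range (1 + n), wt 0 (M + i) * nuC.f (PowerSeries.coeff (M + i) G) := by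
    apply sum_le_sum_of_subset_of_nonneg
    · intro i hi; rw [mem_range] at hi ⊢; omega
    · intro i _ _; exact mul_nonneg (wt_pos _ _).le (norm_nonneg _)
  linarith

/-- pointwise convergence of coefficients implies uniform convergence on the closed disc. -/
lemma ev_conv {Gm : ℕ → PowerSeries ℂ} {H : PowerSeries ℂ} (hm : ∀ m, LevelOK 0 (Gm m))
    (hH : LevelOK 0 H)
    (hc : ∀ k, Tendsto (fun m => PowerSeries.coeff k (Gm m)) atTop (𝓝 (PowerSeries.coeff k H)))
    {E : ℂ} (hE : ‖E‖ ≤ 1) : Tendsto (fun m => ev (Gm m) E) atTop (𝓝 (ev H E)) := by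
  rw [Metric.tendsto_atTop]
  intro e he
  obtain ⟨M, hM⟩ : ∃ M : ℕ, 1 / 4 / wt 0 M < e / 4 := by
    obtain ⟨M, hM⟩ := exists_nat_gt (2 / e)
    refine ⟨M, ?_⟩
    have hw : (2 / e) * (3 / 4) ≤ wt 0 M := by
      unfold wt th
      rw [pow_zero]
      linarith
    have hpos : 0 < (2 / e) * (3 / 4) := by positivity
    rw [div_lt_iff₀ (wt_pos _ _)]
    have : e / 4 * (2 / e * (3 / 4)) ≤ e / 4 * wt 0 M := by gcongr
    have e2 : e / 4 * (2 / e * (3 / 4)) = 3 / 8 := by field_simp; norm_num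
    linarith
  have hfin : Tendsto (fun m => ∑ k ∈ range M, PowerSeries.coeff k (Gm m) * E ^ k) atTop
      (𝓝 (∑ k ∈ range M, PowerSeries.coeff k H * E ^ k)) :=
    tendsto_finsetSum _ fun k _ => (hc k).mul_const _
  obtain ⟨N, hN⟩ := (Metric.tendsto_atTop.1 hfin) (e / 4) (by positivity)
  refine ⟨N, fun n hn => ?_⟩
  have h1 := hN n hn
  have h2 := tail_bound (hm n) M hE
  have h3 := tail_bound hH M hE
  rw [dist_eq_norm] at h1 ⊢
  have e3 : ev (Gm n) E - ev H E = (ev (Gm n) E - ∑ k ∈ range M, PowerSeries.coeff k (Gm n) * E ^ k) +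
      (∑ k ∈ range M, PowerSeries.coeff k (Gm n) * E ^ k - ∑ k ∈ range M, PowerSeries.coeff k H * E ^ k) -
      (ev H E - ∑ k ∈ range M, PowerSeries.coeff k H * E ^ k) := by ring
  rw [e3]
  calc _ ≤ ‖(ev (Gm n) E - ∑ k ∈ range M, PowerSeries.coeff k (Gm n) * E ^ k) +
      (∑ k ∈ range M, PowerSeries.coeff k (Gm n) * E ^ k - ∑ k ∈ range M, PowerSeries.coeff k H * E ^ k)‖ +
      ‖ev H E - ∑ k ∈ range M, PowerSeries.coeff k H * E ^ k‖ := norm_sub_le _ _
    _ ≤ _ := add_le_add (norm_add_le _ _) le_rfl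
    _ < e := by linarith

/-- subsequence with convergent coefficients. -/
lemma exists_limit (Hm : ℕ → PowerSeries ℂ) (hm : ∀ m, LevelOK 0 (Hm m)) :
    ∃ (H : PowerSeries ℂ) (φ : ℕ → ℕ), LevelOK 0 H ∧ StrictMono φ ∧
      ∀ k, Tendsto (fun m => PowerSeries.coeff k (Hm (φ m))) atTop (𝓝 (PowerSeries.coeff k H)) := by
  have hcomp : IsCompact (Set.univ.pi fun _ : ℕ => Metric.closedBall (0 : ℂ) 1) :=
    isCompact_univ_pi fun _ => isCompact_closedBall 0 1
  have hmem : ∀ m, (fun k => PowerSeries.coeff k (Hm m)) ∈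
      (Set.univ.pi fun _ : ℕ => Metric.closedBall (0 : ℂ) 1) := by
    intro m k _
    rw [mem_closedBall_zero_iff]
    have h1 := (hm m).Bd (k + 1)
    rw [sum_range_succ] at h1
    have h2 : 0 ≤ ∑ i ∈ range k, ‖PowerSeries.coeff i (Hm m)‖ := sum_nonneg fun _ _ => norm_nonneg _
    linarith
  obtain ⟨a, _, φ, hφ, hconv⟩ := hcomp.tendsto_subseq hmem
  rw [tendsto_pi_nhds] at hconv
  refine ⟨PowerSeries.mk a, φ, ?_, hφ, fun k => ?_⟩
  · have hk : ∀ k, Tendsto (fun m => PowerSeries.coeff k (Hm (φ m))) atTop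
        (𝓝 (PowerSeries.coeff k (PowerSeries.mk a))) := by
      intro k
      rw [PowerSeries.coeff_mk]
      exact hconv k
    constructor
    · have h1 := hk 0
      have h2 : (fun m => PowerSeries.coeff 0 (Hm (φ m))) = fun _ => 0 := by
        funext m; exact (hm (φ m)).zero
      rw [h2] at h1
      exact tendsto_nhds_unique h1 tendsto_const_nhds |>.symm ▸ rfl
    · intro M
      have h1 : Tendsto (fun m => T nuC (wt 0) M (Hm (φ m))) atTop
          (𝓝 (T nuC (wt 0) M (PowerSeries.mk a))) := by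
        unfold T
        apply tendsto_finsetSum
        intro k _
        exact ((hk k).norm).const_mul _
      exact le_of_tendsto' h1 fun m => (hm (φ m)).bd M
  · rw [PowerSeries.coeff_mk]
    exact hconv k

end
end Pool.Agent.Lib_helper91.Tree
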