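import Pool.Agent.Lib_helper91.TreeK

set_option autoImplicit false

namespace Pool.Agent.Lib_helper91.Tree

noncomputable section
open MeasureTheory Filter Topology Finset

lemma T_rescale {s : ℂ} (hs : ‖s‖ = 1) (w : ℕ → ℝ) (M : ℕ) (G : PowerSeries ℂ) :
    T nuC w M (PowerSeries.rescale s G) = T nuC w M G := by
  unfold T
  apply sum_congr rfl
  intro k _
  rw [PowerSeries.coeff_rescale]
  simp only [nuC]
  rw [norm_mul, norm_pow, hs, one_pow, one_mul]

lemma LevelOK.rescale {l : ℕ} {G : PowerSeries ℂ} (h : LevelOK l G) {s : ℂ} (hs : ‖s‖ = 1) :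
    LevelOK l (PowerSeries.rescale s G) :=
  ⟨by rw [PowerSeries.coeff_rescale, h.zero, mul_zero], fun M => by rw [T_rescale hs]; exact h.bd M⟩

lemma ev_rescale (s : ℂ) (G : PowerSeries ℂ) (E : ℂ) :
    ev (PowerSeries.rescale s G) E = ev G (s * E) := by
  unfold ev
  apply tsum_congr
  intro k
  rw [PowerSeries.coeff_rescale, mul_pow]
  ring

lemma rescale_even {H : PowerSeries ℂ} (hH : ∀ k, Odd k → PowerSeries.coeff k H = 0) (m : ℕ) :
    PowerSeries.rescale ((-1 : ℂ) ^ m) H = H := by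
  ext k
  rw [PowerSeries.coeff_rescale]
  rcases Nat.even_or_odd k with hk | hk
  · rw [← pow_mul, mul_comm m k, pow_mul, hk.neg_one_pow, one_pow, one_mul]
  · rw [hH k hk, mul_zero]

/-- the odd part is visible at `E = 3/4`. -/
lemma odd_visible {l : ℕ} {G : PowerSeries ℂ} {ε : ℝ} (h : LevelOK l G)
    (h1 : PowerSeries.coeff 1 G = ε) (htl : ∀ M, T nuC (wt l) M (tl G) ≤ ε / 2) :
    ε / 2 ≤ (ev G ((3 / 4 : ℝ) : ℂ) - ev G (-((3 / 4 : ℝ) : ℂ))).re := by
  have hB : Bd (tl G) (ε / 2) := Bd_of_T (one_le_wt l) htl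
  have hE : ∀ E : ℂ, ‖E‖ ≤ 1 → ev G E = ε * E + ev (tl G) E := by
    intro E hE
    unfold ev
    have hs := (h.Bd.summable_term hE).of_norm
    have hs2 := (hB.summable_term hE).of_norm
    have e : ∀ k, PowerSeries.coeff k G * E ^ k =
        (if k = 1 then (ε : ℂ) * E else 0) + PowerSeries.coeff k (tl G) * E ^ k := by
      intro k
      rw [tl_coeff]
      rcases Nat.lt_or_ge k 2 with hk | hk
      · interval_cases k
        · simp [h.zero]
        · simp [h1]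
      · rw [if_neg (by omega), if_neg (by omega), zero_add]
    rw [tsum_congr e, Summable.tsum_add (hasSum_ite_eq 1 _).summable hs2, tsum_ite_eq]
  have n1 : ‖((3 / 4 : ℝ) : ℂ)‖ ≤ 1 := by
    rw [Complex.norm_real, Real.norm_eq_abs, abs_of_pos (by norm_num)]; norm_num
  have n2 : ‖-((3 / 4 : ℝ) : ℂ)‖ ≤ 1 := by rwa [norm_neg]
  rw [hE _ n1, hE _ n2]
  have b1 := hB.norm_ev_le n1
  have b2 := hB.norm_ev_le n2
  have c1 := (neg_abs_le _).trans' (neg_le_neg ((Complex.abs_re_le_norm _).trans b1))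
  have c2 := (le_abs_self _).trans ((Complex.abs_re_le_norm _).trans b2)
  have e1 : ((ε : ℂ) * ((3 / 4 : ℝ) : ℂ) + ev (tl G) ((3 / 4 : ℝ) : ℂ) -
      ((ε : ℂ) * -((3 / 4 : ℝ) : ℂ) + ev (tl G) (-((3 / 4 : ℝ) : ℂ)))).re =
      3 / 2 * ε + (ev (tl G) ((3 / 4 : ℝ) : ℂ)).re - (ev (tl G) (-((3 / 4 : ℝ) : ℂ))).re := by
    rw [Complex.sub_re, Complex.add_re, Complex.add_re, Complex.re_ofReal_mul,
      Complex.re_ofReal_mul, Complex.neg_re, Complex.ofReal_re]
    ring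
  rw [e1]
  linarith

/-- the point of the half plane with `e^{iz} = 3/4`. -/
def z1 : ℂ := Complex.I * (Real.log (4 / 3) : ℝ)

lemma z1_im : 0 < z1.im := by
  unfold z1
  rw [Complex.I_mul_im, Complex.ofReal_re]
  exact Real.log_pos (by norm_num)

lemma exp_z1 : Complex.exp (Complex.I * z1) = ((3 / 4 : ℝ) : ℂ) := by
  unfold z1
  rw [← mul_assoc, Complex.I_mul_I, neg_one_mul, ← Complex.ofReal_neg, ← Complex.ofReal_exp,
    Real.exp_neg, Real.exp_log (by norm_num)]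
  norm_num

lemma exp_z2 : Complex.exp (Complex.I * (z1 + Real.pi)) = -((3 / 4 : ℝ) : ℂ) := by
  rw [mul_add, Complex.exp_add, exp_z1, mul_comm Complex.I (Real.pi : ℂ), Complex.exp_pi_mul_I]
  ring

/-- all analytic facts together. -/
theorem main_data : ∃ (ε : ℝ) (k : ℕ → ℕ) (G : ℕ → PowerSeries ℂ) (H : PowerSeries ℂ), 0 < ε ∧
    Tendsto k atTop atTop ∧ (∀ m, LevelOK (k m) (G m)) ∧ LevelOK 0 H ∧
    (∀ j, Tendsto (fun m => PowerSeries.coeff j (NN (k m) (G m))) atTop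
      (𝓝 (PowerSeries.coeff j H))) ∧
    (∀ m, ε / 2 ≤ ((-1 : ℝ) ^ m *
      (ev (G m) ((3 / 4 : ℝ) : ℂ) - ev (G m) (-((3 / 4 : ℝ) : ℂ))).re)) := by
  obtain ⟨ε, hε, hε1, hG⟩ := exists_G
  choose G0 hG0 using fun l : ℕ => hG (l + 1) (by omega)
  have hOK : ∀ l, LevelOK (l + 1) (G0 l) := fun l => ⟨(hG0 l).1, (hG0 l).2.2.2.1⟩
  obtain ⟨H, φ, hH, hφ, hconv⟩ := exists_limit (fun l => NN (l + 1) (G0 l)) (fun l => (hOK l).NN)
  have hs : ∀ m : ℕ, ‖((-1 : ℂ) ^ m)‖ = 1 := by intro m; simp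
  refine ⟨ε, fun m => φ m + 1, fun m => PowerSeries.rescale ((-1 : ℂ) ^ m) (G0 (φ m)), H, hε, ?_,
    fun m => (hOK (φ m)).rescale (hs m), hH, ?_, ?_⟩
  · exact tendsto_atTop_mono (fun m => Nat.le_succ _) hφ.tendsto_atTop
  · intro j
    have e : (fun m => PowerSeries.coeff j (NN (φ m + 1)
        (PowerSeries.rescale ((-1 : ℂ) ^ m) (G0 (φ m))))) =
        fun m => PowerSeries.coeff j (NN (φ m + 1) (G0 (φ m))) := by
      funext m
      rw [NN_rescale, rescale_even (hG0 (φ m)).2.2.2.2]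
    simp only [e]
    exact hconv j
  · intro m
    have h1 := odd_visible (hOK (φ m)) (hG0 (φ m)).2.1 (hG0 (φ m)).2.2.1
    simp only [ev_rescale]
    rcases Nat.even_or_odd m with hm | hm
    · rw [hm.neg_one_pow, hm.neg_one_pow, one_mul, one_mul, one_mul]
      exact h1
    · rw [hm.neg_one_pow, hm.neg_one_pow, neg_one_mul, neg_one_mul, neg_one_mul, neg_neg]
      rw [← Complex.neg_re, neg_sub]
      exact h1

end
end Pool.Agent.Lib_helper91.Tree
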